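import Mathlib

set_option autoImplicit false

namespace Pool.Agent.Helper702

open Set Real

/-- a function with zero derivative on `[0,T]` is constant -/
theorem const_on {T : ℝ} {f : ℝ → ℝ} (h : ∀ t ∈ Icc (0 : ℝ) T, HasDerivWithinAt f 0 (Icc 0 T) t) :
    ∀ t ∈ Icc (0 : ℝ) T, f t = f 0 := by
  apply constant_of_has_deriv_right_zero
  · intro t ht
    exact (h t ht).continuousWithinAt
  · intro t ht
    apply (h t ⟨ht.1, ht.2.le⟩).mono_of_mem_nhdsWithin
    exact Icc_mem_nhdsGE_of_mem ht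

/-- linear homogeneous equation with a globally continuous coefficient -/
theorem lin_ode {T : ℝ} {f a : ℝ → ℝ} (ha : Continuous a)
    (h : ∀ t ∈ Icc (0 : ℝ) T, HasDerivWithinAt f (a t * f t) (Icc 0 T) t) :
    ∀ t ∈ Icc (0 : ℝ) T, f t = f 0 * Real.exp (∫ s in (0 : ℝ)..t, a s) := by
  have hI : ∀ t, HasDerivAt (fun t => ∫ s in (0 : ℝ)..t, a s) (a t) t := fun t =>
    (ha.integral_hasStrictDerivAt 0 t).hasDerivAt
  have h2 : ∀ t ∈ Icc (0 : ℝ) T, HasDerivWithinAt
      (fun t => f t * Real.exp (-∫ s in (0 : ℝ)..t, a s)) 0 (Icc 0 T) t := by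
    intro t ht
    refine ((h t ht).fun_mul ((hI t).fun_neg.exp.hasDerivWithinAt (s := Icc 0 T))).congr_deriv ?_
    ring
  intro t ht
  have h4 := const_on h2 t ht
  simp only [intervalIntegral.integral_same, neg_zero, Real.exp_zero, mul_one] at h4
  rw [← h4, mul_assoc, ← Real.exp_add]
  simp

/-- linear homogeneous equation with a coefficient continuous on the interval and zero initial value -/
theorem lin_ode_zero {T : ℝ} {f a : ℝ → ℝ} (ha : ContinuousOn a (Icc 0 T))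
    (h : ∀ t ∈ Icc (0 : ℝ) T, HasDerivWithinAt f (a t * f t) (Icc 0 T) t) (h0 : f 0 = 0) :
    ∀ t ∈ Icc (0 : ℝ) T, f t = 0 := by
  intro t ht
  have hT : (0 : ℝ) ≤ T := ht.1.trans ht.2
  set a' : ℝ → ℝ := Set.IccExtend hT (Icc (0:ℝ) T |>.domRestrict a) with ha'
  have hc : Continuous a' := by
    apply Continuous.Icc_extend'
    exact continuousOn_iff_continuous_domRestrict.1 ha
  have heq : ∀ s ∈ Icc (0 : ℝ) T, a' s = a s := by
    intro s hs
    rw [ha', Set.IccExtend_of_mem hT _ hs]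
    rfl
  have := lin_ode hc (f := f) (fun s hs => by rw [heq s hs]; exact h s hs) t ht
  rw [this, h0, zero_mul]

/-- rotation -/
theorem rotation {T z : ℝ} {u v : ℝ → ℝ}
    (hu : ∀ t ∈ Icc (0 : ℝ) T, HasDerivWithinAt u (-(z * v t)) (Icc 0 T) t)
    (hv : ∀ t ∈ Icc (0 : ℝ) T, HasDerivWithinAt v (z * u t) (Icc 0 T) t) :
    ∀ t ∈ Icc (0 : ℝ) T, u t = u 0 * cos (z * t) - v 0 * sin (z * t) ∧
      v t = u 0 * sin (z * t) + v 0 * cos (z * t) := by
  have hcos : ∀ t, HasDerivWithinAt (fun t => cos (z * t)) (-(z * sin (z * t))) (Icc 0 T) t := by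
    intro t
    have : HasDerivAt (fun t => z * t) z t := by simpa using (hasDerivAt_id t).const_mul z
    refine this.cos.hasDerivWithinAt.congr_deriv ?_
    ring
  have hsin : ∀ t, HasDerivWithinAt (fun t => sin (z * t)) (z * cos (z * t)) (Icc 0 T) t := by
    intro t
    have : HasDerivAt (fun t => z * t) z t := by simpa using (hasDerivAt_id t).const_mul z
    refine this.sin.hasDerivWithinAt.congr_deriv ?_
    ring
  have hp : ∀ t ∈ Icc (0 : ℝ) T, HasDerivWithinAt
      (fun t => u t * cos (z * t) + v t * sin (z * t)) 0 (Icc 0 T) t := by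
    intro t ht
    refine (((hu t ht).fun_mul (hcos t)).fun_add ((hv t ht).fun_mul (hsin t))).congr_deriv ?_
    ring
  have hq : ∀ t ∈ Icc (0 : ℝ) T, HasDerivWithinAt
      (fun t => v t * cos (z * t) - u t * sin (z * t)) 0 (Icc 0 T) t := by
    intro t ht
    refine (((hv t ht).fun_mul (hcos t)).fun_sub ((hu t ht).fun_mul (hsin t))).congr_deriv ?_
    ring
  intro t ht
  have h1 := const_on hp t ht
  have h2 := const_on hq t ht
  simp only [mul_zero, cos_zero, sin_zero, mul_one, add_zero, sub_zero] at h1 h2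
  have h3 := sin_sq_add_cos_sq (z * t)
  rw [← h1, ← h2]
  constructor
  · linear_combination (-(u t)) * h3
  · linear_combination (-(v t)) * h3

/-- the pulse equation: `A' = -κ U B²`, `B' = κ U A B`, with `E' = U`, `E 0 = 0`. -/
theorem pulse {T κ ρ : ℝ} {A B U E : ℝ → ℝ} (hρ : ρ ^ 2 = A 0 ^ 2 + B 0 ^ 2)
    (hA : ∀ t ∈ Icc (0 : ℝ) T, HasDerivWithinAt A (-(κ * U t * B t ^ 2)) (Icc 0 T) t)
    (hB : ∀ t ∈ Icc (0 : ℝ) T, HasDerivWithinAt B (κ * U t * A t * B t) (Icc 0 T) t)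
    (hE : ∀ t ∈ Icc (0 : ℝ) T, HasDerivWithinAt E (U t) (Icc 0 T) t) (hE0 : E 0 = 0)
    (hU : ContinuousOn U (Icc 0 T)) :
    (∀ t ∈ Icc (0 : ℝ) T, A t ^ 2 + B t ^ 2 = ρ ^ 2) ∧
    (∀ t ∈ Icc (0 : ℝ) T, B t * (ρ * cosh (κ * ρ * E t) - A 0 * sinh (κ * ρ * E t)) = ρ * B 0) := by
  have hcons : ∀ t ∈ Icc (0 : ℝ) T, A t ^ 2 + B t ^ 2 = ρ ^ 2 := by
    have : ∀ t ∈ Icc (0 : ℝ) T, HasDerivWithinAt (fun t => A t ^ 2 + B t ^ 2) 0 (Icc 0 T) t := by
      intro t ht
      refine (((hA t ht).fun_pow 2).fun_add ((hB t ht).fun_pow 2)).congr_deriv ?_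
      simp; ring
    intro t ht
    rw [const_on this t ht, hρ]
  refine ⟨hcons, ?_⟩
  have hcosh : ∀ t ∈ Icc (0 : ℝ) T, HasDerivWithinAt (fun t => cosh (κ * ρ * E t))
      (κ * ρ * U t * sinh (κ * ρ * E t)) (Icc 0 T) t := by
    intro t ht
    refine ((hE t ht).const_mul (κ * ρ)).cosh.congr_deriv ?_
    ring
  have hsinh : ∀ t ∈ Icc (0 : ℝ) T, HasDerivWithinAt (fun t => sinh (κ * ρ * E t))
      (κ * ρ * U t * cosh (κ * ρ * E t)) (Icc 0 T) t := by
    intro t ht
    refine ((hE t ht).const_mul (κ * ρ)).sinh.congr_deriv ?_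
    ring
  set D : ℝ → ℝ := fun t => ρ * cosh (κ * ρ * E t) - A 0 * sinh (κ * ρ * E t) with hDdef
  set N : ℝ → ℝ := fun t => A 0 * cosh (κ * ρ * E t) - ρ * sinh (κ * ρ * E t) with hNdef
  have hD : ∀ t ∈ Icc (0 : ℝ) T, HasDerivWithinAt D (-(κ * ρ * U t * N t)) (Icc 0 T) t := by
    intro t ht
    refine (((hcosh t ht).const_mul ρ).fun_sub ((hsinh t ht).const_mul (A 0))).congr_deriv ?_
    simp only [hNdef]; ring
  have hN : ∀ t ∈ Icc (0 : ℝ) T, HasDerivWithinAt N (-(κ * ρ * U t * D t)) (Icc 0 T) t := by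
    intro t ht
    refine (((hcosh t ht).const_mul (A 0)).fun_sub ((hsinh t ht).const_mul ρ)).congr_deriv ?_
    simp only [hDdef]; ring
  have hR : ∀ t ∈ Icc (0 : ℝ) T, (fun t => A t * D t - ρ * N t) t = 0 := by
    apply lin_ode_zero (a := fun t => κ * U t * A t)
    · apply ContinuousOn.mul (continuousOn_const.mul hU)
      intro t ht
      exact (hA t ht).continuousWithinAt
    · intro t ht
      refine (((hA t ht).fun_mul (hD t ht)).fun_sub ((hN t ht).const_mul ρ)).congr_deriv ?_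
      have hc := hcons t ht
      linear_combination (-(κ * U t * D t)) * hc
    · simp only [hDdef, hNdef, hE0]; simp; ring
  have hQ : ∀ t ∈ Icc (0 : ℝ) T, HasDerivWithinAt (fun t => B t * D t) 0 (Icc 0 T) t := by
    intro t ht
    refine ((hB t ht).fun_mul (hD t ht)).congr_deriv ?_
    have hr := hR t ht
    simp only at hr
    linear_combination (κ * U t * B t) * hr
  intro t ht
  have h5 := const_on hQ t ht
  have h6 : D 0 = ρ := by simp only [hDdef]; rw [hE0]; simp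
  calc B t * D t = B 0 * D 0 := h5
    _ = ρ * B 0 := by rw [h6]; ring

end Pool.Agent.Helper702
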