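import Mathlib
import Pool.Agent.Helper702.OdeA

set_option autoImplicit false

namespace Pool.Agent.Helper702

open Set Real

theorem osc_bound {W : ℝ → ℝ} {T y : ℝ} (hT : 0 < T) (hW : Continuous W)
    (hper : ∀ t, W (t + T) = W t) (hpos : ∀ t, 0 ≤ W t)
    (hω : Complex.exp (Complex.I * y * T) ≠ 1) (t : ℝ) :
    ‖∫ s in (0 : ℝ)..t, (W s : ℂ) * Complex.exp (Complex.I * y * s)‖ ≤
      (∫ s in (0 : ℝ)..T, W s) * (1 + 2 / ‖1 - Complex.exp (Complex.I * y * T)‖) := by
  set ω := Complex.exp (Complex.I * y * T) with hωdef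
  set F : ℝ → ℂ := fun s => (W s : ℂ) * Complex.exp (Complex.I * y * s) with hF
  have hFc : Continuous F := by
    apply Continuous.mul
    · exact Complex.continuous_ofReal.comp hW
    · exact Complex.continuous_exp.comp (by fun_prop)
  set G : ℝ → ℂ := fun t => ∫ s in (0 : ℝ)..t, F s with hG
  set b0 := ∫ s in (0 : ℝ)..T, W s with hb0
  have hGstep : ∀ t, G (t + T) = G T + ω * G t := by
    intro t
    have h1 : G (t + T) = G T + ∫ s in T..(t + T), F s := by
      simp only [hG]
      rw [intervalIntegral.integral_add_adjacent_intervals (hFc.intervalIntegrable _ _)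
        (hFc.intervalIntegrable _ _)]
    have h2 : ∫ s in T..(t + T), F s = ∫ s in (0 : ℝ)..t, F (s + T) := by
      rw [intervalIntegral.integral_comp_add_right (fun s => F s) T, zero_add]
    have h3 : ∫ s in (0 : ℝ)..t, F (s + T) = ω * ∫ s in (0 : ℝ)..t, F s := by
      rw [← intervalIntegral.integral_const_mul]
      apply intervalIntegral.integral_congr
      intro s _
      simp only [hF, hωdef]
      rw [hper s]
      have : Complex.exp (Complex.I * y * ((s + T : ℝ) : ℂ)) =
          Complex.exp (Complex.I * y * T) * Complex.exp (Complex.I * y * s) := by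
        rw [← Complex.exp_add]; congr 1; push_cast; ring
      rw [this]; ring
    rw [h1, h2, h3]
  have h1ω : (1 - ω) ≠ 0 := by
    intro h; apply hω; exact (sub_eq_zero.1 h).symm
  have hωnorm : ‖ω‖ = 1 := by
    rw [hωdef, Complex.norm_exp]
    simp
  set H : ℝ → ℂ := fun t => G t - G T / (1 - ω) with hH
  have hHper : Function.Periodic (fun t => ‖H t‖) T := by
    intro t
    have : H (t + T) = ω * H t := by
      simp only [hH, hGstep]
      field_simp
      ring
    simp only [this, norm_mul, hωnorm, one_mul]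
  have hb0' : ∀ r ∈ Icc 0 T, ‖G r‖ ≤ b0 := by
    intro r hr
    calc ‖G r‖ ≤ ∫ s in (0 : ℝ)..r, ‖F s‖ := intervalIntegral.norm_integral_le_integral_norm hr.1
      _ = ∫ s in (0 : ℝ)..r, W s := by
        apply intervalIntegral.integral_congr
        intro s _
        simp only [hF]
        rw [norm_mul, Complex.norm_exp]
        simp [abs_of_nonneg (hpos s)]
      _ ≤ b0 := by
        apply intervalIntegral.integral_mono_interval le_rfl hr.1 hr.2
        · exact Filter.Eventually.of_forall hpos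
        · exact hW.intervalIntegrable _ _
  obtain ⟨r, hr, hrt⟩ := hHper.exists_mem_Ico₀ hT t
  have hb0n : 0 ≤ b0 := intervalIntegral.integral_nonneg hT.le (fun s _ => hpos s)
  have hGT : ‖G T / (1 - ω)‖ ≤ b0 / ‖1 - ω‖ := by
    rw [norm_div]
    gcongr
    exact hb0' T ⟨hT.le, le_rfl⟩
  have h5 : ‖G t‖ ≤ ‖H t‖ + ‖G T / (1 - ω)‖ := by
    have : G t = H t + G T / (1 - ω) := by simp [hH]
    rw [this]; exact norm_add_le _ _
  have h6 : ‖H r‖ ≤ ‖G r‖ + ‖G T / (1 - ω)‖ := norm_sub_le _ _
  have h7 := hb0' r ⟨hr.1, hr.2.le⟩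
  have hrt' : ‖H t‖ = ‖H r‖ := hrt
  calc ‖G t‖ ≤ ‖H t‖ + ‖G T / (1 - ω)‖ := h5
    _ = ‖H r‖ + ‖G T / (1 - ω)‖ := by rw [hrt']
    _ ≤ (b0 + b0 / ‖1 - ω‖) + b0 / ‖1 - ω‖ := by linarith
    _ = b0 * (1 + 2 / ‖1 - ω‖) := by ring

theorem osc_bound_real {W : ℝ → ℝ} {T y : ℝ} (hT : 0 < T) (hW : Continuous W)
    (hper : ∀ t, W (t + T) = W t) (hpos : ∀ t, 0 ≤ W t)
    (hω : Complex.exp (Complex.I * y * T) ≠ 1) (c d t : ℝ) :
    |∫ s in (0 : ℝ)..t, W s * (c * cos (y * s) - d * sin (y * s))| ≤
      (|c| + |d|) * ((∫ s in (0 : ℝ)..T, W s) * (1 + 2 / ‖1 - Complex.exp (Complex.I * y * T)‖)) := by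
  have hFc : Continuous (fun s : ℝ => (W s : ℂ) * Complex.exp (Complex.I * y * s)) := by
    apply Continuous.mul
    · exact Complex.continuous_ofReal.comp hW
    · exact Complex.continuous_exp.comp (by fun_prop)
  have h1 : (∫ s in (0 : ℝ)..t, W s * (c * cos (y * s) - d * sin (y * s))) =
      (((c : ℂ) + d * Complex.I) * ∫ s in (0 : ℝ)..t, (W s : ℂ) * Complex.exp (Complex.I * y * s)).re := by
    rw [← intervalIntegral.integral_const_mul]
    have h2 := Complex.reCLM.intervalIntegral_comp_comm (μ := MeasureTheory.volume)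
      (f := fun s : ℝ => ((c : ℂ) + d * Complex.I) * ((W s : ℂ) * Complex.exp (Complex.I * y * s)))
      (a := 0) (b := t) ((continuous_const.mul hFc).intervalIntegrable _ _)
    simp only [Complex.reCLM_apply] at h2
    rw [← h2]
    apply intervalIntegral.integral_congr
    intro s _
    simp only
    have : Complex.exp (Complex.I * y * s) = Complex.cos (y * s) + Complex.sin (y * s) * Complex.I := by
      rw [← Complex.exp_mul_I]; congr 1; ring
    rw [this]
    have h3 : Complex.cos (y * s) = ((cos (y * s) : ℝ) : ℂ) := by push_cast; rfl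
    have h4 : Complex.sin (y * s) = ((sin (y * s) : ℝ) : ℂ) := by push_cast; rfl
    rw [h3, h4]
    generalize cos (y * s) = C
    generalize sin (y * s) = S
    simp
    ring
  rw [h1]
  refine (Complex.abs_re_le_norm _).trans ?_
  rw [norm_mul]
  gcongr
  · refine (norm_add_le _ _).trans ?_
    simp
  · exact osc_bound hT hW hper hpos hω t

theorem norm_one_sub_exp {x : ℝ} {n : ℤ} (h : |x - n| ≤ 1 / 2) :
    4 * |x - n| ≤ ‖1 - Complex.exp (Complex.I * (2 * π * x : ℝ))‖ := by
  rw [norm_sub_rev, Complex.norm_exp_I_mul_ofReal_sub_one]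
  have h1 : (2 * π * x) / 2 = π * (x - n) + n * π := by ring
  rw [h1, Real.sin_add_int_mul_pi]
  have h2 : 2 * |x - n| ≤ |sin (π * (x - n))| := by
    rcases le_or_gt 0 (x - n) with h3 | h3
    · have h4 := Real.mul_le_sin (x := π * (x - n)) (by positivity) (by
        rw [abs_of_nonneg h3] at h
        nlinarith [Real.pi_pos])
      rw [abs_of_nonneg h3]
      refine le_trans ?_ (le_abs_self _)
      refine le_trans (le_of_eq ?_) h4
      field_simp
    · have h4 := Real.mul_le_sin (x := π * (-(x - n))) (by nlinarith [Real.pi_pos]) (by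
        rw [abs_of_neg h3] at h
        nlinarith [Real.pi_pos])
      rw [abs_of_neg h3]
      rw [← abs_neg (sin (π * (x - n))), ← Real.sin_neg]
      refine le_trans ?_ (le_abs_self _)
      refine le_trans (le_of_eq ?_) (h4.trans (le_of_eq (by ring_nf)))
      field_simp
  rw [Real.norm_eq_abs, abs_mul, abs_mul, abs_zpow]
  simp
  linarith

end Pool.Agent.Helper702
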