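import Mathlib
import Pool.Agent.Helper702.OdeB

set_option autoImplicit false

namespace Pool.Agent.Helper702

open Set Real

/-- the driving function `8 h Σ c_i - 8 Σ ρ_i² - (2k-1) h²` -/
theorem g_le {ι : Type} [Fintype ι] [DecidableEq ι] (h : ℝ) (C r : ι → ℝ) (hr : ∀ i, C i ^ 2 ≤ r i) (j : ι) :
    8 * h * ∑ i, C i - 8 * ∑ i, r i - (2 * (Fintype.card ι : ℝ) - 1) * h ^ 2 ≤ 8 * h * C j := by
  have h1 : ∑ i, C i = C j + ∑ i ∈ Finset.univ.erase j, C i := by
    rw [Finset.add_sum_erase _ _ (Finset.mem_univ j)]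
  have h2 : ∑ i, r i = r j + ∑ i ∈ Finset.univ.erase j, r i := by
    rw [Finset.add_sum_erase _ _ (Finset.mem_univ j)]
  have h3 : ∑ i ∈ Finset.univ.erase j, (8 * h * C i - 8 * r i) ≤ ∑ i ∈ Finset.univ.erase j, 2 * h ^ 2 := by
    apply Finset.sum_le_sum
    intro i _
    nlinarith [hr i, sq_nonneg (2 * C i - h)]
  rw [Finset.sum_const, Finset.card_erase_of_mem (Finset.mem_univ j), Finset.card_univ,
    Finset.sum_sub_distrib, ← Finset.mul_sum, ← Finset.mul_sum] at h3
  have hcard : 1 ≤ Fintype.card ι := Fintype.card_pos_iff.2 ⟨j⟩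
  rw [nsmul_eq_mul, Nat.cast_sub hcard] at h3
  rw [h1, h2]
  have hrj : 0 ≤ r j := le_trans (sq_nonneg _) (hr j)
  push_cast at h3
  nlinarith [sq_nonneg h]

theorem g_le' {ι : Type} [Fintype ι] (h : ℝ) (C r : ι → ℝ) (hr : ∀ i, C i ^ 2 ≤ r i) :
    8 * h * ∑ i, C i - 8 * ∑ i, r i - (2 * (Fintype.card ι : ℝ) - 1) * h ^ 2 ≤ h ^ 2 := by
  have h3 : ∑ i, (8 * h * C i - 8 * r i) ≤ ∑ _i : ι, 2 * h ^ 2 := by
    apply Finset.sum_le_sum
    intro i _
    nlinarith [hr i, sq_nonneg (2 * C i - h)]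
  rw [Finset.sum_const, Finset.card_univ,
    Finset.sum_sub_distrib, ← Finset.mul_sum, ← Finset.mul_sum, nsmul_eq_mul] at h3
  linarith

theorem growth_bound {ι : Type} [Fintype ι] (p : (ι → ℝ) → ℝ) (hp0 : ∀ x, 0 ≤ p x)
    (Cp : ℝ) (hCp : 0 < Cp) (D N : ℕ)
    (hLip : ∀ (x : ι → ℝ) (n : ι → ℤ), (∀ i, |x i - n i| ≤ 1 / 2) →
      |p x - p (fun i => (n i : ℝ))| ≤ Cp * (1 + ‖x‖) ^ D * ‖x - fun i => (n i : ℝ)‖)
    (hint : ∀ n : ι → ℤ, 1 ≤ p (fun i => (n i : ℝ)))
    (hN : D + 1 ≤ 2 * N)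
    (z h : ℝ) (y : ι → ℝ) (c0 s0 : ι → ℝ) (hz0 : z ≠ 0) (hz : |z| ≤ 1) (hh : |h| ≤ 1)
    (hy : ∀ i, |y i| ≤ 1) (hc0 : ∀ i, |c0 i| ≤ 1) (hs0 : ∀ i, |s0 i| ≤ 1)
    (W : ℝ → ℝ) (hWc : Continuous W) (hW0 : ∀ t, 0 ≤ W t) (hW2 : ∀ t, W t ≤ 2)
    (hWp : ∀ t, W (t + 2 * π / |z|) = W t) (t : ℝ) (ht : 0 ≤ t) :
    ∫ s in (0 : ℝ)..t, (z ^ (2 * N) * W s * (8 * h * ∑ i, (c0 i * cos (y i * s) - s0 i * sin (y i * s))
      - 8 * ∑ i, (c0 i ^ 2 + s0 i ^ 2) - (2 * (Fintype.card ι : ℝ) - 1) * h ^ 2)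
      - 4 * (z ^ (2 * N) * p (fun i => y i / z))) ≤ 64 * π * (1 + Cp * 2 ^ D) := by
  classical
  have hzpos : 0 < |z| := abs_pos.2 hz0
  have hz2N : (0 : ℝ) ≤ z ^ (2 * N) := (even_two_mul N).pow_nonneg z
  have hCr : ∀ i s, (c0 i * cos (y i * s) - s0 i * sin (y i * s)) ^ 2 ≤ c0 i ^ 2 + s0 i ^ 2 := by
    intro i s
    have h1 := sin_sq_add_cos_sq (y i * s)
    have : c0 i ^ 2 + s0 i ^ 2 - (c0 i * cos (y i * s) - s0 i * sin (y i * s)) ^ 2
      = (c0 i * sin (y i * s) + s0 i * cos (y i * s)) ^ 2 := by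
      linear_combination (-(c0 i ^ 2 + s0 i ^ 2)) * h1
    nlinarith [sq_nonneg (c0 i * sin (y i * s) + s0 i * cos (y i * s))]
  set g : ℝ → ℝ := fun s => 8 * h * ∑ i, (c0 i * cos (y i * s) - s0 i * sin (y i * s))
      - 8 * ∑ i, (c0 i ^ 2 + s0 i ^ 2) - (2 * (Fintype.card ι : ℝ) - 1) * h ^ 2 with hg
  have hgc : Continuous g := by
    simp only [hg]; fun_prop
  have hcont : Continuous (fun s => z ^ (2 * N) * W s * g s - 4 * (z ^ (2 * N) * p (fun i => y i / z))) := by
    fun_prop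
  have hM : (0 : ℝ) ≤ 64 * π * (1 + Cp * 2 ^ D) := by positivity
  rcases le_or_gt (1 / 2) (p (fun i => y i / z)) with hp | hp
  · -- damping dominates
    refine le_trans ?_ hM
    have : ∫ s in (0 : ℝ)..t, (z ^ (2 * N) * W s * g s - 4 * (z ^ (2 * N) * p (fun i => y i / z))) ≤
        ∫ s in (0 : ℝ)..t, (0 : ℝ) := by
      apply intervalIntegral.integral_mono_on ht (hcont.intervalIntegrable _ _)
        (continuous_const.intervalIntegrable _ _)
      intro s _
      have h1 : g s ≤ h ^ 2 := g_le' h _ _ (fun i => hCr i s)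
      have h2 : h ^ 2 ≤ 1 := by rw [← sq_abs]; nlinarith [abs_nonneg h]
      have h3 : W s * g s ≤ 2 := by
        nlinarith [hW0 s, hW2 s]
      have h4 : z ^ (2 * N) * W s * g s = z ^ (2 * N) * (W s * g s) := by ring
      rw [h4]
      nlinarith [mul_le_mul_of_nonneg_left h3 hz2N, mul_le_mul_of_nonneg_left hp hz2N]
    exact this.trans (le_of_eq (by simp))
  · -- near resonance
    set x : ι → ℝ := fun i => y i / z with hx
    have hxn : ∀ i, |x i - round (x i)| ≤ 1 / 2 := fun i => abs_sub_round (x i)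
    have hL := hLip x (fun i => round (x i)) hxn
    have hI := hint (fun i => round (x i))
    set δ := 1 / (2 * (Cp * (1 + ‖x‖) ^ D)) with hδ
    have hpos1 : 0 < Cp * (1 + ‖x‖) ^ D := by positivity
    have hδpos : 0 < δ := by positivity
    obtain ⟨j, hj⟩ : ∃ j, δ ≤ |x j - round (x j)| := by
      by_contra hcon
      push Not at hcon
      have h1 : ‖x - fun i => ((round (x i) : ℤ) : ℝ)‖ < δ := by
        rw [pi_norm_lt_iff hδpos]
        intro i
        simpa using hcon i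
      have h2 : Cp * (1 + ‖x‖) ^ D * ‖x - fun i => ((round (x i) : ℤ) : ℝ)‖ < 1 / 2 := by
        calc _ < Cp * (1 + ‖x‖) ^ D * δ := by gcongr
          _ = 1 / 2 := by rw [hδ]; field_simp
      have h3 := (abs_le.1 hL).1
      linarith
    -- oscillation estimate
    set T := 2 * π / |z| with hT
    have hTpos : 0 < T := by positivity
    have hω : 4 * δ ≤ ‖1 - Complex.exp (Complex.I * y j * T)‖ := by
      have h1 : Complex.I * (y j : ℂ) * (T : ℂ) = Complex.I * ((2 * π * (y j / |z|) : ℝ) : ℂ) := by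
        rw [hT]; push_cast; ring
      rw [h1]
      rcases lt_or_gt_of_ne hz0 with hneg | hpos
      · have h2 : y j / |z| - ((-round (x j) : ℤ) : ℝ) = -(x j - round (x j)) := by
          rw [abs_of_neg hneg]; simp only [hx]; push_cast; field_simp; ring
        have h3 : |y j / |z| - ((-round (x j) : ℤ) : ℝ)| = |x j - round (x j)| := by
          rw [h2, abs_neg]
        have h4 := norm_one_sub_exp (x := y j / |z|) (n := -round (x j)) (by rw [h3]; exact hxn j)
        rw [h3] at h4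
        linarith
      · have h2 : y j / |z| = x j := by rw [abs_of_pos hpos]
        rw [h2]
        have h4 := norm_one_sub_exp (x := x j) (n := round (x j)) (hxn j)
        linarith
    have hωne : Complex.exp (Complex.I * y j * T) ≠ 1 := by
      intro h0
      rw [h0] at hω
      simp at hω
      linarith
    have hosc := osc_bound_real hTpos hWc hWp hW0 hωne (c0 j) (s0 j) t
    have hb0 : ∫ s in (0 : ℝ)..T, W s ≤ 4 * π / |z| := by
      calc ∫ s in (0 : ℝ)..T, W s ≤ ∫ s in (0 : ℝ)..T, (2 : ℝ) := by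
            apply intervalIntegral.integral_mono_on hTpos.le (hWc.intervalIntegrable _ _)
              (continuous_const.intervalIntegrable _ _)
            intro s _; exact hW2 s
        _ = 4 * π / |z| := by simp [hT]; ring
    have hb00 : 0 ≤ ∫ s in (0 : ℝ)..T, W s := intervalIntegral.integral_nonneg hTpos.le (fun s _ => hW0 s)
    have hxnorm : ‖x‖ ≤ 1 / |z| := by
      rw [pi_norm_le_iff_of_nonneg (by positivity)]
      intro i
      simp only [hx, norm_div, Real.norm_eq_abs]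
      gcongr
      exact hy i
    have h1z : 1 ≤ 1 / |z| := by rw [le_div_iff₀ hzpos]; simpa using hz
    have hinv : 2 / ‖1 - Complex.exp (Complex.I * y j * T)‖ ≤ Cp * 2 ^ D / |z| ^ D := by
      calc 2 / ‖1 - Complex.exp (Complex.I * y j * T)‖ ≤ 2 / (4 * δ) := by gcongr
        _ = Cp * (1 + ‖x‖) ^ D := by rw [hδ]; field_simp; norm_num
        _ ≤ Cp * (1 / |z| + 1 / |z|) ^ D := by gcongr
        _ = Cp * 2 ^ D / |z| ^ D := by
          rw [show 1 / |z| + 1 / |z| = 2 / |z| by ring, div_pow]; ring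
    have hmain : ∫ s in (0 : ℝ)..t, (z ^ (2 * N) * W s * g s - 4 * (z ^ (2 * N) * p x)) ≤
        ∫ s in (0 : ℝ)..t, (8 * h * z ^ (2 * N)) * (W s * (c0 j * cos (y j * s) - s0 j * sin (y j * s))) := by
      apply intervalIntegral.integral_mono_on ht (hcont.intervalIntegrable _ _)
      · apply Continuous.intervalIntegrable
        fun_prop
      · intro s _
        have h1 : g s ≤ 8 * h * (c0 j * cos (y j * s) - s0 j * sin (y j * s)) :=
          g_le h _ _ (fun i => hCr i s) j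
        have hzp0 : 0 ≤ z ^ (2 * N) * p x := by
          exact mul_nonneg hz2N (hp0 x)
        have h2 : z ^ (2 * N) * W s * g s ≤ z ^ (2 * N) * W s * (8 * h * (c0 j * cos (y j * s) - s0 j * sin (y j * s))) := by
          apply mul_le_mul_of_nonneg_left h1
          exact mul_nonneg hz2N (hW0 s)
        linarith
    refine hmain.trans ?_
    rw [intervalIntegral.integral_const_mul]
    refine (le_abs_self _).trans ?_
    rw [abs_mul]
    have hcs : |c0 j| + |s0 j| ≤ 2 := by linarith [hc0 j, hs0 j]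
    have e1 : |8 * h * z ^ (2 * N)| ≤ 8 * |z| ^ (2 * N) := by
      rw [abs_mul, abs_mul, abs_pow]
      have : |(8 : ℝ)| = 8 := by norm_num
      rw [this]
      nlinarith [pow_nonneg (abs_nonneg z) (2 * N)]
    calc |8 * h * z ^ (2 * N)| * |∫ s in (0 : ℝ)..t, W s * (c0 j * cos (y j * s) - s0 j * sin (y j * s))|
        ≤ (8 * |z| ^ (2 * N)) * (2 * ((4 * π / |z|) * (1 + Cp * 2 ^ D / |z| ^ D))) := by
          apply mul_le_mul e1 _ (abs_nonneg _) (by positivity)
          refine hosc.trans ?_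
          apply mul_le_mul hcs _ (by positivity) (by norm_num)
          apply mul_le_mul hb0 _ (by positivity) (by positivity)
          linarith
      _ = 64 * π * (|z| ^ (2 * N) / |z| + Cp * 2 ^ D * (|z| ^ (2 * N) / |z| ^ (D + 1))) := by
          rw [pow_succ]; field_simp; ring
      _ ≤ 64 * π * (1 + Cp * 2 ^ D * 1) := by
          have e2 : |z| ^ (2 * N) / |z| ≤ 1 := by
            rw [div_le_one hzpos]
            calc |z| ^ (2 * N) ≤ |z| ^ 1 := pow_le_pow_of_le_one (abs_nonneg z) hz (by omega)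
              _ = |z| := pow_one _
          have e3 : |z| ^ (2 * N) / |z| ^ (D + 1) ≤ 1 := by
            rw [div_le_one (by positivity)]
            exact pow_le_pow_of_le_one (abs_nonneg z) hz (by omega)
          gcongr
      _ = _ := by ring

end Pool.Agent.Helper702
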