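import Mathlib
import Pool.Agent.Helper702.OdeC

set_option autoImplicit false

namespace Pool.Agent.Helper702

open Set Real

/-- explicit pulse profile -/
noncomputable def Wf (z u0 v0 κ A0 B0 : ℝ) (t : ℝ) : ℝ :=
  if B0 = 0 then 0 else
    (√(A0 ^ 2 + B0 ^ 2) * B0 / (√(A0 ^ 2 + B0 ^ 2) *
        cosh (κ * √(A0 ^ 2 + B0 ^ 2) * ((u0 * sin (z * t) + v0 * cos (z * t) - v0) / z))
      - A0 * sinh (κ * √(A0 ^ 2 + B0 ^ 2) * ((u0 * sin (z * t) + v0 * cos (z * t) - v0) / z)))) ^ 2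

theorem D_sq (ρ A0 B0 x : ℝ) (h : ρ ^ 2 = A0 ^ 2 + B0 ^ 2) :
    B0 ^ 2 ≤ (ρ * cosh x - A0 * sinh x) ^ 2 := by
  have h1 := Real.cosh_sq x
  nlinarith [sq_nonneg (A0 * cosh x - ρ * sinh x)]

theorem Wf_props (z u0 v0 κ A0 B0 : ℝ) (hz : z ≠ 0) (hA : |A0| ≤ 1) (hB : |B0| ≤ 1) :
    Continuous (Wf z u0 v0 κ A0 B0) ∧ (∀ t, 0 ≤ Wf z u0 v0 κ A0 B0 t) ∧
    (∀ t, Wf z u0 v0 κ A0 B0 t ≤ 2) ∧
    (∀ t, Wf z u0 v0 κ A0 B0 (t + 2 * π / |z|) = Wf z u0 v0 κ A0 B0 t) := by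
  by_cases hB0 : B0 = 0
  · have : Wf z u0 v0 κ A0 B0 = fun _ => 0 := by
      funext t; simp [Wf, hB0]
    rw [this]
    exact ⟨continuous_const, fun _ => le_rfl, fun _ => by norm_num, fun _ => rfl⟩
  · set ρ := √(A0 ^ 2 + B0 ^ 2) with hρ
    have hρ2 : ρ ^ 2 = A0 ^ 2 + B0 ^ 2 := Real.sq_sqrt (by positivity)
    have hB2 : 0 < B0 ^ 2 := by positivity
    have hDne : ∀ x, ρ * cosh x - A0 * sinh x ≠ 0 := by
      intro x h0
      have := D_sq ρ A0 B0 x hρ2
      rw [h0] at this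
      nlinarith
    refine ⟨?_, ?_, ?_, ?_⟩
    · unfold Wf
      simp only [hB0, if_false]
      apply Continuous.pow
      apply Continuous.div
      · exact continuous_const
      · have : Continuous (fun t : ℝ => κ * √(A0 ^ 2 + B0 ^ 2) * ((u0 * sin (z * t) + v0 * cos (z * t) - v0) / z)) := by
          fun_prop
        exact (continuous_const.mul (Real.continuous_cosh.comp this)).sub
          (continuous_const.mul (Real.continuous_sinh.comp this))
      · intro t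
        exact hDne _
    · intro t
      unfold Wf
      split_ifs
      positivity
    · intro t
      unfold Wf
      simp only [hB0, if_false]
      rw [← hρ, div_pow, mul_pow, div_le_iff₀ (by have := hDne (κ * ρ * ((u0 * sin (z * t) + v0 * cos (z * t) - v0) / z)); positivity)]
      have h1 := D_sq ρ A0 B0 (κ * ρ * ((u0 * sin (z * t) + v0 * cos (z * t) - v0) / z)) hρ2
      have h2 : ρ ^ 2 ≤ 2 := by
        rw [hρ2, ← sq_abs A0, ← sq_abs B0]
        nlinarith [abs_nonneg A0, abs_nonneg B0]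
      nlinarith [sq_nonneg ρ]
    · intro t
      unfold Wf
      have h1 : sin (z * (t + 2 * π / |z|)) = sin (z * t) := by
        rcases lt_or_gt_of_ne hz with hn | hp
        · have : z * (t + 2 * π / |z|) = z * t - 2 * π := by
            rw [abs_of_neg hn]; field_simp; ring
          rw [this, Real.sin_sub_two_pi]
        · have : z * (t + 2 * π / |z|) = z * t + 2 * π := by
            rw [abs_of_pos hp]; field_simp
          rw [this, Real.sin_add_two_pi]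
      have h2 : cos (z * (t + 2 * π / |z|)) = cos (z * t) := by
        rcases lt_or_gt_of_ne hz with hn | hp
        · have : z * (t + 2 * π / |z|) = z * t - 2 * π := by
            rw [abs_of_neg hn]; field_simp; ring
          rw [this, Real.cos_sub_two_pi]
        · have : z * (t + 2 * π / |z|) = z * t + 2 * π := by
            rw [abs_of_pos hp]; field_simp
          rw [this, Real.cos_add_two_pi]
      rw [h1, h2]

/-- the component form of the differential equation on `[0,T]` -/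
structure Sol {ι : Type} [Fintype ι] (N : ℕ) (H : ℝ → (ι → ℝ) → ℝ) (T : ℝ)
    (z h κ u v A B w : ℝ → ℝ) (y c s : ι → ℝ → ℝ) : Prop where
  hz : ∀ t ∈ Icc (0 : ℝ) T, HasDerivWithinAt z 0 (Icc 0 T) t
  hh : ∀ t ∈ Icc (0 : ℝ) T, HasDerivWithinAt h 0 (Icc 0 T) t
  hκ : ∀ t ∈ Icc (0 : ℝ) T, HasDerivWithinAt κ 0 (Icc 0 T) t
  hy : ∀ i, ∀ t ∈ Icc (0 : ℝ) T, HasDerivWithinAt (y i) 0 (Icc 0 T) t
  hu : ∀ t ∈ Icc (0 : ℝ) T, HasDerivWithinAt u (-(z t * v t)) (Icc 0 T) t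
  hv : ∀ t ∈ Icc (0 : ℝ) T, HasDerivWithinAt v (z t * u t) (Icc 0 T) t
  hc : ∀ i, ∀ t ∈ Icc (0 : ℝ) T, HasDerivWithinAt (c i) (-(y i t * s i t)) (Icc 0 T) t
  hs : ∀ i, ∀ t ∈ Icc (0 : ℝ) T, HasDerivWithinAt (s i) (y i t * c i t) (Icc 0 T) t
  hA : ∀ t ∈ Icc (0 : ℝ) T, HasDerivWithinAt A (-(κ t * u t * B t ^ 2)) (Icc 0 T) t
  hB : ∀ t ∈ Icc (0 : ℝ) T, HasDerivWithinAt B (κ t * u t * A t * B t) (Icc 0 T) t
  hw : ∀ t ∈ Icc (0 : ℝ) T, HasDerivWithinAt w
    ((z t ^ (2 * N) * B t ^ 2 * (8 * h t * ∑ i, c i t - 8 * ∑ i, (c i t ^ 2 + s i t ^ 2)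
      - (2 * (Fintype.card ι : ℝ) - 1) * h t ^ 2) - 4 * H (z t) (fun i => y i t)) * w t) (Icc 0 T) t

theorem abs_rot (a b x : ℝ) : |a * cos x - b * sin x| ≤ |a| + |b| ∧ |a * sin x + b * cos x| ≤ |a| + |b| := by
  have h1 := abs_cos_le_one x
  have h2 := abs_sin_le_one x
  constructor
  · calc |a * cos x - b * sin x| ≤ |a * cos x| + |b * sin x| := abs_sub _ _
      _ = |a| * |cos x| + |b| * |sin x| := by rw [abs_mul, abs_mul]
      _ ≤ |a| * 1 + |b| * 1 := by gcongr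
      _ = _ := by ring
  · calc |a * sin x + b * cos x| ≤ |a * sin x| + |b * cos x| := abs_add_le _ _
      _ = |a| * |sin x| + |b| * |cos x| := by rw [abs_mul, abs_mul]
      _ ≤ |a| * 1 + |b| * 1 := by gcongr
      _ = _ := by ring

theorem stable_bound {ι : Type} [Fintype ι] (p : (ι → ℝ) → ℝ) (hp0 : ∀ x, 0 ≤ p x)
    (Cp : ℝ) (hCp : 0 < Cp) (D N : ℕ)
    (hLip : ∀ (x : ι → ℝ) (n : ι → ℤ), (∀ i, |x i - n i| ≤ 1 / 2) →
      |p x - p (fun i => (n i : ℝ))| ≤ Cp * (1 + ‖x‖) ^ D * ‖x - fun i => (n i : ℝ)‖)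
    (hint : ∀ n : ι → ℤ, 1 ≤ p (fun i => (n i : ℝ)))
    (hN : D + 1 ≤ 2 * N) (H : ℝ → (ι → ℝ) → ℝ)
    (hH : ∀ z y, z ≠ 0 → H z y = z ^ (2 * N) * p (fun i => y i / z)) (hH0 : ∀ y, H 0 y = 0)
    {T : ℝ} {z h κ u v A B w : ℝ → ℝ} {y c s : ι → ℝ → ℝ}
    (S : Sol N H T z h κ u v A B w y c s)
    (bz : |z 0| ≤ 1) (bh : |h 0| ≤ 1) (by' : ∀ i, |y i 0| ≤ 1) (bc : ∀ i, |c i 0| ≤ 1)
    (bs : ∀ i, |s i 0| ≤ 1) (bA : |A 0| ≤ 1) (bB : |B 0| ≤ 1) :
    ∀ t ∈ Icc (0 : ℝ) T, z t = z 0 ∧ h t = h 0 ∧ κ t = κ 0 ∧ (∀ i, y i t = y i 0) ∧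
      |u t| ≤ |u 0| + |v 0| ∧ |v t| ≤ |u 0| + |v 0| ∧
      (∀ i, |c i t| ≤ |c i 0| + |s i 0| ∧ |s i t| ≤ |c i 0| + |s i 0|) ∧
      |A t| ≤ |A 0| + |B 0| ∧ |B t| ≤ |A 0| + |B 0| ∧
      |w t| ≤ |w 0| * Real.exp (64 * π * (1 + Cp * 2 ^ D)) := by
  have ez := const_on S.hz
  have eh := const_on S.hh
  have eκ := const_on S.hκ
  have ey := fun i => const_on (S.hy i)
  have euv := rotation (z := z 0) (u := u) (v := v)
    (fun t ht => by have := S.hu t ht; rwa [ez t ht] at this)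
    (fun t ht => by have := S.hv t ht; rwa [ez t ht] at this)
  have ecs := fun i => rotation (z := y i 0) (u := c i) (v := s i)
    (fun t ht => by have := S.hc i t ht; rwa [ey i t ht] at this)
    (fun t ht => by have := S.hs i t ht; rwa [ey i t ht] at this)
  have hAB : ∀ t ∈ Icc (0 : ℝ) T, A t ^ 2 + B t ^ 2 = A 0 ^ 2 + B 0 ^ 2 := by
    have : ∀ t ∈ Icc (0 : ℝ) T, HasDerivWithinAt (fun t => A t ^ 2 + B t ^ 2) 0 (Icc 0 T) t := by
      intro t ht
      refine (((S.hA t ht).fun_pow 2).fun_add ((S.hB t ht).fun_pow 2)).congr_deriv ?_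
      simp; ring
    intro t ht
    rw [const_on this t ht]
  -- the bound on w
  have hwb : ∀ t ∈ Icc (0 : ℝ) T, |w t| ≤ |w 0| * Real.exp (64 * π * (1 + Cp * 2 ^ D)) := by
    intro t ht
    by_cases hz0 : z 0 = 0
    · -- degenerate case
      have : ∀ t ∈ Icc (0 : ℝ) T, HasDerivWithinAt w 0 (Icc 0 T) t := by
        intro t ht
        refine (S.hw t ht).congr_deriv ?_
        rw [ez t ht, hz0, hH0]
        have : 2 * N ≠ 0 := by omega
        simp [this]
      rw [const_on this t ht]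
      have : 1 ≤ Real.exp (64 * π * (1 + Cp * 2 ^ D)) := Real.one_le_exp (by positivity)
      nlinarith [abs_nonneg (w 0)]
    · set W := Wf (z 0) (u 0) (v 0) (κ 0) (A 0) (B 0) with hW
      obtain ⟨Wc, W0, W2, Wp⟩ := Wf_props (z 0) (u 0) (v 0) (κ 0) (A 0) (B 0) hz0 bA bB
      have hBW : ∀ t ∈ Icc (0 : ℝ) T, B t ^ 2 = W t := by
        have hE : ∀ t ∈ Icc (0 : ℝ) T, HasDerivWithinAt (fun t => (v t - v 0) / z 0) (u t) (Icc 0 T) t := by
          intro t ht
          refine (((S.hv t ht).sub_const (v 0)).div_const (z 0)).congr_deriv ?_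
          rw [ez t ht]; field_simp
        have hU : ContinuousOn u (Icc 0 T) := fun t ht => (S.hu t ht).continuousWithinAt
        have hA' : ∀ t ∈ Icc (0 : ℝ) T, HasDerivWithinAt A (-(κ 0 * u t * B t ^ 2)) (Icc 0 T) t := by
          intro t ht; have := S.hA t ht; rwa [eκ t ht] at this
        have hB' : ∀ t ∈ Icc (0 : ℝ) T, HasDerivWithinAt B (κ 0 * u t * A t * B t) (Icc 0 T) t := by
          intro t ht; have := S.hB t ht; rwa [eκ t ht] at this
        have hρ2 : √(A 0 ^ 2 + B 0 ^ 2) ^ 2 = A 0 ^ 2 + B 0 ^ 2 := Real.sq_sqrt (by positivity)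
        have hP := (pulse (ρ := √(A 0 ^ 2 + B 0 ^ 2)) hρ2 hA' hB' hE (by simp) hU).2
        intro t ht
        by_cases hB0 : B 0 = 0
        · have : B t = 0 := by
            refine lin_ode_zero (a := fun t => κ 0 * u t * A t) ?_ hB' hB0 t ht
            exact (continuousOn_const.mul hU).mul (fun t ht => (S.hA t ht).continuousWithinAt)
          rw [this, hW]; simp [Wf, hB0]
        · have h1 := hP t ht
          have h2 := (euv t ht).2
          rw [hW]
          unfold Wf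
          simp only [hB0, if_false]
          rw [← h2]
          set Dv := √(A 0 ^ 2 + B 0 ^ 2) * cosh (κ 0 * √(A 0 ^ 2 + B 0 ^ 2) * ((v t - v 0) / z 0)) -
            A 0 * sinh (κ 0 * √(A 0 ^ 2 + B 0 ^ 2) * ((v t - v 0) / z 0)) with hDv
          have hD := D_sq (√(A 0 ^ 2 + B 0 ^ 2)) (A 0) (B 0) (κ 0 * √(A 0 ^ 2 + B 0 ^ 2) * ((v t - v 0) / z 0)) hρ2
          rw [← hDv] at hD
          have hDne : Dv ≠ 0 := by
            intro h0; rw [h0] at hD
            have : 0 < B 0 ^ 2 := by positivity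
            nlinarith
          rw [← h1]
          field_simp
      have hwode : ∀ t ∈ Icc (0 : ℝ) T, HasDerivWithinAt w
          ((fun s' => (z 0 ^ (2 * N) * W s' * (8 * h 0 * ∑ i, (c i 0 * cos (y i 0 * s') - s i 0 * sin (y i 0 * s'))
      - 8 * ∑ i, (c i 0 ^ 2 + s i 0 ^ 2) - (2 * (Fintype.card ι : ℝ) - 1) * h 0 ^ 2)
      - 4 * (z 0 ^ (2 * N) * p (fun i => y i 0 / z 0)))) t * w t) (Icc 0 T) t := by
        intro t ht
        refine (S.hw t ht).congr_deriv ?_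
        simp only
        rw [ez t ht, eh t ht, hBW t ht, hH _ _ hz0]
        have e1 : ∑ i, c i t = ∑ i, (c i 0 * cos (y i 0 * t) - s i 0 * sin (y i 0 * t)) :=
          Finset.sum_congr rfl fun i _ => (ecs i t ht).1
        have e2 : ∑ i, (c i t ^ 2 + s i t ^ 2) = ∑ i, (c i 0 ^ 2 + s i 0 ^ 2) := by
          apply Finset.sum_congr rfl
          intro i _
          rw [(ecs i t ht).1, (ecs i t ht).2]
          have h1 := sin_sq_add_cos_sq (y i 0 * t)
          linear_combination (c i 0 ^ 2 + s i 0 ^ 2) * h1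
        rw [e1, e2]
        have e3 : (fun i => y i t / z 0) = (fun i => y i 0 / z 0) := by
          funext i; rw [ey i t ht]
        rw [e3]
      have hsol := lin_ode (by fun_prop) hwode t ht
      rw [hsol, abs_mul, Real.abs_exp]
      have hgb := growth_bound p hp0 Cp hCp D N hLip hint hN (z 0) (h 0) (fun i => y i 0)
        (fun i => c i 0) (fun i => s i 0) hz0 bz bh by' bc bs W Wc W0 W2 Wp t ht.1
      apply mul_le_mul_of_nonneg_left _ (abs_nonneg _)
      exact Real.exp_le_exp.2 hgb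
  intro t ht
  refine ⟨ez t ht, eh t ht, eκ t ht, fun i => ey i t ht, ?_, ?_, ?_, ?_, ?_, hwb t ht⟩
  · rw [(euv t ht).1]; exact (abs_rot _ _ _).1
  · rw [(euv t ht).2]; exact (abs_rot _ _ _).2
  · intro i
    constructor
    · rw [(ecs i t ht).1]; exact (abs_rot _ _ _).1
    · rw [(ecs i t ht).2]; exact (abs_rot _ _ _).2
  · apply abs_le_of_sq_le_sq' _ (by positivity) |> abs_le.2
    have := hAB t ht
    rw [← sq_abs (A 0), ← sq_abs (B 0)] at this
    nlinarith [sq_nonneg (B t), abs_nonneg (A 0), abs_nonneg (B 0), mul_nonneg (abs_nonneg (A 0)) (abs_nonneg (B 0))]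
  · apply abs_le_of_sq_le_sq' _ (by positivity) |> abs_le.2
    have := hAB t ht
    rw [← sq_abs (A 0), ← sq_abs (B 0)] at this
    nlinarith [sq_nonneg (A t), abs_nonneg (A 0), abs_nonneg (B 0), mul_nonneg (abs_nonneg (A 0)) (abs_nonneg (B 0))]

end Pool.Agent.Helper702
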