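import Mathlib
import Pool.Agent.Helper702.OdeD

set_option autoImplicit false

namespace Pool.Agent.Helper702

open Set Real

theorem peak (Γ : ℝ → ℝ) (hc : Continuous Γ) (hper : ∀ θ, Γ (θ + 2 * π) = Γ θ) (h0 : 0 < Γ 0) :
    ∃ K0 : ℝ, 0 < K0 ∧ ∀ K, K0 ≤ K → 0 < ∫ θ in (0 : ℝ)..(2 * π), Γ θ / cosh (K * (1 - cos θ)) ^ 2 := by
  have hpi := Real.pi_pos
  -- local positivity
  obtain ⟨η1, hη1, hη1'⟩ : ∃ η > 0, ∀ θ, |θ| ≤ η → Γ 0 / 2 ≤ Γ θ := by
    have h1 : ∀ᶠ θ in nhds (0 : ℝ), Γ 0 / 2 < Γ θ := hc.continuousAt.eventually_const_lt (by linarith)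
    obtain ⟨ε, hε, hb⟩ := Metric.eventually_nhds_iff.1 h1
    refine ⟨ε / 2, by linarith, fun θ hθ => (hb ?_).le⟩
    rw [Real.dist_eq, sub_zero]; linarith
  set η := min η1 1 with hη
  have hηpos : 0 < η := lt_min hη1 one_pos
  have hηle : η ≤ 1 := min_le_right _ _
  have hpi3 := Real.pi_gt_three
  have hloc : ∀ θ, |θ| ≤ η → Γ 0 / 2 ≤ Γ θ := fun θ h => hη1' θ (h.trans (min_le_left _ _))
  obtain ⟨M0, hM0⟩ := (isCompact_Icc (a := -π) (b := π)).exists_bound_of_continuousOn hc.continuousOn
  set M := max M0 1 with hM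
  have hMpos : 0 < M := lt_of_lt_of_le one_pos (le_max_right _ _)
  have hMb : ∀ θ ∈ Icc (-π) π, |Γ θ| ≤ M := fun θ h => (hM0 θ h).trans (le_max_left _ _)
  set α := 1 - cos (η / 2) with hα
  set β := 1 - cos η with hβ
  have hαβ : α < β := by
    have := Real.strictAntiOn_cos (a := η / 2) ⟨by linarith, by linarith⟩ (b := η) ⟨by linarith, by linarith⟩ (by linarith)
    linarith
  have hα0 : 0 ≤ α := by have := cos_le_one (η / 2); linarith
  set c := Γ 0 / 2 with hcdef
  have hcpos : 0 < c := by positivity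
  set Q := 1 + 2 * π * M / (c * η) with hQ
  have hQ1 : 1 ≤ Q := by
    have : 0 ≤ 2 * π * M / (c * η) := by positivity
    linarith
  refine ⟨2 * Q / (β - α), by have := sub_pos.2 hαβ; positivity, fun K hK => ?_⟩
  have hβα : 0 < β - α := sub_pos.2 hαβ
  have hKpos : 0 < K := lt_of_lt_of_le (by positivity) hK
  have hq : Q ≤ Real.exp (K * (β - α)) / 2 := by
    have h1 : 2 * Q ≤ K * (β - α) := by
      rw [div_le_iff₀ hβα] at hK; linarith
    have h2 := Real.add_one_le_exp (K * (β - α))
    linarith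
  set s1 := 1 / cosh (K * α) ^ 2 with hs1
  set s2 := 1 / cosh (K * β) ^ 2 with hs2
  have hca := Real.cosh_pos (K * α)
  have hcb := Real.cosh_pos (K * β)
  have hs1pos : 0 < s1 := by positivity
  have hs2pos : 0 < s2 := by positivity
  have hcosh : Q * cosh (K * α) ≤ cosh (K * β) := by
    have h1 : cosh (K * α) ≤ Real.exp (K * α) := by
      rw [Real.cosh_eq]
      have : Real.exp (-(K * α)) ≤ Real.exp (K * α) := Real.exp_le_exp.2 (by nlinarith)
      linarith
    have h2 : Real.exp (K * β) / 2 ≤ cosh (K * β) := by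
      rw [Real.cosh_eq]
      have := Real.exp_pos (-(K * β))
      linarith
    have h3 : Real.exp (K * β) = Real.exp (K * (β - α)) * Real.exp (K * α) := by
      rw [← Real.exp_add]; congr 1; ring
    calc Q * cosh (K * α) ≤ (Real.exp (K * (β - α)) / 2) * Real.exp (K * α) := by gcongr
      _ = Real.exp (K * β) / 2 := by rw [h3]; ring
      _ ≤ _ := h2
  have hs12 : Q * s2 ≤ s1 := by
    rw [hs1, hs2, mul_one_div, div_le_div_iff₀ (by positivity) (by positivity), one_mul]
    have hsq : (Q * cosh (K * α)) ^ 2 ≤ cosh (K * β) ^ 2 := by gcongr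
    have : Q * cosh (K * α) ^ 2 ≤ (Q * cosh (K * α)) ^ 2 := by
      rw [mul_pow]; gcongr; nlinarith
    linarith
  set F : ℝ → ℝ := fun θ => Γ θ / cosh (K * (1 - cos θ)) ^ 2 with hF
  have hFc : Continuous F := by
    apply Continuous.div hc
    · exact (Real.continuous_cosh.comp (by fun_prop)).pow 2
    · intro θ; have := Real.cosh_pos (K * (1 - cos θ)); positivity
  have hFp : Function.Periodic F (2 * π) := by
    intro θ; simp only [hF]; rw [hper, Real.cos_add_two_pi]
  have hshift : ∫ θ in (0 : ℝ)..(2 * π), F θ = ∫ θ in (-π)..π, F θ := by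
    have := hFp.intervalIntegral_add_eq 0 (-π)
    rw [zero_add] at this
    rw [this]; congr 1; ring
  have hcabs : ∀ θ, cos θ = cos |θ| := fun θ => (Real.cos_abs θ).symm
  have hcenter : ∀ θ ∈ Icc (-(η / 2)) (η / 2), c * s1 ≤ F θ := by
    intro θ hθ
    have h1 : |θ| ≤ η / 2 := abs_le.2 hθ
    have h2 : 1 - cos θ ≤ α := by
      have := Real.strictAntiOn_cos.antitoneOn (a := |θ|) ⟨abs_nonneg θ, by linarith⟩ (b := η / 2) ⟨by linarith, by linarith⟩ h1
      rw [hcabs θ]; linarith
    have h3 : cosh (K * (1 - cos θ)) ≤ cosh (K * α) := by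
      rw [Real.cosh_le_cosh, abs_of_nonneg (by have := cos_le_one θ; nlinarith), abs_of_nonneg (by positivity)]
      gcongr
    have h4 := Real.cosh_pos (K * (1 - cos θ))
    have h5 := hloc θ (by linarith)
    have h6 : F θ = Γ θ * (1 / cosh (K * (1 - cos θ)) ^ 2) := by simp only [hF]; ring
    rw [h6]
    have h7 : s1 ≤ 1 / cosh (K * (1 - cos θ)) ^ 2 := by
      rw [hs1]; gcongr
    exact mul_le_mul h5 h7 hs1pos.le (by linarith)
  have hout : ∀ θ ∈ Icc (-π) π, -(M * s2) ≤ F θ := by
    intro θ hθ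
    have h4 := Real.cosh_pos (K * (1 - cos θ))
    rcases le_or_gt |θ| η with h1 | h1
    · have h5 := hloc θ h1
      have : 0 ≤ F θ := by simp only [hF]; apply div_nonneg <;> nlinarith
      have : 0 ≤ M * s2 := by positivity
      linarith
    · have h2 : β ≤ 1 - cos θ := by
        have := Real.strictAntiOn_cos.antitoneOn (a := η) ⟨hηpos.le, by linarith⟩ (b := |θ|) ⟨abs_nonneg θ, abs_le.2 hθ⟩ h1.le
        rw [hcabs θ]; linarith
      have h3 : cosh (K * β) ≤ cosh (K * (1 - cos θ)) := by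
        rw [Real.cosh_le_cosh, abs_of_nonneg (by nlinarith), abs_of_nonneg (by nlinarith)]
        gcongr
      have h5 : |F θ| ≤ M * s2 := by
        simp only [hF]
        rw [abs_div, abs_of_pos (by positivity : 0 < cosh (K * (1 - cos θ)) ^ 2), div_eq_mul_one_div]
        apply mul_le_mul (hMb θ hθ) _ (by positivity) hMpos.le
        rw [hs2]; gcongr
      exact (abs_le.1 h5).1
  have hint : ∀ a b, IntervalIntegrable F MeasureTheory.volume a b := fun a b => hFc.intervalIntegrable a b
  have hconst : ∀ a b (k : ℝ), IntervalIntegrable (fun _ => k) MeasureTheory.volume a b := fun a b k =>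
    continuous_const.intervalIntegrable a b
  have hsplit : ∫ θ in (-π)..π, F θ = (∫ θ in (-π)..(-(η / 2)), F θ) + (∫ θ in (-(η / 2))..(η / 2), F θ)
      + ∫ θ in (η / 2)..π, F θ := by
    rw [intervalIntegral.integral_add_adjacent_intervals (hint _ _) (hint _ _),
      intervalIntegral.integral_add_adjacent_intervals (hint _ _) (hint _ _)]
  have i1 : -(M * s2) * (π - η / 2) ≤ ∫ θ in (-π)..(-(η / 2)), F θ := by
    have := intervalIntegral.integral_mono_on (μ := MeasureTheory.volume) (a := -π) (b := -(η / 2)) (by linarith) (hconst _ _ (-(M * s2))) (hint _ _)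
      (fun θ hθ => hout θ ⟨hθ.1, by linarith [hθ.2]⟩)
    rw [intervalIntegral.integral_const, smul_eq_mul] at this
    linarith
  have i2 : c * s1 * η ≤ ∫ θ in (-(η / 2))..(η / 2), F θ := by
    have := intervalIntegral.integral_mono_on (μ := MeasureTheory.volume) (a := -(η / 2)) (b := η / 2) (by linarith) (hconst _ _ (c * s1)) (hint _ _)
      (fun θ hθ => hcenter θ hθ)
    rw [intervalIntegral.integral_const, smul_eq_mul] at this
    linarith
  have i3 : -(M * s2) * (π - η / 2) ≤ ∫ θ in (η / 2)..π, F θ := by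
    have := intervalIntegral.integral_mono_on (μ := MeasureTheory.volume) (a := η / 2) (b := π) (by linarith) (hconst _ _ (-(M * s2))) (hint _ _)
      (fun θ hθ => hout θ ⟨by linarith [hθ.1], hθ.2⟩)
    rw [intervalIntegral.integral_const, smul_eq_mul] at this
    linarith
  rw [hshift, hsplit]
  have hfin : 2 * π * (M * s2) < c * s1 * η := by
    have h1 : c * η * (Q * s2) ≤ c * η * s1 := by gcongr
    have h2 : c * η * Q = c * η + 2 * π * M := by rw [hQ]; field_simp
    have h3 : c * η * (Q * s2) = c * η * s2 + 2 * π * M * s2 := by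
      rw [← mul_assoc, h2]; ring
    have h4 : 0 < c * η * s2 := by positivity
    nlinarith
  have hMs : 0 < M * s2 := by positivity
  nlinarith

end Pool.Agent.Helper702
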