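import Mathlib
import Pool.Agent.Helper702.OdeE

set_option autoImplicit false

namespace Pool.Agent.Helper702

open Set Real

theorem integral_mul_period {a : ℝ → ℝ} (ha : Continuous a) {P : ℝ} (hp : Function.Periodic a P) (m : ℕ) :
    ∫ s in (0 : ℝ)..(m * P), a s = m * ∫ s in (0 : ℝ)..P, a s := by
  induction m with
  | zero => simp
  | succ m ih =>
    have h1 : ∫ s in (0 : ℝ)..((m + 1 : ℕ) * P), a s =
        (∫ s in (0 : ℝ)..(m * P), a s) + ∫ s in (m * P)..((m + 1 : ℕ) * P), a s := by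
      rw [intervalIntegral.integral_add_adjacent_intervals (ha.intervalIntegrable _ _)
        (ha.intervalIntegrable _ _)]
    have h2 : ∫ s in (m * P)..((m + 1 : ℕ) * P), a s = ∫ s in (0 : ℝ)..P, a s := by
      have := hp.intervalIntegral_add_eq (m * P) 0
      rw [zero_add] at this
      rw [← this]; congr 1; push_cast; ring
    rw [h1, h2, ih]; push_cast; ring

theorem unstable_core {ι : Type} [Fintype ι] (p : (ι → ℝ) → ℝ) (N : ℕ) (H : ℝ → (ι → ℝ) → ℝ)
    (hH : ∀ z y, z ≠ 0 → H z y = z ^ (2 * N) * p (fun i => y i / z))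
    (n : ι → ℤ) (hn : p (fun i => (n i : ℝ)) = 0) (η : ℝ) (hη : 0 < η) :
    ∃ (T : ℝ) (z h κ u v A B w : ℝ → ℝ) (y c s : ι → ℝ → ℝ), 0 ≤ T ∧
      Sol N H T z h κ u v A B w y c s ∧
      |z 0| ≤ η ∧ |h 0| ≤ η ∧ |κ 0| ≤ η ∧ |u 0| ≤ η ∧ |v 0| ≤ η ∧ |A 0| ≤ η ∧ |B 0| ≤ η ∧ |w 0| ≤ η ∧
      (∀ i, |y i 0| ≤ η) ∧ (∀ i, |c i 0| ≤ η) ∧ (∀ i, |s i 0| ≤ η) ∧
      1 ≤ |w T| := by
  have hpi := Real.pi_pos
  set Γ : ℝ → ℝ := fun θ => 4 * ∑ i, cos (n i * θ) - 4 * (Fintype.card ι : ℝ) + 1 with hΓ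
  have hΓc : Continuous Γ := by simp only [hΓ]; fun_prop
  have hΓp : ∀ θ, Γ (θ + 2 * π) = Γ θ := by
    intro θ
    simp only [hΓ]
    congr 3
    apply Finset.sum_congr rfl
    intro i _
    have : (n i : ℝ) * (θ + 2 * π) = n i * θ + n i * (2 * π) := by ring
    rw [this, Real.cos_add_int_mul_two_pi]
  have hΓ0 : 0 < Γ 0 := by
    simp only [hΓ]; simp
  obtain ⟨K0, hK0, hK⟩ := peak Γ hΓc hΓp hΓ0
  -- the small frequency
  set S : ℝ := 1 + ∑ i, |(n i : ℝ)| with hS
  have hS1 : 1 ≤ S := by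
    have : 0 ≤ ∑ i, |(n i : ℝ)| := Finset.sum_nonneg fun i _ => abs_nonneg _
    linarith
  have hnS : ∀ i, |(n i : ℝ)| ≤ S := by
    intro i
    have h1 : |(n i : ℝ)| ≤ ∑ i, |(n i : ℝ)| :=
      Finset.single_le_sum (f := fun i => |(n i : ℝ)|) (fun i _ => abs_nonneg _) (Finset.mem_univ i)
    linarith
  set ζ : ℝ := min (η / S) (η ^ 3 / K0) with hζ
  have hζpos : 0 < ζ := lt_min (by positivity) (by positivity)
  have hζ1 : ζ * S ≤ η := by
    have := min_le_left (η / S) (η ^ 3 / K0)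
    rw [← hζ, le_div_iff₀ (by positivity)] at this
    exact this
  set K : ℝ := η ^ 3 / ζ with hKdef
  have hKK : K0 ≤ K := by
    have := min_le_right (η / S) (η ^ 3 / K0)
    rw [← hζ, le_div_iff₀ hK0] at this
    rw [hKdef, le_div_iff₀ hζpos]
    linarith
  have hKζ : K * ζ = η ^ 3 := by rw [hKdef]; field_simp
  have hint := hK K hKK
  set x : ℝ → ℝ := fun t => K * (1 - cos (ζ * t)) with hx
  have hxd : ∀ t, HasDerivAt x (η ^ 3 * sin (ζ * t)) t := by
    intro t
    have h1 : HasDerivAt (fun t => ζ * t) ζ t := by simpa using (hasDerivAt_id t).const_mul ζ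
    refine ((h1.cos.const_sub 1).const_mul K).congr_deriv ?_
    rw [← hKζ]; ring
  have hxc : Continuous x := by simp only [hx]; fun_prop
  set B : ℝ → ℝ := fun t => η / cosh (x t) with hB
  set A : ℝ → ℝ := fun t => -(η * (sinh (x t) / cosh (x t))) with hA
  have hcoshne : ∀ t, cosh (x t) ≠ 0 := fun t => (Real.cosh_pos _).ne'
  have hBc : Continuous B := continuous_const.div (Real.continuous_cosh.comp hxc) hcoshne
  set a : ℝ → ℝ := fun t => ζ ^ (2 * N) * B t ^ 2 * (8 * η * ∑ i, (η / 2) * cos (n i * ζ * t)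
      - 8 * ∑ i, (((η / 2) * cos (n i * ζ * t)) ^ 2 + ((η / 2) * sin (n i * ζ * t)) ^ 2)
      - (2 * (Fintype.card ι : ℝ) - 1) * η ^ 2) - 4 * H ζ (fun i => n i * ζ) with ha
  have hac : Continuous a := by simp only [ha]; fun_prop
  have hHζ : H ζ (fun i => n i * ζ) = 0 := by
    rw [hH _ _ hζpos.ne']
    have : (fun i => (n i : ℝ) * ζ / ζ) = fun i => (n i : ℝ) := by
      funext i; field_simp
    rw [this, hn, mul_zero]
  have haΓ : ∀ t, a t = ζ ^ (2 * N) * η ^ 4 * (Γ (ζ * t) / cosh (K * (1 - cos (ζ * t))) ^ 2) := by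
    intro t
    simp only [ha, hB, hΓ, hHζ, hx]
    have e1 : ∑ i, (((η / 2) * cos (n i * ζ * t)) ^ 2 + ((η / 2) * sin (n i * ζ * t)) ^ 2)
        = (Fintype.card ι : ℝ) * (η ^ 2 / 4) := by
      rw [← nsmul_eq_mul, ← Finset.card_univ, ← Finset.sum_const]
      apply Finset.sum_congr rfl
      intro i _
      have := sin_sq_add_cos_sq (n i * ζ * t)
      linear_combination (η ^ 2 / 4) * this
    have e2 : ∑ i, (η / 2) * cos (n i * ζ * t) = (η / 2) * ∑ i, cos (n i * (ζ * t)) := by
      rw [Finset.mul_sum]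
      apply Finset.sum_congr rfl
      intro i _
      rw [mul_assoc]
    rw [e1, e2]
    have hc := (Real.cosh_pos (K * (1 - cos (ζ * t)))).ne'
    field_simp
    ring
  set P : ℝ := 2 * π / ζ with hP
  have hPpos : 0 < P := by positivity
  have hap : Function.Periodic a P := by
    intro t
    rw [haΓ, haΓ]
    have : ζ * (t + P) = ζ * t + 2 * π := by rw [hP]; field_simp
    rw [this, hΓp, Real.cos_add_two_pi]
  set r : ℝ := ∫ s in (0 : ℝ)..P, a s with hr
  have hrpos : 0 < r := by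
    have h1 : r = ζ ^ (2 * N) * η ^ 4 * (ζ⁻¹ * ∫ θ in (0 : ℝ)..(2 * π), Γ θ / cosh (K * (1 - cos θ)) ^ 2) := by
      have h2 : r = ∫ s in (0 : ℝ)..P, ζ ^ (2 * N) * η ^ 4 * (Γ (ζ * s) / cosh (K * (1 - cos (ζ * s))) ^ 2) := by
        rw [hr]
        apply intervalIntegral.integral_congr
        intro s _
        exact haΓ s
      rw [h2, intervalIntegral.integral_const_mul]
      congr 1
      have h3 := intervalIntegral.integral_comp_mul_left (a := 0) (b := P)
        (fun θ => Γ θ / cosh (K * (1 - cos θ)) ^ 2) hζpos.ne'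
      rw [h3]
      have : ζ * P = 2 * π := by rw [hP]; field_simp
      rw [this, mul_zero, smul_eq_mul]
    rw [h1]
    positivity
  obtain ⟨m, hm⟩ := exists_nat_ge (1 / (η * r))
  have hA0 : A 0 = 0 := by simp [hA, hx]
  have hB0 : B 0 = η := by simp [hB, hx]
  have hlin : ∀ (b : ℝ) (t : ℝ), HasDerivAt (fun t => b * t) b t := fun b t => by
    simpa using (hasDerivAt_id t).const_mul b
  refine ⟨m * P, fun _ => ζ, fun _ => η, fun _ => η, fun t => η * sin (ζ * t), fun t => -(η * cos (ζ * t)),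
    A, B, fun t => η * Real.exp (∫ s in (0 : ℝ)..t, a s), fun i _ => n i * ζ,
    fun i t => (η / 2) * cos (n i * ζ * t), fun i t => (η / 2) * sin (n i * ζ * t), by positivity, ?_, ?_⟩
  · constructor
    · intro t _; exact hasDerivWithinAt_const _ _ _
    · intro t _; exact hasDerivWithinAt_const _ _ _
    · intro t _; exact hasDerivWithinAt_const _ _ _
    · intro i t _; exact hasDerivWithinAt_const _ _ _
    · intro t _
      refine (((hlin ζ t).sin.const_mul η).hasDerivWithinAt).congr_deriv ?_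
      ring
    · intro t _
      refine (((hlin ζ t).cos.const_mul η).fun_neg.hasDerivWithinAt).congr_deriv ?_
      ring
    · intro i t _
      refine (((hlin (n i * ζ) t).cos.const_mul (η / 2)).hasDerivWithinAt).congr_deriv ?_
      ring
    · intro i t _
      refine (((hlin (n i * ζ) t).sin.const_mul (η / 2)).hasDerivWithinAt).congr_deriv ?_
      ring
    · intro t _
      have h1 := ((((hxd t).sinh).fun_div ((hxd t).cosh) (hcoshne t)).const_mul η).fun_neg
      refine h1.hasDerivWithinAt.congr_deriv ?_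
      simp only [hB]
      have h2 := Real.cosh_sq (x t)
      have h3 := hcoshne t
      field_simp
      rw [h2]; ring
    · intro t _
      have h1 := ((hasDerivAt_const t η).fun_div ((hxd t).cosh) (hcoshne t))
      refine h1.hasDerivWithinAt.congr_deriv ?_
      simp only [hB, hA]
      have h3 := hcoshne t
      field_simp
      ring
    · intro t _
      have h1 := ((hac.integral_hasStrictDerivAt 0 t).hasDerivAt.exp).const_mul η
      refine h1.hasDerivWithinAt.congr_deriv ?_
      simp only [ha]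
      ring
  · have hη0 : |η| ≤ η := (abs_of_pos hη).le
    refine ⟨?_, hη0, hη0, ?_, ?_, ?_, ?_, ?_, ?_, ?_, ?_, ?_⟩
    · rw [abs_of_pos hζpos]; nlinarith
    · simp [hη.le]
    · simp [abs_of_pos hη]
    · rw [hA0]; simp [hη.le]
    · rw [hB0]; exact hη0
    · simp [abs_of_pos hη]
    · intro i
      rw [abs_mul, abs_of_pos hζpos]
      calc |(n i : ℝ)| * ζ ≤ S * ζ := by gcongr; exact hnS i
        _ ≤ η := by linarith
    · intro i
      show |η / 2 * cos (n i * ζ * 0)| ≤ η
      rw [mul_zero, cos_zero, mul_one, abs_of_pos (by positivity)]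
      linarith
    · intro i; simp [hη.le]
    · show 1 ≤ |η * Real.exp (∫ s in (0 : ℝ)..(m * P), a s)|
      rw [integral_mul_period hac hap m, abs_of_pos (by positivity)]
      have h1 := Real.add_one_le_exp (m * r)
      rw [← hr]
      have h2 : 1 / η ≤ m * r := by
        rw [div_le_iff₀ (by positivity)] at hm
        rw [div_le_iff₀ hη]
        linarith
      have h3 : 1 / η ≤ Real.exp (m * r) := by linarith
      calc 1 = η * (1 / η) := by field_simp
        _ ≤ _ := by gcongr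

end Pool.Agent.Helper702
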