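import Mathlib
import Pool.Agent.Helper702.DPRM

set_option autoImplicit false

namespace Pool.Agent.Helper702

open MvPolynomial

theorem mv_lip {ι : Type} [Fintype ι] (q : MvPolynomial ι ℤ) :
    ∃ (C : ℝ) (D : ℕ), 0 < C ∧ (∀ x : ι → ℝ, |aeval x q| ≤ C * (1 + ‖x‖) ^ D) ∧
      ∀ x y : ι → ℝ, (∀ i, |x i - y i| ≤ 1 / 2) →
        |aeval x q - aeval y q| ≤ C * (1 + ‖x‖) ^ D * ‖x - y‖ := by
  induction q using MvPolynomial.induction_on with
  | C a =>
    refine ⟨|(a : ℝ)| + 1, 0, by positivity, fun x => ?_, fun x y _ => ?_⟩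
    · simp
    · simp; positivity
  | add p q hp hq =>
    obtain ⟨C1, D1, h1, b1, l1⟩ := hp
    obtain ⟨C2, D2, h2, b2, l2⟩ := hq
    have mono : ∀ (x : ι → ℝ) (D D' : ℕ), D ≤ D' → (1 + ‖x‖) ^ D ≤ (1 + ‖x‖) ^ D' := by
      intro x D D' h
      apply pow_le_pow_right₀ _ h
      have := norm_nonneg x; linarith
    refine ⟨C1 + C2, D1 + D2, by positivity, fun x => ?_, fun x y hxy => ?_⟩
    · rw [map_add]
      calc |aeval x p + aeval x q| ≤ |aeval x p| + |aeval x q| := abs_add_le _ _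
        _ ≤ C1 * (1 + ‖x‖) ^ D1 + C2 * (1 + ‖x‖) ^ D2 := add_le_add (b1 x) (b2 x)
        _ ≤ C1 * (1 + ‖x‖) ^ (D1 + D2) + C2 * (1 + ‖x‖) ^ (D1 + D2) := by
          have e1 := mono x D1 (D1 + D2) (by omega)
          have e2 := mono x D2 (D1 + D2) (by omega)
          gcongr
        _ = _ := by ring
    · rw [map_add, map_add]
      have e1 := mono x D1 (D1 + D2) (by omega)
      have e2 := mono x D2 (D1 + D2) (by omega)
      calc |aeval x p + aeval x q - (aeval y p + aeval y q)|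
          = |(aeval x p - aeval y p) + (aeval x q - aeval y q)| := by congr 1; ring
        _ ≤ |aeval x p - aeval y p| + |aeval x q - aeval y q| := abs_add_le _ _
        _ ≤ C1 * (1 + ‖x‖) ^ D1 * ‖x - y‖ + C2 * (1 + ‖x‖) ^ D2 * ‖x - y‖ :=
          add_le_add (l1 x y hxy) (l2 x y hxy)
        _ ≤ C1 * (1 + ‖x‖) ^ (D1 + D2) * ‖x - y‖ + C2 * (1 + ‖x‖) ^ (D1 + D2) * ‖x - y‖ := by
          gcongr
        _ = _ := by ring
  | mul_X p i hp =>
    obtain ⟨C1, D1, h1, b1, l1⟩ := hp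
    refine ⟨C1 + C1 * 2 ^ D1, D1 + 1, by positivity, fun x => ?_, fun x y hxy => ?_⟩
    · rw [map_mul, aeval_X, abs_mul]
      have hx : |x i| ≤ 1 + ‖x‖ := by
        have := norm_le_pi_norm x i
        rw [Real.norm_eq_abs] at this; linarith
      calc |aeval x p| * |x i| ≤ (C1 * (1 + ‖x‖) ^ D1) * (1 + ‖x‖) := by
            apply mul_le_mul (b1 x) hx (abs_nonneg _) (by positivity)
        _ = C1 * (1 + ‖x‖) ^ (D1 + 1) := by ring
        _ ≤ (C1 + C1 * 2 ^ D1) * (1 + ‖x‖) ^ (D1 + 1) := by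
          have : 0 ≤ C1 * 2 ^ D1 := by positivity
          have h3 : 0 ≤ (1 + ‖x‖) ^ (D1 + 1) := by positivity
          nlinarith
    · rw [map_mul, map_mul, aeval_X, aeval_X]
      have hx : |x i| ≤ 1 + ‖x‖ := by
        have := norm_le_pi_norm x i
        rw [Real.norm_eq_abs] at this; linarith
      have hxy' : |x i - y i| ≤ ‖x - y‖ := by
        have := norm_le_pi_norm (x - y) i
        rwa [Real.norm_eq_abs] at this
      have hy : ‖y‖ ≤ ‖x‖ + 1 / 2 := by
        have h3 : ‖x - y‖ ≤ 1 / 2 := by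
          rw [pi_norm_le_iff_of_nonneg (by norm_num)]
          intro i; exact hxy i
        have h4 : ‖y‖ ≤ ‖x‖ + ‖y - x‖ := by
          calc ‖y‖ = ‖x + (y - x)‖ := by congr 1; simp
            _ ≤ _ := norm_add_le _ _
        rw [norm_sub_rev] at h4; linarith
      have hby : |aeval y p| ≤ C1 * 2 ^ D1 * (1 + ‖x‖) ^ D1 := by
        refine (b1 y).trans ?_
        have : (1 + ‖y‖) ^ D1 ≤ (2 * (1 + ‖x‖)) ^ D1 := by
          apply pow_le_pow_left₀ (by positivity)
          have := norm_nonneg x; linarith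
        rw [mul_pow] at this
        calc C1 * (1 + ‖y‖) ^ D1 ≤ C1 * (2 ^ D1 * (1 + ‖x‖) ^ D1) := by gcongr
          _ = _ := by ring
      calc |aeval x p * x i - aeval y p * y i|
          = |(aeval x p - aeval y p) * x i + aeval y p * (x i - y i)| := by congr 1; ring
        _ ≤ |(aeval x p - aeval y p) * x i| + |aeval y p * (x i - y i)| := abs_add_le _ _
        _ = |aeval x p - aeval y p| * |x i| + |aeval y p| * |x i - y i| := by rw [abs_mul, abs_mul]
        _ ≤ (C1 * (1 + ‖x‖) ^ D1 * ‖x - y‖) * (1 + ‖x‖) + (C1 * 2 ^ D1 * (1 + ‖x‖) ^ D1) * ‖x - y‖ := by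
          have e1 := l1 x y hxy
          gcongr
        _ ≤ (C1 * (1 + ‖x‖) ^ D1 * ‖x - y‖) * (1 + ‖x‖) + (C1 * 2 ^ D1 * (1 + ‖x‖) ^ D1) * ‖x - y‖ * (1 + ‖x‖) := by
          have h5 : 0 ≤ (C1 * 2 ^ D1 * (1 + ‖x‖) ^ D1) * ‖x - y‖ := by positivity
          have := norm_nonneg x
          nlinarith
        _ = _ := by ring

/-- homogenised evaluation -/
noncomputable def hom {ι : Type} [Fintype ι] (M : ℕ) (q : MvPolynomial ι ℤ) (z : ℝ) (y : ι → ℝ) : ℝ :=
  ∑ m ∈ q.support, ((coeff m q : ℤ) : ℝ) * (z ^ (M - m.degree) * ∏ i, y i ^ (m i))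

theorem hom_eq {ι : Type} [Fintype ι] (M : ℕ) (q : MvPolynomial ι ℤ) (hM : q.totalDegree ≤ M) (z : ℝ)
    (y : ι → ℝ) (hz : z ≠ 0) : hom M q z y = z ^ M * aeval (fun i => y i / z) q := by
  rw [aeval_def, eval₂_eq', Finset.mul_sum]
  unfold hom
  apply Finset.sum_congr rfl
  intro m hm
  have h1 : m.degree ≤ M := by
    have := MvPolynomial.le_totalDegree hm
    refine le_trans (le_of_eq ?_) (this.trans hM)
    rfl
  have h2 : ∏ i, (y i / z) ^ (m i) = (∏ i, y i ^ (m i)) / z ^ m.degree := by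
    simp_rw [div_pow]
    rw [Finset.prod_div_distrib, Finset.prod_pow_eq_pow_sum]
    congr 2
    exact (Finsupp.degree_eq_sum m).symm
  rw [h2]
  have h3 : z ^ M = z ^ (M - m.degree) * z ^ m.degree := by rw [← pow_add]; congr 1; omega
  rw [h3]
  have h4 : (algebraMap ℤ ℝ) (coeff m q) = ((coeff m q : ℤ) : ℝ) := rfl
  rw [h4]
  field_simp

theorem hom_zero {ι : Type} [Fintype ι] (M : ℕ) (q : MvPolynomial ι ℤ) (hM : q.totalDegree < M)
    (y : ι → ℝ) : hom M q 0 y = 0 := by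
  unfold hom
  apply Finset.sum_eq_zero
  intro m hm
  have h1 : m.degree ≤ q.totalDegree := MvPolynomial.le_totalDegree hm
  have h2 : M - m.degree ≠ 0 := by omega
  rw [zero_pow h2]; simp

/-- from `Poly` to `MvPolynomial` -/
theorem poly_mv {γ : Type} (p : Poly γ) : ∃ q : MvPolynomial γ ℤ, ∀ x : γ → ℕ,
    p x = aeval (fun i => (x i : ℤ)) q := by
  refine Poly.induction (C := fun p => ∃ q : MvPolynomial γ ℤ, ∀ x : γ → ℕ,
    p x = aeval (fun i => (x i : ℤ)) q) ?_ ?_ ?_ ?_ p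
  · intro i; exact ⟨X i, fun x => by simp⟩
  · intro n; exact ⟨C n, fun x => by simp⟩
  · rintro f g ⟨p, hp⟩ ⟨q, hq⟩; exact ⟨p - q, fun x => by rw [Poly.sub_apply, hp, hq, map_sub]⟩
  · rintro f g ⟨p, hp⟩ ⟨q, hq⟩; exact ⟨p * q, fun x => by rw [Poly.mul_apply, hp, hq, map_mul]⟩

/-- every r.e. set is described by a sum-of-squares type polynomial over the integers -/
theorem re_mv {P : ℕ → Prop} (hP : REPred P) : ∃ (k : ℕ) (p0 p1 p2 : MvPolynomial (Fin k) ℤ),
    (∀ (a : ℕ) (x : Fin k → ℝ), 0 ≤ aeval x p0 + a * aeval x p1 + (a : ℝ) ^ 2 * aeval x p2) ∧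
    (∀ a : ℕ, P a ↔ ∃ n : Fin k → ℤ, aeval n p0 + a * aeval n p1 + (a : ℤ) ^ 2 * aeval n p2 = 0) := by
  obtain ⟨δ, _, p, hp⟩ := finite_dummies (dprm hP)
  obtain ⟨q, hq⟩ := poly_mv p
  -- four squares
  set I := (Unit ⊕ δ) × Fin 4 with hI
  set sq : Unit ⊕ δ → MvPolynomial I ℤ := fun i => ∑ j : Fin 4, X (i, j) ^ 2 with hsq
  set Q : MvPolynomial I ℤ := bind₁ sq q with hQ
  set q0 : MvPolynomial I ℤ := Q ^ 2 + (sq (Sum.inl ())) ^ 2 with hq0
  set q1 : MvPolynomial I ℤ := -(2 * sq (Sum.inl ())) with hq1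
  set q2 : MvPolynomial I ℤ := 1 with hq2
  set e := Fintype.equivFin I with he
  refine ⟨Fintype.card I, rename e q0, rename e q1, rename e q2, ?_, ?_⟩
  · intro a x
    simp only [aeval_rename, hq0, hq1, hq2, map_add, map_pow, map_neg, map_mul, map_one, map_ofNat]
    nlinarith [sq_nonneg (aeval (x ∘ e) Q), sq_nonneg (aeval (x ∘ e) (sq (Sum.inl ())) - a)]
  · intro a
    have h1 : P a ↔ ∃ t, p (Sum.elim (fun _ => a) t) = 0 := hp (fun _ => a)
    rw [h1]
    have hsqev : ∀ (n : I → ℤ) (i : Unit ⊕ δ), aeval n (sq i) = ∑ j : Fin 4, n (i, j) ^ 2 := by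
      intro n i; simp [hsq]
    have hQev : ∀ (n : I → ℤ), aeval n Q = aeval (fun i => ∑ j : Fin 4, n (i, j) ^ 2) q := by
      intro n
      rw [hQ, aeval_bind₁]
      congr 2
      funext i
      exact hsqev n i
    constructor
    · rintro ⟨t, ht⟩
      have h4 : ∀ m : ℕ, ∃ f : Fin 4 → ℤ, ∑ j, f j ^ 2 = m := by
        intro m
        obtain ⟨a', b, c, d, h⟩ := Nat.sum_four_squares m
        refine ⟨![a', b, c, d], ?_⟩
        simp [Fin.sum_univ_four]
        exact_mod_cast h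
      choose f hf using h4
      set n : I → ℤ := fun ij => f (Sum.elim (fun _ => a) t ij.1) ij.2 with hn
      have hns : ∀ i, ∑ j : Fin 4, n (i, j) ^ 2 = ((Sum.elim (fun _ => a) t i : ℕ) : ℤ) := by
        intro i; simp only [hn]; exact hf _
      refine ⟨n ∘ e.symm, ?_⟩
      have hcomp : (n ∘ e.symm) ∘ e = n := by funext i; simp
      simp only [aeval_rename, hcomp, hq0, hq1, hq2, map_add, map_pow, map_neg, map_mul, map_one,
        map_ofNat, hsqev, hQev]
      have e1 : aeval (fun i => ∑ j : Fin 4, n (i, j) ^ 2) q = 0 := by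
        rw [← ht, hq]
        congr 2
        funext i
        exact hns i
      rw [e1, hns (Sum.inl ())]
      simp
      ring
    · rintro ⟨n', hn'⟩
      set n : I → ℤ := n' ∘ e with hn
      simp only [aeval_rename, hq0, hq1, hq2, map_add, map_pow, map_neg, map_mul, map_one,
        map_ofNat] at hn'
      rw [← hn, hsqev, hQev] at hn'
      have hX : ∀ i, ∃ m : ℕ, ∑ j : Fin 4, n (i, j) ^ 2 = (m : ℤ) := by
        intro i
        have : 0 ≤ ∑ j : Fin 4, n (i, j) ^ 2 := Finset.sum_nonneg fun j _ => sq_nonneg _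
        exact ⟨_, (Int.toNat_of_nonneg this).symm⟩
      choose m hm using hX
      simp only [hm] at hn'
      set ev := aeval (fun i => (m i : ℤ)) q with hev
      have h5 : ev ^ 2 + ((m (Sum.inl ()) : ℤ) - a) ^ 2 = 0 := by linear_combination hn'
      have h6 : ev = 0 := by nlinarith [sq_nonneg ev, sq_nonneg ((m (Sum.inl ()) : ℤ) - a)]
      have h7 : (m (Sum.inl ()) : ℤ) - a = 0 := by nlinarith [sq_nonneg ev, sq_nonneg ((m (Sum.inl ()) : ℤ) - a)]
      refine ⟨fun d => m (Sum.inr d), ?_⟩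
      rw [hq, ← h6, hev]
      congr 2
      funext i
      rcases i with i | i
      · simp only [Sum.elim_inl]
        have : (m (Sum.inl ()) : ℤ) = a := by linarith
        exact this.symm
      · rfl

end Pool.Agent.Helper702
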