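import Mathlib
import Pool.Agent.Helper702.PolyA
import Pool.Agent.Helper702.OdeF

set_option autoImplicit false

namespace Pool.Agent.Helper702

open MvPolynomial

/-- the right-hand side encoded by a list of monomials, as in the frozen statement -/
noncomputable def rhs {n : ℕ} (d : ℕ) (L : List (Fin n × (Fin n → ℕ) × (ℤ × ℕ))) (x : Fin n → ℝ)
    (i : Fin n) : ℝ :=
  (L.map (fun p : Fin n × (Fin n → ℕ) × (ℤ × ℕ) =>
    if p.1 = i ∧ 0 < ∑ j, p.2.1 j ∧ ∑ j, p.2.1 j ≤ d then
      ((p.2.2.1 : ℝ) / ((p.2.2.2 : ℝ) + 1)) * ∏ j, (x j) ^ (p.2.1 j)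
    else 0)).sum

theorem rhs_append {n : ℕ} (d : ℕ) (L L' : List (Fin n × (Fin n → ℕ) × (ℤ × ℕ))) (x : Fin n → ℝ)
    (i : Fin n) : rhs d (L ++ L') x i = rhs d L x i + rhs d L' x i := by
  simp [rhs]

theorem rhs_rep {n : ℕ} (d : ℕ) (L : List (Fin n × (Fin n → ℕ) × (ℤ × ℕ))) (x : Fin n → ℝ)
    (i : Fin n) (a : ℕ) : rhs d ((List.range a).flatMap (fun _ => L)) x i = a * rhs d L x i := by
  induction a with
  | zero => simp [rhs]
  | succ a ih =>
    rw [List.range_succ, List.flatMap_append, rhs_append, ih]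
    simp
    ring

/-- list of monomials of a polynomial vector field -/
noncomputable def listOf {V : Type} [Fintype V] {n : ℕ} (e : V ≃ Fin n) (F : V → MvPolynomial V ℤ) :
    List (Fin n × (Fin n → ℕ) × (ℤ × ℕ)) :=
  (Finset.univ : Finset V).toList.flatMap fun i =>
    (F i).support.toList.map fun m => (e i, (fun j => m (e.symm j)), (coeff m (F i), 0))

theorem sum_flatMap' {α : Type} (l : List α) (f : α → List ℝ) :
    (l.flatMap f).sum = (l.map fun a => (f a).sum).sum := by
  induction l with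
  | nil => simp
  | cons a l ih => simp [ih]

theorem rhs_listOf {V : Type} [Fintype V] {n : ℕ} (e : V ≃ Fin n) (F : V → MvPolynomial V ℤ) (d : ℕ)
    (h0 : ∀ i, constantCoeff (F i) = 0) (hd : ∀ i, (F i).totalDegree ≤ d) (x : Fin n → ℝ) (i : V) :
    rhs d (listOf e F) x (e i) = aeval (fun v => x (e v)) (F i) := by
  classical
  unfold rhs listOf
  rw [List.map_flatMap, sum_flatMap']
  simp only [List.map_map]
  rw [Finset.sum_map_toList]
  have hinner : ∀ i' : V, ((F i').support.toList.map ((fun p : Fin n × (Fin n → ℕ) × (ℤ × ℕ) =>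
      if p.1 = e i ∧ 0 < ∑ j, p.2.1 j ∧ ∑ j, p.2.1 j ≤ d then
        ((p.2.2.1 : ℝ) / ((p.2.2.2 : ℝ) + 1)) * ∏ j, (x j) ^ (p.2.1 j)
      else 0) ∘ fun m => (e i', (fun j => m (e.symm j)), (coeff m (F i'), 0)))).sum =
      if i' = i then aeval (fun v => x (e v)) (F i) else 0 := by
    intro i'
    rw [Finset.sum_map_toList]
    by_cases hi : i' = i
    · subst hi
      simp only [if_true, Function.comp]
      rw [aeval_def, eval₂_eq']
      apply Finset.sum_congr rfl
      intro m hm
      have h1 : ∑ j, m (e.symm j) = ∑ v, m v := Equiv.sum_comp e.symm (fun v => m v)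
      have h2 : ∑ v, m v = m.degree := (Finsupp.degree_eq_sum m).symm
      have h3 : m.degree ≤ d := (MvPolynomial.le_totalDegree hm).trans (hd i')
      have h4 : 0 < m.degree := by
        rw [Nat.pos_iff_ne_zero]
        intro hz
        have hm0 : m = 0 := (Finsupp.degree_eq_zero_iff m).1 hz
        rw [hm0] at hm
        have := h0 i'
        rw [constantCoeff_eq] at this
        exact (mem_support_iff.1 hm) this
      have h5 : ∏ j, x j ^ m (e.symm j) = ∏ v, x (e v) ^ m v := by
        rw [← Equiv.prod_comp e]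
        simp
      rw [if_pos ⟨trivial, by rw [h1, h2]; exact h4, by rw [h1, h2]; exact h3⟩, h5]
      simp
    · have : ¬ (e i' = e i) := fun h => hi (e.injective h)
      simp [hi, Function.comp, this]
  simp only [hinner]
  simp

end Pool.Agent.Helper702
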