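import Mathlib
import Pool.Agent.Helper702.ListA

set_option autoImplicit false

namespace Pool.Agent.Helper702

open MvPolynomial Set

/-- the state variables of the differential equation -/
inductive Vr (k : ℕ) : Type
  | z | h | κ | u | v | A | B | w
  | y (i : Fin k) | c (i : Fin k) | s (i : Fin k)

/-- the underlying sum type -/
def Vr.toSum {k : ℕ} : Vr k → Fin 8 ⊕ (Fin k ⊕ (Fin k ⊕ Fin k))
  | .z => Sum.inl 0 | .h => Sum.inl 1 | .κ => Sum.inl 2 | .u => Sum.inl 3 | .v => Sum.inl 4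
  | .A => Sum.inl 5 | .B => Sum.inl 6 | .w => Sum.inl 7
  | .y i => Sum.inr (Sum.inl i) | .c i => Sum.inr (Sum.inr (Sum.inl i))
  | .s i => Sum.inr (Sum.inr (Sum.inr i))

theorem Vr.toSum_injective {k : ℕ} : Function.Injective (Vr.toSum (k := k)) := by
  intro a b hab
  cases a <;> cases b <;> simp_all [Vr.toSum]

noncomputable instance (k : ℕ) : Fintype (Vr k) := Fintype.ofInjective _ Vr.toSum_injective

/-- homogenised polynomial in the state variables -/
noncomputable def homP {k : ℕ} (M : ℕ) (q : MvPolynomial (Fin k) ℤ) : MvPolynomial (Vr k) ℤ :=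
  ∑ m ∈ q.support, C (coeff m q) * (X Vr.z ^ (M - m.degree) * ∏ i, X (Vr.y i) ^ (m i))

theorem homP_eval {k : ℕ} (M : ℕ) (q : MvPolynomial (Fin k) ℤ) (x : Vr k → ℝ) :
    aeval x (homP M q) = hom M q (x Vr.z) (fun i => x (Vr.y i)) := by
  unfold homP hom
  simp [map_sum, map_mul, map_prod, map_pow]

/-- the fixed part of the vector field -/
noncomputable def F0 {k : ℕ} (N : ℕ) (p : MvPolynomial (Fin k) ℤ) : Vr k → MvPolynomial (Vr k) ℤ
  | .z => 0 | .h => 0 | .κ => 0
  | .u => -(X .z * X .v)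
  | .v => X .z * X .u
  | .A => -(X .κ * X .u * X .B ^ 2)
  | .B => X .κ * X .u * X .A * X .B
  | .w => (X .z ^ (2 * N) * X .B ^ 2 * (8 * X .h * (∑ i, X (.c i)) -
      8 * (∑ i, (X (.c i) ^ 2 + X (.s i) ^ 2)) - (2 * (k : MvPolynomial (Vr k) ℤ) - 1) * X .h ^ 2)
      - 4 * homP (2 * N) p) * X .w
  | .y _ => 0
  | .c i => -(X (.y i) * X (.s i))
  | .s i => X (.y i) * X (.c i)

/-- the parts proportional to `a` and `a^2` -/
noncomputable def F1 {k : ℕ} (N : ℕ) (p : MvPolynomial (Fin k) ℤ) : Vr k → MvPolynomial (Vr k) ℤ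
  | .w => -(4 * homP (2 * N) p) * X .w
  | _ => 0

theorem F0_const {k : ℕ} (N : ℕ) (p : MvPolynomial (Fin k) ℤ) (i : Vr k) :
    constantCoeff (F0 N p i) = 0 := by
  cases i <;> simp [F0]

theorem F1_const {k : ℕ} (N : ℕ) (p : MvPolynomial (Fin k) ℤ) (i : Vr k) :
    constantCoeff (F1 N p i) = 0 := by
  cases i <;> simp [F1]

/-- Lyapunov stability as in the frozen statement -/
def Stab (n d : ℕ) (L : List (Fin n × (Fin n → ℕ) × (ℤ × ℕ))) : Prop :=
  ∀ ε : ℝ, 0 < ε → ∃ δ : ℝ, 0 < δ ∧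
    ∀ T : ℝ, 0 ≤ T → ∀ γ : ℝ → (Fin n → ℝ),
      ‖γ 0‖ < δ →
      (∀ t ∈ Set.Icc (0 : ℝ) T,
        HasDerivWithinAt γ (fun i : Fin n => rhs d L (γ t) i) (Set.Icc (0 : ℝ) T) t) →
      ∀ t ∈ Set.Icc (0 : ℝ) T, ‖γ t‖ < ε

/-- the list attached to the parameter `a` -/
def La {n : ℕ} (L0 L1 L2 : List (Fin n × (Fin n → ℕ) × (ℤ × ℕ))) (a : ℕ) :
    List (Fin n × (Fin n → ℕ) × (ℤ × ℕ)) :=
  L0 ++ ((List.range a).flatMap (fun _ => L1) ++ (List.range (a * a)).flatMap (fun _ => L2))

theorem reduction {P : ℕ → Prop} (hP : REPred P) :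
    ∃ (n d : ℕ) (L0 L1 L2 : List (Fin n × (Fin n → ℕ) × (ℤ × ℕ))),
      ∀ a : ℕ, Stab n d (La L0 L1 L2 a) ↔ ¬ P a := by
  classical
  obtain ⟨k, p0, p1, p2, hnn, hPk⟩ := re_mv hP
  obtain ⟨C0, D0, hC0, -, l0⟩ := mv_lip p0
  obtain ⟨C1, D1, hC1, -, l1⟩ := mv_lip p1
  obtain ⟨C2, D2, hC2, -, l2⟩ := mv_lip p2
  set D := D0 + D1 + D2 with hD
  set N := D + p0.totalDegree + p1.totalDegree + p2.totalDegree + 1 with hN
  set e : Vr k ≃ Fin (Fintype.card (Vr k)) := Fintype.equivFin (Vr k) with he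
  set d := (∑ i : Vr k, (F0 N p0 i).totalDegree) + (∑ i : Vr k, (F1 N p1 i).totalDegree)
    + (∑ i : Vr k, (F1 N p2 i).totalDegree) with hd
  have hd0 : ∀ i, (F0 N p0 i).totalDegree ≤ d := by
    intro i
    have := Finset.single_le_sum (f := fun i => (F0 N p0 i).totalDegree) (fun _ _ => Nat.zero_le _) (Finset.mem_univ i)
    omega
  have hd1 : ∀ i, (F1 N p1 i).totalDegree ≤ d := by
    intro i
    have := Finset.single_le_sum (f := fun i => (F1 N p1 i).totalDegree) (fun _ _ => Nat.zero_le _) (Finset.mem_univ i)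
    omega
  have hd2 : ∀ i, (F1 N p2 i).totalDegree ≤ d := by
    intro i
    have := Finset.single_le_sum (f := fun i => (F1 N p2 i).totalDegree) (fun _ _ => Nat.zero_le _) (Finset.mem_univ i)
    omega
  refine ⟨Fintype.card (Vr k), d, listOf e (F0 N p0), listOf e (F1 N p1), listOf e (F1 N p2), fun a => ?_⟩
  -- the right-hand side
  have hrhs : ∀ (x : Fin (Fintype.card (Vr k)) → ℝ) (i : Vr k),
      rhs d (La (listOf e (F0 N p0)) (listOf e (F1 N p1)) (listOf e (F1 N p2)) a) x (e i) =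
      aeval (fun v => x (e v)) (F0 N p0 i) + (a * aeval (fun v => x (e v)) (F1 N p1 i)
        + ((a * a : ℕ) : ℝ) * aeval (fun v => x (e v)) (F1 N p2 i)) := by
    intro x i
    unfold La
    rw [rhs_append, rhs_append, rhs_rep, rhs_rep, rhs_listOf e _ d (F0_const N p0) hd0,
      rhs_listOf e _ d (F1_const N p1) hd1, rhs_listOf e _ d (F1_const N p2) hd2]
  -- the real functions
  set p : (Fin k → ℝ) → ℝ := fun x => aeval x p0 + a * aeval x p1 + (a : ℝ) ^ 2 * aeval x p2 with hp
  set H : ℝ → (Fin k → ℝ) → ℝ := fun z y => hom (2 * N) p0 z y + a * hom (2 * N) p1 z y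
    + (a : ℝ) ^ 2 * hom (2 * N) p2 z y with hH
  have hHne : ∀ z y, z ≠ 0 → H z y = z ^ (2 * N) * p (fun i => y i / z) := by
    intro z y hz
    simp only [hH, hp]
    rw [hom_eq _ p0 (by omega) z y hz, hom_eq _ p1 (by omega) z y hz, hom_eq _ p2 (by omega) z y hz]
    ring
  have hH0 : ∀ y, H 0 y = 0 := by
    intro y
    simp only [hH]
    rw [hom_zero _ p0 (by omega), hom_zero _ p1 (by omega), hom_zero _ p2 (by omega)]
    ring
  have hcast : ∀ n : Fin k → ℤ, p (fun i => (n i : ℝ)) =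
      ((aeval n p0 + a * aeval n p1 + (a : ℤ) ^ 2 * aeval n p2 : ℤ) : ℝ) := by
    intro n
    have h1 : ∀ q : MvPolynomial (Fin k) ℤ, aeval (fun i => (n i : ℝ)) q = ((aeval n q : ℤ) : ℝ) := by
      intro q
      exact aeval_algebraMap_apply ℝ n q
    simp only [hp, h1]
    push_cast
    ring
  have hw : ∀ x : Vr k → ℝ, aeval x (F0 N p0 .w) + (a * aeval x (F1 N p1 .w)
        + ((a * a : ℕ) : ℝ) * aeval x (F1 N p2 .w)) =
      (x .z ^ (2 * N) * x .B ^ 2 * (8 * x .h * ∑ i, x (.c i) - 8 * ∑ i, (x (.c i) ^ 2 + x (.s i) ^ 2)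
      - (2 * (Fintype.card (Fin k) : ℝ) - 1) * x .h ^ 2) - 4 * H (x .z) (fun i => x (.y i))) * x .w := by
    intro x
    simp only [F0, F1, map_sub, map_mul, map_pow, map_neg, map_sum, map_add, aeval_X, homP_eval,
      map_ofNat, map_one, map_natCast, hH, Fintype.card_fin]
    push_cast
    ring
  constructor
  · -- stable implies not P
    intro hst hPa
    obtain ⟨nn, hnn'⟩ := (hPk a).1 hPa
    have hn0 : p (fun i => (nn i : ℝ)) = 0 := by rw [hcast, hnn']; simp
    obtain ⟨δ, hδ, hst'⟩ := hst 1 one_pos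
    obtain ⟨T, z, h, κ, u, v, A, B, w, y, c, s, hT, S, b1, b2, b3, b4, b5, b6, b7, b8, b9, b10, b11, hbig⟩ :=
      unstable_core p N H hHne nn hn0 (δ / 2) (by linarith)
    set st : ℝ → Vr k → ℝ := fun t i => match i with
      | .z => z t | .h => h t | .κ => κ t | .u => u t | .v => v t | .A => A t | .B => B t | .w => w t
      | .y i => y i t | .c i => c i t | .s i => s i t with hst_def
    have h1 := hst' T hT (fun t j => st t (e.symm j)) ?_ ?_ T ⟨hT, le_rfl⟩
    · have h2 : ‖(fun j => st T (e.symm j)) (e .w)‖ ≤ ‖(fun j => st T (e.symm j))‖ := norm_le_pi_norm (fun j => st T (e.symm j)) (e .w)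
      simp only [Equiv.symm_apply_apply, Real.norm_eq_abs] at h2
      have h3 : st T .w = w T := rfl
      rw [h3] at h2
      linarith
    · rw [pi_norm_lt_iff hδ]
      intro j
      have hlt : ∀ x : ℝ, |x| ≤ δ / 2 → ‖x‖ < δ := fun x hx => by rw [Real.norm_eq_abs]; linarith
      apply hlt
      generalize e.symm j = i
      cases i with
      | z => exact b1
      | h => exact b2
      | κ => exact b3
      | u => exact b4
      | v => exact b5
      | A => exact b6
      | B => exact b7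
      | w => exact b8
      | y i => exact b9 i
      | c i => exact b10 i
      | s i => exact b11 i
    · intro t ht
      rw [hasDerivWithinAt_pi]
      intro j
      obtain ⟨i, rfl⟩ := e.surjective j
      simp only [hrhs, Equiv.symm_apply_apply]
      cases i with
      | z => simpa [F0, F1] using S.hz t ht
      | h => simpa [F0, F1] using S.hh t ht
      | κ => simpa [F0, F1] using S.hκ t ht
      | u => simpa [F0, F1] using S.hu t ht
      | v => simpa [F0, F1] using S.hv t ht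
      | A => simpa [F0, F1] using S.hA t ht
      | B => simpa [F0, F1] using S.hB t ht
      | w =>
        have := hw (fun v => st t v)
        rw [this]
        exact S.hw t ht
      | y i => simpa [F0, F1] using S.hy i t ht
      | c i => simpa [F0, F1] using S.hc i t ht
      | s i => simpa [F0, F1] using S.hs i t ht
  · -- not P implies stable
    intro hPa ε hε
    have hp0 : ∀ x, 0 ≤ p x := fun x => hnn a x
    have hint : ∀ n : Fin k → ℤ, 1 ≤ p (fun i => (n i : ℝ)) := by
      intro n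
      have h1 := hp0 (fun i => (n i : ℝ))
      rw [hcast] at h1 ⊢
      have h2 : (0 : ℤ) ≤ aeval n p0 + a * aeval n p1 + (a : ℤ) ^ 2 * aeval n p2 := by exact_mod_cast h1
      have h3 : aeval n p0 + a * aeval n p1 + (a : ℤ) ^ 2 * aeval n p2 ≠ 0 := fun h0 =>
        hPa ((hPk a).2 ⟨n, h0⟩)
      have h4 : (1 : ℤ) ≤ aeval n p0 + a * aeval n p1 + (a : ℤ) ^ 2 * aeval n p2 := by omega
      exact_mod_cast h4
    set Cp := C0 + a * C1 + (a : ℝ) ^ 2 * C2 with hCp
    have hCpos : 0 < Cp := by positivity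
    have hLip : ∀ (x : Fin k → ℝ) (n : Fin k → ℤ), (∀ i, |x i - n i| ≤ 1 / 2) →
        |p x - p (fun i => (n i : ℝ))| ≤ Cp * (1 + ‖x‖) ^ D * ‖x - fun i => (n i : ℝ)‖ := by
      intro x n hxn
      have mono : ∀ (E : ℕ), E ≤ D → (1 + ‖x‖) ^ E ≤ (1 + ‖x‖) ^ D := by
        intro E h
        apply pow_le_pow_right₀ _ h
        have := norm_nonneg x; linarith
      have e0 := (l0 x _ hxn).trans (mul_le_mul_of_nonneg_right (mul_le_mul_of_nonneg_left (mono D0 (by omega)) hC0.le) (norm_nonneg _))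
      have e1 := (l1 x _ hxn).trans (mul_le_mul_of_nonneg_right (mul_le_mul_of_nonneg_left (mono D1 (by omega)) hC1.le) (norm_nonneg _))
      have e2 := (l2 x _ hxn).trans (mul_le_mul_of_nonneg_right (mul_le_mul_of_nonneg_left (mono D2 (by omega)) hC2.le) (norm_nonneg _))
      set y : Fin k → ℝ := fun i => (n i : ℝ) with hy
      calc |p x - p y| = |(aeval x p0 - aeval y p0) + a * (aeval x p1 - aeval y p1)
            + (a : ℝ) ^ 2 * (aeval x p2 - aeval y p2)| := by simp only [hp]; congr 1; ring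
        _ ≤ |(aeval x p0 - aeval y p0) + a * (aeval x p1 - aeval y p1)|
            + |(a : ℝ) ^ 2 * (aeval x p2 - aeval y p2)| := abs_add_le _ _
        _ ≤ |aeval x p0 - aeval y p0| + |a * (aeval x p1 - aeval y p1)|
            + |(a : ℝ) ^ 2 * (aeval x p2 - aeval y p2)| := by
            gcongr; exact abs_add_le _ _
        _ = |aeval x p0 - aeval y p0| + a * |aeval x p1 - aeval y p1|
            + (a : ℝ) ^ 2 * |aeval x p2 - aeval y p2| := by
            rw [abs_mul, abs_mul, abs_of_nonneg (by positivity : (0 : ℝ) ≤ a), abs_of_nonneg (by positivity : (0 : ℝ) ≤ (a : ℝ) ^ 2)]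
        _ ≤ C0 * (1 + ‖x‖) ^ D * ‖x - y‖ + a * (C1 * (1 + ‖x‖) ^ D * ‖x - y‖)
            + (a : ℝ) ^ 2 * (C2 * (1 + ‖x‖) ^ D * ‖x - y‖) := by gcongr
        _ = _ := by rw [hCp]; ring
    set M := Real.exp (64 * Real.pi * (1 + Cp * 2 ^ D)) with hM
    have hMpos : 0 < M := Real.exp_pos _
    refine ⟨min 1 (min (ε / 2) (ε / M)), by positivity, fun T hT γ hγ0 hγ t ht => ?_⟩
    have hδ1 : ‖γ 0‖ < 1 := lt_of_lt_of_le hγ0 (min_le_left _ _)
    have hδ2 : ‖γ 0‖ < ε / 2 := lt_of_lt_of_le hγ0 ((min_le_right _ _).trans (min_le_left _ _))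
    have hδ3 : ‖γ 0‖ < ε / M := lt_of_lt_of_le hγ0 ((min_le_right _ _).trans (min_le_right _ _))
    have hcoord : ∀ i : Vr k, |γ 0 (e i)| ≤ ‖γ 0‖ := fun i => norm_le_pi_norm (γ 0) (e i)
    have hder : ∀ i : Vr k, ∀ t ∈ Icc (0 : ℝ) T, HasDerivWithinAt (fun t => γ t (e i))
        (aeval (fun v => γ t (e v)) (F0 N p0 i) + (a * aeval (fun v => γ t (e v)) (F1 N p1 i)
        + ((a * a : ℕ) : ℝ) * aeval (fun v => γ t (e v)) (F1 N p2 i))) (Icc 0 T) t := by
      intro i t ht
      have := (hasDerivWithinAt_pi.1 (hγ t ht)) (e i)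
      rwa [hrhs] at this
    have S : Sol N H T (fun t => γ t (e .z)) (fun t => γ t (e .h)) (fun t => γ t (e .κ))
        (fun t => γ t (e .u)) (fun t => γ t (e .v)) (fun t => γ t (e .A)) (fun t => γ t (e .B))
        (fun t => γ t (e .w)) (fun i t => γ t (e (.y i))) (fun i t => γ t (e (.c i)))
        (fun i t => γ t (e (.s i))) := by
      constructor
      · intro t ht; simpa [F0, F1] using hder .z t ht
      · intro t ht; simpa [F0, F1] using hder .h t ht
      · intro t ht; simpa [F0, F1] using hder .κ t ht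
      · intro i t ht; simpa [F0, F1] using hder (.y i) t ht
      · intro t ht; simpa [F0, F1] using hder .u t ht
      · intro t ht; simpa [F0, F1] using hder .v t ht
      · intro i t ht; simpa [F0, F1] using hder (.c i) t ht
      · intro i t ht; simpa [F0, F1] using hder (.s i) t ht
      · intro t ht; simpa [F0, F1] using hder .A t ht
      · intro t ht; simpa [F0, F1] using hder .B t ht
      · intro t ht
        have h1 := hder .w t ht
        rw [hw (fun v => γ t (e v))] at h1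
        exact h1
    have hone : ∀ i : Vr k, |γ 0 (e i)| ≤ 1 := fun i => (hcoord i).trans hδ1.le
    obtain ⟨r1, r2, r3, r4, r5, r6, r7, r8, r9, r10⟩ := stable_bound p hp0 Cp hCpos D N hLip hint (by omega) H hHne hH0 S
      (hone _) (hone _) (fun i => hone _) (fun i => hone _) (fun i => hone _) (hone _) (hone _) t ht
    rw [pi_norm_lt_iff hε]
    intro j
    obtain ⟨i, rfl⟩ := e.surjective j
    rw [Real.norm_eq_abs]
    cases i with
    | z => rw [r1]; linarith [hcoord .z]
    | h => rw [r2]; linarith [hcoord .h]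
    | κ => rw [r3]; linarith [hcoord .κ]
    | u => linarith [hcoord .u, hcoord .v]
    | v => linarith [hcoord .u, hcoord .v]
    | A => linarith [hcoord .A, hcoord .B]
    | B => linarith [hcoord .A, hcoord .B]
    | w =>
      refine lt_of_le_of_lt r10 ?_
      calc |γ 0 (e .w)| * M ≤ ‖γ 0‖ * M := by gcongr; exact hcoord .w
        _ < (ε / M) * M := by gcongr
        _ = ε := by field_simp
    | y i => have := r4 i; rw [this]; linarith [hcoord (.y i)]
    | c i => have := (r7 i).1; linarith [hcoord (.c i), hcoord (.s i)]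
    | s i => have := (r7 i).2; linarith [hcoord (.c i), hcoord (.s i)]

end Pool.Agent.Helper702
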