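import Mathlib

set_option autoImplicit false

/-!
# A group of unitriangular matrices of size five
-/

namespace Pool.Agent.Helper702.Pl

open Subgroup
open scoped commutatorElement

/-- unitriangular rational matrices of size five, `a` first, `b` second, `c` third diagonal, `d`
the corner -/
@[ext]
structure U : Type where
  a1 : ℚ
  a2 : ℚ
  a3 : ℚ
  a4 : ℚ
  b1 : ℚ
  b2 : ℚ
  b3 : ℚ
  c1 : ℚ
  c2 : ℚ
  d : ℚ

namespace U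

instance : Mul U := ⟨fun x y =>
  { a1 := x.a1 + y.a1
    a2 := x.a2 + y.a2
    a3 := x.a3 + y.a3
    a4 := x.a4 + y.a4
    b1 := x.b1 + x.a1 * y.a2 + y.b1
    b2 := x.b2 + x.a2 * y.a3 + y.b2
    b3 := x.b3 + x.a3 * y.a4 + y.b3
    c1 := x.c1 + x.b1 * y.a3 + x.a1 * y.b2 + y.c1
    c2 := x.c2 + x.b2 * y.a4 + x.a2 * y.b3 + y.c2
    d := x.d + x.c1 * y.a4 + x.b1 * y.b3 + x.a1 * y.c2 + y.d }⟩

instance : One U := ⟨⟨0, 0, 0, 0, 0, 0, 0, 0, 0, 0⟩⟩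

instance : Inv U := ⟨fun x =>
  { a1 := -x.a1
    a2 := -x.a2
    a3 := -x.a3
    a4 := -x.a4
    b1 := -x.b1 + x.a1 * x.a2
    b2 := -x.b2 + x.a2 * x.a3
    b3 := -x.b3 + x.a3 * x.a4
    c1 := -x.c1 + x.a1 * x.b2 + x.b1 * x.a3 - x.a1 * x.a2 * x.a3
    c2 := -x.c2 + x.a2 * x.b3 + x.b2 * x.a4 - x.a2 * x.a3 * x.a4
    d := -x.d + x.a1 * x.c2 + x.b1 * x.b3 + x.c1 * x.a4 - x.a1 * x.a2 * x.b3 - x.a1 * x.b2 * x.a4
      - x.b1 * x.a3 * x.a4 + x.a1 * x.a2 * x.a3 * x.a4 }⟩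

@[simp] lemma mul_a1 (x y : U) : (x * y).a1 = x.a1 + y.a1 := rfl
@[simp] lemma mul_a2 (x y : U) : (x * y).a2 = x.a2 + y.a2 := rfl
@[simp] lemma mul_a3 (x y : U) : (x * y).a3 = x.a3 + y.a3 := rfl
@[simp] lemma mul_a4 (x y : U) : (x * y).a4 = x.a4 + y.a4 := rfl
@[simp] lemma mul_b1 (x y : U) : (x * y).b1 = x.b1 + x.a1 * y.a2 + y.b1 := rfl
@[simp] lemma mul_b2 (x y : U) : (x * y).b2 = x.b2 + x.a2 * y.a3 + y.b2 := rfl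
@[simp] lemma mul_b3 (x y : U) : (x * y).b3 = x.b3 + x.a3 * y.a4 + y.b3 := rfl
@[simp] lemma mul_c1 (x y : U) : (x * y).c1 = x.c1 + x.b1 * y.a3 + x.a1 * y.b2 + y.c1 := rfl
@[simp] lemma mul_c2 (x y : U) : (x * y).c2 = x.c2 + x.b2 * y.a4 + x.a2 * y.b3 + y.c2 := rfl
@[simp] lemma mul_d (x y : U) : (x * y).d =
    x.d + x.c1 * y.a4 + x.b1 * y.b3 + x.a1 * y.c2 + y.d := rfl
@[simp] lemma one_a1 : (1 : U).a1 = 0 := rfl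
@[simp] lemma one_a2 : (1 : U).a2 = 0 := rfl
@[simp] lemma one_a3 : (1 : U).a3 = 0 := rfl
@[simp] lemma one_a4 : (1 : U).a4 = 0 := rfl
@[simp] lemma one_b1 : (1 : U).b1 = 0 := rfl
@[simp] lemma one_b2 : (1 : U).b2 = 0 := rfl
@[simp] lemma one_b3 : (1 : U).b3 = 0 := rfl
@[simp] lemma one_c1 : (1 : U).c1 = 0 := rfl
@[simp] lemma one_c2 : (1 : U).c2 = 0 := rfl
@[simp] lemma one_d : (1 : U).d = 0 := rfl
@[simp] lemma inv_a1 (x : U) : (x⁻¹).a1 = -x.a1 := rfl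
@[simp] lemma inv_a2 (x : U) : (x⁻¹).a2 = -x.a2 := rfl
@[simp] lemma inv_a3 (x : U) : (x⁻¹).a3 = -x.a3 := rfl
@[simp] lemma inv_a4 (x : U) : (x⁻¹).a4 = -x.a4 := rfl
@[simp] lemma inv_b1 (x : U) : (x⁻¹).b1 = -x.b1 + x.a1 * x.a2 := rfl
@[simp] lemma inv_b2 (x : U) : (x⁻¹).b2 = -x.b2 + x.a2 * x.a3 := rfl
@[simp] lemma inv_b3 (x : U) : (x⁻¹).b3 = -x.b3 + x.a3 * x.a4 := rfl
@[simp] lemma inv_c1 (x : U) : (x⁻¹).c1 =
    -x.c1 + x.a1 * x.b2 + x.b1 * x.a3 - x.a1 * x.a2 * x.a3 := rfl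
@[simp] lemma inv_c2 (x : U) : (x⁻¹).c2 =
    -x.c2 + x.a2 * x.b3 + x.b2 * x.a4 - x.a2 * x.a3 * x.a4 := rfl
@[simp] lemma inv_d (x : U) : (x⁻¹).d =
    -x.d + x.a1 * x.c2 + x.b1 * x.b3 + x.c1 * x.a4 - x.a1 * x.a2 * x.b3 - x.a1 * x.b2 * x.a4
      - x.b1 * x.a3 * x.a4 + x.a1 * x.a2 * x.a3 * x.a4 := rfl

instance : Group U := Group.ofLeftAxioms
  (by intro x y z; ext <;> simp <;> ring)
  (by intro x; ext <;> simp)
  (by intro x; ext <;> simp <;> ring)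

/-- conjugation by the alternating diagonal matrix -/
def al : U →* U where
  toFun x := ⟨-x.a1, -x.a2, -x.a3, -x.a4, x.b1, x.b2, x.b3, -x.c1, -x.c2, x.d⟩
  map_one' := by ext <;> simp
  map_mul' x y := by ext <;> simp <;> ring

@[simp] lemma al_a1 (x : U) : (al x).a1 = -x.a1 := rfl
@[simp] lemma al_a2 (x : U) : (al x).a2 = -x.a2 := rfl
@[simp] lemma al_a3 (x : U) : (al x).a3 = -x.a3 := rfl
@[simp] lemma al_a4 (x : U) : (al x).a4 = -x.a4 := rfl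
@[simp] lemma al_b1 (x : U) : (al x).b1 = x.b1 := rfl
@[simp] lemma al_b2 (x : U) : (al x).b2 = x.b2 := rfl
@[simp] lemma al_b3 (x : U) : (al x).b3 = x.b3 := rfl
@[simp] lemma al_c1 (x : U) : (al x).c1 = -x.c1 := rfl
@[simp] lemma al_c2 (x : U) : (al x).c2 = -x.c2 := rfl
@[simp] lemma al_d (x : U) : (al x).d = x.d := rfl

/-- vanishing first diagonal -/
def F2 : Subgroup U where
  carrier := {x | x.a1 = 0 ∧ x.a2 = 0 ∧ x.a3 = 0 ∧ x.a4 = 0}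
  one_mem' := by simp
  mul_mem' := by
    rintro x y ⟨h1, h2, h3, h4⟩ ⟨k1, k2, k3, k4⟩
    simp only [Set.mem_ofPred_eq, mul_a1, mul_a2, mul_a3, mul_a4, h1, h2, h3, h4, k1, k2, k3, k4, add_zero, and_self]
  inv_mem' := by
    rintro x ⟨h1, h2, h3, h4⟩
    simp only [Set.mem_ofPred_eq, inv_a1, inv_a2, inv_a3, inv_a4, h1, h2, h3, h4, neg_zero, and_self]

lemma mem_F2 {x : U} : x ∈ F2 ↔ x.a1 = 0 ∧ x.a2 = 0 ∧ x.a3 = 0 ∧ x.a4 = 0 := Iff.rfl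

/-- vanishing first and second diagonals -/
def F3 : Subgroup U where
  carrier := {x | x ∈ F2 ∧ x.b1 = 0 ∧ x.b2 = 0 ∧ x.b3 = 0}
  one_mem' := ⟨F2.one_mem, by simp⟩
  mul_mem' := by
    rintro x y ⟨hx, h1, h2, h3⟩ ⟨hy, k1, k2, k3⟩
    refine ⟨F2.mul_mem hx hy, ?_⟩
    rw [mem_F2] at hx hy
    simp [h1, h2, h3, k1, k2, k3, hx, hy]
  inv_mem' := by
    rintro x ⟨hx, h1, h2, h3⟩
    refine ⟨F2.inv_mem hx, ?_⟩
    rw [mem_F2] at hx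
    simp [h1, h2, h3, hx]

lemma mem_F3 {x : U} : x ∈ F3 ↔ x ∈ F2 ∧ x.b1 = 0 ∧ x.b2 = 0 ∧ x.b3 = 0 := Iff.rfl

/-- only the corner is nonzero -/
def F4 : Subgroup U where
  carrier := {x | x ∈ F3 ∧ x.c1 = 0 ∧ x.c2 = 0}
  one_mem' := ⟨F3.one_mem, by simp⟩
  mul_mem' := by
    rintro x y ⟨hx, h1, h2⟩ ⟨hy, k1, k2⟩
    refine ⟨F3.mul_mem hx hy, ?_⟩
    rw [mem_F3, mem_F2] at hx hy
    simp [h1, h2, k1, k2, hx, hy]
  inv_mem' := by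
    rintro x ⟨hx, h1, h2⟩
    refine ⟨F3.inv_mem hx, ?_⟩
    rw [mem_F3, mem_F2] at hx
    simp [h1, h2, hx]

lemma mem_F4 {x : U} : x ∈ F4 ↔ x ∈ F3 ∧ x.c1 = 0 ∧ x.c2 = 0 := Iff.rfl

lemma comm_eq_iff (x y z : U) : ⁅x, y⁆ = z ↔ x * y = z * (y * x) := by
  rw [commutatorElement_def, mul_inv_eq_iff_eq_mul, mul_inv_eq_iff_eq_mul, mul_assoc]

lemma comm2 (x y : U) : ⁅x, y⁆ ∈ F2 ∧ ⁅x, y⁆.b1 = x.a1 * y.a2 - y.a1 * x.a2 ∧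
    ⁅x, y⁆.b2 = x.a2 * y.a3 - y.a2 * x.a3 ∧ ⁅x, y⁆.b3 = x.a3 * y.a4 - y.a3 * x.a4 := by
  rw [mem_F2]
  simp only [commutatorElement_def, mul_a1, mul_a2, mul_a3, mul_a4, mul_b1, mul_b2, mul_b3, inv_a1, inv_a2, inv_a3,
    inv_a4, inv_b1, inv_b2, inv_b3]
  refine ⟨⟨by ring, by ring, by ring, by ring⟩, by ring, by ring, by ring⟩

lemma comm3 (x : U) {y : U} (hy : y ∈ F2) : ⁅x, y⁆ ∈ F3 ∧
    ⁅x, y⁆.c1 = x.a1 * y.b2 - y.b1 * x.a3 ∧ ⁅x, y⁆.c2 = x.a2 * y.b3 - y.b2 * x.a4 := by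
  obtain ⟨h1, h2, h3, h4⟩ := mem_F2.1 hy
  rw [mem_F3, mem_F2]
  simp only [commutatorElement_def, mul_a1, mul_a2, mul_a3, mul_a4, mul_b1, mul_b2, mul_b3, mul_c1, mul_c2, inv_a1,
    inv_a2, inv_a3, inv_a4, inv_b1, inv_b2, inv_b3, inv_c1, inv_c2, h1, h2, h3, h4]
  refine ⟨⟨⟨by ring, by ring, by ring, by ring⟩, by ring, by ring, by ring⟩, by ring, by ring⟩

lemma comm4 (x : U) {y : U} (hy : y ∈ F3) : ⁅x, y⁆ ∈ F4 ∧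
    ⁅x, y⁆.d = x.a1 * y.c2 - y.c1 * x.a4 := by
  obtain ⟨⟨h1, h2, h3, h4⟩, h5, h6, h7⟩ := mem_F3.1 hy
  rw [mem_F4, mem_F3, mem_F2]
  simp only [commutatorElement_def, mul_a1, mul_a2, mul_a3, mul_a4, mul_b1, mul_b2, mul_b3, mul_c1, mul_c2, mul_d,
    inv_a1, inv_a2, inv_a3, inv_a4, inv_b1, inv_b2, inv_b3, inv_c1, inv_c2, inv_d, h1, h2, h3, h4, h5, h6, h7]
  refine ⟨⟨⟨⟨by ring, by ring, by ring, by ring⟩, by ring, by ring, by ring⟩, by ring, by ring⟩, by ring⟩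

lemma comm5 (x : U) {y : U} (hy : y ∈ F4) : ⁅x, y⁆ = 1 := by
  obtain ⟨⟨⟨h1, h2, h3, h4⟩, h5, h6, h7⟩, h8, h9⟩ := mem_F4.1 hy
  rw [commutatorElement_eq_one_iff_mul_comm]
  ext <;> simp [h1, h2, h3, h4, h5, h6, h7, h8, h9] <;> ring

lemma lcs_U2 : (⊤ : Subgroup U).lowerCentralSeries 2 ≤ F3 := by
  have h1 : (⊤ : Subgroup U).lowerCentralSeries 1 ≤ F2 := by
    refine Subgroup.commutator_le.2 fun x _ y _ => (comm2 x y).1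
  refine Subgroup.commutator_le.2 fun x hx y _ => ?_
  rw [← commutatorElement_inv]
  exact inv_mem (comm3 y (h1 hx)).1

lemma lcs_U : (⊤ : Subgroup U).lowerCentralSeries 4 = ⊥ := by
  have h2 := lcs_U2
  have h3 : (⊤ : Subgroup U).lowerCentralSeries 3 ≤ F4 := by
    refine Subgroup.commutator_le.2 fun x hx y _ => ?_
    rw [← commutatorElement_inv]
    exact inv_mem (comm4 y (h2 hx)).1
  rw [eq_bot_iff]
  refine Subgroup.commutator_le.2 fun x hx y _ => ?_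
  rw [← commutatorElement_inv, comm5 y (h3 hx), inv_one]
  exact one_mem _

/-- four-fold commutators -/
lemma comm_four (a b x y : U) : ⁅a, ⁅b, ⁅x, y⁆⁆⁆ ∈ F4 ∧ ⁅a, ⁅b, ⁅x, y⁆⁆⁆.d =
    a.a1 * (b.a2 * (x.a3 * y.a4 - y.a3 * x.a4) - (x.a2 * y.a3 - y.a2 * x.a3) * b.a4) -
    (b.a1 * (x.a2 * y.a3 - y.a2 * x.a3) - (x.a1 * y.a2 - y.a1 * x.a2) * b.a3) * a.a4 := by
  obtain ⟨h1, h2, h3, h4⟩ := comm2 x y
  obtain ⟨k1, k2, k3⟩ := comm3 b h1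
  obtain ⟨l1, l2⟩ := comm4 a k1
  exact ⟨l1, by rw [l2, k2, k3, h2, h3, h4]⟩

/-- a subgroup: first row and last column -/
def M : Subgroup U where
  carrier := {x | x.a1 = 0 ∧ x.b1 = 0 ∧ x.d = 0 ∧ x.a4 = 0 ∧ x.b3 = 0}
  one_mem' := by simp
  mul_mem' := by
    rintro x y ⟨h1, h2, h3, h4, h5⟩ ⟨k1, k2, k3, k4, k5⟩
    simp only [Set.mem_ofPred_eq, mul_a1, mul_b1, mul_d, mul_a4, mul_b3, h1, h2, h3, h4, h5, k1, k2, k3, k4, k5]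
    simp
  inv_mem' := by
    rintro x ⟨h1, h2, h3, h4, h5⟩
    simp only [Set.mem_ofPred_eq, inv_a1, inv_b1, inv_d, inv_a4, inv_b3, h1, h2, h3, h4, h5]
    simp

lemma mem_M {x : U} : x ∈ M ↔ x.a1 = 0 ∧ x.b1 = 0 ∧ x.d = 0 ∧ x.a4 = 0 ∧ x.b3 = 0 := Iff.rfl

/-- the conjugating element -/
def C (θ : ℚ) : U := ⟨θ / 2, 0, 0, θ / 2, 0, 0, 0, 0, 0, 0⟩

@[simp] lemma C_a1 (θ : ℚ) : (C θ).a1 = θ / 2 := rfl
@[simp] lemma C_a2 (θ : ℚ) : (C θ).a2 = 0 := rfl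
@[simp] lemma C_a3 (θ : ℚ) : (C θ).a3 = 0 := rfl
@[simp] lemma C_a4 (θ : ℚ) : (C θ).a4 = θ / 2 := rfl
@[simp] lemma C_b1 (θ : ℚ) : (C θ).b1 = 0 := rfl
@[simp] lemma C_b2 (θ : ℚ) : (C θ).b2 = 0 := rfl
@[simp] lemma C_b3 (θ : ℚ) : (C θ).b3 = 0 := rfl
@[simp] lemma C_c1 (θ : ℚ) : (C θ).c1 = 0 := rfl
@[simp] lemma C_c2 (θ : ℚ) : (C θ).c2 = 0 := rfl
@[simp] lemma C_d (θ : ℚ) : (C θ).d = 0 := rfl

lemma C_neg (θ : ℚ) : C (-θ) = (C θ)⁻¹ := by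
  ext <;> simp <;> ring

lemma al_C (θ : ℚ) : al (C θ) = (C θ)⁻¹ := by
  ext <;> simp

/-- an element inverted by `al` -/
def Inv (x : U) : Prop := al x = x⁻¹

lemma Inv.b1 {x : U} (h : Inv x) : x.b1 = x.a1 * x.a2 / 2 := by
  have := congrArg U.b1 h
  simp only [al_b1, inv_b1] at this
  linarith

lemma Inv.b3 {x : U} (h : Inv x) : x.b3 = x.a3 * x.a4 / 2 := by
  have := congrArg U.b3 h
  simp only [al_b3, inv_b3] at this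
  linarith

lemma Inv.sandwich {x : U} (h : Inv x) (θ : ℚ) : Inv (C θ * x * C θ) := by
  unfold Inv at *
  rw [map_mul, map_mul, h, al_C]
  group

lemma Inv.mem_M {x : U} (h : Inv x) (h1 : x.a1 = 0) (h4 : x.a4 = 0) : x ∈ M := by
  have hd := congrArg U.d h
  simp only [al_d, inv_d, h1, h4] at hd
  have hb1 := h.b1
  have hb3 := h.b3
  rw [h1] at hb1
  rw [h4] at hb3
  simp only [zero_mul, mul_zero, zero_div] at hb1 hb3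
  rw [hb1, hb3] at hd
  refine U.mem_M.2 ⟨h1, hb1, ?_, h4, hb3⟩
  linarith

/-- the key step -/
lemma pair_mem {x y : U} (hx : Inv x) (hy : Inv y) {θ : ℚ} (h1 : x.a1 = θ) (h4 : x.a4 = θ)
    (k1 : y.a1 = -θ) (k4 : y.a4 = -θ) : (C θ)⁻¹ * (x * y) * C θ ∈ M := by
  have e : (C θ)⁻¹ * (x * y) * C θ = (C (-θ) * x * C (-θ)) * (C θ * y * C θ) := by
    rw [C_neg]; group
  rw [e]
  refine M.mul_mem ((hx.sandwich _).mem_M ?_ ?_) ((hy.sandwich _).mem_M ?_ ?_)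
  · simp [h1]; ring
  · simp [h4]; ring
  · simp [k1]; ring
  · simp [k4]; ring

/-- the conclusion for products -/
lemma conj_d {P : U} (hP : P ∈ F3) {θ : ℚ} (h : (C θ)⁻¹ * P * C θ ∈ M) :
    P.d - θ / 2 * P.c2 + θ / 2 * P.c1 = 0 := by
  obtain ⟨⟨h1, h2, h3, h4⟩, h5, h6, h7⟩ := mem_F3.1 hP
  obtain ⟨-, -, hd, -, -⟩ := mem_M.1 h
  simp only [mul_a1, mul_a2, mul_a3, mul_a4, mul_b1, mul_b2, mul_b3, mul_c1, mul_c2, mul_d, inv_a1, inv_a2, inv_a3,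
    inv_a4, inv_b1, inv_b2, inv_b3, inv_c1, inv_c2, inv_d, C_a1, C_a2, C_a3, C_a4, C_b1, C_b2, C_b3, C_c1, C_c2, C_d,
    h1, h2, h3, h4, h5, h6, h7] at hd
  linarith

/-- the exponential of the superdiagonal matrix -/
def E (p q r s : ℚ) : U :=
  ⟨p, q, r, s, p * q / 2, q * r / 2, r * s / 2, p * q * r / 6, q * r * s / 6, p * q * r * s / 24⟩

lemma al_E (p q r s : ℚ) : al (E p q r s) = (E p q r s)⁻¹ := by
  ext <;> simp [E] <;> ring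

end U

end Pool.Agent.Helper702.Pl
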