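import Mathlib

set_option autoImplicit false

/-!
# Commutator calculus in groups of class four
-/

namespace Pool.Agent.Helper702.Pl

open Subgroup
open scoped commutatorElement

universe u

/-- terms of the lower central series, `lc G 0 = ⊤`. -/
abbrev lc (G : Type u) [Group G] (k : ℕ) : Subgroup G := (⊤ : Subgroup G).lowerCentralSeries k

section lcs
variable {F : Type u} [Group F]

lemma comm_mem {k : ℕ} {a b : F} (ha : a ∈ lc F k) : ⁅a, b⁆ ∈ lc F (k + 1) :=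
  Subgroup.commutator_mem_commutator ha (Subgroup.mem_top b)

lemma comm_mem' {k : ℕ} {a b : F} (ha : a ∈ lc F k) : ⁅b, a⁆ ∈ lc F (k + 1) := by
  rw [← commutatorElement_inv]
  exact inv_mem (comm_mem ha)

lemma lc_antitone {j k : ℕ} (h : j ≤ k) : lc F k ≤ lc F j :=
  (⊤ : Subgroup F).lowerCentralSeries_antitone h

lemma comm_one_mem {m : ℕ} {a b : F} (ha : a ∈ lc F 1) (hb : b ∈ lc F m) :
    ⁅a, b⁆ ∈ lc F (m + 2) := by
  have key : ⁅⁅(⊤ : Subgroup F), (⊤ : Subgroup F)⁆, lc F m⁆ ≤ lc F (m + 2) := by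
    set π := QuotientGroup.mk' (lc F (m + 2)) with hπ
    have h1 : ⁅⁅(⊤ : Subgroup F).map π, (lc F m).map π⁆, (⊤ : Subgroup F).map π⁆ = ⊥ := by
      rw [← Subgroup.map_commutator, ← Subgroup.map_commutator, Subgroup.map_eq_bot_iff,
        QuotientGroup.ker_mk']
      rw [Subgroup.commutator_comm (⊤ : Subgroup F) (lc F m)]
      exact le_rfl
    have h2 : ⁅⁅(lc F m).map π, (⊤ : Subgroup F).map π⁆, (⊤ : Subgroup F).map π⁆ = ⊥ := by
      rw [← Subgroup.map_commutator, ← Subgroup.map_commutator, Subgroup.map_eq_bot_iff,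
        QuotientGroup.ker_mk']
      exact le_rfl
    have h3 := Subgroup.commutator_commutator_eq_bot_of_rotate h1 h2
    rw [← Subgroup.map_commutator, ← Subgroup.map_commutator, Subgroup.map_eq_bot_iff,
        QuotientGroup.ker_mk'] at h3
    exact h3
  exact key (Subgroup.commutator_mem_commutator ha hb)

lemma map_lc_le {G : Type*} [Group G] (φ : F →* G) (k : ℕ) : (lc F k).map φ ≤ (⊤ : Subgroup G).lowerCentralSeries k := by
  rw [Subgroup.map_lowerCentralSeries]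
  have hmono : ∀ (A B : Subgroup G), A ≤ B → ∀ n, A.lowerCentralSeries n ≤ B.lowerCentralSeries n := by
    intro A B hAB n
    induction n with
    | zero => exact hAB
    | succ n ih => exact Subgroup.commutator_mono ih hAB
  exact hmono _ _ le_top _

lemma map_mem_lc {G : Type*} [Group G] (φ : F →* G) {k : ℕ} {x : F} (hx : x ∈ lc F k) :
    φ x ∈ (⊤ : Subgroup G).lowerCentralSeries k :=
  map_lc_le φ k (Subgroup.mem_map_of_mem φ hx)

lemma map_lc_surj {G : Type*} [Group G] (φ : F →* G) (hφ : Function.Surjective φ) (k : ℕ) :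
    (lc F k).map φ = (⊤ : Subgroup G).lowerCentralSeries k := by
  rw [Subgroup.map_lowerCentralSeries, Subgroup.map_top_of_surjective φ hφ]

end lcs

section central
variable {Q : Type u} [Group Q]

lemma cmul_left {a b c : Q} (h : ∀ q : Q, Commute ⁅b, c⁆ q) : ⁅a * b, c⁆ = ⁅a, c⁆ * ⁅b, c⁆ := by
  rw [commutatorElement_mul_left_eq_conj_mul, ← (h a).eq, mul_inv_cancel_right]
  exact (h _).eq

lemma cmul_right {a b c : Q} (h : ∀ q : Q, Commute ⁅a, c⁆ q) : ⁅a, b * c⁆ = ⁅a, b⁆ * ⁅a, c⁆ := by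
  rw [commutatorElement_mul_right_eq_mul_conj, mul_assoc ⁅a, b⁆ b, ← (h b).eq, ← mul_assoc,
    mul_inv_cancel_right]

lemma cinv_left {a c : Q} (h : ∀ q : Q, Commute ⁅a, c⁆ q) : ⁅a⁻¹, c⁆ = ⁅a, c⁆⁻¹ := by
  rw [commutatorElement_inv_left, ← commutatorElement_inv a c, ← ((h a⁻¹).inv_left).eq,
    inv_mul_cancel_right]

lemma cinv_right {a c : Q} (h : ∀ q : Q, Commute ⁅a, c⁆ q) : ⁅a, c⁻¹⁆ = ⁅a, c⁆⁻¹ := by
  rw [commutatorElement_inv_right, ← commutatorElement_inv a c, ← ((h c⁻¹).inv_left).eq,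
    inv_mul_cancel_right]

end central

/-- groups of class at most four -/
class Four (H : Type u) [Group H] : Prop where
  h4 : lc H 4 = ⊥

section four
variable {H : Type u} [Group H] [Four H]

lemma mem_lc4 {x : H} (h : x ∈ lc H 4) : x = 1 := by
  rw [Four.h4, Subgroup.mem_bot] at h
  exact h

lemma cen {z : H} (hz : z ∈ lc H 3) (q : H) : Commute z q := by
  rw [← commutatorElement_eq_one_iff_commute]
  exact mem_lc4 (comm_mem hz)

lemma c12 {s t : H} (hs : s ∈ lc H 1) (ht : t ∈ lc H 2) : Commute s t := by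
  rw [← commutatorElement_eq_one_iff_commute]
  exact mem_lc4 (comm_one_mem hs ht)

lemma c22 {s t : H} (hs : s ∈ lc H 2) (ht : t ∈ lc H 2) : Commute s t :=
  c12 (lc_antitone (by norm_num) hs) ht

lemma Dcen {t : H} (ht : t ∈ lc H 2) (x q : H) : Commute ⁅x, t⁆ q := cen (comm_mem' ht) q

lemma Dmul {t : H} (ht : t ∈ lc H 2) (x y : H) : ⁅x * y, t⁆ = ⁅x, t⁆ * ⁅y, t⁆ :=
  cmul_left fun q => Dcen ht y q

lemma Dmul' {t t' : H} (ht' : t' ∈ lc H 2) (x : H) : ⁅x, t * t'⁆ = ⁅x, t⁆ * ⁅x, t'⁆ :=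
  cmul_right fun q => Dcen ht' x q

lemma Dinv {t : H} (ht : t ∈ lc H 2) (x : H) : ⁅x⁻¹, t⁆ = ⁅x, t⁆⁻¹ :=
  cinv_left fun q => Dcen ht x q

lemma Dinv' {t : H} (ht : t ∈ lc H 2) (x : H) : ⁅x, t⁻¹⁆ = ⁅x, t⁆⁻¹ :=
  cinv_right fun q => Dcen ht x q

/-- the homomorphism `x ↦ ⁅x, t⁆` -/
def Dl {t : H} (ht : t ∈ lc H 2) : H →* H where
  toFun x := ⁅x, t⁆
  map_one' := by simp
  map_mul' x y := Dmul ht x y

lemma Dpow {t : H} (ht : t ∈ lc H 2) (x : H) (k : ℤ) : ⁅x ^ k, t⁆ = ⁅x, t⁆ ^ k :=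
  map_zpow (Dl ht) x k

/-- the second bracket -/
lemma Wmul {w : H} (hw : w ∈ lc H 1) (a b b' : H) : ⁅a, ⁅b * b', w⁆⁆ = ⁅a, ⁅b, w⁆⁆ * ⁅a, ⁅b', w⁆⁆ := by
  have h1 : ⁅b * b', w⁆ = ⁅b, ⁅b', w⁆⁆ * (⁅b', w⁆ * ⁅b, w⁆) := by
    simp only [commutatorElement_def]; group
  have e1 : ⁅b', w⁆ ∈ lc H 2 := comm_mem' hw
  have e2 : ⁅b, w⁆ ∈ lc H 2 := comm_mem' hw
  have e3 : ⁅b, ⁅b', w⁆⁆ ∈ lc H 3 := comm_mem' e1
  rw [h1, Dmul' (mul_mem e1 e2), Dmul' e2]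
  have h2 : ⁅a, ⁅b, ⁅b', w⁆⁆⁆ = 1 := by
    rw [commutatorElement_eq_one_iff_commute]
    exact (cen e3 a).symm
  rw [h2, one_mul]
  exact (Dcen e1 a _).eq

/-- the homomorphism `b ↦ ⁅a, ⁅b, w⁆⁆` -/
def Wl {w : H} (hw : w ∈ lc H 1) (a : H) : H →* H where
  toFun b := ⁅a, ⁅b, w⁆⁆
  map_one' := by simp
  map_mul' x y := Wmul hw a x y

lemma Wpow {w : H} (hw : w ∈ lc H 1) (a b : H) (k : ℤ) : ⁅a, ⁅b ^ k, w⁆⁆ = ⁅a, ⁅b, w⁆⁆ ^ k :=
  map_zpow (Wl hw a) b k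

/-- Hall-Witt in this situation -/
lemma hw {w : H} (hw : w ∈ lc H 1) (x y : H) : ⁅x, ⁅y, w⁆⁆ = ⁅y, ⁅x, w⁆⁆ * ⁅⁅x, y⁆, w⁆ := by
  have key : ∀ b b' : H, ⁅b * b', w⁆ = ⁅b, ⁅b', w⁆⁆ * (⁅b', w⁆ * ⁅b, w⁆) := by
    intro b b'
    simp only [commutatorElement_def]; group
  have e1 : ⁅y, w⁆ ∈ lc H 2 := comm_mem' hw
  have e2 : ⁅x, w⁆ ∈ lc H 2 := comm_mem' hw
  have ec : ⁅x, y⁆ ∈ lc H 1 := comm_mem (k := 0) (Subgroup.mem_top x)
  have e4 : ⁅y * x, w⁆ ∈ lc H 2 := comm_mem' hw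
  have e5 : ⁅⁅x, y⁆, w⁆ ∈ lc H 3 := by
    have := comm_one_mem (m := 1) ec hw
    exact this
  have h1 : x * y = ⁅x, y⁆ * (y * x) := by simp only [commutatorElement_def]; group
  have h2 := key x y
  have h3 : ⁅x * y, w⁆ = ⁅⁅x, y⁆, w⁆ * ⁅y * x, w⁆ := by
    rw [h1, key ⁅x, y⁆ (y * x)]
    have : ⁅⁅x, y⁆, ⁅y * x, w⁆⁆ = 1 := by
      rw [commutatorElement_eq_one_iff_commute]
      exact c12 ec e4
    rw [this, one_mul]
    exact (cen e5 _).symm.eq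
  rw [key y x] at h3
  rw [h3] at h2
  have h5 : ⁅y, w⁆ * ⁅x, w⁆ = ⁅x, w⁆ * ⁅y, w⁆ := (c22 e1 e2).eq
  rw [h5, ← mul_assoc] at h2
  have h6 := mul_right_cancel h2
  rw [← h6]
  exact (cen e5 _).eq

end four

section K
variable {H : Type u} [Group H] [Four H]

/-- elements commuting with the third term -/
def Kc (k : H) : Prop := ∀ t ∈ lc H 2, Commute k t

lemma Kc.comm {k : H} (h : Kc k) {t : H} (ht : t ∈ lc H 2) : ⁅k, t⁆ = 1 := by
  rw [commutatorElement_eq_one_iff_commute]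
  exact h t ht

lemma Kc.w {μ μ' : H} (h : Kc μ) (h' : Kc μ') {s : H} (hs : s ∈ lc H 1) : Commute ⁅μ, μ'⁆ s := by
  rw [← commutatorElement_eq_one_iff_commute]
  have := hw hs μ μ'
  rw [h.comm (comm_mem' hs), h'.comm (comm_mem' hs), one_mul] at this
  exact this.symm

lemma w_mem (μ μ' : H) : ⁅μ, μ'⁆ ∈ lc H 1 := comm_mem (k := 0) (Subgroup.mem_top μ)

/-- the form attached to two elements of `K` -/
lemma bet_left {μ μ' a : H} (ha : Kc a) (b : H) : ⁅a, ⁅b, ⁅μ, μ'⁆⁆⁆ = 1 :=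
  ha.comm (comm_mem' (w_mem μ μ'))

lemma bet_right {μ μ' b : H} (h : Kc μ) (h' : Kc μ') (hb : Kc b) (a : H) :
    ⁅a, ⁅b, ⁅μ, μ'⁆⁆⁆ = 1 := by
  rw [hw (w_mem μ μ') a b, bet_left hb, one_mul, commutatorElement_eq_one_iff_commute]
  exact (h.w h' (w_mem a b)).symm

end K

end Pool.Agent.Helper702.Pl
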