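import Mathlib
import Pool.Agent.Helper702.PlB

set_option autoImplicit false

/-!
# The group element attached to a system of quadratic forms
-/

namespace Pool.Agent.Helper702.Pl

open Subgroup
open scoped commutatorElement

universe u

/-- ordered product over a finite type -/
noncomputable def lp {α : Type} [Fintype α] {G : Type u} [Group G] (f : α → G) : G :=
  ((Finset.univ : Finset α).toList.map f).prod

section lp
variable {α : Type} [Fintype α] {G : Type u} [Group G]

lemma map_lp {G' : Type*} [Group G'] (φ : G →* G') (f : α → G) :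
    φ (lp f) = ((Finset.univ : Finset α).toList.map (fun a => φ (f a))).prod := by
  unfold lp
  rw [map_list_prod, List.map_map]
  rfl

lemma lp_one {f : α → G} (h : ∀ a, f a = 1) : lp f = 1 := by
  unfold lp
  apply List.prod_eq_one
  intro x hx
  rw [List.mem_map] at hx
  obtain ⟨a, -, rfl⟩ := hx
  exact h a

lemma prod_single {β : Type} (l : List β) (hl : l.Nodup) (f : β → G) (q : β) (hq : q ∈ l)
    (h : ∀ a ∈ l, a ≠ q → f a = 1) : (l.map f).prod = f q := by
  induction l with
  | nil => simp at hq
  | cons b l ih =>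
    rw [List.map_cons, List.prod_cons]
    rw [List.nodup_cons] at hl
    rcases List.mem_cons.1 hq with rfl | hq
    · have : (l.map f).prod = 1 := by
        apply List.prod_eq_one
        intro x hx
        rw [List.mem_map] at hx
        obtain ⟨a, ha, rfl⟩ := hx
        exact h a (List.mem_cons_of_mem _ ha) (fun e => hl.1 (e ▸ ha))
      rw [this, mul_one]
    · rw [ih hl.2 hq (fun a ha => h a (List.mem_cons_of_mem _ ha)),
        h b List.mem_cons_self (fun e => hl.1 (e ▸ hq)), one_mul]

lemma lp_single {f : α → G} (q : α) (h : ∀ a, a ≠ q → f a = 1) : lp f = f q :=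
  prod_single _ (Finset.nodup_toList _) f q (by simp) (fun a _ => h a)

end lp

/-- rows -/
abbrev Row (V : Type) : Type := Option V
/-- columns -/
abbrev Col (V : Type) : Type := Option (Option V)
/-- slots for quadratic forms: the sum of squares, the inhomogeneous one, the minors, the given
ones -/
abbrev Slot (V Q : Type) : Type := Bool ⊕ (((Row V × Row V) × (Col V × Col V)) ⊕ Q)
/-- dummy letters -/
abbrev Dum (V Q D : Type) : Type := (Slot V Q × Bool) ⊕ D
/-- letters -/
abbrev Let (V Q D : Type) : Type := (Row V × Col V) ⊕ Dum V Q D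

section data
variable {V Q D : Type} [Fintype V] [Fintype Q] [Fintype D] {G : Type u} [Group G]

/-- the matrix letter -/
def X (ev : Let V Q D → G) (i : Row V) (l : Col V) : G := ev (Sum.inl (i, l))

/-- the commutator of the two dummies of a slot -/
def wq (ev : Let V Q D → G) (q : Slot V Q) : G :=
  ⁅ev (Sum.inr (Sum.inl (q, false))), ev (Sum.inr (Sum.inl (q, true)))⁆

/-- the four-fold commutators -/
def bt (ev : Let V Q D → G) (q : Slot V Q) (a b : G) : G := ⁅a, ⁅b, wq ev q⁆⁆

/-- the value of a slot -/
noncomputable def sv (ev : Let V Q D → G) (gd : Q → List (ℤ × Row V × Row V)) : Slot V Q → G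
  | Sum.inl false => lp fun d : Dum V Q D => bt ev (Sum.inl false) (ev (Sum.inr d)) (ev (Sum.inr d))
  | Sum.inl true => lp fun j : V =>
      bt ev (Sum.inl true) (X ev (some j) (some (some j))) (X ev (some j) (some none))
  | Sum.inr (Sum.inl ((i, i'), (l, l'))) =>
      bt ev (Sum.inr (Sum.inl ((i, i'), (l, l')))) (X ev i l) (X ev i' l') *
        (bt ev (Sum.inr (Sum.inl ((i, i'), (l, l')))) (X ev i' l) (X ev i l'))⁻¹
  | Sum.inr (Sum.inr q) => ((gd q).map fun t =>
      bt ev (Sum.inr (Sum.inr q)) (X ev t.2.1 (some none)) (X ev t.2.2 (some none)) ^ t.1).prod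

/-- the product over all slots -/
noncomputable def ghat (ev : Let V Q D → G) (gd : Q → List (ℤ × Row V × Row V)) : G :=
  lp fun q : Slot V Q => sv ev gd q

/-- the element of degree three -/
def tt (ev : Let V Q D → G) : G := ⁅X ev none (some none), wq ev (Sum.inl true)⁆

lemma map_bt {G' : Type*} [Group G'] (φ : G →* G') (ev : Let V Q D → G) (q : Slot V Q) (a b : G) :
    φ (bt ev q a b) = bt (fun x => φ (ev x)) q (φ a) (φ b) := by
  simp only [bt, wq, map_commutatorElement]

lemma map_tt {G' : Type*} [Group G'] (φ : G →* G') (ev : Let V Q D → G) :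
    φ (tt ev) = tt (fun x => φ (ev x)) := by
  simp only [tt, X, wq, map_commutatorElement]

lemma map_sv {G' : Type*} [Group G'] (φ : G →* G') (ev : Let V Q D → G)
    (gd : Q → List (ℤ × Row V × Row V)) (q : Slot V Q) :
    φ (sv ev gd q) = sv (fun x => φ (ev x)) gd q := by
  rcases q with b | ⟨⟨i, i'⟩, l, l'⟩ | q
  · cases b
    · simp only [sv]
      rw [map_lp]
      simp only [map_bt]
      rfl
    · simp only [sv]
      rw [map_lp]
      simp only [map_bt]
      rfl
  · simp only [sv, map_mul, map_inv, map_bt, X]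
  · simp only [sv, map_list_prod, List.map_map]
    congr 1
    apply List.map_congr_left
    intro t _
    simp only [Function.comp_apply, map_zpow, map_bt, X]

lemma map_ghat {G' : Type*} [Group G'] (φ : G →* G') (ev : Let V Q D → G)
    (gd : Q → List (ℤ × Row V × Row V)) :
    φ (ghat ev gd) = ghat (fun x => φ (ev x)) gd := by
  rw [ghat, map_lp]
  simp only [map_sv]
  rfl

end data

section suff
variable {V Q D : Type} [Fintype V] [Fintype Q] [Fintype D] {H : Type u} [Group H] [Four H]

lemma wq_mem (ev : Let V Q D → H) (q : Slot V Q) : wq ev q ∈ lc H 1 := w_mem _ _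

lemma bt_mul_left (ev : Let V Q D → H) (q : Slot V Q) (a a' b : H) :
    bt ev q (a * a') b = bt ev q a b * bt ev q a' b :=
  Dmul (comm_mem' (wq_mem ev q)) _ _

lemma bt_mul_right (ev : Let V Q D → H) (q : Slot V Q) (a b b' : H) :
    bt ev q a (b * b') = bt ev q a b * bt ev q a b' :=
  Wmul (wq_mem ev q) _ _ _

lemma bt_pow_left (ev : Let V Q D → H) (q : Slot V Q) (a b : H) (k : ℤ) :
    bt ev q (a ^ k) b = bt ev q a b ^ k :=
  Dpow (comm_mem' (wq_mem ev q)) _ _

lemma bt_pow_right (ev : Let V Q D → H) (q : Slot V Q) (a b : H) (k : ℤ) :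
    bt ev q a (b ^ k) = bt ev q a b ^ k :=
  Wpow (wq_mem ev q) _ _ _

lemma ghat_eq (ev : Let V Q D → H) (gd : Q → List (ℤ × Row V × Row V)) (z : Row V → ℤ)
    (hd : ∀ d : Dum V Q D, Kc (ev (Sum.inr d)))
    (hX : ∀ i l, Kc (X ev i l * (X ev none l ^ z i)⁻¹))
    (hg : ∀ q, ((gd q).map fun t => t.1 * (z t.2.1 * z t.2.2)).sum = 0) :
    ghat ev gd = ⁅lp fun j : V => X ev none (some (some j)) ^ (z (some j) * z (some j)), tt ev⁆ := by
  have k1 : ∀ q i l b, bt ev q (X ev i l) b = bt ev q (X ev none l) b ^ z i := by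
    intro q i l b
    have : X ev i l = (X ev i l * (X ev none l ^ z i)⁻¹) * X ev none l ^ z i := by group
    rw [this, bt_mul_left, bt_pow_left]
    have h1 : bt ev q (X ev i l * (X ev none l ^ z i)⁻¹) b = 1 := bet_left (hX i l) b
    rw [h1, one_mul]
  have k2 : ∀ q i l a, bt ev q a (X ev i l) = bt ev q a (X ev none l) ^ z i := by
    intro q i l a
    have : X ev i l = (X ev i l * (X ev none l ^ z i)⁻¹) * X ev none l ^ z i := by group
    rw [this, bt_mul_right, bt_pow_right]
    have h1 : bt ev q a (X ev i l * (X ev none l ^ z i)⁻¹) = 1 :=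
      bet_right (hd _) (hd _) (hX i l) a
    rw [h1, one_mul]
  have k3 : ∀ q i i' l l', bt ev q (X ev i l) (X ev i' l') =
      bt ev q (X ev none l) (X ev none l') ^ (z i * z i') := by
    intro q i i' l l'
    rw [k1, k2, ← zpow_mul, mul_comm]
  have hs : ∀ q : Slot V Q, q ≠ Sum.inl true → sv ev gd q = 1 := by
    rintro (b | ⟨⟨i, i'⟩, l, l'⟩ | q) hq
    · cases b
      · exact lp_one fun d => bet_left (hd d) _
      · exact absurd rfl hq
    · simp only [sv]
      rw [k3 _ i i' l l', k3 _ i' i l l', mul_comm (z i') (z i), mul_inv_cancel]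
    · simp only [sv]
      have : (gd q).map (fun t => bt ev (Sum.inr (Sum.inr q)) (X ev t.2.1 (some none)) (X ev t.2.2 (some none)) ^ t.1)
          = (gd q).map fun t => bt ev (Sum.inr (Sum.inr q)) (X ev none (some none)) (X ev none (some none)) ^
            (t.1 * (z t.2.1 * z t.2.2)) := by
        apply List.map_congr_left
        intro t _
        rw [k3, ← zpow_mul, mul_comm]
      rw [this]
      have h2 : ∀ (g : H) (l : List (ℤ × Row V × Row V)),
          (l.map fun t => g ^ (t.1 * (z t.2.1 * z t.2.2))).prod =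
            g ^ ((l.map fun t => t.1 * (z t.2.1 * z t.2.2)).sum) := by
        intro g l
        induction l with
        | nil => simp
        | cons t l ih => rw [List.map_cons, List.prod_cons, ih, List.map_cons, List.sum_cons, zpow_add]
      rw [h2, hg q, zpow_zero]
  rw [ghat, lp_single (Sum.inl true) hs]
  simp only [sv]
  have e1 : tt ev ∈ lc H 2 := comm_mem' (wq_mem ev _)
  have e2 := map_lp (Dl e1) (fun j : V => X ev none (some (some j)) ^ (z (some j) * z (some j)))
  have e3 : ∀ x, Dl e1 x = ⁅x, tt ev⁆ := fun x => rfl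
  rw [e3] at e2
  rw [e2, lp]
  congr 1
  apply List.map_congr_left
  intro j _
  rw [e3, k3, Dpow e1]
  rfl

end suff

end Pool.Agent.Helper702.Pl
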