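import Mathlib
import Pool.Agent.Helper702.PlC

set_option autoImplicit false

/-!
# Palindromes in free nilpotent groups of class four: sufficiency
-/

namespace Pool.Agent.Helper702.Pl

open Subgroup
open scoped commutatorElement

section sig
variable {L : Type}

/-- the automorphism inverting the free generators -/
def sg (L : Type) : FreeGroup L →* FreeGroup L := FreeGroup.lift fun x => (FreeGroup.of x)⁻¹

@[simp] lemma sg_of (x : L) : sg L (FreeGroup.of x) = (FreeGroup.of x)⁻¹ := by simp [sg]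

@[simp] lemma sg_sg (x : FreeGroup L) : sg L (sg L x) = x := by
  have : (sg L).comp (sg L) = MonoidHom.id _ := by
    ext a
    simp
  exact DFunLike.congr_fun this x

/-- palindromes in the free group -/
def Pal (p : FreeGroup L) : Prop := sg L p = p⁻¹

lemma pal_one : Pal (1 : FreeGroup L) := by simp [Pal]

/-- the palindrome attached to an element -/
def pc (τ : FreeGroup L) : FreeGroup L := τ * (sg L τ)⁻¹

lemma pal_sandwich (u : FreeGroup L) {c : FreeGroup L} (hc : Pal c) : Pal (u * c * (sg L u)⁻¹) := by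
  unfold Pal at *
  simp [hc, mul_assoc]

lemma pal_pc (τ : FreeGroup L) : Pal (pc τ) := by
  have := pal_sandwich τ pal_one
  simpa [pc] using this

lemma pal_inv {p : FreeGroup L} (hp : Pal p) : Pal p⁻¹ := by
  unfold Pal at *
  rw [map_inv, hp]

/-- free nilpotent group of class four -/
abbrev Nil (L : Type) : Type := FreeGroup L ⧸ lc (FreeGroup L) 4

/-- the projection -/
abbrev mk4 : FreeGroup L →* Nil L := QuotientGroup.mk' (lc (FreeGroup L) 4)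

lemma mk4_surj : Function.Surjective (mk4 : FreeGroup L →* Nil L) := QuotientGroup.mk'_surjective _

lemma four_of_surj {G H : Type} [Group G] [Group H] (φ : G →* H) (hφ : Function.Surjective φ)
    (h : lc G 4 ≤ φ.ker) : Four H := by
  refine ⟨?_⟩
  have := map_lc_surj φ hφ 4
  change (⊤ : Subgroup H).lowerCentralSeries 4 = ⊥
  rw [← this, Subgroup.map_eq_bot_iff]
  exact h

instance : Four (Nil L) := four_of_surj mk4 mk4_surj (by rw [QuotientGroup.ker_mk'])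

lemma mk4_mem {k : ℕ} {x : FreeGroup L} (hx : x ∈ lc (FreeGroup L) k) : mk4 x ∈ lc (Nil L) k :=
  map_mem_lc mk4 hx

lemma sg_mem {k : ℕ} {x : FreeGroup L} (hx : x ∈ lc (FreeGroup L) k) : sg L x ∈ lc (FreeGroup L) k :=
  map_mem_lc (sg L) hx

section four
variable {H : Type} [Group H] [Four H]

lemma Bmul {w w' : H} (hw : w ∈ lc H 1) (hw' : w' ∈ lc H 1) (b : H) : ⁅b, w * w'⁆ = ⁅b, w⁆ * ⁅b, w'⁆ := by
  have h : Commute w ⁅b, w'⁆ := c12 hw (comm_mem' hw')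
  have : ⁅b, w * w'⁆ = ⁅b, w⁆ * (w * ⁅b, w'⁆ * w⁻¹) := by
    simp only [commutatorElement_def]; group
  rw [this, h.eq, mul_inv_cancel_right]

lemma BBmul {w w' : H} (hw : w ∈ lc H 1) (hw' : w' ∈ lc H 1) (a b : H) :
    ⁅a, ⁅b, w * w'⁆⁆ = ⁅a, ⁅b, w⁆⁆ * ⁅a, ⁅b, w'⁆⁆ := by
  rw [Bmul hw hw', Dmul' (comm_mem' hw')]

lemma Binv {w : H} (hw : w ∈ lc H 1) (b : H) : ⁅b, w⁻¹⁆ = ⁅b, w⁆⁻¹ := by
  have := Bmul hw (inv_mem hw) b
  rw [mul_inv_cancel, commutatorElement_one_right] at this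
  exact (inv_eq_of_mul_eq_one_right this.symm).symm

lemma BBinv {w : H} (hw : w ∈ lc H 1) (a b : H) : ⁅a, ⁅b, w⁻¹⁆⁆ = ⁅a, ⁅b, w⁆⁆⁻¹ := by
  rw [Binv hw, Dinv' (comm_mem' hw)]

lemma BB2 {s : H} (hs : s ∈ lc H 2) (a b : H) : ⁅a, ⁅b, s⁆⁆ = 1 := by
  rw [commutatorElement_eq_one_iff_commute]
  exact (cen (comm_mem' hs) a).symm

lemma top1 (p q : H) : ⁅p, q⁆ ∈ lc H 1 := w_mem p q

/-- multiplicativity in the third entry -/
lemma T3mul (a b p p' q : H) : ⁅a, ⁅b, ⁅p * p', q⁆⁆⁆ = ⁅a, ⁅b, ⁅p, q⁆⁆⁆ * ⁅a, ⁅b, ⁅p', q⁆⁆⁆ := by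
  have h1 : ⁅p * p', q⁆ = ⁅p, ⁅p', q⁆⁆ * (⁅p', q⁆ * ⁅p, q⁆) := by
    simp only [commutatorElement_def]; group
  have e1 : ⁅p, ⁅p', q⁆⁆ ∈ lc H 2 := comm_mem' (top1 _ _)
  rw [h1, BBmul (lc_antitone (by norm_num) e1) (mul_mem (top1 _ _) (top1 _ _)), BB2 e1, one_mul,
    BBmul (top1 _ _) (top1 _ _)]
  exact (Dcen (comm_mem' (top1 _ _)) a _).eq

lemma T3inv (a b p q : H) : ⁅a, ⁅b, ⁅p⁻¹, q⁆⁆⁆ = ⁅a, ⁅b, ⁅p, q⁆⁆⁆⁻¹ := by
  have := T3mul a b p p⁻¹ q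
  rw [mul_inv_cancel, commutatorElement_one_left, commutatorElement_one_right,
    commutatorElement_one_right] at this
  exact (inv_eq_of_mul_eq_one_right this.symm).symm

end four

lemma sgP1 (y : FreeGroup L) : ∀ (x w : Nil L), w ∈ lc (Nil L) 1 →
    ⁅x, ⁅mk4 (sg L y), w⁆⁆ = ⁅x, ⁅mk4 y, w⁆⁆⁻¹ := by
  intro x w hw
  induction y using FreeGroup.induction_on with
  | C1 => simp only [map_one, commutatorElement_one_left, commutatorElement_one_right, inv_one]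
  | of a =>
    rw [sg_of, map_inv]
    exact map_inv (Wl hw x) _
  | inv_of a ih =>
    rw [map_inv, map_inv, map_inv]
    have h1 := map_inv (Wl hw x) (mk4 (sg L (FreeGroup.of a)))
    have h2 := map_inv (Wl hw x) (mk4 (FreeGroup.of a))
    change ⁅x, ⁅(mk4 (sg L (FreeGroup.of a)))⁻¹, w⁆⁆ = ⁅x, ⁅mk4 (sg L (FreeGroup.of a)), w⁆⁆⁻¹ at h1
    change ⁅x, ⁅(mk4 (FreeGroup.of a))⁻¹, w⁆⁆ = ⁅x, ⁅mk4 (FreeGroup.of a), w⁆⁆⁻¹ at h2
    have ih' : ⁅x, ⁅mk4 (sg L (FreeGroup.of a)), w⁆⁆ = ⁅x, ⁅mk4 (FreeGroup.of a), w⁆⁆⁻¹ := ih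
    rw [h1, h2, ih']
  | mul p q h1 h2 =>
    rw [map_mul, map_mul, map_mul, Wmul hw, Wmul hw, h1, h2, mul_inv_rev]
    exact ((Dcen (comm_mem' hw) x _).inv_left.inv_right).eq

lemma sgT (y : FreeGroup L) : ∀ (a b q : Nil L),
    ⁅a, ⁅b, ⁅mk4 (sg L y), q⁆⁆⁆ = ⁅a, ⁅b, ⁅mk4 y, q⁆⁆⁆⁻¹ := by
  intro a b q
  induction y using FreeGroup.induction_on with
  | C1 => simp only [map_one, commutatorElement_one_left, commutatorElement_one_right, inv_one]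
  | of x => rw [sg_of, map_inv, T3inv]
  | inv_of x ih =>
    have ih' : ⁅a, ⁅b, ⁅mk4 (sg L (FreeGroup.of x)), q⁆⁆⁆ = ⁅a, ⁅b, ⁅mk4 (FreeGroup.of x), q⁆⁆⁆⁻¹ := ih
    rw [map_inv, map_inv, map_inv, T3inv, T3inv, ih']
  | mul x y h1 h2 =>
    rw [map_mul, map_mul, map_mul, T3mul, T3mul, h1, h2, mul_inv_rev]
    exact ((Dcen (comm_mem' (top1 _ _)) a _).inv_left.inv_right).eq

lemma sgP2 {g : FreeGroup L} (hg : g ∈ lc (FreeGroup L) 1) : ∀ (x b : Nil L),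
    ⁅x, ⁅b, mk4 (sg L g)⁆⁆ = ⁅x, ⁅b, mk4 g⁆⁆ := by
  intro x b
  have hg' : g ∈ closure {g : FreeGroup L | ∃ g₁ ∈ (⊤ : Subgroup (FreeGroup L)), ∃ g₂ ∈ (⊤ : Subgroup (FreeGroup L)),
      ⁅g₁, g₂⁆ = g} := hg
  clear hg
  induction hg' using Subgroup.closure_induction with
  | mem g hg =>
    obtain ⟨p, -, q, -, rfl⟩ := hg
    rw [map_commutatorElement, map_commutatorElement, map_commutatorElement, sgT,
      ← commutatorElement_inv (mk4 (sg L q)), BBinv (top1 _ _), inv_inv, sgT,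
      ← commutatorElement_inv (mk4 q) (mk4 p), BBinv (top1 _ _)]
  | one => simp
  | mul p q hp hq h1 h2 =>
    have hp' : p ∈ lc (FreeGroup L) 1 := hp
    have hq' : q ∈ lc (FreeGroup L) 1 := hq
    rw [map_mul, map_mul, map_mul, BBmul (mk4_mem (sg_mem hp')) (mk4_mem (sg_mem hq')),
      BBmul (mk4_mem hp') (mk4_mem hq'), h1, h2]
  | inv p hp h1 =>
    have hp' : p ∈ lc (FreeGroup L) 1 := hp
    rw [map_inv, map_inv, map_inv, BBinv (mk4_mem (sg_mem hp')), BBinv (mk4_mem hp'), h1]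

lemma sg3 {τ : FreeGroup L} (hτ : τ ∈ lc (FreeGroup L) 2) : ∀ x : Nil L,
    ⁅x, mk4 (sg L τ)⁆ = ⁅x, mk4 τ⁆⁻¹ := by
  intro x
  have hg' : τ ∈ closure {g : FreeGroup L | ∃ g₁ ∈ lc (FreeGroup L) 1, ∃ g₂ ∈ (⊤ : Subgroup (FreeGroup L)),
      ⁅g₁, g₂⁆ = g} := hτ
  clear hτ
  induction hg' using Subgroup.closure_induction with
  | mem g hg =>
    obtain ⟨p, hp, q, -, rfl⟩ := hg
    have e1 : ∀ p' q' : Nil L, p' ∈ lc (Nil L) 1 → ⁅x, ⁅p', q'⁆⁆ = ⁅x, ⁅q', p'⁆⁆⁻¹ := by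
      intro p' q' hp'
      rw [← commutatorElement_inv q' p', Dinv' (comm_mem' hp')]
    rw [map_commutatorElement, map_commutatorElement, map_commutatorElement,
      e1 _ _ (mk4_mem (sg_mem hp)), sgP1 q x _ (mk4_mem (sg_mem hp)), inv_inv, sgP2 hp,
      e1 _ _ (mk4_mem hp), inv_inv]
  | one => simp only [map_one, commutatorElement_one_right, inv_one]
  | mul p q hp hq h1 h2 =>
    have hp' : p ∈ lc (FreeGroup L) 2 := hp
    have hq' : q ∈ lc (FreeGroup L) 2 := hq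
    rw [map_mul, map_mul, map_mul, Dmul' (mk4_mem (sg_mem hq')), Dmul' (mk4_mem hq'), h1, h2,
      mul_inv_rev]
    exact ((Dcen (mk4_mem hp') x _).inv_left.inv_right).eq
  | inv p hp h1 =>
    have hp' : p ∈ lc (FreeGroup L) 2 := hp
    rw [map_inv, map_inv, map_inv, Dinv' (mk4_mem (sg_mem hp')), Dinv' (mk4_mem hp'), h1]

lemma pc_mem {τ : FreeGroup L} (hτ : τ ∈ lc (FreeGroup L) 2) : pc τ ∈ lc (FreeGroup L) 2 :=
  mul_mem hτ (inv_mem (sg_mem hτ))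

lemma comm_pc {τ : FreeGroup L} (hτ : τ ∈ lc (FreeGroup L) 2) (x : Nil L) :
    ⁅x, mk4 (pc τ)⁆ = ⁅x, mk4 τ⁆ ^ 2 := by
  rw [pc, map_mul, map_inv, Dmul' (inv_mem (mk4_mem (sg_mem hτ))), Dinv' (mk4_mem (sg_mem hτ)),
    sg3 hτ, inv_inv, pow_two]

lemma pc_mul {τ τ' : FreeGroup L} (hτ : τ ∈ lc (FreeGroup L) 2) (hτ' : τ' ∈ lc (FreeGroup L) 2) :
    mk4 (pc (τ * τ')) = mk4 (pc τ) * mk4 (pc τ') := by
  have h1 : Commute (mk4 (pc τ')) ((mk4 (sg L τ))⁻¹) :=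
    c22 (mk4_mem (pc_mem hτ')) (inv_mem (mk4_mem (sg_mem hτ)))
  have : pc (τ * τ') = τ * pc τ' * (sg L τ)⁻¹ := by
    simp [pc, mul_assoc]
  rw [this, map_mul, map_mul, map_inv, mul_assoc, h1.eq, ← mul_assoc]
  congr 1

lemma pc_one : pc (1 : FreeGroup L) = 1 := by simp [pc]

end sig

end Pool.Agent.Helper702.Pl
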