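import Mathlib
import Pool.Agent.Helper702.PlD

set_option autoImplicit false

/-!
# Sufficiency: a solution of the system gives palindromes
-/

namespace Pool.Agent.Helper702.Pl

open Subgroup
open scoped commutatorElement IsMulCommutative

/-- product of `k` palindromes modulo the fifth term of the lower central series -/
def IsProd {L : Type} (k : ℕ) (g : FreeGroup L) : Prop :=
  ∃ l : List (FreeGroup L), l.length = k ∧ (∀ p ∈ l, Pal p) ∧ mk4 l.prod = mk4 g

section abs
variable {N : Type} [Group N] [Four N]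

/-- the commutator homomorphism into the centre -/
def Dhom (x : N) : lc N 2 →* center N where
  toFun t := ⟨⁅x, (t : N)⁆, by
    rw [Subgroup.mem_center_iff]
    intro g
    exact ((Dcen t.2 x g).eq).symm⟩
  map_one' := by
    ext
    simp
  map_mul' t t' := by
    ext
    simp only [Subgroup.coe_mul]
    exact Dmul' t'.2 x

@[simp] lemma Dhom_coe (x : N) (t : lc N 2) : ((Dhom x t : center N) : N) = ⁅x, (t : N)⁆ := rfl

variable {I : Type} [Fintype I]

/-- products of such commutators -/
noncomputable def Psi (e : I → N) : (I → lc N 2) →* center N :=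
  ∏ i, (Dhom (e i)).comp (Pi.evalMonoidHom (fun _ => lc N 2) i)

lemma Psi_apply (e : I → N) (t : I → lc N 2) : Psi e t = ∏ i, Dhom (e i) (t i) := by
  unfold Psi
  rw [MonoidHom.finsetProd_apply]
  rfl

lemma Psi_coe (e : I → N) (t : I → lc N 2) :
    ((Psi e t : center N) : N) = ((Finset.univ : Finset I).toList.map fun i => ⁅e i, (t i : N)⁆).prod := by
  rw [Psi_apply, ← Finset.prod_map_toList]
  have := map_list_prod (center N).subtype ((Finset.univ : Finset I).toList.map fun i => Dhom (e i) (t i))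
  rw [List.map_map] at this
  exact this

/-- the subgroup generated by them -/
noncomputable def EE (e : I → N) : Subgroup N := (Psi e).range.map (center N).subtype

lemma mem_EE {e : I → N} {x : N} : x ∈ EE e ↔ ∃ t : I → lc N 2, ((Psi e t : center N) : N) = x := by
  unfold EE
  constructor
  · rintro ⟨y, ⟨t, rfl⟩, rfl⟩
    exact ⟨t, rfl⟩
  · rintro ⟨t, rfl⟩
    exact ⟨Psi e t, ⟨t, rfl⟩, rfl⟩

instance (e : I → N) : (EE e).Normal := by
  refine ⟨fun n hn g => ?_⟩
  obtain ⟨t, rfl⟩ := mem_EE.1 hn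
  have h := (Psi e t).2
  rw [Subgroup.mem_center_iff] at h
  rw [h g, mul_inv_cancel_right]
  exact hn

lemma comm_mem_EE [DecidableEq I] (e : I → N) (i : I) {s : N} (hs : s ∈ lc N 2) : ⁅e i, s⁆ ∈ EE e := by
  refine mem_EE.2 ⟨Pi.mulSingle i ⟨s, hs⟩, ?_⟩
  rw [Psi_apply, Finset.prod_eq_single i]
  · rw [Pi.mulSingle_eq_same]
    rfl
  · intro j _ hj
    rw [Pi.mulSingle_eq_of_ne hj, map_one]
  · intro h
    exact absurd (Finset.mem_univ i) h

instance (e : I → N) : Four (N ⧸ EE e) :=
  four_of_surj (QuotientGroup.mk' (EE e)) (QuotientGroup.mk'_surjective _) (by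
    rw [Four.h4]; exact bot_le)

lemma Kc_mk [DecidableEq I] (e : I → N) (i : I) : Kc (QuotientGroup.mk' (EE e) (e i)) := by
  intro t ht
  have ht' : t ∈ (⊤ : Subgroup (N ⧸ EE e)).lowerCentralSeries 2 := ht
  rw [← map_lc_surj (QuotientGroup.mk' (EE e)) (QuotientGroup.mk'_surjective _) 2] at ht'
  obtain ⟨s, hs, rfl⟩ := ht'
  rw [← commutatorElement_eq_one_iff_commute, ← map_commutatorElement]
  exact (QuotientGroup.eq_one_iff _).2 (comm_mem_EE e i hs)

omit [Four N] in
lemma shuf {A B B' P c c' : N} (hA : ∀ q, Commute A q) (hB' : ∀ q, Commute B' q)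
    (hP : ∀ q, Commute P q) : A * B * c * (B' * P * c') = B * B' * (A * P) * (c * c') := by
  calc A * B * c * (B' * P * c') = A * B * (c * B') * P * c' := by group
    _ = A * B * (B' * c) * P * c' := by rw [(hB' c).eq]
    _ = A * (B * B') * (c * P) * c' := by group
    _ = A * (B * B') * (P * c) * c' := by rw [(hP c).eq]
    _ = (B * B') * A * (P * c) * c' := by rw [(hA (B * B')).eq]
    _ = _ := by group

end abs

lemma conj_eq {G : Type} [Group G] (u c : G) : u * c * u⁻¹ = ⁅u, c⁆ * c := by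
  simp [commutatorElement_def]

lemma Kc_one {G : Type} [Group G] : Kc (1 : G) := fun t _ => Commute.one_left t

section list
variable {L I : Type}

lemma mk4_comm_pow {τ : FreeGroup L} (hτ : τ ∈ lc (FreeGroup L) 2) (x y : FreeGroup L) :
    mk4 ((x * y) * pc τ * (x * y)⁻¹) =
      ⁅mk4 x, mk4 τ⁆ ^ 2 * ⁅mk4 y, mk4 (pc τ)⁆ * mk4 (pc τ) := by
  rw [conj_eq, map_mul, map_commutatorElement, map_mul, Dmul (mk4_mem (pc_mem hτ)), comm_pc hτ (mk4 x)]

lemma prod_list (e : I → FreeGroup L) (v : FreeGroup L) (τ : I → FreeGroup L)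
    (hτ : ∀ i, τ i ∈ lc (FreeGroup L) 2) (l : List I) :
    (l.map τ).prod ∈ lc (FreeGroup L) 2 ∧
    (∀ q : Nil L, Commute (l.map fun i => ⁅mk4 (e i), mk4 (τ i)⁆).prod q) ∧
    mk4 ((l.map fun i => (e i * v) * pc (τ i) * (e i * v)⁻¹).prod) =
      ⁅mk4 v, mk4 (pc (l.map τ).prod)⁆ * (l.map fun i => ⁅mk4 (e i), mk4 (τ i)⁆).prod ^ 2 *
        mk4 (pc (l.map τ).prod) := by
  induction l with
  | nil =>
    refine ⟨by simp, by simp, ?_⟩
    simp only [List.map_nil, List.prod_nil, pc_one, map_one, commutatorElement_one_right, one_pow, mul_one]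
  | cons i l ih =>
    obtain ⟨h1, h2, h3⟩ := ih
    simp only [List.map_cons, List.prod_cons]
    have hA : ∀ q : Nil L, Commute ⁅mk4 (e i), mk4 (τ i)⁆ q := fun q => Dcen (mk4_mem (hτ i)) _ q
    refine ⟨mul_mem (hτ i) h1, fun q => (hA q).mul_left (h2 q), ?_⟩
    rw [map_mul, h3, mk4_comm_pow (hτ i), pc_mul (hτ i) h1, Dmul' (mk4_mem (pc_mem h1)),
      (hA _).mul_pow]
    exact shuf (fun q => (hA q).pow_left 2) (fun q => Dcen (mk4_mem (pc_mem h1)) _ q)
      (fun q => (h2 q).pow_left 2)

/-- two palindromes for each index -/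
def flatL (u : I → FreeGroup L) (τ : I → FreeGroup L) (l : List I) : List (FreeGroup L) :=
  l.flatMap fun i => [u i * pc (τ i) * (sg L (u i))⁻¹, (u i * (sg L (u i))⁻¹)⁻¹]

lemma flat (u : I → FreeGroup L) (τ : I → FreeGroup L) (l : List I) :
    (flatL u τ l).length = 2 * l.length ∧
    (∀ p ∈ flatL u τ l, Pal p) ∧
    (flatL u τ l).prod = (l.map fun i => u i * pc (τ i) * (u i)⁻¹).prod := by
  unfold flatL
  induction l with
  | nil => simp
  | cons i l ih =>
    obtain ⟨h1, h2, h3⟩ := ih
    rw [List.flatMap_cons]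
    refine ⟨?_, ?_, ?_⟩
    · rw [List.length_append, h1]
      simp
      ring
    · intro p hp
      rcases List.mem_append.1 hp with hp | hp
      · simp only [List.mem_cons, List.not_mem_nil, or_false] at hp
        rcases hp with rfl | rfl
        · exact pal_sandwich _ (pal_pc _)
        · have := pal_inv (pal_sandwich (u i) pal_one)
          rwa [mul_one] at this
      · exact h2 p hp
    · rw [List.prod_append, h3, List.map_cons, List.prod_cons]
      simp [mul_assoc]

end list

section suff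
variable {V Q D : Type} [Fintype V] [Fintype Q] [Fintype D] [DecidableEq V] [DecidableEq Q] [DecidableEq D]

/-- indices of the killed directions -/
abbrev Idx (V Q D : Type) : Type := (V × Col V) ⊕ Dum V Q D

/-- the killed directions -/
def eF (z : Row V → ℤ) : Idx V Q D → FreeGroup (Let V Q D)
  | Sum.inl (i, l) => X FreeGroup.of (some i) l * (X FreeGroup.of none l ^ z (some i))⁻¹
  | Sum.inr d => FreeGroup.of (Sum.inr d)

theorem suff (gd : Q → List (ℤ × Row V × Row V)) (z : Row V → ℤ) (hz : z none = 1)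
    (hg : ∀ q, ((gd q).map fun t => t.1 * (z t.2.1 * z t.2.2)).sum = 0) :
    IsProd (2 + 2 * Fintype.card (Idx V Q D))
      (pc (tt (D := D) (Q := Q) (V := V) FreeGroup.of) * ghat (D := D) FreeGroup.of gd ^ 2) := by
  classical
  set e : Idx V Q D → FreeGroup (Let V Q D) := eF z with he
  set eN : Idx V Q D → Nil (Let V Q D) := fun i => mk4 (e i) with heN
  set φ := QuotientGroup.mk' (EE eN) with hφ
  have hK : ∀ i, Kc (φ (eN i)) := Kc_mk eN
  set ψ : FreeGroup (Let V Q D) →* (Nil (Let V Q D)) ⧸ EE eN := φ.comp mk4 with hψ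
  have h1 := ghat_eq (D := D) (fun x => ψ (FreeGroup.of x)) gd z (fun d => hK (Sum.inr d)) (by
    intro i l
    rcases i with _ | i
    · rw [hz, zpow_one, mul_inv_cancel]
      exact Kc_one
    · have h2 := hK (Sum.inl (i, l))
      have h3 : φ (eN (Sum.inl (i, l))) = X (fun x => ψ (FreeGroup.of x)) (some i) l *
          (X (fun x => ψ (FreeGroup.of x)) none l ^ z (some i))⁻¹ := by
        simp only [heN, he, eF, map_mul, map_inv, map_zpow, X, hψ, MonoidHom.comp_apply]
      rwa [h3] at h2) hg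
  set v : FreeGroup (Let V Q D) := lp fun j : V => X FreeGroup.of none (some (some j)) ^ (z (some j) * z (some j)) with hv
  set t := tt (D := D) (Q := Q) (V := V) FreeGroup.of with ht
  set g := ghat (D := D) FreeGroup.of gd with hgd
  have htm : t ∈ lc (FreeGroup (Let V Q D)) 2 := comm_mem' (comm_mem (k := 0) (Subgroup.mem_top _))
  have h2 : ψ g = ψ ⁅v, t⁆ := by
    rw [map_commutatorElement, hgd, map_ghat, h1, hv, map_lp, ht, map_tt]
    rfl
  have h3 : (⁅mk4 v, mk4 t⁆)⁻¹ * mk4 g ∈ EE eN := by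
    rw [← map_commutatorElement]
    exact QuotientGroup.eq.1 h2.symm
  obtain ⟨s, hs⟩ := mem_EE.1 h3
  have h4 : ∀ i, ∃ τ ∈ lc (FreeGroup (Let V Q D)) 2, mk4 τ = (s i : Nil (Let V Q D)) := by
    intro i
    have : (s i : Nil (Let V Q D)) ∈ (⊤ : Subgroup (Nil (Let V Q D))).lowerCentralSeries 2 := (s i).2
    rw [← map_lc_surj mk4 mk4_surj 2] at this
    exact this
  choose τ hτ hτs using h4
  obtain ⟨k1, k2, k3⟩ := prod_list e v τ hτ (Finset.univ : Finset (Idx V Q D)).toList
  obtain ⟨l1, l2, l3⟩ := flat (fun i => e i * v) τ (Finset.univ : Finset (Idx V Q D)).toList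
  set T := ((Finset.univ : Finset (Idx V Q D)).toList.map τ).prod with hT
  set P := ((Finset.univ : Finset (Idx V Q D)).toList.map fun i => ⁅mk4 (e i), mk4 (τ i)⁆).prod with hP
  have hPs : P = (⁅mk4 v, mk4 t⁆)⁻¹ * mk4 g := by
    rw [← hs, Psi_coe, hP]
    congr 1
    apply List.map_congr_left
    intro i _
    rw [hτs i]
  set τ0 := t * T⁻¹ with hτ0
  have hτ0m : τ0 ∈ lc (FreeGroup (Let V Q D)) 2 := mul_mem htm (inv_mem k1)
  obtain ⟨m1, m2, m3⟩ := flat (fun _ : Unit => v) (fun _ => τ0) [()]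
  refine ⟨flatL (fun _ : Unit => v) (fun _ => τ0) [()] ++
    flatL (fun i => e i * v) τ (Finset.univ : Finset (Idx V Q D)).toList, ?_, ?_⟩
  · rw [List.length_append, l1, m1]
    simp
  · refine ⟨?_, ?_⟩
    · intro p hp
      rcases List.mem_append.1 hp with hp | hp
      · exact m2 p hp
      · exact l2 p hp
    · rw [List.prod_append, map_mul, l3, k3, m3]
      have e1 : mk4 (([()].map fun i => (fun _ : Unit => v) i * pc ((fun _ => τ0) i) * ((fun _ : Unit => v) i)⁻¹).prod)
          = 1 * ⁅mk4 v, mk4 (pc τ0)⁆ * mk4 (pc τ0) := by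
        simp only [List.map_cons, List.map_nil, List.prod_cons, List.prod_nil, mul_one, one_mul]
        rw [conj_eq, map_mul, map_commutatorElement]
      rw [e1, shuf (fun q => Commute.one_left q) (fun q => Dcen (mk4_mem (pc_mem k1)) _ q)
        (fun q => (k2 q).pow_left 2), ← Dmul' (mk4_mem (pc_mem k1)), ← pc_mul hτ0m k1, hτ0,
        inv_mul_cancel_right, one_mul, comm_pc htm, hPs, map_mul, map_pow]
      have c1 : ∀ q, Commute ⁅mk4 v, mk4 t⁆ q := fun q => Dcen (mk4_mem htm) _ q
      have c2 : ∀ q, Commute P q := k2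
      rw [hPs] at c2
      rw [← (c1 _).mul_pow, mul_inv_cancel_left]
      have c3 : ∀ q, Commute (mk4 g) q := by
        intro q
        have := (c1 q).mul_left (c2 q)
        rwa [mul_inv_cancel_left] at this
      exact ((c3 _).pow_left 2).eq

end suff

end Pool.Agent.Helper702.Pl
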