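import Mathlib
import Pool.Agent.Helper702.PlA
import Pool.Agent.Helper702.PlE

set_option autoImplicit false

/-!
# Necessity: evaluation in unitriangular matrices
-/

namespace Pool.Agent.Helper702.Pl

open Subgroup
open scoped commutatorElement

section rep
variable {L : Type}

/-- the representation attached to linear forms -/
def Ph (la f g : L → ℚ) : FreeGroup L →* U := FreeGroup.lift fun x => U.E (la x) (f x) (g x) (la x)

@[simp] lemma Ph_of (la f g : L → ℚ) (x : L) : Ph la f g (FreeGroup.of x) = U.E (la x) (f x) (g x) (la x) := by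
  simp [Ph]

lemma Ph_sg (la f g : L → ℚ) (w : FreeGroup L) : Ph la f g (sg L w) = U.al (Ph la f g w) := by
  have : (Ph la f g).comp (sg L) = U.al.comp (Ph la f g) := by
    ext a : 1
    simp only [MonoidHom.comp_apply, sg_of, map_inv, Ph_of, U.al_E]
  exact DFunLike.congr_fun this w

lemma Ph_pal (la f g : L → ℚ) {p : FreeGroup L} (hp : Pal p) : U.Inv (Ph la f g p) := by
  unfold U.Inv
  rw [← Ph_sg, hp, map_inv]

lemma Ph_eq (la f g : L → ℚ) {x y : FreeGroup L} (h : mk4 x = mk4 y) : Ph la f g x = Ph la f g y := by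
  have h1 : x⁻¹ * y ∈ lc (FreeGroup L) 4 := QuotientGroup.eq.1 h
  have h2 := map_mem_lc (Ph la f g) h1
  rw [U.lcs_U, Subgroup.mem_bot, map_mul, map_inv, inv_mul_eq_one] at h2
  exact h2

variable [Fintype L] [DecidableEq L]

/-- exponent sums -/
def ab (L : Type) [DecidableEq L] : FreeGroup L →* Multiplicative (L → ℤ) :=
  FreeGroup.lift fun x => Multiplicative.ofAdd (Pi.single x 1)

/-- exponent sum of a letter -/
def ex (w : FreeGroup L) (x : L) : ℤ := (Multiplicative.toAdd (ab L w)) x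

omit [Fintype L] in
lemma ex_one (x : L) : ex (1 : FreeGroup L) x = 0 := by simp [ex]

omit [Fintype L] in
lemma ex_of (y x : L) : ex (FreeGroup.of y) x = if x = y then 1 else 0 := by
  simp [ex, ab, Pi.single_apply]

omit [Fintype L] in
lemma ex_mul (v w : FreeGroup L) (x : L) : ex (v * w) x = ex v x + ex w x := by simp [ex]

omit [Fintype L] in
lemma ex_inv (v : FreeGroup L) (x : L) : ex v⁻¹ x = -ex v x := by simp [ex]

/-- value of a linear form -/
def lin (la : L → ℚ) (w : FreeGroup L) : ℚ := ∑ x, la x * (ex w x : ℚ)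

lemma lin_one (la : L → ℚ) : lin la 1 = 0 := by simp [lin, ex_one]

lemma lin_mul (la : L → ℚ) (v w : FreeGroup L) : lin la (v * w) = lin la v + lin la w := by
  simp only [lin, ex_mul, Int.cast_add, mul_add, Finset.sum_add_distrib]

lemma lin_inv (la : L → ℚ) (v : FreeGroup L) : lin la v⁻¹ = -lin la v := by
  simp only [lin, ex_inv, Int.cast_neg, mul_neg, Finset.sum_neg_distrib]

lemma lin_of (la : L → ℚ) (x : L) : lin la (FreeGroup.of x) = la x := by
  simp [lin, ex_of]

lemma lin_eq (la : L → ℚ) (φ : FreeGroup L → ℚ) (h1 : φ 1 = 0) (hm : ∀ x y, φ (x * y) = φ x + φ y)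
    (ho : ∀ x, φ (FreeGroup.of x) = la x) (w : FreeGroup L) : φ w = lin la w := by
  have hi : ∀ x, φ x⁻¹ = -φ x := by
    intro x
    have := hm x x⁻¹
    rw [mul_inv_cancel, h1] at this
    linarith
  induction w using FreeGroup.induction_on with
  | C1 => rw [h1, lin_one]
  | of x => rw [ho, lin_of]
  | inv_of x ih =>
    rw [hi, lin_inv]
    have : φ (FreeGroup.of x) = lin la (FreeGroup.of x) := ih
    rw [this]
  | mul x y hx hy => rw [hm, lin_mul, hx, hy]

lemma Ph_a1 (la f g : L → ℚ) (w : FreeGroup L) : (Ph la f g w).a1 = lin la w :=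
  lin_eq la (fun w => (Ph la f g w).a1) (by simp) (by simp) (by simp [U.E]) w

lemma Ph_a2 (la f g : L → ℚ) (w : FreeGroup L) : (Ph la f g w).a2 = lin f w :=
  lin_eq f (fun w => (Ph la f g w).a2) (by simp) (by simp) (by simp [U.E]) w

lemma Ph_a3 (la f g : L → ℚ) (w : FreeGroup L) : (Ph la f g w).a3 = lin g w :=
  lin_eq g (fun w => (Ph la f g w).a3) (by simp) (by simp) (by simp [U.E]) w

lemma Ph_a4 (la f g : L → ℚ) (w : FreeGroup L) : (Ph la f g w).a4 = lin la w :=
  lin_eq la (fun w => (Ph la f g w).a4) (by simp) (by simp) (by simp [U.E]) w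

/-- product of the first factors -/
def pr (p : ℕ → FreeGroup L) (k : ℕ) : FreeGroup L := ((List.range k).map p).prod

omit [Fintype L] [DecidableEq L] in
lemma pr_zero (p : ℕ → FreeGroup L) : pr p 0 = 1 := by simp [pr]

omit [Fintype L] [DecidableEq L] in
lemma pr_succ (p : ℕ → FreeGroup L) (k : ℕ) : pr p (k + 1) = pr p k * p k := by
  simp [pr, List.range_succ]

lemma conj_pr (la f g : L → ℚ) (p : ℕ → FreeGroup L) (hp : ∀ j, Pal (p j)) (θ : ℚ) (m : ℕ)
    (h : ∀ j < 2 * m, lin la (p j) = (-1) ^ j * θ) :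
    (U.C θ)⁻¹ * Ph la f g (pr p (2 * m)) * U.C θ ∈ U.M := by
  induction m with
  | zero => simp [pr_zero, U.M.one_mem]
  | succ m ih =>
    have e : 2 * (m + 1) = 2 * m + 1 + 1 := by ring
    rw [e, pr_succ, pr_succ, map_mul, map_mul]
    have e2 : (U.C θ)⁻¹ * (Ph la f g (pr p (2 * m)) * Ph la f g (p (2 * m)) * Ph la f g (p (2 * m + 1))) * U.C θ
        = ((U.C θ)⁻¹ * Ph la f g (pr p (2 * m)) * U.C θ) *
          ((U.C θ)⁻¹ * (Ph la f g (p (2 * m)) * Ph la f g (p (2 * m + 1))) * U.C θ) := by group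
    rw [e2]
    have h1 : lin la (p (2 * m)) = θ := by
      rw [h _ (by omega), pow_mul]; simp
    have h2 : lin la (p (2 * m + 1)) = -θ := by
      rw [h _ (by omega), pow_succ, pow_mul]; simp
    refine U.M.mul_mem (ih fun j hj => h j (by omega)) (U.pair_mem (Ph_pal _ _ _ (hp _)) (Ph_pal _ _ _ (hp _)) ?_ ?_ ?_ ?_)
    · rw [Ph_a1, h1]
    · rw [Ph_a4, h1]
    · rw [Ph_a1, h2]
    · rw [Ph_a4, h2]

lemma pr_b1 (la f g : L → ℚ) (p : ℕ → FreeGroup L) (hp : ∀ j, Pal (p j)) (k : ℕ) :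
    (Ph la f g (pr p k)).a1 = ∑ i ∈ Finset.range k, lin la (p i) ∧
    (Ph la f g (pr p k)).b1 = ∑ j ∈ Finset.range k,
      ((∑ i ∈ Finset.range j, lin la (p i)) + lin la (p j) / 2) * lin f (p j) := by
  induction k with
  | zero => simp [pr_zero]
  | succ k ih =>
    rw [pr_succ, map_mul, U.mul_a1, U.mul_b1, Finset.sum_range_succ, Finset.sum_range_succ, ih.1, ih.2,
      (Ph_pal la f g (hp k)).b1, Ph_a1, Ph_a2]
    refine ⟨rfl, by ring⟩

end rep

end Pool.Agent.Helper702.Pl
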