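import Mathlib
import Pool.Agent.Helper702.PlF

set_option autoImplicit false

/-!
# Evaluation of the special element
-/

namespace Pool.Agent.Helper702.Pl

open Subgroup
open scoped commutatorElement

/-- an element of the corner subgroup with given value -/
def D4 (x : U) (r : ℚ) : Prop := x ∈ U.F4 ∧ x.d = r

lemma D4.one : D4 1 0 := ⟨U.F4.one_mem, rfl⟩

lemma D4.mul {x y : U} {r s : ℚ} (hx : D4 x r) (hy : D4 y s) : D4 (x * y) (r + s) := by
  refine ⟨U.F4.mul_mem hx.1 hy.1, ?_⟩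
  obtain ⟨⟨⟨⟨h1, h2, h3, h4⟩, h5, h6, h7⟩, h8, h9⟩, rfl⟩ := hx
  obtain ⟨⟨⟨⟨k1, k2, k3, k4⟩, k5, k6, k7⟩, k8, k9⟩, rfl⟩ := hy
  rw [U.mul_d, k4, h5, h1]
  ring

lemma D4.inv {x : U} {r : ℚ} (hx : D4 x r) : D4 x⁻¹ (-r) := by
  refine ⟨U.F4.inv_mem hx.1, ?_⟩
  obtain ⟨⟨⟨⟨h1, h2, h3, h4⟩, h5, h6, h7⟩, h8, h9⟩, rfl⟩ := hx
  rw [U.inv_d, h1, h2, h4, h5, h8]
  ring

lemma D4.pow {x : U} {r : ℚ} (hx : D4 x r) (n : ℕ) : D4 (x ^ n) (n * r) := by
  induction n with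
  | zero => simpa using D4.one
  | succ n ih =>
    have := ih.mul hx
    rw [pow_succ]
    convert this using 1
    push_cast; ring

lemma D4.zpow {x : U} {r : ℚ} (hx : D4 x r) (n : ℤ) : D4 (x ^ n) (n * r) := by
  rcases Int.eq_nat_or_neg n with ⟨m, rfl | rfl⟩
  · rw [zpow_natCast]
    simpa using hx.pow m
  · rw [zpow_neg, zpow_natCast]
    have := (hx.pow m).inv
    convert this using 1
    push_cast; ring

lemma D4.list {α : Type} (l : List α) (x : α → U) (r : α → ℚ) (h : ∀ a ∈ l, D4 (x a) (r a)) :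
    D4 (l.map x).prod (l.map r).sum := by
  induction l with
  | nil => simpa using D4.one
  | cons a l ih =>
    rw [List.map_cons, List.prod_cons, List.map_cons, List.sum_cons]
    exact (h a List.mem_cons_self).mul (ih fun b hb => h b (List.mem_cons_of_mem _ hb))

lemma D4.lp {α : Type} [Fintype α] (x : α → U) (r : α → ℚ) (h : ∀ a, D4 (x a) (r a)) :
    D4 (lp x) (∑ a, r a) := by
  have := D4.list (Finset.univ : Finset α).toList x r fun a _ => h a
  rw [Finset.sum_map_toList] at this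
  exact this

section inst
variable {V Q D : Type} [DecidableEq V] [DecidableEq Q] [DecidableEq D]

instance slotDec : DecidableEq (Slot V Q) :=
  @instDecidableEqSum Bool (((Row V × Row V) × (Col V × Col V)) ⊕ Q) inferInstance inferInstance

instance dumDec : DecidableEq (Dum V Q D) :=
  @instDecidableEqSum (Slot V Q × Bool) D inferInstance inferInstance

instance letDec : DecidableEq (Let V Q D) :=
  @instDecidableEqSum (Row V × Col V) (Dum V Q D) inferInstance inferInstance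

end inst

section data
variable {V Q D : Type} [Fintype V] [Fintype Q] [Fintype D] [DecidableEq V] [DecidableEq Q] [DecidableEq D]

/-- the letters in the representation -/
def rv (la f g : Let V Q D → ℚ) (x : Let V Q D) : U := U.E (la x) (f x) (g x) (la x)

/-- first dummy of a slot -/
def m1 (q : Slot V Q) : Let V Q D := Sum.inr (Sum.inl (q, false))
/-- second dummy of a slot -/
def m2 (q : Slot V Q) : Let V Q D := Sum.inr (Sum.inl (q, true))

/-- dual form -/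
def f1 (q : Slot V Q) : Let V Q D → ℚ := Pi.single (m1 q) 1
/-- dual form -/
def f2 (q : Slot V Q) : Let V Q D → ℚ := Pi.single (m2 q) 1

lemma f1_X (q : Slot V Q) (i : Row V) (l : Col V) : f1 (D := D) q (Sum.inl (i, l)) = 0 := by
  simp [f1, m1]

lemma f2_X (q : Slot V Q) (i : Row V) (l : Col V) : f2 (D := D) q (Sum.inl (i, l)) = 0 := by
  simp [f2, m2]

lemma f1_m1 (q q' : Slot V Q) : f1 (D := D) q (m1 q') = if q' = q then 1 else 0 := by
  simp [f1, m1, Pi.single_apply]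

lemma f1_m2 (q q' : Slot V Q) : f1 (D := D) q (m2 q') = 0 := by
  simp [f1, m1, m2]

lemma f2_m1 (q q' : Slot V Q) : f2 (D := D) q (m1 q') = 0 := by
  simp [f2, m1, m2]

lemma f2_m2 (q q' : Slot V Q) : f2 (D := D) q (m2 q') = if q' = q then 1 else 0 := by
  simp [f2, m2, Pi.single_apply]

lemma wq_rv (la : Let V Q D → ℚ) (q q' : Slot V Q) :
    wq (rv la (f1 q) (f2 q)) q' ∈ U.F2 ∧
    (wq (rv la (f1 q) (f2 q)) q').b1 = (if q' = q then -la (m2 q) else 0) ∧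
    (wq (rv la (f1 q) (f2 q)) q').b2 = (if q' = q then 1 else 0) ∧
    (wq (rv la (f1 q) (f2 q)) q').b3 = (if q' = q then -la (m1 q) else 0) := by
  obtain ⟨h1, h2, h3, h4⟩ := U.comm2 (rv la (f1 q) (f2 q) (m1 q')) (rv la (f1 q) (f2 q) (m2 q'))
  refine ⟨h1, ?_, ?_, ?_⟩
  · refine h2.trans ?_
    simp only [rv, U.E, f1_m1, f1_m2]
    split_ifs with h
    · subst h; ring
    · ring
  · refine h3.trans ?_
    simp only [rv, U.E, f1_m1, f1_m2, f2_m1, f2_m2]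
    split_ifs with h
    · ring
    · ring
  · refine h4.trans ?_
    simp only [rv, U.E, f2_m1, f2_m2]
    split_ifs with h
    · subst h; ring
    · ring

/-- the value of a four-fold commutator -/
lemma bt_rv (la : Let V Q D → ℚ) (q : Slot V Q) (a b : Let V Q D) :
    D4 (bt (rv la (f1 q) (f2 q)) q (rv la (f1 q) (f2 q) a) (rv la (f1 q) (f2 q) b))
      (-2 * (la a * la b) - la a * f1 q b * la (m1 q) - la a * f2 q b * la (m2 q)) := by
  obtain ⟨h1, h2, h3, h4⟩ := wq_rv la q q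
  rw [if_pos rfl] at h2 h3 h4
  obtain ⟨k1, k2, k3⟩ := U.comm3 (rv la (f1 q) (f2 q) b) h1
  obtain ⟨l1, l2⟩ := U.comm4 (rv la (f1 q) (f2 q) a) k1
  refine ⟨l1, l2.trans ?_⟩
  rw [k2, k3, h2, h3, h4]
  simp only [rv, U.E]
  ring

lemma bt_rv_ne (la : Let V Q D → ℚ) {q q' : Slot V Q} (h : q' ≠ q) (a b : U) :
    bt (rv la (f1 q) (f2 q)) q' a b = 1 := by
  obtain ⟨h1, h2, h3, h4⟩ := wq_rv la q q'
  rw [if_neg h] at h2 h3 h4
  have k : wq (rv la (f1 q) (f2 q)) q' ∈ U.F3 := ⟨h1, h2, h3, h4⟩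
  exact U.comm5 a (U.comm4 b k).1

lemma sv_rv_ne (la : Let V Q D → ℚ) (gd : Q → List (ℤ × Row V × Row V)) {q q' : Slot V Q} (h : q' ≠ q) :
    sv (rv la (f1 q) (f2 q)) gd q' = 1 := by
  rcases q' with b | ⟨⟨i, i'⟩, l, l'⟩ | q'
  · cases b
    · exact lp_one fun d => bt_rv_ne la h _ _
    · exact lp_one fun d => bt_rv_ne la h _ _
  · simp only [sv, bt_rv_ne la h, inv_one, mul_one]
  · simp only [sv, bt_rv_ne la h, one_zpow]
    simp

lemma ghat_rv (la : Let V Q D → ℚ) (gd : Q → List (ℤ × Row V × Row V)) (q : Slot V Q) :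
    ghat (rv la (f1 q) (f2 q)) gd = sv (rv la (f1 q) (f2 q)) gd q :=
  lp_single q fun _ h => sv_rv_ne la gd h

lemma tt_rv (la : Let V Q D → ℚ) (q : Slot V Q) :
    tt (rv la (f1 q) (f2 q)) ∈ U.F3 ∧
    (tt (rv la (f1 q) (f2 q))).c1 = (if Sum.inl true = q then la (Sum.inl (none, some none)) else 0) ∧
    (tt (rv la (f1 q) (f2 q))).c2 = (if Sum.inl true = q then -la (Sum.inl (none, some none)) else 0) := by
  obtain ⟨h1, h2, h3, h4⟩ := wq_rv la q (Sum.inl true)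
  obtain ⟨k1, k2, k3⟩ := U.comm3 (rv la (f1 q) (f2 q) (Sum.inl (none, some none))) h1
  refine ⟨k1, k2.trans ?_, k3.trans ?_⟩
  · rw [h2, h3]
    simp only [rv, U.E, f2_X]
    split_ifs <;> ring
  · rw [h3, h4]
    simp only [rv, U.E, f1_X]
    split_ifs <;> ring

/-- the special element -/
noncomputable def GG (gd : Q → List (ℤ × Row V × Row V)) : FreeGroup (Let V Q D) :=
  pc (tt FreeGroup.of) * ghat FreeGroup.of gd ^ 2

lemma Ph_GG (la : Let V Q D → ℚ) (gd : Q → List (ℤ × Row V × Row V)) (q : Slot V Q) (r : ℚ)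
    (hr : D4 (sv (rv la (f1 q) (f2 q)) gd q) r) :
    Ph la (f1 q) (f2 q) (GG gd) ∈ U.F3 ∧
    (Ph la (f1 q) (f2 q) (GG gd)).c1 = (if Sum.inl true = q then 2 * la (Sum.inl (none, some none)) else 0) ∧
    (Ph la (f1 q) (f2 q) (GG gd)).c2 = (if Sum.inl true = q then -2 * la (Sum.inl (none, some none)) else 0) ∧
    (Ph la (f1 q) (f2 q) (GG gd)).d = 2 * r := by
  obtain ⟨k1, k2, k3⟩ := tt_rv la q
  have e0 : (fun x => Ph la (f1 q) (f2 q) (FreeGroup.of x)) = rv la (f1 q) (f2 q) := by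
    funext x
    rw [Ph_of]
    rfl
  have e1 : Ph la (f1 q) (f2 q) (GG gd) = tt (rv la (f1 q) (f2 q)) * (U.al (tt (rv la (f1 q) (f2 q))))⁻¹ *
      (ghat (rv la (f1 q) (f2 q)) gd) ^ 2 := by
    rw [GG, map_mul, map_pow, map_ghat, pc, map_mul, map_inv, Ph_sg, map_tt, e0]
  have hg := (ghat_rv la gd q) ▸ hr
  have hg2 := hg.pow 2
  rw [e1]
  obtain ⟨⟨⟨⟨g1, g2, g3, g4⟩, g5, g6, g7⟩, g8, g9⟩, g10⟩ := hg2
  set T := tt (rv la (f1 q) (f2 q))
  set W := ghat (rv la (f1 q) (f2 q)) gd ^ 2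
  obtain ⟨⟨t1, t2, t3, t4⟩, t5, t6, t7⟩ := k1
  refine ⟨⟨⟨?_, ?_, ?_, ?_⟩, ?_, ?_, ?_⟩, ?_, ?_, ?_⟩
  · simp [t1, g1]
  · simp [t2, g2]
  · simp [t3, g3]
  · simp [t4, g4]
  · simp [t1, t2, t5, g1, g2, g5]
  · simp [t2, t3, t6, g2, g3, g6]
  · simp [t3, t4, t7, g3, g4, g7]
  · simp only [U.mul_c1, U.mul_a1, U.mul_b1, U.inv_a1, U.inv_a2, U.inv_a3, U.inv_b1, U.inv_b2, U.inv_c1, U.al_a1, U.al_a2,
      U.al_a3, U.al_b1, U.al_b2, U.al_c1, t1, t2, t3, t4, t5, t6, t7, g1, g2, g3, g4, g5, g6, g7, g8, k2]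
    split_ifs <;> ring
  · simp only [U.mul_c2, U.mul_a2, U.mul_b2, U.inv_a2, U.inv_a3, U.inv_a4, U.inv_b2, U.inv_b3, U.inv_c2, U.al_a2, U.al_a3,
      U.al_a4, U.al_b2, U.al_b3, U.al_c2, t1, t2, t3, t4, t5, t6, t7, g1, g2, g3, g4, g5, g6, g7, g9, k3]
    split_ifs <;> ring
  · rw [U.mul_d, g10, g4, g7, g9]
    simp only [U.mul_d, U.inv_d, U.inv_a1, U.inv_a2, U.inv_a3, U.inv_a4, U.inv_b1, U.inv_b2, U.inv_b3, U.inv_c1, U.inv_c2,
      U.al_a1, U.al_a2, U.al_a3, U.al_a4, U.al_b1, U.al_b2, U.al_b3, U.al_c1, U.al_c2, U.al_d, t1, t2, t3, t4, t5, t6, t7]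
    push_cast
    ring

end data

end Pool.Agent.Helper702.Pl
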