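import Mathlib

set_option autoImplicit false

/-!
# Linear algebra for the necessity part
-/

namespace Pool.Agent.Helper702.Pl

open Module

/-- the triangular form -/
def Mt (k : ℕ) : Matrix (Fin k) (Fin k) ℚ := fun i j => if i < j then 1 else if i = j then 1 / 2 else 0

lemma Mt_det (k : ℕ) : (Mt k).det ≠ 0 := by
  have h : (Mt k).IsUpperTriangular := by
    intro i j hij
    have h1 : j < i := hij
    have h2 : ¬ i < j := by
      intro h; exact absurd (h.trans h1) (lt_irrefl _)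
    simp only [Mt, h2, if_false, h1.ne', if_false]
  rw [Matrix.det_of_isUpperTriangular h]
  simp [Mt]

lemma iso_bound {k : ℕ} (R : Submodule ℚ (Fin k → ℚ))
    (h : ∀ x ∈ R, ∀ y ∈ R, ∑ i, ∑ j, x i * (y j * Mt k i j) = 0) : 2 * finrank ℚ R ≤ k := by
  set B : (Fin k → ℚ) →ₗ[ℚ] (Fin k → ℚ) →ₗ[ℚ] ℚ := Matrix.toLinearMap₂' ℚ (Mt k) with hB
  have hker : LinearMap.ker B = ⊥ := by
    rw [← LinearMap.separatingLeft_iff_ker_eq_bot]
    exact LinearMap.separatingLeft_toLinearMap₂'_iff_det_ne_zero.2 (Mt_det k)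
  have hinj : Function.Injective B := LinearMap.ker_eq_bot.1 hker
  have h1 : R.map B ≤ R.dualAnnihilator := by
    rintro φ ⟨x, hx, rfl⟩
    rw [Submodule.mem_dualAnnihilator]
    intro y hy
    rw [hB, Matrix.toLinearMap₂'_apply]
    simp only [smul_eq_mul]
    exact h x hx y hy
  have h2 : finrank ℚ (R.map B) = finrank ℚ R := (LinearEquiv.finrank_eq (Submodule.equivMapOfInjective B hinj R)).symm
  have h3 : finrank ℚ (R.map B) ≤ finrank ℚ R.dualAnnihilator := Submodule.finrank_mono h1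
  have h4 : finrank ℚ R + finrank ℚ R.dualAnnihilator = finrank ℚ (Fin k → ℚ) :=
    Subspace.finrank_add_finrank_dualAnnihilator_eq R
  rw [Module.finrank_fin_fun] at h4
  rw [h2] at h3
  linarith

/-- the form on sequences -/
def BB (k : ℕ) (x y : ℕ → ℚ) : ℚ := ∑ j ∈ Finset.range k, ((∑ i ∈ Finset.range j, x i) + x j / 2) * y j

lemma BB_eq (k : ℕ) (x y : ℕ → ℚ) :
    ∑ i : Fin k, ∑ j : Fin k, x i * (y j * Mt k i j) = BB k x y := by
  rw [Finset.sum_comm, BB, Finset.sum_range]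
  refine Finset.sum_congr rfl fun j _ => ?_
  have h1 : ∑ i : Fin k, x i * (y j * Mt k i j) =
      y j * ∑ i : Fin k, (if (i : ℕ) < j then x i else 0) + y j * ∑ i : Fin k, (if i = j then x i / 2 else 0) := by
    rw [Finset.mul_sum, Finset.mul_sum, ← Finset.sum_add_distrib]
    refine Finset.sum_congr rfl fun i _ => ?_
    unfold Mt
    by_cases h : i < j
    · have h' : (i : ℕ) < j := h
      rw [if_pos h, if_pos h', if_neg h.ne]
      ring
    · have h' : ¬ (i : ℕ) < j := h
      rw [if_neg h, if_neg h']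
      split_ifs <;> ring
  have h2 : ∑ i : Fin k, (if (i : ℕ) < j then x i else 0) = ∑ i ∈ Finset.range j, x i := by
    rw [Fin.sum_univ_eq_sum_range (fun i => if i < (j : ℕ) then x i else 0) k, ← Finset.sum_filter]
    congr 1
    ext i
    simp only [Finset.mem_filter, Finset.mem_range]
    have := j.isLt
    omega
  rw [h1, h2, Finset.sum_ite_eq' Finset.univ j, if_pos (Finset.mem_univ j)]
  ring

lemma alt_half (j : ℕ) : (∑ i ∈ Finset.range j, (-1 : ℚ) ^ i) + (-1) ^ j / 2 = 1 / 2 := by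
  induction j with
  | zero => simp
  | succ j ih =>
    rw [Finset.sum_range_succ, pow_succ]
    linarith

lemma BB_alt_left (k : ℕ) (y : ℕ → ℚ) : BB k (fun i => (-1) ^ i) y = (∑ j ∈ Finset.range k, y j) / 2 := by
  unfold BB
  rw [Finset.sum_div]
  refine Finset.sum_congr rfl fun j _ => ?_
  rw [alt_half]; ring

lemma BB_alt_right (k : ℕ) (x : ℕ → ℚ) :
    BB k x (fun i => (-1) ^ i) = -((-1) ^ k * (∑ j ∈ Finset.range k, x j)) / 2 := by
  unfold BB
  induction k with
  | zero => simp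
  | succ k ih =>
    rw [Finset.sum_range_succ, ih, Finset.sum_range_succ, pow_succ]
    ring

lemma BB_comb (k : ℕ) (x y u v : ℕ → ℚ) (a b : ℚ) :
    BB k (fun i => x i - a * u i) (fun i => y i - b * v i) =
      BB k x y - b * BB k x v - a * BB k u y + a * b * BB k u v := by
  unfold BB
  simp only [Finset.mul_sum, ← Finset.sum_sub_distrib, ← Finset.sum_add_distrib]
  refine Finset.sum_congr rfl fun j _ => ?_
  rw [Finset.sum_sub_distrib, ← Finset.mul_sum]
  ring

lemma BB_zero {m : ℕ} {x y : ℕ → ℚ} (h : BB (2 * m) x y = 0) (hx : ∑ j ∈ Finset.range (2 * m), x j = 0)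
    (hy : ∑ j ∈ Finset.range (2 * m), y j = 0) (a b : ℚ) :
    BB (2 * m) (fun i => x i - a * (-1) ^ i) (fun i => y i - b * (-1) ^ i) = 0 := by
  rw [BB_comb, h, BB_alt_left, BB_alt_right, BB_alt_right, hx, hy]
  have : ∑ j ∈ Finset.range (2 * m), (-1 : ℚ) ^ j = 0 := by
    have h1 := alt_half (2 * m)
    have h2 : (-1 : ℚ) ^ (2 * m) = 1 := by rw [pow_mul]; norm_num
    rw [h2] at h1
    linarith
  rw [this]
  ring

section rank
variable {R C : Type} [Fintype R] [Fintype C]

lemma rank_one (W : Submodule ℚ (R × C → ℚ)) (hRC : Fintype.card R < Fintype.card C)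
    (hW : Fintype.card C ≤ finrank ℚ W)
    (hm : ∀ w ∈ W, ∀ i i' l l', w (i, l) * w (i', l') = w (i', l) * w (i, l')) :
    ∃ a : R → ℚ, (∃ i, a i ≠ 0) ∧ ∀ Y : C → ℚ, (fun p : R × C => a p.1 * Y p.2) ∈ W := by
  -- nonzero elements with vanishing column
  have step1 : ∀ l : C, ∃ w ∈ W, w ≠ 0 ∧ ∀ i, w (i, l) = 0 := by
    intro l
    set T : W →ₗ[ℚ] (R → ℚ) := (LinearMap.funLeft ℚ ℚ fun i : R => (i, l)).comp W.subtype with hT
    have h1 : LinearMap.ker T ≠ ⊥ := LinearMap.ker_ne_bot_of_finrank_lt (by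
      rw [Module.finrank_fintype_fun_eq_card]; omega)
    obtain ⟨w, hw, hw0⟩ := Submodule.exists_mem_ne_zero_of_ne_bot h1
    refine ⟨w, w.2, fun h => hw0 (Subtype.ext h), fun i => ?_⟩
    have := congrFun (LinearMap.mem_ker.1 hw) i
    exact this
  have step2 : ∃ w ∈ W, w ≠ 0 := by
    have : 0 < Fintype.card C := by omega
    have : Nonempty C := Fintype.card_pos_iff.1 this
    obtain ⟨w, hw, h0, -⟩ := step1 (Classical.arbitrary C)
    exact ⟨w, hw, h0⟩
  obtain ⟨w0, hw0, hne⟩ := step2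
  obtain ⟨⟨i0, l0⟩, hil⟩ := Function.ne_iff.1 hne
  change w0 (i0, l0) ≠ 0 at hil
  set a : R → ℚ := fun i => w0 (i, l0) with ha
  have star : ∀ w ∈ W, ∀ w' ∈ W, (∀ i, w' (i, l0) = 0) → ∀ i i' l,
      w (i, l0) * w' (i', l) = w (i', l0) * w' (i, l) := by
    intro w hw w' hw' h0 i i' l
    have h1 := hm _ (W.add_mem hw hw') i i' l0 l
    have h2 := hm w hw i i' l0 l
    simp only [Pi.add_apply, h0, add_zero] at h1
    linarith
  obtain ⟨w1, hw1, hne1, hz1⟩ := step1 l0
  obtain ⟨⟨i1, l1⟩, hil1⟩ := Function.ne_iff.1 hne1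
  change w1 (i1, l1) ≠ 0 at hil1
  have hai0 : a i0 ≠ 0 := hil
  -- `w1` has columns parallel to `a`
  have h3 : ∀ i i', a i * w1 (i', l1) = a i' * w1 (i, l1) := fun i i' => star w0 hw0 w1 hw1 hz1 i i' l1
  have hb : w1 (i0, l1) ≠ 0 := by
    intro h
    have := h3 i0 i1
    rw [h, mul_zero] at this
    rcases mul_eq_zero.1 this with h | h
    · exact hai0 h
    · exact hil1 h
  have h4 : ∀ w ∈ W, ∀ i, w (i, l0) * a i0 = w (i0, l0) * a i := by
    intro w hw i
    have h5 := star w hw w1 hw1 hz1 i i0 l1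
    have h6 := h3 i i0
    have h7 : w1 (i0, l1) * (w (i, l0) * a i0) = w1 (i0, l1) * (w (i0, l0) * a i) := by
      calc w1 (i0, l1) * (w (i, l0) * a i0) = (w (i, l0) * w1 (i0, l1)) * a i0 := by ring
        _ = (w (i0, l0) * w1 (i, l1)) * a i0 := by rw [h5]
        _ = w (i0, l0) * (a i0 * w1 (i, l1)) := by ring
        _ = w (i0, l0) * (a i * w1 (i0, l1)) := by rw [h6]
        _ = _ := by ring
    exact mul_left_cancel₀ hb h7
  have h5 : ∀ w ∈ W, ∀ i i' l, a i * w (i', l) = a i' * w (i, l) := by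
    intro w hw i i' l
    set c := w (i0, l0) / a i0 with hc
    have hw' : w - c • w0 ∈ W := W.sub_mem hw (W.smul_mem _ hw0)
    have hz : ∀ i, (w - c • w0) (i, l0) = 0 := by
      intro i
      have h6 := h4 w hw i
      simp only [Pi.sub_apply, Pi.smul_apply, smul_eq_mul, hc]
      have h7 : w0 (i, l0) = a i := rfl
      rw [h7]
      field_simp
      linarith
    have h6 := star w0 hw0 _ hw' hz i i' l
    have h7 := hm w0 hw0 i i' l0 l
    simp only [Pi.sub_apply, Pi.smul_apply, smul_eq_mul] at h6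
    have e1 : w0 (i, l0) = a i := rfl
    have e2 : w0 (i', l0) = a i' := rfl
    rw [e1, e2] at h6 h7
    linear_combination h6 + c * h7
  refine ⟨a, ⟨i0, hai0⟩, fun Y => ?_⟩
  set ρ : W →ₗ[ℚ] (C → ℚ) := (LinearMap.funLeft ℚ ℚ fun l : C => (i0, l)).comp W.subtype with hρ
  have hinj : Function.Injective ρ := by
    rw [← LinearMap.ker_eq_bot, LinearMap.ker_eq_bot']
    intro w hw
    ext ⟨i, l⟩
    have h6 : (w : R × C → ℚ) (i0, l) = 0 := congrFun hw l
    have h7 := h5 w w.2 i i0 l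
    rw [h6, mul_zero] at h7
    rcases mul_eq_zero.1 h7.symm with h | h
    · exact absurd h hai0
    · exact h
  have hsurj : LinearMap.range ρ = ⊤ := by
    apply Submodule.eq_top_of_finrank_eq
    have h6 := LinearMap.finrank_range_of_inj hinj
    have h7 : finrank ℚ (LinearMap.range ρ) ≤ finrank ℚ (C → ℚ) := Submodule.finrank_le _
    rw [Module.finrank_fintype_fun_eq_card] at h7 ⊢
    omega
  obtain ⟨w, hw⟩ := (LinearMap.range_eq_top.1 hsurj) (fun l => a i0 * Y l)
  have : (fun p : R × C => a p.1 * Y p.2) = (w : R × C → ℚ) := by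
    funext ⟨i, l⟩
    have h6 : (w : R × C → ℚ) (i0, l) = a i0 * Y l := congrFun hw l
    have h7 := h5 w w.2 i i0 l
    rw [h6] at h7
    have h8 : a i0 * (a i * Y l) = a i0 * (w : R × C → ℚ) (i, l) := by linarith
    exact mul_left_cancel₀ hai0 h8
  rw [this]
  exact w.2

end rank

end Pool.Agent.Helper702.Pl
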