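import Mathlib
import Pool.Agent.Helper702.PlG
import Pool.Agent.Helper702.PlH

set_option autoImplicit false

/-!
# Necessity: palindromes give a solution of the system
-/

namespace Pool.Agent.Helper702.Pl

open Module
open scoped commutatorElement

section ker
variable {L : Type} [Fintype L] [DecidableEq L]

lemma lin_add (la mu : L → ℚ) (w : FreeGroup L) : lin (la + mu) w = lin la w + lin mu w := by
  simp only [lin, Pi.add_apply, add_mul, Finset.sum_add_distrib]

lemma lin_smul (c : ℚ) (la : L → ℚ) (w : FreeGroup L) : lin (c • la) w = c * lin la w := by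
  simp only [lin, Pi.smul_apply, smul_eq_mul, mul_assoc, Finset.mul_sum]

/-- the linear conditions -/
def TT (p : ℕ → FreeGroup L) (k : ℕ) : ((L → ℚ) × ℚ) →ₗ[ℚ] (Fin k → ℚ) where
  toFun x := fun j => lin x.1 (p j) - x.2 * (-1) ^ (j : ℕ)
  map_add' x y := by
    funext j
    simp only [Prod.fst_add, Prod.snd_add, lin_add, Pi.add_apply]
    ring
  map_smul' c x := by
    funext j
    simp only [Prod.smul_fst, Prod.smul_snd, lin_smul, Pi.smul_apply, smul_eq_mul, RingHom.id_apply]
    ring

lemma mem_ker_TT {p : ℕ → FreeGroup L} {k : ℕ} {x : (L → ℚ) × ℚ} (hx : x ∈ LinearMap.ker (TT p k)) :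
    ∀ j < k, lin x.1 (p j) = (-1) ^ j * x.2 := by
  intro j hj
  have := congrFun (LinearMap.mem_ker.1 hx) ⟨j, hj⟩
  simp only [TT, LinearMap.coe_mk, AddHom.coe_mk, Pi.zero_apply] at this
  linarith

lemma ker_bound (p : ℕ → FreeGroup L) (hp : ∀ j, Pal (p j)) (m : ℕ)
    (hF : ∀ la f g, Ph la f g (pr p (2 * m)) ∈ U.F3) :
    Fintype.card L + 1 ≤ finrank ℚ (LinearMap.ker (TT p (2 * m))) + m := by
  have hz : ∀ la : L → ℚ, ∑ j ∈ Finset.range (2 * m), lin la (p j) = 0 := by
    intro la
    rw [← (pr_b1 la 0 0 p hp (2 * m)).1]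
    exact (hF la 0 0).1.1
  have hb : ∀ la f : L → ℚ, BB (2 * m) (fun j => lin la (p j)) (fun j => lin f (p j)) = 0 := by
    intro la f
    rw [BB, ← (pr_b1 la f 0 p hp (2 * m)).2]
    exact (hF la f 0).2.1
  have h1 := iso_bound (LinearMap.range (TT p (2 * m))) (by
    rintro _ ⟨x, rfl⟩ _ ⟨y, rfl⟩
    have h2 := BB_zero (hb x.1 y.1) (hz x.1) (hz y.1) x.2 y.2
    rw [← BB_eq] at h2
    exact h2)
  have h2 := LinearMap.finrank_range_add_finrank_ker (TT p (2 * m))
  have h3 : finrank ℚ ((L → ℚ) × ℚ) = Fintype.card L + 1 := by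
    rw [Module.finrank_prod, Module.finrank_fintype_fun_eq_card, Module.finrank_self]
  rw [h3] at h2
  omega

end ker

section memb
variable {V Q D : Type} [Fintype V] [Fintype Q] [Fintype D] {G : Type} [Group G]

omit [Fintype V] [Fintype Q] [Fintype D] in
lemma bt_memb (ev : Let V Q D → G) (q : Slot V Q) (a b : G) : bt ev q a b ∈ lc G 2 :=
  lc_antitone (by norm_num) (comm_mem' (k := 2) (comm_mem' (k := 1) (comm_mem (k := 0) (Subgroup.mem_top _))))

lemma lp_memb {α : Type} [Fintype α] {S : Subgroup G} {f : α → G} (h : ∀ a, f a ∈ S) : lp f ∈ S := by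
  apply Subgroup.list_prod_mem
  intro x hx
  rw [List.mem_map] at hx
  obtain ⟨a, -, rfl⟩ := hx
  exact h a

lemma sv_memb (ev : Let V Q D → G) (gd : Q → List (ℤ × Row V × Row V)) (q : Slot V Q) :
    sv ev gd q ∈ lc G 2 := by
  rcases q with b | ⟨⟨i, i'⟩, l, l'⟩ | q
  · cases b
    · exact lp_memb fun d => bt_memb _ _ _ _
    · exact lp_memb fun d => bt_memb _ _ _ _
  · exact mul_mem (bt_memb _ _ _ _) (inv_mem (bt_memb _ _ _ _))
  · apply Subgroup.list_prod_mem
    intro x hx
    rw [List.mem_map] at hx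
    obtain ⟨a, -, rfl⟩ := hx
    exact zpow_mem (bt_memb _ _ _ _) _

lemma ghat_memb (ev : Let V Q D → G) (gd : Q → List (ℤ × Row V × Row V)) : ghat ev gd ∈ lc G 2 :=
  lp_memb fun q => sv_memb ev gd q

omit [Fintype V] [Fintype Q] [Fintype D] in
lemma tt_memb (ev : Let V Q D → G) : tt ev ∈ lc G 2 :=
  comm_mem' (k := 1) (comm_mem (k := 0) (Subgroup.mem_top _))

end memb

section nec
variable {V Q D : Type} [Fintype V] [Fintype Q] [Fintype D] [DecidableEq V] [DecidableEq Q] [DecidableEq D]

lemma GG_memb (gd : Q → List (ℤ × Row V × Row V)) : GG (D := D) gd ∈ lc (FreeGroup (Let V Q D)) 2 :=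
  mul_mem (pc_mem (tt_memb _)) (pow_mem (ghat_memb _ _) 2)

theorem nec (gd : Q → List (ℤ × Row V × Row V))
    (h : IsProd (2 + 2 * Fintype.card (Idx V Q D)) (GG (D := D) gd)) :
    ∃ z : Row V → ℚ, z none = 1 ∧
      (∀ q, ((gd q).map fun t => (t.1 : ℚ) * (z t.2.1 * z t.2.2)).sum = 0) ∧
      ∃ s : Row V → V → ℤ, ∀ j : V, 2 * (z (some j) * z (some j)) = ∑ i, z i * (s i j : ℚ) := by
  obtain ⟨l, hl, hpal, hG⟩ := h
  set m := 1 + Fintype.card (Idx V Q D) with hm
  have hk : 2 + 2 * Fintype.card (Idx V Q D) = 2 * m := by omega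
  rw [hk] at hl
  set p : ℕ → FreeGroup (Let V Q D) := fun j => l.getD j 1 with hp
  have hpp : ∀ j, Pal (p j) := by
    intro j
    by_cases hj : j < l.length
    · have : p j = l[j] := by simp [hp, hj]
      rw [this]
      exact hpal _ (List.getElem_mem hj)
    · have : p j = 1 := by simp [hp, not_lt.1 hj]
      rw [this]
      exact pal_one
  have hpr : pr p (2 * m) = l.prod := by
    unfold pr
    congr 1
    apply List.ext_getElem
    · simp [hl]
    · intro i h1 h2
      simp [hp, h2]
  have hPh : ∀ la f g, Ph la f g (pr p (2 * m)) = Ph la f g (GG (D := D) gd) := by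
    intro la f g
    rw [hpr]
    exact Ph_eq la f g hG
  have hF : ∀ la f g, Ph la f g (pr p (2 * m)) ∈ U.F3 := by
    intro la f g
    rw [hPh]
    exact U.lcs_U2 (map_mem_lc _ (GG_memb gd))
  have hK := ker_bound p hpp m hF
  set K := LinearMap.ker (TT p (2 * m)) with hKdef
  have hcard : Fintype.card (Let V Q D) = Fintype.card (Idx V Q D) + Fintype.card (Col V) := by
    simp only [Fintype.card_sum, Fintype.card_prod, Fintype.card_option]
    ring
  have hKc : Fintype.card (Col V) ≤ finrank ℚ K := by omega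
  -- the main identity
  have key : ∀ x ∈ K, ∀ (q : Slot V Q) (r : ℚ), D4 (sv (rv x.1 (f1 q) (f2 q)) gd q) r →
      2 * r + (if Sum.inl true = q then 2 * x.2 * x.1 (Sum.inl (none, some none)) else 0) = 0 := by
    intro x hx q r hr
    have h1 := conj_pr x.1 (f1 q) (f2 q) p hpp x.2 m (mem_ker_TT hx)
    rw [hPh] at h1
    obtain ⟨k1, k2, k3, k4⟩ := Ph_GG x.1 gd q r hr
    have h2 := U.conj_d k1 h1
    rw [k2, k3, k4] at h2
    split_ifs at h2 ⊢ <;> linarith
  -- the dummies vanish
  have hdum : ∀ x ∈ K, ∀ d : Dum V Q D, x.1 (Sum.inr d) = 0 := by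
    intro x hx
    have h1 := key x hx (Sum.inl false) _ (D4.lp _ _ fun d => bt_rv x.1 (Sum.inl false) (Sum.inr d) (Sum.inr d))
    rw [if_neg (by simp), add_zero] at h1
    have h2 : ∑ d : Dum V Q D, (x.1 (Sum.inr d) ^ 2) * (2 + f1 (D := D) (Sum.inl false) (Sum.inr d)
        + f2 (D := D) (Sum.inl false) (Sum.inr d)) = 0 := by
      have h3 : ∀ d : Dum V Q D, (x.1 (Sum.inr d) ^ 2) * (2 + f1 (D := D) (Sum.inl false) (Sum.inr d)
        + f2 (D := D) (Sum.inl false) (Sum.inr d)) = -(-2 * (x.1 (Sum.inr d) * x.1 (Sum.inr d)) -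
          x.1 (Sum.inr d) * f1 (Sum.inl false) (Sum.inr d) * x.1 (m1 (Sum.inl false)) -
          x.1 (Sum.inr d) * f2 (Sum.inl false) (Sum.inr d) * x.1 (m2 (Sum.inl false))) := by
        intro d
        have e1 : f1 (D := D) (V := V) (Q := Q) (Sum.inl false) (Sum.inr d) * x.1 (m1 (Sum.inl false)) =
            f1 (D := D) (V := V) (Q := Q) (Sum.inl false) (Sum.inr d) * x.1 (Sum.inr d) := by
          unfold f1
          rw [Pi.single_apply]
          split_ifs with h
          · rw [h]
          · simp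
        have e2 : f2 (D := D) (V := V) (Q := Q) (Sum.inl false) (Sum.inr d) * x.1 (m2 (Sum.inl false)) =
            f2 (D := D) (V := V) (Q := Q) (Sum.inl false) (Sum.inr d) * x.1 (Sum.inr d) := by
          unfold f2
          rw [Pi.single_apply]
          split_ifs with h
          · rw [h]
          · simp
        linear_combination -x.1 (Sum.inr d) * e1 - x.1 (Sum.inr d) * e2
      rw [Finset.sum_congr rfl fun d _ => h3 d, Finset.sum_neg_distrib]
      linarith
    have hpos : ∀ d : Dum V Q D, 0 ≤ f1 (D := D) (V := V) (Q := Q) (Sum.inl false) (Sum.inr d) ∧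
        0 ≤ f2 (D := D) (V := V) (Q := Q) (Sum.inl false) (Sum.inr d) := by
      intro d
      unfold f1 f2
      rw [Pi.single_apply, Pi.single_apply]
      constructor <;> split_ifs <;> norm_num
    rw [Finset.sum_eq_zero_iff_of_nonneg] at h2
    · intro d
      have h3 := h2 d (Finset.mem_univ d)
      have h4 := hpos d
      rcases mul_eq_zero.1 h3 with h5 | h5
      · exact pow_eq_zero_iff (two_ne_zero) |>.1 h5
      · linarith [h4.1, h4.2]
    · intro d _
      have h4 := hpos d
      exact mul_nonneg (sq_nonneg _) (by linarith [h4.1, h4.2])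
  have hbt : ∀ x ∈ K, ∀ (q : Slot V Q) (a b : Let V Q D),
      D4 (bt (rv x.1 (f1 q) (f2 q)) q (rv x.1 (f1 q) (f2 q) a) (rv x.1 (f1 q) (f2 q) b)) (-2 * (x.1 a * x.1 b)) := by
    intro x hx q a b
    have h1 := bt_rv x.1 q a b
    have e1 : x.1 (m1 q) = 0 := hdum x hx _
    have e2 : x.1 (m2 q) = 0 := hdum x hx _
    rw [e1, e2] at h1
    simpa using h1
  -- minors
  have hmin : ∀ x ∈ K, ∀ i i' l l', x.1 (Sum.inl (i, l)) * x.1 (Sum.inl (i', l')) =
      x.1 (Sum.inl (i', l)) * x.1 (Sum.inl (i, l')) := by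
    intro x hx i i' l l'
    have h1 := key x hx (Sum.inr (Sum.inl ((i, i'), (l, l')))) _
      ((hbt x hx _ (Sum.inl (i, l)) (Sum.inl (i', l'))).mul (hbt x hx _ (Sum.inl (i', l)) (Sum.inl (i, l'))).inv)
    rw [if_neg (by simp), add_zero] at h1
    linarith
  -- gates
  have hgate : ∀ x ∈ K, ∀ q, ((gd q).map fun t => (t.1 : ℚ) *
      (x.1 (Sum.inl (t.2.1, some none)) * x.1 (Sum.inl (t.2.2, some none)))).sum = 0 := by
    intro x hx q
    have h1 := key x hx (Sum.inr (Sum.inr q)) _ (D4.list (gd q) _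
      (fun t => (t.1 : ℚ) * (-2 * (x.1 (Sum.inl (t.2.1, some none)) * x.1 (Sum.inl (t.2.2, some none)))))
      (fun t _ => (hbt x hx (Sum.inr (Sum.inr q)) (Sum.inl (t.2.1, some none)) (Sum.inl (t.2.2, some none))).zpow t.1))
    rw [if_neg (by simp), add_zero] at h1
    have h2 : ∀ l : List (ℤ × Row V × Row V), (l.map fun t => (t.1 : ℚ) * (-2 * (x.1 (Sum.inl (t.2.1, some none)) *
        x.1 (Sum.inl (t.2.2, some none))))).sum = -2 * (l.map fun t => (t.1 : ℚ) *
        (x.1 (Sum.inl (t.2.1, some none)) * x.1 (Sum.inl (t.2.2, some none)))).sum := by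
      intro l
      induction l with
      | nil => simp
      | cons t l ih => rw [List.map_cons, List.sum_cons, ih, List.map_cons, List.sum_cons]; ring
    rw [h2] at h1
    linarith
  -- the inhomogeneous slot
  have hinh : ∀ x ∈ K, x.2 * x.1 (Sum.inl (none, some none)) =
      2 * ∑ j : V, x.1 (Sum.inl (some j, some (some j))) * x.1 (Sum.inl (some j, some none)) := by
    intro x hx
    have h1 := key x hx (Sum.inl true) _ (D4.lp _ _ fun j : V =>
      hbt x hx (Sum.inl true) (Sum.inl (some j, some (some j))) (Sum.inl (some j, some none)))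
    rw [if_pos rfl, ← Finset.mul_sum] at h1
    linarith
  -- restriction to the matrix letters
  set res : ((Let V Q D → ℚ) × ℚ) →ₗ[ℚ] (Row V × Col V → ℚ) :=
    (LinearMap.funLeft ℚ ℚ (Sum.inl : Row V × Col V → Let V Q D)).comp (LinearMap.fst ℚ _ _) with hres
  have hres' : ∀ x q, res x q = x.1 (Sum.inl q) := fun x q => rfl
  have hm0 : 0 < 2 * m := by omega
  have hthe : ∀ x ∈ K, x.2 = ∑ i, ∑ l, x.1 (Sum.inl (i, l)) * (ex (p 0) (Sum.inl (i, l)) : ℚ) := by
    intro x hx
    have h1 := mem_ker_TT hx 0 hm0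
    rw [pow_zero, one_mul] at h1
    rw [← h1, lin, Fintype.sum_sum_type]
    have h2 : ∑ d : Dum V Q D, x.1 (Sum.inr d) * (ex (p 0) (Sum.inr d) : ℚ) = 0 :=
      Finset.sum_eq_zero fun d _ => by rw [hdum x hx d, zero_mul]
    rw [h2, add_zero, Fintype.sum_prod_type]
  have hinj : Function.Injective (res.domRestrict K) := by
    rw [← LinearMap.ker_eq_bot, LinearMap.ker_eq_bot']
    rintro ⟨x, hx⟩ h0
    have h1 : ∀ q, x.1 (Sum.inl q) = 0 := fun q => congrFun h0 q
    have h2 : x.2 = 0 := by
      rw [hthe x hx]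
      exact Finset.sum_eq_zero fun i _ => Finset.sum_eq_zero fun l _ => by rw [h1, zero_mul]
    apply Subtype.ext
    apply Prod.ext
    · funext y
      rcases y with q | d
      · exact h1 q
      · exact hdum x hx d
    · exact h2
  have hW := rank_one (LinearMap.range (res.domRestrict K)) (by simp only [Fintype.card_option]; omega)
    (by rw [LinearMap.finrank_range_of_inj hinj]; exact hKc) (by
      rintro _ ⟨⟨x, hx⟩, rfl⟩ i i' l l'
      exact hmin x hx i i' l l')
  obtain ⟨a, ⟨i0, hi0⟩, hY⟩ := hW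
  have hY' : ∀ Y : Col V → ℚ, ∃ x ∈ K, ∀ i l, x.1 (Sum.inl (i, l)) = a i * Y l := by
    intro Y
    obtain ⟨⟨x, hx⟩, hxe⟩ := hY Y
    exact ⟨x, hx, fun i l => congrFun hxe (i, l)⟩
  have hsum : ∀ (j : V) (c : V → ℚ), ∑ i : V, c i * (if i = j then (1 : ℚ) else 0) = c j := by
    intro j c
    simp
  -- the first coordinate does not vanish
  have ha0 : a none ≠ 0 := by
    intro h0
    apply hi0
    rcases i0 with _ | j
    · exact h0
    · obtain ⟨x, hx, hxe⟩ := hY' (fun l => if l = some none then 1 else if l = some (some j) then 1 else 0)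
      have h1 := hinh x hx
      simp only [hxe, h0, zero_mul, mul_zero, Option.some.injEq, reduceCtorEq, if_false, if_true, mul_one] at h1
      have h2 : ∀ i : V, a (some i) * (if i = j then (1 : ℚ) else 0) * a (some i) =
          (a (some i) * a (some i)) * (if i = j then 1 else 0) := by
        intro i
        ring
      rw [Finset.sum_congr rfl fun i _ => h2 i, hsum] at h1
      have h3 : a (some j) * a (some j) = 0 := by linarith
      exact mul_self_eq_zero.1 h3
  set z : Row V → ℚ := fun i => a i / a none with hz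
  have hz0 : z none = 1 := div_self ha0
  have hZ : ∀ Y : Col V → ℚ, ∃ x ∈ K, ∀ i l, x.1 (Sum.inl (i, l)) = z i * Y l := by
    intro Y
    obtain ⟨x, hx, hxe⟩ := hY' (fun l => Y l / a none)
    refine ⟨x, hx, fun i l => ?_⟩
    rw [hxe, hz]
    ring
  refine ⟨z, hz0, fun q => ?_, ?_⟩
  · obtain ⟨x, hx, hxe⟩ := hZ (fun l => if l = some none then 1 else 0)
    have := hgate x hx q
    simpa [hxe] using this
  · refine ⟨fun i j => ex (p 0) (Sum.inl (i, some (some j))), fun j => ?_⟩
    obtain ⟨x, hx, hxe⟩ := hZ (fun l => if l = some none then 1 else 0)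
    obtain ⟨y, hy, hye⟩ := hZ (fun l => if l = some (some j) then 1 else 0)
    have hxy : ∀ i l, (x + y).1 (Sum.inl (i, l)) = z i * (if l = some none then 1 else if l = some (some j) then 1 else 0) := by
      intro i l
      rw [Prod.fst_add, Pi.add_apply, hxe, hye]
      by_cases h1 : l = some none
      · subst h1; simp
      · simp [h1]
    have h1 := hinh x hx
    have h2 := hinh (x + y) (K.add_mem hx hy)
    simp only [hxe, Option.some.injEq, reduceCtorEq, if_false, if_true, mul_one, mul_zero, zero_mul,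
      Finset.sum_const_zero] at h1
    simp only [hxy, Option.some.injEq, reduceCtorEq, if_false, if_true, mul_one] at h2
    rw [Prod.snd_add] at h2
    have e2 : ∀ i : V, z (some i) * (if i = j then (1 : ℚ) else 0) * z (some i) =
        (z (some i) * z (some i)) * (if i = j then 1 else 0) := by
      intro i
      ring
    rw [Finset.sum_congr rfl fun i _ => e2 i, hsum] at h2
    rw [hz0] at h1 h2
    have h3 := hthe y hy
    simp only [hye] at h3
    have e3 : ∀ i : Row V, ∑ l : Col V, z i * (if l = some (some j) then (1 : ℚ) else 0) * (ex (p 0) (Sum.inl (i, l)) : ℚ)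
        = z i * (ex (p 0) (Sum.inl (i, some (some j))) : ℚ) := by
      intro i
      simp
    rw [Finset.sum_congr rfl fun i _ => e3 i] at h3
    linarith

end nec

end Pool.Agent.Helper702.Pl
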