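import Mathlib
import Pool.Agent.Helper702.PolyA

set_option autoImplicit false

namespace Pool.Agent.Helper702.Tw

/-- arithmetic gates over a set of variables -/
inductive Gate (V : Type) : Type
  | cst (c : ℤ) (i : V)
  | add (i j k : V)
  | mul (i j k : V)

namespace Gate

/-- satisfaction of a gate by an assignment -/
def sat {V : Type} (v : V → ℤ) : Gate V → Prop
  | cst c i => v i = c
  | add i j k => v i + v j = v k
  | mul i j k => v i * v j = v k

/-- renaming of variables -/
def map {V W : Type} (f : V → W) : Gate V → Gate W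
  | cst c i => cst c (f i)
  | add i j k => add (f i) (f j) (f k)
  | mul i j k => mul (f i) (f j) (f k)

theorem sat_map {V W : Type} (f : V → W) (v : W → ℤ) (g : Gate V) :
    (g.map f).sat v ↔ g.sat (v ∘ f) := by
  cases g <;> rfl

/-- all variable numbers are below `M` -/
def bdd (M : ℕ) : Gate ℕ → Prop
  | cst _ i => i < M
  | add i j k => i < M ∧ j < M ∧ k < M
  | mul i j k => i < M ∧ j < M ∧ k < M

theorem bdd_mono {M M' : ℕ} (h : M ≤ M') (g : Gate ℕ) (hg : g.bdd M) : g.bdd M' := by
  cases g <;> simp only [bdd] at hg ⊢ <;> omega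

theorem exists_bdd (Γ : List (Gate ℕ)) : ∃ M, ∀ g ∈ Γ, g.bdd M := by
  induction Γ with
  | nil => exact ⟨0, by simp⟩
  | cons g Γ ih =>
    obtain ⟨M, hM⟩ := ih
    have : ∃ M', g.bdd M' := by
      cases g with
      | cst c i => exact ⟨i + 1, by simp [bdd]⟩
      | add i j k => exact ⟨i + j + k + 1, by simp only [bdd]; omega⟩
      | mul i j k => exact ⟨i + j + k + 1, by simp only [bdd]; omega⟩
    obtain ⟨M', hM'⟩ := this
    refine ⟨M + M', fun g' hg' => ?_⟩
    rcases List.mem_cons.1 hg' with rfl | h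
    · exact bdd_mono (by omega) _ hM'
    · exact bdd_mono (by omega) _ (hM g' h)

end Gate

open MvPolynomial

theorem circ {α : Type} (q : MvPolynomial α ℤ) : ∃ (β : Type) (_ : Fintype β) (Γ : List (Gate (α ⊕ β))) (o : β),
    (∀ v : α → ℤ, ∃ t : β → ℤ, ∀ g ∈ Γ, g.sat (Sum.elim v t)) ∧
    (∀ (v : α → ℤ) (t : β → ℤ), (∀ g ∈ Γ, g.sat (Sum.elim v t)) → t o = eval v q) := by
  induction q using MvPolynomial.induction_on with
  | C c =>
    refine ⟨Unit, inferInstance, [Gate.cst c (Sum.inr ())], (), fun v => ⟨fun _ => c, ?_⟩, fun v t h => ?_⟩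
    · simp [Gate.sat]
    · have := h _ (List.mem_singleton.2 rfl)
      simpa [Gate.sat] using this
  | add p q hp hq =>
    obtain ⟨β1, _, Γ1, o1, s1, n1⟩ := hp
    obtain ⟨β2, _, Γ2, o2, s2, n2⟩ := hq
    set f1 : α ⊕ β1 → α ⊕ (β1 ⊕ (β2 ⊕ Unit)) := Sum.map id Sum.inl with hf1
    set f2 : α ⊕ β2 → α ⊕ (β1 ⊕ (β2 ⊕ Unit)) := Sum.map id (Sum.inr ∘ Sum.inl) with hf2
    refine ⟨β1 ⊕ (β2 ⊕ Unit), inferInstance, Γ1.map (Gate.map f1) ++ (Γ2.map (Gate.map f2) ++
      [Gate.add (Sum.inr (Sum.inl o1)) (Sum.inr (Sum.inr (Sum.inl o2))) (Sum.inr (Sum.inr (Sum.inr ())))]),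
      Sum.inr (Sum.inr ()), fun v => ?_, fun v t h => ?_⟩
    · obtain ⟨t1, h1⟩ := s1 v
      obtain ⟨t2, h2⟩ := s2 v
      refine ⟨Sum.elim t1 (Sum.elim t2 fun _ => t1 o1 + t2 o2), fun g hg => ?_⟩
      rcases List.mem_append.1 hg with hg | hg
      · obtain ⟨g', hg', rfl⟩ := List.mem_map.1 hg
        rw [Gate.sat_map]
        convert h1 g' hg' using 1
        funext i; rcases i with i | i <;> simp [hf1]
      · rcases List.mem_append.1 hg with hg | hg
        · obtain ⟨g', hg', rfl⟩ := List.mem_map.1 hg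
          rw [Gate.sat_map]
          convert h2 g' hg' using 1
          funext i; rcases i with i | i <;> simp [hf2]
        · rw [List.mem_singleton] at hg
          subst hg
          simp [Gate.sat]
    · have e1 : t (Sum.inl o1) = eval v p := by
        apply n1 v (t ∘ Sum.inl)
        intro g hg
        have := h (g.map f1) (by simp; left; exact ⟨g, hg, rfl⟩)
        rw [Gate.sat_map] at this
        convert this using 1
        funext i; rcases i with i | i <;> simp [hf1]
      have e2 : t (Sum.inr (Sum.inl o2)) = eval v q := by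
        apply n2 v (t ∘ Sum.inr ∘ Sum.inl)
        intro g hg
        have := h (g.map f2) (by simp; right; left; exact ⟨g, hg, rfl⟩)
        rw [Gate.sat_map] at this
        convert this using 1
        funext i; rcases i with i | i <;> simp [hf2]
      have e3 := h (Gate.add (Sum.inr (Sum.inl o1)) (Sum.inr (Sum.inr (Sum.inl o2))) (Sum.inr (Sum.inr (Sum.inr ())))) (by simp)
      simp only [Gate.sat, Sum.elim_inr] at e3
      rw [← e3, e1, e2, map_add]
  | mul_X p i hp =>
    obtain ⟨β1, _, Γ1, o1, s1, n1⟩ := hp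
    set f1 : α ⊕ β1 → α ⊕ (β1 ⊕ Unit) := Sum.map id Sum.inl with hf1
    refine ⟨β1 ⊕ Unit, inferInstance, Γ1.map (Gate.map f1) ++
      [Gate.mul (Sum.inr (Sum.inl o1)) (Sum.inl i) (Sum.inr (Sum.inr ()))],
      Sum.inr (), fun v => ?_, fun v t h => ?_⟩
    · obtain ⟨t1, h1⟩ := s1 v
      refine ⟨Sum.elim t1 (fun _ => t1 o1 * v i), fun g hg => ?_⟩
      rcases List.mem_append.1 hg with hg | hg
      · obtain ⟨g', hg', rfl⟩ := List.mem_map.1 hg
        rw [Gate.sat_map]
        convert h1 g' hg' using 1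
        funext i; rcases i with i | i <;> simp [hf1]
      · rw [List.mem_singleton] at hg
        subst hg
        simp [Gate.sat]
    · have e1 : t (Sum.inl o1) = eval v p := by
        apply n1 v (t ∘ Sum.inl)
        intro g hg
        have := h (g.map f1) (by simp; left; exact ⟨g, hg, rfl⟩)
        rw [Gate.sat_map] at this
        convert this using 1
        funext i; rcases i with i | i <;> simp [hf1]
      have e3 := h (Gate.mul (Sum.inr (Sum.inl o1)) (Sum.inl i) (Sum.inr (Sum.inr ()))) (by simp)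
      simp only [Gate.sat, Sum.elim_inr, Sum.elim_inl] at e3
      rw [← e3, e1, map_mul, eval_X]

/-- every r.e. set is described by a system of gates over the integers -/
theorem gates_re {P : ℕ → Prop} (hP : REPred P) : ∃ (Γ : List (Gate ℕ)) (p0 : ℕ),
    ∀ n : ℕ, P n ↔ ∃ u : ℕ → ℤ, u p0 = n ∧ ∀ g ∈ Γ, g.sat u := by
  obtain ⟨k, p0, p1, p2, -, hPk⟩ := re_mv hP
  set q : MvPolynomial (Option (Fin k)) ℤ := rename some p0 + X none * rename some p1 + X none ^ 2 * rename some p2 with hq
  obtain ⟨β, _, Γ, o, s1, n1⟩ := circ q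
  obtain ⟨f, hfi⟩ : ∃ f : (Option (Fin k) ⊕ β) → ℕ, Function.Injective f :=
    ⟨fun i => (Fintype.equivFin _ i).val, fun i j hij => (Fintype.equivFin _).injective (Fin.ext hij)⟩
  have hqe : ∀ v : Option (Fin k) → ℤ, eval v q = aeval (fun i => v (some i)) p0 + v none * aeval (fun i => v (some i)) p1
      + v none ^ 2 * aeval (fun i => v (some i)) p2 := by
    intro v
    have hr : ∀ p : MvPolynomial (Fin k) ℤ, eval v (rename some p) = aeval (fun i => v (some i)) p := by
      intro p
      rw [eval_rename]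
      rfl
    simp only [hq, map_add, map_mul, map_pow, eval_X, hr]
  refine ⟨(Γ ++ [Gate.cst 0 (Sum.inr o)]).map (Gate.map f), f (Sum.inl none), fun n => ?_⟩
  rw [hPk n]
  constructor
  · rintro ⟨v, hv⟩
    set v' : Option (Fin k) → ℤ := fun i => i.elim (n : ℤ) v with hv'
    obtain ⟨t, ht⟩ := s1 v'
    have hto := n1 v' t ht
    have hz : eval v' q = 0 := by
      rw [hqe]
      exact hv
    set u : ℕ → ℤ := Function.extend f (Sum.elim v' t) (fun _ => 0) with hu
    have huf : u ∘ f = Sum.elim v' t := by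
      funext i
      rw [Function.comp_apply, hu]
      exact hfi.extend_apply _ _ i
    refine ⟨u, ?_, fun g hg => ?_⟩
    · have := congrFun huf (Sum.inl none)
      simp only [Function.comp_apply, Sum.elim_inl, hv'] at this
      exact this
    · obtain ⟨g', hg', rfl⟩ := List.mem_map.1 hg
      rw [Gate.sat_map, huf]
      rcases List.mem_append.1 hg' with h | h
      · exact ht g' h
      · rw [List.mem_singleton] at h
        subst h
        simp only [Gate.sat, Sum.elim_inr]
        rw [hto, hz]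
  · rintro ⟨u, hu0, hu⟩
    set v' : Option (Fin k) → ℤ := fun i => u (f (Sum.inl i)) with hv'
    set t : β → ℤ := fun i => u (f (Sum.inr i)) with ht
    have huf : u ∘ f = Sum.elim v' t := by
      funext i; rcases i with i | i <;> rfl
    have h1 : ∀ g ∈ Γ, g.sat (Sum.elim v' t) := by
      intro g hg
      have := hu (g.map f) (List.mem_map.2 ⟨g, List.mem_append_left _ hg, rfl⟩)
      rwa [Gate.sat_map, huf] at this
    have h2 := n1 v' t h1
    have h3 := hu ((Gate.cst 0 (Sum.inr o)).map f) (List.mem_map.2 ⟨_, List.mem_append_right _ (by simp), rfl⟩)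
    rw [Gate.sat_map, huf] at h3
    simp only [Gate.sat, Sum.elim_inr] at h3
    refine ⟨fun i => v' (some i), ?_⟩
    have h4 := hqe v'
    have hn : v' none = n := hu0
    rw [← h2, h3, hn] at h4
    exact h4.symm

end Pool.Agent.Helper702.Tw
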