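import Mathlib
import Pool.Agent.Helper702.PlI
import Pool.Agent.Helper702.TwCirc

set_option autoImplicit false

/-!
# Integrality and the reduction from arithmetic gates
-/

namespace Pool.Agent.Helper702.Pl

open Pool.Agent.Helper702.Tw

section integ
variable {I : Type} [Fintype I]

/-- common denominator -/
def Den (z : Option I → ℚ) (N : ℕ) : Prop := 0 < N ∧ ∃ u : Option I → ℤ, ∀ i, (N : ℚ) * z i = u i

lemma Den.exists (z : Option I → ℚ) : ∃ N, Den z N := by
  refine ⟨∏ i, (z i).den, Finset.prod_pos fun i _ => (z i).den_pos, ?_⟩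
  have h : ∀ i, ∃ c : ℤ, ((∏ i, (z i).den : ℕ) : ℚ) * z i = c := by
    intro i
    obtain ⟨c, hc⟩ := Finset.dvd_prod_of_mem (fun i => (z i).den) (Finset.mem_univ i)
    refine ⟨c * (z i).num, ?_⟩
    rw [hc]
    have h1 := Rat.mul_den_eq_num (z i)
    push_cast
    rw [← h1]
    ring
  choose u hu using h
  exact ⟨u, hu⟩

lemma Den.div {z : Option I → ℚ} {N p : ℕ} (hN : 0 < p * N) {u : Option I → ℤ}
    (hu : ∀ i, ((p * N : ℕ) : ℚ) * z i = u i) (hp : ∀ i, (p : ℤ) ∣ u i) : Den z N := by
  have hp0 : 0 < p := Nat.pos_of_mul_pos_right hN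
  have hN0 : 0 < N := Nat.pos_of_mul_pos_left hN
  refine ⟨hN0, fun i => u i / p, fun i => ?_⟩
  obtain ⟨c, hc⟩ := hp i
  have h1 := hu i
  have hp' : (p : ℤ) ≠ 0 := by exact_mod_cast hp0.ne'
  change (N : ℚ) * z i = ((u i / (p : ℤ) : ℤ) : ℚ)
  rw [hc, Int.mul_ediv_cancel_left _ hp']
  rw [hc] at h1
  push_cast at h1
  have hp'' : (p : ℚ) ≠ 0 := by exact_mod_cast hp0.ne'
  apply mul_left_cancel₀ hp''
  linarith

lemma half_int (z : Option I → ℚ) (hz : z none = 1) (s : Option I → I → ℤ)
    (h : ∀ j : I, 2 * (z (some j) * z (some j)) = ∑ i, z i * (s i j : ℚ)) :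
    ∃ u : Option I → ℤ, ∀ i, 2 * z i = u i := by
  classical
  have hex := Den.exists z
  obtain ⟨hpos, u, hu⟩ := Nat.find_spec hex
  have hmin : ∀ N, N < Nat.find hex → ¬ Den z N := fun N hN => Nat.find_min hex hN
  set N := Nat.find hex with hN
  have hu0 : u none = N := by
    have := hu none
    rw [hz, mul_one] at this
    exact_mod_cast this.symm
  have hrel : ∀ j : I, ∃ t : ℤ, 2 * (u (some j) * u (some j)) = N * t := by
    intro j
    refine ⟨∑ i, u i * s i j, ?_⟩
    have h1 : (2 * (u (some j) * u (some j)) : ℚ) = N * ∑ i, (u i : ℚ) * s i j := by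
      have h2 := h j
      have h3 : ∑ i, (u i : ℚ) * s i j = N * ∑ i, z i * (s i j : ℚ) := by
        rw [Finset.mul_sum]
        refine Finset.sum_congr rfl fun i _ => ?_
        rw [← hu i]; ring
      rw [h3, ← h2, ← hu (some j)]
      ring
    exact_mod_cast h1
  have hcl : ∀ p : ℕ, 1 < p → p ∣ N → (∀ j : I, (p : ℤ) ∣ u (some j)) → False := by
    rintro p hp ⟨E, hE⟩ hd
    have hE0 : 0 < p * E := by rw [← hE]; exact hpos
    have hE1 : 0 < E := Nat.pos_of_mul_pos_left hE0
    refine hmin E ?_ (Den.div hE0 (u := u) (by rw [← hE]; exact hu) ?_)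
    · rw [hE]
      nlinarith
    · intro i
      rcases i with _ | j
      · rw [hu0, hE]
        push_cast
        exact Dvd.intro _ rfl
      · exact hd j
  have hodd : ∀ p : ℕ, p.Prime → p ∣ N → p = 2 := by
    intro p hp hpN
    by_contra hne
    refine hcl p hp.one_lt hpN fun j => ?_
    obtain ⟨t, ht⟩ := hrel j
    have h1 : (p : ℤ) ∣ 2 * (u (some j) * u (some j)) := by
      rw [ht]
      exact Dvd.dvd.mul_right (by exact_mod_cast hpN) t
    have hpp : Prime (p : ℤ) := Nat.prime_iff_prime_int.1 hp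
    rcases hpp.dvd_or_dvd h1 with h2 | h2
    · exfalso
      have h3 : p ∣ 2 := by exact_mod_cast h2
      exact hne ((Nat.prime_dvd_prime_iff_eq hp Nat.prime_two).1 h3)
    · rcases hpp.dvd_or_dvd h2 with h3 | h3 <;> exact h3
  have hfour : ¬ 4 ∣ N := by
    rintro ⟨E, hE⟩
    refine hcl 2 (by norm_num) ⟨2 * E, by rw [hE]; ring⟩ fun j => ?_
    obtain ⟨t, ht⟩ := hrel j
    have h1 : (2 : ℤ) ∣ u (some j) * u (some j) := by
      refine ⟨E * t, ?_⟩
      rw [hE] at ht
      push_cast at ht
      linarith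
    rcases Int.prime_two.dvd_or_dvd h1 with h3 | h3 <;> exact_mod_cast h3
  have hN2 : N ∣ 2 := by
    by_cases h1 : N = 1
    · rw [h1]; norm_num
    · have h2 := hodd _ (Nat.minFac_prime h1) (Nat.minFac_dvd N)
      have h3 : 2 ∣ N := h2 ▸ Nat.minFac_dvd N
      obtain ⟨E, hE⟩ := h3
      by_cases h4 : E = 1
      · rw [hE, h4]
      · exfalso
        have h5 := hodd _ (Nat.minFac_prime h4) ((Nat.minFac_dvd E).trans ⟨2, by rw [hE]; ring⟩)
        have h6 : 2 ∣ E := h5 ▸ Nat.minFac_dvd E
        obtain ⟨E', hE'⟩ := h6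
        exact hfour ⟨E', by rw [hE, hE']; ring⟩
  obtain ⟨c, hc⟩ := hN2
  refine ⟨fun i => c * u i, fun i => ?_⟩
  push_cast
  rw [← hu i, ← mul_assoc, mul_comm (c : ℚ)]
  congr 1
  have : ((2 : ℕ) : ℚ) = ((N * c : ℕ) : ℚ) := by rw [← hc]
  push_cast at this
  exact this

lemma int_of_sq {W : Type} [Fintype W] (z : Option (W ⊕ W) → ℚ) (hz : z none = 1)
    (hs : ∀ w, z (some (Sum.inr w)) = z (some (Sum.inl w)) * z (some (Sum.inl w)))
    (s : Option (W ⊕ W) → (W ⊕ W) → ℤ)
    (h : ∀ j : W ⊕ W, 2 * (z (some j) * z (some j)) = ∑ i, z i * (s i j : ℚ)) :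
    ∃ u : Option (W ⊕ W) → ℤ, ∀ i, z i = u i := by
  obtain ⟨u, hu⟩ := half_int z hz s h
  have h1 : ∀ w, ∃ c : ℤ, z (some (Sum.inl w)) = c := by
    intro w
    have e1 := hu (some (Sum.inl w))
    have e2 := hu (some (Sum.inr w))
    rw [hs] at e2
    have e3 : u (some (Sum.inl w)) * u (some (Sum.inl w)) = 2 * u (some (Sum.inr w)) := by
      have : (u (some (Sum.inl w)) * u (some (Sum.inl w)) : ℚ) = 2 * u (some (Sum.inr w)) := by
        rw [← e1, ← e2]; ring
      exact_mod_cast this
    have e4 : (2 : ℤ) ∣ u (some (Sum.inl w)) := by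
      rcases Int.prime_two.dvd_or_dvd (Dvd.intro _ e3.symm) with h3 | h3 <;> exact h3
    obtain ⟨c, hc⟩ := e4
    refine ⟨c, ?_⟩
    rw [hc] at e1
    push_cast at e1
    linarith
  choose c hc using h1
  refine ⟨fun i => match i with
    | none => 1
    | some (Sum.inl w) => c w
    | some (Sum.inr w) => c w * c w, fun i => ?_⟩
  rcases i with _ | w | w
  · simpa using hz
  · exact hc w
  · simp only
    rw [hs, hc]
    push_cast
    rfl

end integ

section gates
variable (M : ℕ)

/-- variables of the system: the given ones and their squares -/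
abbrev VV : Type := Fin M ⊕ Fin M

/-- row of a variable -/
def vr (x : ℕ) : Row (VV M) := if h : x < M then some (Sum.inl ⟨x, h⟩) else none

/-- quadratic form of a gate -/
def gateL : Gate ℕ → List (ℤ × Row (VV M) × Row (VV M))
  | Gate.cst c x => [(1, vr M x, none), (-c, none, none)]
  | Gate.add x y w => [(1, vr M x, none), (1, vr M y, none), (-1, vr M w, none)]
  | Gate.mul x y w => [(1, vr M x, vr M y), (-1, vr M w, none)]

/-- index set of the forms -/
abbrev QQ (Γ : List (Gate ℕ)) : Type := Fin Γ.length ⊕ (Fin M ⊕ Unit)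

/-- the forms -/
def gdd (Γ : List (Gate ℕ)) (p0 : ℕ) (a : ℕ) : QQ M Γ → List (ℤ × Row (VV M) × Row (VV M))
  | Sum.inl i => gateL M (Γ.get i)
  | Sum.inr (Sum.inl j) => [(1, some (Sum.inl j), some (Sum.inl j)), (-1, some (Sum.inr j), none)]
  | Sum.inr (Sum.inr _) => [(1, vr M p0, none), (-(a : ℤ), none, none)]

variable {M}

lemma system_iff {Γ : List (Gate ℕ)} {p0 : ℕ} (hΓ : ∀ g ∈ Γ, g.bdd M) (hp : p0 < M) (a : ℕ) :
    (∃ z : Row (VV M) → ℤ, z none = 1 ∧ ∀ q, ((gdd M Γ p0 a q).map fun t => t.1 * (z t.2.1 * z t.2.2)).sum = 0) ↔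
    ∃ u : ℕ → ℤ, u p0 = a ∧ ∀ g ∈ Γ, g.sat u := by
  constructor
  · rintro ⟨z, hz, h⟩
    refine ⟨fun x => z (vr M x), ?_, fun g hg => ?_⟩
    · have := h (Sum.inr (Sum.inr ()))
      simp only [gdd, List.map_cons, List.map_nil, List.sum_cons, List.sum_nil, hz] at this
      simp only
      linarith
    · obtain ⟨i, hi⟩ := List.mem_iff_get.1 hg
      have := h (Sum.inl i)
      simp only [gdd, hi] at this
      cases g with
      | cst c x =>
        simp only [gateL, List.map_cons, List.map_nil, List.sum_cons, List.sum_nil, hz] at this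
        simp only [Gate.sat]
        linarith
      | add x y w =>
        simp only [gateL, List.map_cons, List.map_nil, List.sum_cons, List.sum_nil, hz] at this
        simp only [Gate.sat]
        linarith
      | mul x y w =>
        simp only [gateL, List.map_cons, List.map_nil, List.sum_cons, List.sum_nil, hz] at this
        simp only [Gate.sat]
        linarith
  · rintro ⟨u, hu, h⟩
    set z : Row (VV M) → ℤ := fun i => match i with
      | none => 1
      | some (Sum.inl w) => u w
      | some (Sum.inr w) => u w * u w with hz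
    have hv : ∀ x < M, z (vr M x) = u x := by
      intro x hx
      simp only [vr, hx, dif_pos, hz]
    have h0 : z none = 1 := rfl
    refine ⟨z, rfl, fun q => ?_⟩
    rcases q with i | j | _
    · have hg := h _ (List.get_mem Γ i)
      have hb := hΓ _ (List.get_mem Γ i)
      simp only [gdd]
      cases hgi : Γ.get i with
      | cst c x =>
        rw [hgi] at hg hb
        simp only [Gate.sat, Gate.bdd] at hg hb
        simp only [gateL, List.map_cons, List.map_nil, List.sum_cons, List.sum_nil, h0, hv x hb, hg]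
        ring
      | add x y w =>
        rw [hgi] at hg hb
        simp only [Gate.sat, Gate.bdd] at hg hb
        simp only [gateL, List.map_cons, List.map_nil, List.sum_cons, List.sum_nil, h0, hv x hb.1, hv y hb.2.1,
          hv w hb.2.2, ← hg]
        ring
      | mul x y w =>
        rw [hgi] at hg hb
        simp only [Gate.sat, Gate.bdd] at hg hb
        simp only [gateL, List.map_cons, List.map_nil, List.sum_cons, List.sum_nil, h0, hv x hb.1, hv y hb.2.1,
          hv w hb.2.2, ← hg]
        ring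
    · simp only [gdd, List.map_cons, List.map_nil, List.sum_cons, List.sum_nil, h0, hz]
      ring
    · simp only [gdd, List.map_cons, List.map_nil, List.sum_cons, List.sum_nil, h0, hv p0 hp, hu]
      ring

/-- the number of palindromes -/
def kk (M : ℕ) (Γ : List (Gate ℕ)) (D : Type) [Fintype D] : ℕ :=
  2 + 2 * Fintype.card (Idx (VV M) (QQ M Γ) D)

theorem main_iff {Γ : List (Gate ℕ)} {p0 : ℕ} (hΓ : ∀ g ∈ Γ, g.bdd M) (hp : p0 < M) (a : ℕ)
    (D : Type) [Fintype D] [DecidableEq D] :
    IsProd (kk M Γ D) (GG (D := D) (gdd M Γ p0 a)) ↔ ∃ u : ℕ → ℤ, u p0 = a ∧ ∀ g ∈ Γ, g.sat u := by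
  rw [← system_iff hΓ hp a]
  constructor
  · intro h
    obtain ⟨z, hz, hg, s, hs⟩ := nec _ h
    have hsq : ∀ w, z (some (Sum.inr w)) = z (some (Sum.inl w)) * z (some (Sum.inl w)) := by
      intro w
      have := hg (Sum.inr (Sum.inl w))
      simp only [gdd, List.map_cons, List.map_nil, List.sum_cons, List.sum_nil, hz] at this
      push_cast at this
      linarith
    obtain ⟨u, hu⟩ := int_of_sq z hz hsq s hs
    refine ⟨u, ?_, fun q => ?_⟩
    · have := hu none
      rw [hz] at this
      exact_mod_cast this.symm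
    · have h1 := hg q
      simp only [hu] at h1
      have h2 : ∀ l : List (ℤ × Row (VV M) × Row (VV M)),
          (((l.map fun t => t.1 * (u t.2.1 * u t.2.2)).sum : ℤ) : ℚ) =
          (l.map fun t => (t.1 : ℚ) * ((u t.2.1 : ℚ) * (u t.2.2 : ℚ))).sum := by
        intro l
        induction l with
        | nil => simp
        | cons t l ih => rw [List.map_cons, List.sum_cons, List.map_cons, List.sum_cons, ← ih]; push_cast; rfl
      rw [← h2] at h1
      exact_mod_cast h1
  · rintro ⟨z, hz, h⟩
    exact suff _ z hz h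

end gates

end Pool.Agent.Helper702.Pl
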