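import Mathlib
import Pool.Agent.Helper702.PlJ

set_option autoImplicit false

/-!
# Words, renaming and computability
-/

namespace Pool.Agent.Helper702.Pl

open Pool.Agent.Helper702.Tw
open scoped commutatorElement

section split

lemma split_list {α : Type} {G : Type} [Group G] (f : ℕ → α → G) (q0 : α)
    (hf : ∀ a q, q ≠ q0 → f a q = f 0 q) (l : List α) (hl : l.Nodup) (hq : q0 ∈ l) :
    ∃ A B : G, ∀ a, (l.map (f a)).prod = A * f a q0 * B := by
  induction l with
  | nil => simp at hq
  | cons q l ih =>
    rw [List.nodup_cons] at hl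
    rcases List.mem_cons.1 hq with h | h
    · subst h
      refine ⟨1, (l.map (f 0)).prod, fun a => ?_⟩
      rw [List.map_cons, List.prod_cons, one_mul]
      congr 2
      apply List.map_congr_left
      intro x hx
      exact hf a x fun e => hl.1 (e ▸ hx)
    · obtain ⟨A, B, hAB⟩ := ih hl.2 h
      refine ⟨f 0 q * A, B, fun a => ?_⟩
      rw [List.map_cons, List.prod_cons, hAB, hf a q fun e => hl.1 (e ▸ h)]
      simp only [mul_assoc]

variable {M : ℕ} {D : Type} [Fintype D]

lemma GG_split (Γ : List (Gate ℕ)) (p0 : ℕ) :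
    ∃ T A W B : FreeGroup (Let (VV M) (QQ M Γ) D), ∀ a : ℕ,
      GG (D := D) (gdd M Γ p0 a) = T * (A * W ^ a * B) ^ 2 := by
  obtain ⟨A, B, hAB⟩ := split_list (fun (a : ℕ) (q : Slot (VV M) (QQ M Γ)) =>
    sv (D := D) FreeGroup.of (gdd M Γ p0 a) q) (Sum.inr (Sum.inr (Sum.inr (Sum.inr ())))) (by
      intro a q hq
      rcases q with b | ⟨⟨i, i'⟩, l, l'⟩ | i | j | u
      · cases b <;> rfl
      · rfl
      · rfl
      · rfl
      · exact absurd rfl hq) (Finset.univ : Finset (Slot (VV M) (QQ M Γ))).toList (Finset.nodup_toList _) (by simp)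
  set q0 : Slot (VV M) (QQ M Γ) := Sum.inr (Sum.inr (Sum.inr (Sum.inr ()))) with hq0
  set Y := bt (D := D) FreeGroup.of q0 (X FreeGroup.of none (some none)) (X FreeGroup.of none (some none)) with hY
  set S := bt (D := D) FreeGroup.of q0 (X FreeGroup.of (vr M p0) (some none)) (X FreeGroup.of none (some none)) with hS
  refine ⟨pc (tt FreeGroup.of), A * S, Y⁻¹, B, fun a => ?_⟩
  have h1 : ghat (D := D) FreeGroup.of (gdd M Γ p0 a) = A * sv (D := D) FreeGroup.of (gdd M Γ p0 a) q0 * B := hAB a
  have h2 : sv (D := D) FreeGroup.of (gdd M Γ p0 a) q0 = S * (Y⁻¹) ^ a := by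
    rw [hq0]
    simp only [sv, gdd, List.map_cons, List.map_nil, List.prod_cons, List.prod_nil, mul_one, zpow_one]
    rw [zpow_neg, zpow_natCast, inv_pow]
  rw [GG, h1, h2]
  simp only [mul_assoc]

end split

section words
variable {α : Type}

/-- the family of words -/
def wd (t x w y : List (α × Bool)) (n : ℕ) : List (α × Bool) :=
  t ++ ((x ++ ((List.replicate n w).flatten ++ y)) ++ (x ++ ((List.replicate n w).flatten ++ y)))

lemma mk_rep (w : List (α × Bool)) (n : ℕ) :
    FreeGroup.mk (List.replicate n w).flatten = FreeGroup.mk w ^ n := by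
  induction n with
  | zero => rfl
  | succ n ih => rw [List.replicate_succ, List.flatten_cons, ← FreeGroup.mul_mk, ih, pow_succ']

lemma mk_wd (t x w y : List (α × Bool)) (n : ℕ) :
    FreeGroup.mk (wd t x w y n) =
      FreeGroup.mk t * (FreeGroup.mk x * FreeGroup.mk w ^ n * FreeGroup.mk y) ^ 2 := by
  unfold wd
  simp only [← FreeGroup.mul_mk, mk_rep, pow_two, mul_assoc]

lemma wd_primrec [Primcodable α] (t x w y : List (α × Bool)) : Primrec (wd t x w y) := by
  have h1 : Primrec fun n : ℕ => (List.replicate n w).flatten := by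
    have h2 : Primrec fun n : ℕ => (Nat.rec [] (fun _ ih => w ++ ih) n : List (α × Bool)) := by
      have h3 : Primrec₂ fun (_ : ℕ) (p : ℕ × List (α × Bool)) => w ++ p.2 :=
        (Primrec.list_append.comp (Primrec.const w) (Primrec.snd.comp Primrec.snd)).to₂
      exact Primrec.nat_rec' Primrec.id (Primrec.const []) h3
    refine h2.of_eq fun n => ?_
    induction n with
    | zero => rfl
    | succ n ih =>
      simp only at ih ⊢
      rw [ih, List.replicate_succ, List.flatten_cons]
  have h2 : Primrec fun n : ℕ => x ++ ((List.replicate n w).flatten ++ y) :=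
    Primrec.list_append.comp (Primrec.const x) (Primrec.list_append.comp h1 (Primrec.const y))
  exact Primrec.list_append.comp (Primrec.const t) (Primrec.list_append.comp h2 h2)

end words

section rename
variable {L L' : Type}

lemma sg_map (e : L → L') (x : FreeGroup L) : sg L' (FreeGroup.map e x) = FreeGroup.map e (sg L x) := by
  have : (sg L').comp (FreeGroup.map e) = (FreeGroup.map e).comp (sg L) := by
    ext a
    simp
  exact DFunLike.congr_fun this x

lemma isProd_map (e : L → L') {k : ℕ} {g : FreeGroup L} (h : IsProd k g) : IsProd k (FreeGroup.map e g) := by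
  obtain ⟨l, hl, hp, hg⟩ := h
  refine ⟨l.map (FreeGroup.map e), by simp [hl], ?_, ?_⟩
  · intro p hp'
    rw [List.mem_map] at hp'
    obtain ⟨p, hp', rfl⟩ := hp'
    unfold Pal
    rw [sg_map, hp p hp', map_inv]
  · have h1 : l.prod⁻¹ * g ∈ lc (FreeGroup L) 4 := QuotientGroup.eq.1 hg
    have h2 := map_mem_lc (FreeGroup.map e) h1
    rw [← map_list_prod]
    refine QuotientGroup.eq.2 ?_
    rw [map_mul, map_inv] at h2
    exact h2

lemma isProd_equiv (e : L ≃ L') {k : ℕ} {g : FreeGroup L} : IsProd k (FreeGroup.map e g) ↔ IsProd k g := by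
  refine ⟨fun h => ?_, isProd_map e⟩
  have := isProd_map e.symm h
  rw [FreeGroup.map.comp] at this
  simpa using this

end rename

section pal
variable {L : Type}

lemma sg_mk (w : List (L × Bool)) : sg L (FreeGroup.mk w) = FreeGroup.mk (w.map fun a => (a.1, !a.2)) := by
  induction w with
  | nil => rfl
  | cons a w ih =>
    have h1 : FreeGroup.mk (a :: w) = FreeGroup.mk [a] * FreeGroup.mk w := by
      rw [FreeGroup.mul_mk]; rfl
    rw [h1, map_mul, ih, List.map_cons, ← List.singleton_append, ← FreeGroup.mul_mk]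
    congr 1
    obtain ⟨i, b⟩ := a
    cases b
    · simp [sg, FreeGroup.of]
    · simp [sg, FreeGroup.of, FreeGroup.invRev]

lemma pal_of_word {w : List (L × Bool)} (hw : w.reverse = w) : Pal (FreeGroup.mk w) := by
  unfold Pal
  rw [sg_mk, FreeGroup.inv_mk, FreeGroup.invRev, ← List.map_reverse, hw]

variable [DecidableEq L]

lemma word_of_pal {p : FreeGroup L} (hp : Pal p) : p.toWord.reverse = p.toWord := by
  set w := p.toWord with hw
  have hred : FreeGroup.IsReduced w := FreeGroup.isReduced_toWord
  have hp' : FreeGroup.mk w = p := FreeGroup.mk_toWord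
  have h1 : FreeGroup.mk (w.map fun a => (a.1, !a.2)) = FreeGroup.mk (FreeGroup.invRev w) := by
    rw [← sg_mk, hp', hp, ← hp', FreeGroup.inv_mk]
  have hinj : Function.Injective (fun a : L × Bool => (a.1, !a.2)) := by
    rintro ⟨i, b⟩ ⟨j, c⟩ h
    simp only [Prod.mk.injEq, Bool.not_inj_iff] at h
    rw [h.1, h.2]
  have hred1 : FreeGroup.IsReduced (w.map fun a => (a.1, !a.2)) := by
    unfold FreeGroup.IsReduced at hred ⊢
    rw [List.isChain_map]
    refine hred.imp ?_
    intro a b hab h
    simp only at h ⊢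
    rw [hab h]
  have hred2 : FreeGroup.IsReduced (FreeGroup.invRev w) := by
    unfold FreeGroup.IsReduced at hred1 ⊢
    rw [FreeGroup.invRev, List.isChain_reverse]
    refine hred1.imp ?_
    intro a b hab h
    exact (hab h.symm).symm
  have h2 := congrArg FreeGroup.toWord h1
  rw [FreeGroup.toWord_mk, FreeGroup.toWord_mk, hred1.reduce_eq, hred2.reduce_eq, FreeGroup.invRev,
    ← List.map_reverse] at h2
  exact (List.map_injective_iff.2 hinj h2).symm

end pal

/-- the halting set as a set of natural numbers -/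
def haltSet (a : ℕ) : Prop := (Nat.Partrec.Code.eval (Denumerable.ofNat Nat.Partrec.Code a) 0).Dom

theorem haltSet_re : REPred haltSet := by
  have h : Partrec fun a : ℕ => Nat.Partrec.Code.eval (Denumerable.ofNat Nat.Partrec.Code a) 0 :=
    Nat.Partrec.Code.eval_part.comp (Primrec.ofNat Nat.Partrec.Code).to_comp (Computable.const 0)
  exact h.dom_re

theorem haltSet_not_computable : ¬ ComputablePred haltSet := by
  intro h
  apply ComputablePred.halting_problem 0
  obtain ⟨inst, hc⟩ := h
  have h2 : Computable fun c : Nat.Partrec.Code => decide (haltSet (Encodable.encode c)) :=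
    hc.comp Computable.encode
  refine ⟨fun c => Classical.dec _, h2.of_eq fun c => ?_⟩
  simp [haltSet]

/-- for every recursively enumerable set there are, for all large `n`, a number `k` and a primitive
recursive family of words over `n` letters representing products of `k` palindromes in the free
nilpotent group of class four exactly for the members of the set -/
theorem reduction {P : ℕ → Prop} (hP : REPred P) : ∃ n₀ : ℕ, 2 ≤ n₀ ∧ ∀ n ≥ n₀, ∃ (k : ℕ)
    (f : ℕ → List (Fin n × Bool)), Primrec f ∧ ∀ a, IsProd k (FreeGroup.mk (f a)) ↔ P a := by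
  obtain ⟨Γ, p0, hΓ⟩ := gates_re hP
  obtain ⟨M0, hM0⟩ := Gate.exists_bdd Γ
  set M := M0 + p0 + 1 with hM
  have hb : ∀ g ∈ Γ, g.bdd M := fun g hg => Gate.bdd_mono (by omega) _ (hM0 g hg)
  have hp : p0 < M := by omega
  refine ⟨Fintype.card (Let (VV M) (QQ M Γ) (Fin 0)), ?_, fun n hn => ?_⟩
  · simp only [Fintype.card_sum, Fintype.card_prod, Fintype.card_option, Fintype.card_fin]
    have h2 : 2 ≤ (M + M + 1) * (M + M + 1 + 1) := by nlinarith
    exact h2.trans (Nat.le_add_right _ _)
  · set D := Fin (n - Fintype.card (Let (VV M) (QQ M Γ) (Fin 0))) with hD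
    have hcard : Fintype.card (Let (VV M) (QQ M Γ) D) = n := by
      have h1 : ∀ j : ℕ, Fintype.card (Let (VV M) (QQ M Γ) (Fin j)) =
          Fintype.card (Let (VV M) (QQ M Γ) (Fin 0)) + j := by
        intro j
        simp only [Fintype.card_sum, Fintype.card_fin]
        ring
      exact (h1 _).trans (by omega)
    set e : Let (VV M) (QQ M Γ) D ≃ Fin n := Fintype.equivFinOfCardEq hcard with he
    obtain ⟨T, A, W, B, hG⟩ := GG_split (M := M) (D := D) Γ p0
    set φ := FreeGroup.map e with hφ
    refine ⟨kk M Γ D, wd (φ T).toWord (φ A).toWord (φ W).toWord (φ B).toWord, wd_primrec _ _ _ _, fun a => ?_⟩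
    rw [hΓ a, ← main_iff hb hp a D, ← isProd_equiv e, hG a, mk_wd]
    simp only [FreeGroup.mk_toWord, map_mul, map_pow]
    rfl

end Pool.Agent.Helper702.Pl
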