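import Mathlib

set_option autoImplicit false

/-!
# Partially commutative metabelian groups: basic properties
-/

open scoped commutatorElement

namespace Pool.Agent.Helper702.Pm

/-- The free metabelian group on `V`: the free group modulo its second derived subgroup. -/
abbrev FreeMetabelian (V : Type) : Type := FreeGroup V ⧸ derivedSeries (FreeGroup V) 2

/-- The free generator of the free metabelian group with index `v`. -/
def FreeMetabelian.of {V : Type} (v : V) : FreeMetabelian V := QuotientGroup.mk (FreeGroup.of v)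

/-- The partially commutative metabelian group of the graph `Γ`: the free metabelian group on the
vertices modulo the normal closure of the commutators of adjacent generators. -/
abbrev PCM {V : Type} (Γ : SimpleGraph V) : Type :=
  FreeMetabelian V ⧸ Subgroup.normalClosure
    {g : FreeMetabelian V | ∃ i j : V, Γ.Adj i j ∧ g = ⁅FreeMetabelian.of i, FreeMetabelian.of j⁆}

/-- The generator of the partially commutative metabelian group with index `v`. -/
def gen {V : Type} (Γ : SimpleGraph V) (v : V) : PCM Γ := QuotientGroup.mk (FreeMetabelian.of v)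

/-- a group is metabelian in the sense that commutators commute -/
def Metab (H : Type) [Group H] : Prop := derivedSeries H 2 = ⊥

lemma Metab.comm {H : Type} [Group H] (hH : Metab H) {a b : H} (ha : a ∈ commutator H)
    (hb : b ∈ commutator H) : a * b = b * a := by
  have h1 : ⁅a, b⁆ ∈ derivedSeries H 2 := by
    rw [derivedSeries_succ]
    have : derivedSeries H 1 = commutator H := derivedSeries_one H
    rw [this]
    exact Subgroup.commutator_mem_commutator ha hb
  rw [hH, Subgroup.mem_bot, commutatorElement_eq_one_iff_mul_comm] at h1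
  exact h1

section basic

variable {V : Type} (Γ : SimpleGraph V)

/-- the projection from the free group -/
def pr : FreeGroup V →* PCM Γ :=
  (QuotientGroup.mk' _).comp (QuotientGroup.mk' (derivedSeries (FreeGroup V) 2))

lemma pr_of (v : V) : pr Γ (FreeGroup.of v) = gen Γ v := rfl

lemma pr_surj : Function.Surjective (pr Γ) :=
  (QuotientGroup.mk'_surjective _).comp (QuotientGroup.mk'_surjective _)

lemma metab_pcm : Metab (PCM Γ) := by
  unfold Metab
  rw [← map_derivedSeries_eq (pr_surj Γ), Subgroup.map_eq_bot_iff]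
  intro g hg
  rw [MonoidHom.mem_ker]
  change ((QuotientGroup.mk' _) ((QuotientGroup.mk' (derivedSeries (FreeGroup V) 2)) g)) = 1
  have : (QuotientGroup.mk' (derivedSeries (FreeGroup V) 2)) g = 1 := by
    rw [QuotientGroup.mk'_apply, QuotientGroup.eq_one_iff]
    exact hg
  rw [this, map_one]

lemma gen_comm {i j : V} (h : Γ.Adj i j) : gen Γ i * gen Γ j = gen Γ j * gen Γ i := by
  rw [← commutatorElement_eq_one_iff_mul_comm]
  have : (⁅gen Γ i, gen Γ j⁆ : PCM Γ) = QuotientGroup.mk ⁅FreeMetabelian.of i, FreeMetabelian.of j⁆ := rfl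
  rw [this, QuotientGroup.eq_one_iff]
  exact Subgroup.subset_normalClosure ⟨i, j, h, rfl⟩

/-- the universal property -/
theorem exists_lift {H : Type} [Group H] (hH : Metab H) (f : V → H)
    (hf : ∀ i j, Γ.Adj i j → f i * f j = f j * f i) :
    ∃ φ : PCM Γ →* H, ∀ v, φ (gen Γ v) = f v := by
  let φ0 : FreeGroup V →* H := FreeGroup.lift f
  have h0 : ∀ g ∈ derivedSeries (FreeGroup V) 2, φ0 g = 1 := by
    intro g hg
    have := map_derivedSeries_le_derivedSeries φ0 2 (Subgroup.mem_map_of_mem φ0 hg)
    rw [hH, Subgroup.mem_bot] at this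
    exact this
  let φ1 : FreeMetabelian V →* H := QuotientGroup.lift _ φ0 h0
  have h1 : ∀ v, φ1 (FreeMetabelian.of v) = f v := fun v => by
    change φ0 (FreeGroup.of v) = f v
    exact FreeGroup.lift_apply_of ..
  have h2 : ∀ g ∈ Subgroup.normalClosure
      {g : FreeMetabelian V | ∃ i j : V, Γ.Adj i j ∧ g = ⁅FreeMetabelian.of i, FreeMetabelian.of j⁆},
      φ1 g = 1 := by
    intro g hg
    rw [← MonoidHom.mem_ker]
    refine Subgroup.normalClosure_le_normal ?_ hg
    rintro _ ⟨i, j, hij, rfl⟩
    rw [SetLike.mem_coe, MonoidHom.mem_ker, map_commutatorElement, h1, h1,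
      commutatorElement_eq_one_iff_mul_comm]
    exact hf i j hij
  refine ⟨QuotientGroup.lift _ φ1 h2, fun v => ?_⟩
  change φ1 (FreeMetabelian.of v) = f v
  exact h1 v

theorem hom_ext_pcm {H : Type} [Group H] (φ ψ : PCM Γ →* H) (h : ∀ v, φ (gen Γ v) = ψ (gen Γ v)) :
    φ = ψ := by
  have : φ.comp (pr Γ) = ψ.comp (pr Γ) := by
    apply FreeGroup.ext_hom
    intro v
    exact h v
  apply MonoidHom.ext
  intro g
  obtain ⟨w, rfl⟩ := pr_surj Γ g
  exact DFunLike.congr_fun this w

end basic

/-! ### semidirect products -/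

/-- The semidirect product of an abelian group `N` by an abelian group `A` acting on it. -/
@[ext] structure Cr {A N : Type} [AddCommGroup A] [AddCommGroup N]
    (ρ : Multiplicative A →* AddMonoid.End N) where
  /-- the acting part -/
  a : A
  /-- the normal part -/
  t : N

namespace Cr

variable {A N : Type} [AddCommGroup A] [AddCommGroup N] {ρ : Multiplicative A →* AddMonoid.End N}

instance : Mul (Cr ρ) := ⟨fun g h => ⟨g.a + h.a, g.t + ρ (Multiplicative.ofAdd g.a) h.t⟩⟩
instance : One (Cr ρ) := ⟨⟨0, 0⟩⟩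
instance : Inv (Cr ρ) := ⟨fun g => ⟨-g.a, -(ρ (Multiplicative.ofAdd (-g.a)) g.t)⟩⟩

@[simp] lemma mul_a (g h : Cr ρ) : (g * h).a = g.a + h.a := rfl
@[simp] lemma mul_t (g h : Cr ρ) : (g * h).t = g.t + ρ (Multiplicative.ofAdd g.a) h.t := rfl
@[simp] lemma one_a : (1 : Cr ρ).a = 0 := rfl
@[simp] lemma one_t : (1 : Cr ρ).t = 0 := rfl
@[simp] lemma inv_a (g : Cr ρ) : g⁻¹.a = -g.a := rfl
@[simp] lemma inv_t (g : Cr ρ) : g⁻¹.t = -(ρ (Multiplicative.ofAdd (-g.a)) g.t) := rfl

lemma rho_zero (x : N) : ρ (Multiplicative.ofAdd (0 : A)) x = x := by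
  rw [ofAdd_zero, map_one]; rfl

lemma rho_add (a b : A) (x : N) : ρ (Multiplicative.ofAdd (a + b)) x
    = ρ (Multiplicative.ofAdd a) (ρ (Multiplicative.ofAdd b) x) := by
  rw [ofAdd_add, map_mul]; rfl

instance : Group (Cr ρ) := Group.ofLeftAxioms
  (fun x y z => by
    ext
    · simp [add_assoc]
    · simp only [mul_t, mul_a, map_add, rho_add, add_assoc])
  (fun x => by
    ext
    · simp
    · simp only [mul_t, one_t, one_a, rho_zero, zero_add])
  (fun x => by
    ext
    · simp
    · simp only [mul_t, inv_t, inv_a, one_t]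
      abel)

lemma rho_comm (a b : A) (x : N) : ρ (Multiplicative.ofAdd a) (ρ (Multiplicative.ofAdd b) x)
    = ρ (Multiplicative.ofAdd b) (ρ (Multiplicative.ofAdd a) x) := by
  rw [← rho_add, ← rho_add, add_comm]

lemma comm_eq (g h : Cr ρ) : ⁅g, h⁆ = ⟨0, (g.t - ρ (Multiplicative.ofAdd h.a) g.t)
    - (h.t - ρ (Multiplicative.ofAdd g.a) h.t)⟩ := by
  have h1 : g * h = ⟨0, (g.t - ρ (Multiplicative.ofAdd h.a) g.t)
    - (h.t - ρ (Multiplicative.ofAdd g.a) h.t)⟩ * (h * g) := by
    ext
    · simp [add_comm]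
    · simp only [mul_t, mul_a, rho_zero]
      abel
  rw [commutatorElement_def, h1]
  group

lemma comm_a (g h : Cr ρ) : (⁅g, h⁆ : Cr ρ).a = 0 := by rw [comm_eq]

lemma comm_t (g h : Cr ρ) : (⁅g, h⁆ : Cr ρ).t = (g.t - ρ (Multiplicative.ofAdd h.a) g.t)
    - (h.t - ρ (Multiplicative.ofAdd g.a) h.t) := by rw [comm_eq]

/-- the projection to the acting group -/
def proj (ρ : Multiplicative A →* AddMonoid.End N) : Cr ρ →* Multiplicative A where
  toFun g := Multiplicative.ofAdd g.a
  map_one' := rfl
  map_mul' _ _ := rfl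

lemma metab (ρ : Multiplicative A →* AddMonoid.End N) : Metab (Cr ρ) := by
  unfold Metab
  have h1 : commutator (Cr ρ) ≤ (proj ρ).ker := Abelianization.commutator_subset_ker _
  have h2 : derivedSeries (Cr ρ) 1 = commutator (Cr ρ) := derivedSeries_one _
  rw [derivedSeries_succ, h2, eq_bot_iff, Subgroup.commutator_le]
  intro g hg h hh
  have hg' : g.a = 0 := congrArg Multiplicative.toAdd (h1 hg)
  have hh' : h.a = 0 := congrArg Multiplicative.toAdd (h1 hh)
  rw [Subgroup.mem_bot, comm_eq, hg', hh', rho_zero, rho_zero, sub_self, sub_self, sub_self]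
  rfl

lemma mul_comm_iff (g h : Cr ρ) : g * h = h * g ↔
    g.t + ρ (Multiplicative.ofAdd g.a) h.t = h.t + ρ (Multiplicative.ofAdd h.a) g.t := by
  constructor
  · intro e
    exact congrArg Cr.t e
  · intro e
    ext
    · exact add_comm _ _
    · exact e

end Cr

end Pool.Agent.Helper702.Pm
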