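import Mathlib
import Pool.Agent.Helper702.PmA

set_option autoImplicit false
set_option linter.unusedSectionVars false
set_option linter.unusedSimpArgs false

/-!
# Fox calculus and the Magnus embedding
-/

open scoped commutatorElement

namespace Pool.Agent.Helper702.Pm

open Multiplicative (ofAdd toAdd)

section ring

variable {V : Type}

/-- the group ring of the free abelian group -/
abbrev R (V : Type) : Type := AddMonoidAlgebra ℤ (V → ℤ)

/-- monomial -/
noncomputable def mo (α : V → ℤ) : R V := AddMonoidAlgebra.single α 1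

lemma mo_zero : mo (0 : V → ℤ) = 1 := rfl

lemma mo_add (α β : V → ℤ) : mo (α + β) = mo α * mo β := by
  rw [mo, mo, mo, AddMonoidAlgebra.single_mul_single, one_mul]

lemma mo_inj {α β : V → ℤ} (h : mo α = mo β) : α = β :=
  Multiplicative.ofAdd.injective (AddMonoidAlgebra.of_injective (R := ℤ) h)

/-- basis vector -/
abbrev e [DecidableEq V] (v : V) : V → ℤ := Pi.single v 1

/-- the variables -/
noncomputable abbrev X [DecidableEq V] (v : V) : R V := mo (e v)

/-- the action of the free abelian group on a ring through a character -/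
noncomputable def act {K : Type} [Ring K] (χ : Multiplicative (V → ℤ) →* K) :
    Multiplicative (V → ℤ) →* AddMonoid.End K :=
  ((Module.toAddMonoidEnd K K : K →+* AddMonoid.End K) : K →* AddMonoid.End K).comp χ

@[simp] lemma act_apply {K : Type} [Ring K] (χ : Multiplicative (V → ℤ) →* K)
    (α : Multiplicative (V → ℤ)) (t : K) : act χ α t = χ α * t := rfl

/-- the ring homomorphism to the endomorphisms -/
noncomputable def Lam {N : Type} [AddCommGroup N] (ρ : Multiplicative (V → ℤ) →* AddMonoid.End N) :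
    R V →+* AddMonoid.End N :=
  (AddMonoidAlgebra.lift ℤ (AddMonoid.End N) (V → ℤ) ρ : R V →ₐ[ℤ] AddMonoid.End N)

lemma Lam_mo {N : Type} [AddCommGroup N] (ρ : Multiplicative (V → ℤ) →* AddMonoid.End N)
    (α : V → ℤ) : Lam ρ (mo α) = ρ (ofAdd α) := by
  unfold Lam mo
  change (AddMonoidAlgebra.lift ℤ (AddMonoid.End N) (V → ℤ) ρ) (AddMonoidAlgebra.single α 1) = _
  rw [AddMonoidAlgebra.lift_single, one_smul]

lemma Lam_mul {N : Type} [AddCommGroup N] (ρ : Multiplicative (V → ℤ) →* AddMonoid.End N)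
    (P Q : R V) (x : N) : Lam ρ (P * Q) x = Lam ρ P (Lam ρ Q x) := by
  rw [map_mul]; rfl

lemma Lam_add {N : Type} [AddCommGroup N] (ρ : Multiplicative (V → ℤ) →* AddMonoid.End N)
    (P Q : R V) (x : N) : Lam ρ (P + Q) x = Lam ρ P x + Lam ρ Q x := by
  rw [map_add]; rfl

lemma Lam_one {N : Type} [AddCommGroup N] (ρ : Multiplicative (V → ℤ) →* AddMonoid.End N)
    (x : N) : Lam ρ 1 x = x := by
  rw [map_one]; rfl

lemma Lam_zero {N : Type} [AddCommGroup N] (ρ : Multiplicative (V → ℤ) →* AddMonoid.End N)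
    (x : N) : Lam ρ 0 x = 0 := by
  rw [map_zero]; rfl

lemma Lam_sub_one {N : Type} [AddCommGroup N] (ρ : Multiplicative (V → ℤ) →* AddMonoid.End N)
    (α : V → ℤ) (x : N) : Lam ρ (mo α - 1) x = ρ (ofAdd α) x - x := by
  rw [map_sub, map_one, Lam_mo]; rfl

/-- through a character, `Lam` is multiplication by the evaluation -/
lemma Lam_act {K : Type} [Ring K] (ev : R V →+* K) (P : R V) (x : K) (χ : Multiplicative (V → ℤ) →* K)
    (hχ : ∀ α, χ (ofAdd α) = ev (mo α)) : Lam (act χ) P x = ev P * x := by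
  induction P using AddMonoidAlgebra.induction_on with
  | of α =>
    have : (AddMonoidAlgebra.of ℤ (V → ℤ)) (ofAdd α) = mo α := rfl
    rw [this, Lam_mo, act_apply, hχ]
  | add P Q hP hQ => rw [Lam_add, hP, hQ, map_add, add_mul]
  | smul n P hP =>
    rw [map_zsmul, map_zsmul, smul_mul_assoc, ← hP]
    exact AddMonoidHom.smul_apply ..

/-- the action on the free module -/
noncomputable def actF (V : Type) : Multiplicative (V → ℤ) →* AddMonoid.End (V → R V) :=
  ((Module.toAddMonoidEnd (R V) (V → R V) : R V →+* AddMonoid.End (V → R V)) :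
    R V →* AddMonoid.End (V → R V)).comp (AddMonoidAlgebra.of ℤ (V → ℤ))

@[simp] lemma actF_apply (α : V → ℤ) (t : V → R V) (i : V) : actF V (ofAdd α) t i = mo α * t i := rfl

/-- comparison of the free module with another one -/
noncomputable def Jmap [Fintype V] {N : Type} [AddCommGroup N] (ρ : Multiplicative (V → ℤ) →* AddMonoid.End N)
    (ν : V → N) : Cr (actF V) →* Cr ρ where
  toFun g := ⟨g.a, ∑ i, Lam ρ (g.t i) (ν i)⟩
  map_one' := by
    ext
    · rfl
    · simp [Lam_zero]
  map_mul' g h := by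
    ext
    · rfl
    · simp only [Cr.mul_t, Pi.add_apply, actF_apply, Lam_add, Lam_mul, Finset.sum_add_distrib, map_sum, Lam_mo]

/-- the Fox derivatives -/
noncomputable def fox (V : Type) [DecidableEq V] : FreeGroup V →* Cr (actF V) :=
  FreeGroup.lift (fun v => ⟨e v, Pi.single v 1⟩)

lemma fox_of [DecidableEq V] (v : V) : fox V (FreeGroup.of v) = ⟨e v, Pi.single v 1⟩ := by
  unfold fox
  rw [FreeGroup.lift_apply_of]

variable [Fintype V] [DecidableEq V]

theorem fox_formula {N : Type} [AddCommGroup N] {ρ : Multiplicative (V → ℤ) →* AddMonoid.End N}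
    (Ψ : FreeGroup V →* Cr ρ) (hΨ : ∀ v, (Ψ (FreeGroup.of v)).a = e v) (w : FreeGroup V) :
    Ψ w = Jmap ρ (fun v => (Ψ (FreeGroup.of v)).t) (fox V w) := by
  have : Ψ = (Jmap ρ (fun v => (Ψ (FreeGroup.of v)).t)).comp (fox V) := by
    apply FreeGroup.ext_hom
    intro v
    rw [MonoidHom.comp_apply, fox_of]
    ext
    · exact congrFun (hΨ v) _
    · change _ = ∑ i, Lam ρ ((Pi.single v 1 : V → R V) i) ((Ψ (FreeGroup.of i)).t)
      rw [Finset.sum_eq_single v]
      · rw [Pi.single_eq_same, Lam_one]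
      · intro b _ hb
        rw [Pi.single_eq_of_ne hb, Lam_zero]
      · intro h
        exact absurd (Finset.mem_univ _) h
  exact DFunLike.congr_fun this w

lemma fox_a {N : Type} [AddCommGroup N] {ρ : Multiplicative (V → ℤ) →* AddMonoid.End N}
    (Ψ : FreeGroup V →* Cr ρ) (hΨ : ∀ v, (Ψ (FreeGroup.of v)).a = e v) (w : FreeGroup V) :
    (Ψ w).a = (fox V w).a := by
  rw [fox_formula Ψ hΨ w]; rfl

lemma fox_t {N : Type} [AddCommGroup N] {ρ : Multiplicative (V → ℤ) →* AddMonoid.End N}
    (Ψ : FreeGroup V →* Cr ρ) (hΨ : ∀ v, (Ψ (FreeGroup.of v)).a = e v) (w : FreeGroup V) :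
    (Ψ w).t = ∑ i, Lam ρ ((fox V w).t i) (Ψ (FreeGroup.of i)).t := by
  conv_lhs => rw [fox_formula Ψ hΨ w]
  rfl

/-- principal crossed homomorphism -/
noncomputable def prin (V : Type) : Multiplicative (V → ℤ) →* Cr (act (V := V) (AddMonoidAlgebra.of ℤ (V → ℤ))) where
  toFun α := ⟨toAdd α, mo (toAdd α) - 1⟩
  map_one' := by
    ext1
    · rfl
    · change mo (0 : V → ℤ) - 1 = 0
      rw [mo_zero, sub_self]
  map_mul' α β := by
    ext1
    · rfl
    · change mo (toAdd α + toAdd β) - 1 = (mo (toAdd α) - 1) + mo (toAdd α) * (mo (toAdd β) - 1)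
      rw [mo_add]; ring

theorem total (w : FreeGroup V) : ∑ i, (fox V w).t i * (X i - 1) = mo (fox V w).a - 1 := by
  let Ψ : FreeGroup V →* Cr (act (V := V) (AddMonoidAlgebra.of ℤ (V → ℤ))) :=
    (prin V).comp ((Cr.proj _).comp (fox V))
  have hof : ∀ v, Ψ (FreeGroup.of v) = ⟨e v, X v - 1⟩ := by
    intro v
    change prin V (ofAdd (fox V (FreeGroup.of v)).a) = _
    rw [fox_of]
    rfl
  have h := fox_t Ψ (fun v => by rw [hof]) w
  have h1 : (Ψ w).t = mo (fox V w).a - 1 := rfl
  rw [← h1, h]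
  refine Finset.sum_congr rfl fun i _ => ?_
  rw [hof, Lam_act (RingHom.id _) _ _ _ (fun α => rfl)]
  rfl

end ring

end Pool.Agent.Helper702.Pm
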