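import Mathlib
import Pool.Agent.Helper702.PmB

set_option autoImplicit false
set_option linter.unusedSectionVars false
set_option linter.unusedSimpArgs false

/-!
# The path on five vertices
-/

open scoped commutatorElement

namespace Pool.Agent.Helper702.Pm

open Multiplicative (ofAdd toAdd)

lemma metab_of_comm {H : Type} [CommGroup H] : Metab H := by
  unfold Metab
  rw [derivedSeries_succ, eq_bot_iff, Subgroup.commutator_le]
  intro g _ h _
  rw [Subgroup.mem_bot, commutatorElement_eq_one_iff_mul_comm]
  exact mul_comm _ _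

section deg

variable {V : Type} [DecidableEq V] (Γ : SimpleGraph V)

lemma exists_deg : ∃ d : PCM Γ →* Multiplicative (V → ℤ), ∀ v, d (gen Γ v) = ofAdd (e v) :=
  exists_lift Γ metab_of_comm _ (fun _ _ _ => mul_comm _ _)

/-- the degree -/
noncomputable def deg : PCM Γ →* Multiplicative (V → ℤ) := (exists_deg Γ).choose

lemma deg_gen (v : V) : deg Γ (gen Γ v) = ofAdd (e v) := (exists_deg Γ).choose_spec v

lemma deg_of_hom {N : Type} [AddCommGroup N] {ρ : Multiplicative (V → ℤ) →* AddMonoid.End N}
    (φ : PCM Γ →* Cr ρ) (hφ : ∀ v, (φ (gen Γ v)).a = e v) (g : PCM Γ) : (φ g).a = toAdd (deg Γ g) := by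
  have : (Cr.proj ρ).comp φ = deg Γ := by
    apply hom_ext_pcm
    intro v
    rw [deg_gen]
    exact congrArg ofAdd (hφ v)
  exact congrArg toAdd (DFunLike.congr_fun this g)

lemma deg_pr (w : FreeGroup V) : toAdd (deg Γ (pr Γ w)) = (fox V w).a := by
  have : (deg Γ).comp (pr Γ) = (Cr.proj _).comp (fox V) := by
    apply FreeGroup.ext_hom
    intro v
    change deg Γ (gen Γ v) = ofAdd (fox V (FreeGroup.of v)).a
    rw [deg_gen, fox_of]
  exact congrArg toAdd (DFunLike.congr_fun this w)

variable [Fintype V]

lemma deg_surj : Function.Surjective (deg Γ) := by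
  intro α
  have h1 : α = ∏ i, (ofAdd (e i) : Multiplicative (V → ℤ)) ^ (toAdd α i) := by
    apply toAdd.injective
    rw [toAdd_prod]
    funext j
    rw [Finset.sum_apply, Finset.sum_eq_single j]
    · rw [toAdd_zpow, toAdd_ofAdd, Pi.smul_apply, e, Pi.single_eq_same, smul_eq_mul, mul_one]
    · intro i _ hi
      rw [toAdd_zpow, toAdd_ofAdd, Pi.smul_apply, e, Pi.single_eq_of_ne (Ne.symm hi), smul_zero]
    · intro h
      exact absurd (Finset.mem_univ _) h
  have h2 : α ∈ (deg Γ).range := by
    rw [h1]
    refine Subgroup.prod_mem _ fun i _ => Subgroup.zpow_mem _ ?_ _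
    exact MonoidHom.mem_range.2 ⟨gen Γ i, deg_gen Γ i⟩
  exact h2

lemma deg_ker {g : PCM Γ} (h : deg Γ g = 1) : g ∈ commutator (PCM Γ) := by
  let q : PCM Γ →* Abelianization (PCM Γ) := Abelianization.of
  let b : Multiplicative (V → ℤ) →* Abelianization (PCM Γ) := MonoidHom.mk'
    (fun α => ∏ i, q (gen Γ i) ^ (toAdd α i))
    (by
      intro α β
      rw [← Finset.prod_mul_distrib]
      refine Finset.prod_congr rfl fun i _ => ?_
      rw [← zpow_add]
      rfl)
  have hb : b.comp (deg Γ) = q := by
    apply hom_ext_pcm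
    intro v
    change ∏ i, q (gen Γ i) ^ (toAdd (deg Γ (gen Γ v)) i) = q (gen Γ v)
    rw [deg_gen, Finset.prod_eq_single v]
    · rw [toAdd_ofAdd, e, Pi.single_eq_same, zpow_one]
    · intro i _ hi
      rw [toAdd_ofAdd, e, Pi.single_eq_of_ne hi, zpow_zero]
    · intro h
      exact absurd (Finset.mem_univ _) h
  have h1 : q g = 1 := by
    rw [← hb, MonoidHom.comp_apply, h, map_one]
  rwa [← MonoidHom.mem_ker, Abelianization.ker_of] at h1

lemma comm_mem_ker {g : PCM Γ} (h : g ∈ commutator (PCM Γ)) : deg Γ g = 1 :=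
  Abelianization.commutator_subset_ker _ h

lemma ker_comm {g h : PCM Γ} (hg : deg Γ g = 1) (hh : deg Γ h = 1) : g * h = h * g :=
  (metab_pcm Γ).comm (deg_ker Γ hg) (deg_ker Γ hh)

end deg

/-- the embedding of Kaloujnine and Krasner -/
theorem kk {G A M : Type} [Group G] [AddCommGroup A] [CommGroup M] (deg : G →* Multiplicative A)
    (hs : Function.Surjective deg) (ι : M →* G) (hι : Function.Injective ι)
    (hk : ∀ g, deg g = 1 → ∃ m, ι m = g) :
    ∃ (ρ : Multiplicative A →* AddMonoid.End (A → Additive M)) (D : G →* Cr ρ),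
      (∀ g, (D g).a = toAdd (deg g)) ∧ ∀ g, D g = 1 → g = 1 := by
  let ρ : Multiplicative A →* AddMonoid.End (A → Additive M) :=
    { toFun := fun α =>
        { toFun := fun f β => f (β + toAdd α)
          map_zero' := rfl
          map_add' := fun _ _ => rfl }
      map_one' := by
        apply AddMonoidHom.ext
        intro f
        funext β
        change f (β + 0) = f β
        rw [add_zero]
      map_mul' := by
        intro α α'
        apply AddMonoidHom.ext
        intro f
        funext β
        change f (β + (toAdd α + toAdd α')) = f (β + toAdd α + toAdd α')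
        rw [add_assoc] }
  let σ : A → G := fun β => Function.surjInv hs (ofAdd β)
  have hσ : ∀ β, deg (σ β) = ofAdd β := fun β => Function.surjInv_eq hs _
  have hex : ∀ (g : G) (β : A), ∃ m : M, ι m = σ β * g * (σ (β + toAdd (deg g)))⁻¹ := by
    intro g β
    apply hk
    rw [map_mul, map_mul, map_inv, hσ, hσ, ofAdd_add, ofAdd_toAdd, mul_inv_cancel]
  choose c hc using hex
  let D : G →* Cr ρ := MonoidHom.mk' (fun g => ⟨toAdd (deg g), fun β => Additive.ofMul (c g β)⟩) (by
    intro g h
    ext1
    · change toAdd (deg (g * h)) = toAdd (deg g) + toAdd (deg h)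
      rw [map_mul]; rfl
    · funext β
      change Additive.ofMul (c (g * h) β) = Additive.ofMul (c g β) + Additive.ofMul (c h (β + toAdd (deg g)))
      rw [← ofMul_mul]
      congr 1
      apply hι
      rw [map_mul, hc, hc, hc, map_mul, toAdd_mul, ← add_assoc]
      group)
  refine ⟨ρ, D, fun g => rfl, fun g hg => ?_⟩
  have h1 : toAdd (deg g) = 0 := congrArg Cr.a hg
  have h2 : c g 0 = 1 := by
    have := congrFun (congrArg Cr.t hg) 0
    exact this
  have h3 := hc g 0
  rw [h2, map_one, h1, add_zero] at h3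
  have h4 : σ 0 * g = σ 0 := by
    rw [eq_comm, mul_inv_eq_one] at h3
    exact h3
  exact mul_eq_left.1 h4

end Pool.Agent.Helper702.Pm
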