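import Mathlib
import Pool.Agent.Helper702.PmC

set_option autoImplicit false
set_option linter.unusedSectionVars false
set_option linter.unusedSimpArgs false

/-!
# The path on five vertices: the joint embedding
-/

open scoped commutatorElement

namespace Pool.Agent.Helper702.Pm

open Multiplicative (ofAdd toAdd)

section eps

variable {V : Type} [DecidableEq V]

/-- set a coordinate to zero -/
def zo (v : V) : (V → ℤ) →+ (V → ℤ) where
  toFun α i := if i = v then 0 else α i
  map_zero' := by funext i; simp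
  map_add' α β := by
    funext i
    simp only [Pi.add_apply]
    split_ifs <;> simp

/-- evaluate a variable at one -/
noncomputable def eps (v : V) : R V →+* R V := AddMonoidAlgebra.mapDomainRingHom ℤ (zo v)

lemma eps_mo (v : V) (α : V → ℤ) : eps v (mo α) = mo (zo v α) := by
  unfold eps mo
  rw [AddMonoidAlgebra.mapDomainRingHom_apply, AddMonoidAlgebra.mapDomain_single]

lemma mo_neg_mul (α : V → ℤ) : mo (-α) * mo α = 1 := by
  rw [← mo_add, neg_add_cancel, mo_zero]

lemma dvd_pow (v : V) (n : ℤ) : X v - 1 ∣ mo (n • e v) - 1 := by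
  induction n using Int.induction_on with
  | zero => rw [zero_smul, mo_zero, sub_self]; exact dvd_zero _
  | succ n ih =>
    have : mo (((n : ℤ) + 1) • e v) - 1 = (mo ((n : ℤ) • e v) - 1) * X v + (X v - 1) := by
      rw [add_smul, one_smul, mo_add]; ring
    rw [this]
    exact dvd_add (ih.mul_right _) dvd_rfl
  | pred n ih =>
    have : mo ((-(n : ℤ) - 1) • e v) - 1 = (mo (-(n : ℤ) • e v) - 1) * mo (-e v) + (X v - 1) * (-mo (-e v)) := by
      have h0 : (-(n : ℤ) - 1) • e v = -(n : ℤ) • e v + (-e v) := by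
        rw [sub_smul, one_smul, sub_eq_add_neg]
      rw [h0, mo_add]
      linear_combination (mo_neg_mul (e v))
    rw [this]
    exact dvd_add (ih.mul_right _) (dvd_mul_right _ _)

lemma dvd_sub_eps (v : V) (P : R V) : X v - 1 ∣ P - eps v P := by
  induction P using AddMonoidAlgebra.induction_on with
  | of α =>
    have h1 : (AddMonoidAlgebra.of ℤ (V → ℤ)) (ofAdd α) = mo α := rfl
    have h2 : α = zo v α + α v • e v := by
      funext i
      by_cases hi : i = v
      · subst hi; simp [zo]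
      · simp [zo, hi]
    have h3 : mo α = mo (zo v α) * mo (α v • e v) := by
      conv_lhs => rw [h2, mo_add]
    rw [h1, eps_mo]
    have h4 : mo α - mo (zo v α) = mo (zo v α) * (mo (α v • e v) - 1) := by
      rw [h3]; ring
    rw [h4]
    exact (dvd_pow v _).mul_left _
  | add P Q hP hQ =>
    rw [map_add]
    have : P + Q - (eps v P + eps v Q) = (P - eps v P) + (Q - eps v Q) := by ring
    rw [this]
    exact dvd_add hP hQ
  | smul n P hP =>
    rw [map_zsmul, ← smul_sub, zsmul_eq_mul]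
    exact hP.mul_left _

lemma dvd_of_eps {v : V} {P : R V} (h : eps v P = 0) : ∃ Q, P = (X v - 1) * Q := by
  have := dvd_sub_eps v P
  rw [h, sub_zero] at this
  exact this

lemma X_ne (v : V) : X v - 1 ≠ 0 := by
  intro h
  have h1 : mo (e v) = mo 0 := by rw [mo_zero]; exact sub_eq_zero.1 h
  have h2 := congrFun (mo_inj h1) v
  simp at h2

lemma mo_sub_one {α : V → ℤ} : mo α - 1 = 0 ↔ α = 0 := by
  constructor
  · intro h
    exact mo_inj (by rw [mo_zero]; exact sub_eq_zero.1 h)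
  · rintro rfl
    rw [mo_zero, sub_self]

lemma eps_X_self (v : V) : eps v (X v) = 1 := by
  rw [X, eps_mo]
  have : zo v (e v) = 0 := by
    funext i
    by_cases hi : i = v <;> simp [zo, hi]
  rw [this, mo_zero]

lemma zo_e_ne {v i : V} (h : i ≠ v) : zo v (e i) = e i := by
  funext j
  by_cases hj : j = v
  · subst hj; simp [zo, h.symm]
  · simp [zo, hj]

lemma eps_X_ne {v i : V} (h : i ≠ v) : eps v (X i) = X i := by
  rw [X, eps_mo, zo_e_ne h]

end eps

/-- the path on five vertices -/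
abbrev P5 : SimpleGraph (Fin 5) := SimpleGraph.pathGraph 5

/-- the character of the representation attached to the vertex `v` -/
noncomputable def chi (v : Fin 5) : Multiplicative (Fin 5 → ℤ) →* R (Fin 5) :=
  (AddMonoidAlgebra.of ℤ (Fin 5 → ℤ)).comp (AddMonoidHom.toMultiplicative (zo v))

lemma chi_apply (v : Fin 5) (α : Fin 5 → ℤ) : chi v (ofAdd α) = mo (zo v α) := rfl

/-- values on generators -/
noncomputable def nu (v i : Fin 5) : R (Fin 5) := if i < v then X i - 1 else 0

lemma exists_th (v : Fin 5) : ∃ φ : PCM P5 →* Cr (act (chi v)), ∀ i, φ (gen P5 i) = ⟨e i, nu v i⟩ := by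
  apply exists_lift
  · exact Cr.metab _
  · intro i j hij
    rw [Cr.mul_comm_iff]
    simp only [act_apply, chi_apply]
    rw [SimpleGraph.pathGraph_adj] at hij
    by_cases hi : i < v
    · by_cases hj : j < v
      · rw [zo_e_ne hi.ne, zo_e_ne hj.ne, nu, nu, if_pos hi, if_pos hj]
        ring
      · have hjv : j = v := by
          apply Fin.ext
          have h1 : i.val < v.val := hi
          have h2 : ¬ j.val < v.val := hj
          omega
        subst hjv
        have h0 : zo j (e j) = 0 := by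
          funext k
          by_cases hk : k = j <;> simp [zo, hk]
        rw [zo_e_ne hi.ne, h0, nu, nu, if_pos hi, if_neg hj, mo_zero]
        ring
    · by_cases hj : j < v
      · have hjv : i = v := by
          apply Fin.ext
          have h1 : j.val < v.val := hj
          have h2 : ¬ i.val < v.val := hi
          omega
        subst hjv
        have h0 : zo i (e i) = 0 := by
          funext k
          by_cases hk : k = i <;> simp [zo, hk]
        rw [zo_e_ne hj.ne, h0, nu, nu, if_pos hj, if_neg hi, mo_zero]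
        ring
      · rw [nu, nu, if_neg hi, if_neg hj]
        ring

/-- the representations -/
noncomputable def th (v : Fin 5) : PCM P5 →* Cr (act (chi v)) := (exists_th v).choose

lemma th_gen (v i : Fin 5) : th v (gen P5 i) = ⟨e i, nu v i⟩ := (exists_th v).choose_spec i

lemma th_a (v : Fin 5) (g : PCM P5) : (th v g).a = toAdd (deg P5 g) :=
  deg_of_hom P5 (th v) (fun i => by rw [th_gen]) g

lemma th_t (v : Fin 5) (w : FreeGroup (Fin 5)) :
    (th v (pr P5 w)).t = ∑ i, eps v ((fox (Fin 5) w).t i) * nu v i := by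
  have h := fox_t ((th v).comp (pr P5)) (fun i => by
    rw [MonoidHom.comp_apply, pr_of, th_gen]) w
  rw [MonoidHom.comp_apply] at h
  rw [h]
  refine Finset.sum_congr rfl fun i _ => ?_
  rw [MonoidHom.comp_apply, pr_of, th_gen]
  exact Lam_act (eps v) _ _ _ (fun α => by rw [chi_apply, eps_mo])

/-- the main computation -/
theorem inj_aux (w : FreeGroup (Fin 5)) (ha : (fox (Fin 5) w).a = 0)
    (h1 : (th 1 (pr P5 w)).t = 0) (h2 : (th 2 (pr P5 w)).t = 0) (h3 : (th 3 (pr P5 w)).t = 0)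
    {N : Type} [AddCommGroup N] {ρ : Multiplicative (Fin 5 → ℤ) →* AddMonoid.End N}
    (D : PCM P5 →* Cr ρ) (hD : ∀ v, (D (gen P5 v)).a = e v) : (D (pr P5 w)).t = 0 := by
  have hX := X_ne (V := Fin 5)
  have tot := total w
  rw [ha, mo_zero, sub_self] at tot
  rw [th_t] at h1 h2 h3
  set F := (fox (Fin 5) w).t with hF
  simp only [Fin.sum_univ_five] at h1 h2 h3 tot
  have n1 : nu 1 0 = X 0 - 1 ∧ nu 1 1 = 0 ∧ nu 1 2 = 0 ∧ nu 1 3 = 0 ∧ nu 1 4 = 0 := by
    refine ⟨?_, ?_, ?_, ?_, ?_⟩ <;> unfold nu <;> simp [show ¬ ((2 : Fin 5) < 1) by decide,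
      show ¬ ((3 : Fin 5) < 1) by decide, show ¬ ((4 : Fin 5) < 1) by decide]
  have n2 : nu 2 0 = X 0 - 1 ∧ nu 2 1 = X 1 - 1 ∧ nu 2 2 = 0 ∧ nu 2 3 = 0 ∧ nu 2 4 = 0 := by
    refine ⟨?_, ?_, ?_, ?_, ?_⟩ <;> unfold nu <;> simp [show ((1 : Fin 5) < 2) by decide, show ((0 : Fin 5) < 2) by decide,
      show ¬ ((3 : Fin 5) < 2) by decide, show ¬ ((4 : Fin 5) < 2) by decide]
  have n3 : nu 3 0 = X 0 - 1 ∧ nu 3 1 = X 1 - 1 ∧ nu 3 2 = X 2 - 1 ∧ nu 3 3 = 0 ∧ nu 3 4 = 0 := by
    refine ⟨?_, ?_, ?_, ?_, ?_⟩ <;> unfold nu <;> simp [show ((1 : Fin 5) < 3) by decide, show ((0 : Fin 5) < 3) by decide,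
      show ((2 : Fin 5) < 3) by decide, show ¬ ((4 : Fin 5) < 3) by decide]
  rw [n1.1, n1.2.1, n1.2.2.1, n1.2.2.2.1, n1.2.2.2.2] at h1
  rw [n2.1, n2.2.1, n2.2.2.1, n2.2.2.2.1, n2.2.2.2.2] at h2
  rw [n3.1, n3.2.1, n3.2.2.1, n3.2.2.2.1, n3.2.2.2.2] at h3
  simp only [mul_zero, add_zero] at h1 h2 h3
  -- first coordinate
  obtain ⟨α, hα⟩ := dvd_of_eps ((mul_eq_zero.1 h1).resolve_right (hX 0))
  -- last coordinate
  have h3' : eps 3 (F 4) * (X 4 - 1) = 0 := by
    have := congrArg (eps 3) tot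
    simp only [map_add, map_mul, map_sub, map_one, map_zero, eps_X_self] at this
    rw [eps_X_ne (show (0 : Fin 5) ≠ 3 by decide), eps_X_ne (show (1 : Fin 5) ≠ 3 by decide),
      eps_X_ne (show (2 : Fin 5) ≠ 3 by decide), eps_X_ne (show (4 : Fin 5) ≠ 3 by decide)] at this
    linear_combination this - h3
  obtain ⟨δ, hδ⟩ := dvd_of_eps ((mul_eq_zero.1 h3').resolve_right (hX 4))
  -- second coordinate
  have h2' : (X 1 - 1) * eps 2 (α * (X 0 - 1) + F 1) = 0 := by
    rw [hα] at h2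
    simp only [map_add, map_mul, map_sub, map_one] at h2 ⊢
    rw [eps_X_ne (show (0 : Fin 5) ≠ 2 by decide)]
    rw [eps_X_ne (show (1 : Fin 5) ≠ 2 by decide)] at h2
    linear_combination h2
  obtain ⟨β, hβ⟩ := dvd_of_eps ((mul_eq_zero.1 h2').resolve_left (hX 1))
  -- fourth coordinate
  have h4' : (X 3 - 1) * eps 2 (F 3 + δ * (X 4 - 1)) = 0 := by
    have := congrArg (eps 2) tot
    rw [hα] at h2
    rw [hδ, hα] at this
    simp only [map_add, map_mul, map_sub, map_one, map_zero, eps_X_self] at this h2 ⊢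
    rw [eps_X_ne (show (0 : Fin 5) ≠ 2 by decide), eps_X_ne (show (1 : Fin 5) ≠ 2 by decide),
      eps_X_ne (show (3 : Fin 5) ≠ 2 by decide), eps_X_ne (show (4 : Fin 5) ≠ 2 by decide)] at this
    rw [eps_X_ne (show (1 : Fin 5) ≠ 2 by decide)] at h2
    rw [eps_X_ne (show (4 : Fin 5) ≠ 2 by decide)]
    linear_combination this - h2
  obtain ⟨γ, hγ⟩ := dvd_of_eps ((mul_eq_zero.1 h4').resolve_left (hX 3))
  -- the middle coordinate
  have hmid : β * (X 1 - 1) + F 2 + γ * (X 3 - 1) = 0 := by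
    have : (X 2 - 1) * (β * (X 1 - 1) + F 2 + γ * (X 3 - 1)) = 0 := by
      rw [hα, hδ] at tot
      linear_combination tot - (X 1 - 1) * hβ - (X 3 - 1) * hγ
    exact (mul_eq_zero.1 this).resolve_left (hX 2)
  -- the module side
  have key : ∀ i j, P5.Adj i j → Lam ρ (X i - 1) (D (gen P5 j)).t = Lam ρ (X j - 1) (D (gen P5 i)).t := by
    intro i j hij
    have h := congrArg D (gen_comm P5 hij)
    rw [map_mul, map_mul, Cr.mul_comm_iff, hD, hD] at h
    rw [Lam_sub_one, Lam_sub_one, sub_eq_sub_iff_add_eq_add, add_comm, h, add_comm]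
  have a01 := key 0 1 (by simp [SimpleGraph.pathGraph_adj])
  have a12 := key 1 2 (by simp [SimpleGraph.pathGraph_adj])
  have a23 := key 2 3 (by simp [SimpleGraph.pathGraph_adj])
  have a34 := key 3 4 (by simp [SimpleGraph.pathGraph_adj])
  have hf := fox_t (D.comp (pr P5)) (fun i => by
    rw [MonoidHom.comp_apply, pr_of, hD]) w
  rw [MonoidHom.comp_apply] at hf
  rw [hf, Fin.sum_univ_five]
  simp only [MonoidHom.comp_apply, pr_of]
  rw [← hF]
  set y0 := (D (gen P5 0)).t
  set y1 := (D (gen P5 1)).t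
  set y2 := (D (gen P5 2)).t
  set y3 := (D (gen P5 3)).t
  set y4 := (D (gen P5 4)).t
  have e0 : Lam ρ (F 0) y0 = Lam ρ (α * (X 0 - 1)) y1 := by
    rw [hα, mul_comm (X 1 - 1), Lam_mul, Lam_mul, a01]
  have e4 : Lam ρ (F 4) y4 = Lam ρ (δ * (X 4 - 1)) y3 := by
    rw [hδ, mul_comm (X 3 - 1), Lam_mul, Lam_mul, a34]
  have e1 : Lam ρ (F 0) y0 + Lam ρ (F 1) y1 = Lam ρ (β * (X 1 - 1)) y2 := by
    rw [e0, ← Lam_add, hβ, mul_comm (X 2 - 1), Lam_mul, Lam_mul, a12]
  have e3 : Lam ρ (F 3) y3 + Lam ρ (F 4) y4 = Lam ρ (γ * (X 3 - 1)) y2 := by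
    rw [e4, ← Lam_add, hγ, mul_comm (X 2 - 1), Lam_mul, Lam_mul, a23]
  calc Lam ρ (F 0) y0 + Lam ρ (F 1) y1 + Lam ρ (F 2) y2 + Lam ρ (F 3) y3 + Lam ρ (F 4) y4
      = (Lam ρ (F 0) y0 + Lam ρ (F 1) y1) + Lam ρ (F 2) y2 + (Lam ρ (F 3) y3 + Lam ρ (F 4) y4) := by abel
    _ = Lam ρ (β * (X 1 - 1) + F 2 + γ * (X 3 - 1)) y2 := by rw [e1, e3, Lam_add, Lam_add]
    _ = 0 := by rw [hmid, Lam_zero]

/-- the three representations separate the elements of degree zero -/
theorem joint_inj {g : PCM P5} (ha : deg P5 g = 1)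
    (h1 : (th 1 g).t = 0) (h2 : (th 2 g).t = 0) (h3 : (th 3 g).t = 0) : g = 1 := by
  obtain ⟨w, rfl⟩ := pr_surj P5 g
  let inst : CommGroup (commutator (PCM P5)) :=
    { (inferInstance : Group (commutator (PCM P5))) with
      mul_comm := fun a b => Subtype.ext ((metab_pcm P5).comm a.2 b.2) }
  obtain ⟨ρ, D, hD1, hD2⟩ := kk (deg P5) (deg_surj P5) (commutator (PCM P5)).subtype
    (Subgroup.subtype_injective _) (fun g hg => ⟨⟨g, deg_ker P5 hg⟩, rfl⟩)
  apply hD2
  have hDa : ∀ v, (D (gen P5 v)).a = e v := fun v => by rw [hD1, deg_gen]; rfl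
  have hw : (fox (Fin 5) w).a = 0 := by
    rw [← deg_pr P5, ha]; rfl
  ext1
  · rw [hD1, ha]; rfl
  · exact inj_aux w hw h1 h2 h3 D hDa

end Pool.Agent.Helper702.Pm
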