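import Mathlib
import Pool.Agent.Helper702.PmD

set_option autoImplicit false
set_option linter.unusedSectionVars false
set_option linter.unusedSimpArgs false

/-!
# The path on five vertices: rigidity
-/

open scoped commutatorElement

namespace Pool.Agent.Helper702.Pm

open Multiplicative (ofAdd toAdd)

/-- the degree, additively -/
noncomputable def dg (g : PCM P5) : Fin 5 → ℤ := toAdd (deg P5 g)

lemma dg_mul (g h : PCM P5) : dg (g * h) = dg g + dg h := by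
  unfold dg; rw [map_mul]; rfl

lemma dg_inv (g : PCM P5) : dg g⁻¹ = -dg g := by
  unfold dg; rw [map_inv]; rfl

lemma dg_zpow (g : PCM P5) (n : ℤ) : dg (g ^ n) = n • dg g := by
  unfold dg; rw [map_zpow]; rfl

lemma dg_gen (i : Fin 5) : dg (gen P5 i) = e i := by
  unfold dg; rw [deg_gen]; rfl

lemma dg_comm (g h : PCM P5) : dg ⁅g, h⁆ = 0 := by
  unfold dg
  rw [map_commutatorElement, commutatorElement_eq_one_iff_mul_comm.2 (mul_comm _ _)]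
  rfl

lemma dg_eq_zero_iff {g : PCM P5} : dg g = 0 ↔ deg P5 g = 1 := Iff.rfl

lemma th_a' (v : Fin 5) (g : PCM P5) : (th v g).a = dg g := th_a v g

lemma th_comm (v : Fin 5) (g m : PCM P5) (hm : dg m = 0) :
    (th v ⁅g, m⁆).t = (mo (zo v (dg g)) - 1) * (th v m).t := by
  rw [map_commutatorElement, Cr.comm_t, th_a', th_a', hm]
  simp only [act_apply, chi_apply, map_zero, mo_zero]
  ring

lemma th_comm' (v : Fin 5) (g h : PCM P5) :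
    (th v ⁅g, h⁆).t = (1 - mo (zo v (dg h))) * (th v g).t - (1 - mo (zo v (dg g))) * (th v h).t := by
  rw [map_commutatorElement, Cr.comm_t, th_a', th_a']
  simp only [act_apply, chi_apply, map_zero, mo_zero]
  ring

lemma comm_iff {g m : PCM P5} (hm : dg m = 0) :
    ⁅g, m⁆ = 1 ↔ ∀ v : Fin 5, (v = 1 ∨ v = 2 ∨ v = 3) → zo v (dg g) = 0 ∨ (th v m).t = 0 := by
  constructor
  · intro h v _
    have h1 := th_comm v g m hm
    rw [h, map_one, Cr.one_t, eq_comm, mul_eq_zero, mo_sub_one] at h1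
    exact h1
  · intro h
    have h0 : ∀ v : Fin 5, (v = 1 ∨ v = 2 ∨ v = 3) → (th v ⁅g, m⁆).t = 0 := by
      intro v hv
      rw [th_comm v g m hm, mul_eq_zero, mo_sub_one]
      exact h v hv
    exact joint_inj (dg_comm g m) (h0 1 (by simp)) (h0 2 (by simp)) (h0 3 (by simp))

lemma zo_two {v v' : Fin 5} (hv : v ≠ v') {α : Fin 5 → ℤ} (h1 : zo v α = 0) (h2 : zo v' α = 0) : α = 0 := by
  funext i
  by_cases hi : i = v
  · have := congrFun h2 i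
    have hi' : i ≠ v' := fun h => hv (hi.symm.trans h)
    simpa [zo, hi'] using this
  · have := congrFun h1 i
    simpa [zo, hi] using this

lemma dg_ne {g m : PCM P5} (hm : dg m = 0) (h : ⁅g, m⁆ ≠ 1) : dg g ≠ 0 := by
  intro h0
  apply h
  rw [comm_iff hm]
  intro v _
  left
  rw [h0, map_zero]

lemma rigid1 {y m : PCM P5} (hm : dg m = 0) (hy : dg y ≠ 0) (hm1 : m ≠ 1) (hc : ⁅y, m⁆ = 1) :
    ∃ v : Fin 5, (v = 1 ∨ v = 2 ∨ v = 3) ∧ zo v (dg y) = 0 ∧ ∀ g, ⁅g, m⁆ = 1 ↔ zo v (dg g) = 0 := by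
  have h1 : ∃ v : Fin 5, (v = 1 ∨ v = 2 ∨ v = 3) ∧ (th v m).t ≠ 0 := by
    by_contra hcon
    push Not at hcon
    exact hm1 (joint_inj hm (hcon 1 (by simp)) (hcon 2 (by simp)) (hcon 3 (by simp)))
  obtain ⟨v, hv, hvm⟩ := h1
  have h2 : zo v (dg y) = 0 := ((comm_iff hm).1 hc v hv).resolve_right hvm
  refine ⟨v, hv, h2, fun g => ?_⟩
  rw [comm_iff hm]
  constructor
  · intro h
    exact (h v hv).resolve_right hvm
  · intro h v' hv'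
    by_cases hvv : v' = v
    · subst hvv; exact Or.inl h
    · right
      have h3 := (comm_iff hm).1 hc v' hv'
      refine h3.resolve_left fun h4 => hy (zo_two hvv h4 h2)

/-- rigidity -/
theorem rigid {y1 y2 y3 m1 m2 m3 : PCM P5} (hm1 : dg m1 = 0) (hm2 : dg m2 = 0) (hm3 : dg m3 = 0)
    (c1 : ⁅y1, m1⁆ = 1) (c2 : ⁅y2, m2⁆ = 1) (c3 : ⁅y3, m3⁆ = 1)
    (n21 : ⁅y2, m1⁆ ≠ 1) (n31 : ⁅y3, m1⁆ ≠ 1) (n32 : ⁅y3, m2⁆ ≠ 1) (n12 : ⁅y1, m2⁆ ≠ 1)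
    (n13 : ⁅y1, m3⁆ ≠ 1) :
    ∃ v1 v2 v3 : Fin 5, (v1 = 1 ∨ v1 = 2 ∨ v1 = 3) ∧ (v2 = 1 ∨ v2 = 2 ∨ v2 = 3) ∧
      (v3 = 1 ∨ v3 = 2 ∨ v3 = 3) ∧ v1 ≠ v2 ∧ v1 ≠ v3 ∧ v2 ≠ v3 ∧
      (zo v1 (dg y1) = 0 ∧ dg y1 ≠ 0) ∧ (zo v2 (dg y2) = 0 ∧ dg y2 ≠ 0) ∧
      (zo v3 (dg y3) = 0 ∧ dg y3 ≠ 0) ∧
      ∀ g, ⁅g, m1⁆ = 1 → ⁅g, m2⁆ = 1 → dg g = 0 := by
  have ne1 : ∀ {g m : PCM P5}, ⁅g, m⁆ ≠ 1 → m ≠ 1 := by
    rintro g m h rfl
    exact h (commutatorElement_one_right g)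
  obtain ⟨v1, hv1, z1, i1⟩ := rigid1 hm1 (dg_ne hm2 n12) (ne1 n21) c1
  obtain ⟨v2, hv2, z2, i2⟩ := rigid1 hm2 (dg_ne hm1 n21) (ne1 n32) c2
  obtain ⟨v3, hv3, z3, i3⟩ := rigid1 hm3 (dg_ne hm1 n31) (ne1 n13) c3
  have h12 : v1 ≠ v2 := by
    rintro rfl
    exact n21 ((i1 y2).2 z2)
  have h13 : v1 ≠ v3 := by
    rintro rfl
    exact n31 ((i1 y3).2 z3)
  have h23 : v2 ≠ v3 := by
    rintro rfl
    exact n32 ((i2 y3).2 z3)
  refine ⟨v1, v2, v3, hv1, hv2, hv3, h12, h13, h23, ⟨z1, dg_ne hm2 n12⟩, ⟨z2, dg_ne hm1 n21⟩,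
    ⟨z3, dg_ne hm1 n31⟩, fun g g1 g2 => zo_two h12 ((i1 g).1 g1) ((i2 g).1 g2)⟩

end Pool.Agent.Helper702.Pm
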