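import Mathlib
import Pool.Agent.Helper702.PmC

set_option autoImplicit false
set_option linter.unusedSectionVars false
set_option linter.unusedSimpArgs false

/-!
# Representations over power series
-/

open scoped commutatorElement

namespace Pool.Agent.Helper702.Pm

open Multiplicative (ofAdd toAdd)

/-- expansion of powers of a unit -/
lemma zexp {K : Type} [CommRing K] (u : Kˣ) (n : ℤ) :
    ∃ q : K, ((u ^ n : Kˣ) : K) = 1 + n * ((u : K) - 1) + ((u : K) - 1) ^ 2 * q := by
  induction n using Int.induction_on with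
  | zero => exact ⟨0, by simp⟩
  | succ n ih =>
    obtain ⟨q, hq⟩ := ih
    refine ⟨(n : K) + q * u, ?_⟩
    rw [zpow_add_one, Units.val_mul, hq]
    push_cast
    ring
  | pred n ih =>
    obtain ⟨q, hq⟩ := ih
    set v : K := ((u⁻¹ : Kˣ) : K) with hv
    have huv : (u : K) * v = 1 := u.mul_inv
    refine ⟨v + (n : K) * v + q * v, ?_⟩
    rw [zpow_sub_one, Units.val_mul, hq, ← hv]
    push_cast
    linear_combination (2 - (u : K) - (n : K) * ((u : K) - 1)) * huv

section rings

variable (k : Type) [CommRing k]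

/-- coefficient ring -/
abbrev L : Type := PowerSeries k
/-- big ring -/
abbrev K : Type := PowerSeries (PowerSeries k)

/-- constant coefficient -/
noncomputable abbrev cX : K k →+* L k := PowerSeries.constantCoeff

lemma exists_unit (S : Type) [CommRing S] : ∃ u : (PowerSeries S)ˣ, (u : PowerSeries S) = 1 + PowerSeries.X := by
  have : IsUnit (1 + PowerSeries.X : PowerSeries S) := by
    rw [PowerSeries.isUnit_iff_constantCoeff]
    simp
  exact ⟨this.unit, this.unit_spec⟩

/-- the unit `1 + T` -/
noncomputable def yL : (L k)ˣ := (exists_unit k).choose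
lemma yL_val : (yL k : L k) = 1 + PowerSeries.X := (exists_unit k).choose_spec

/-- the unit `1 + X` -/
noncomputable def xK : (K k)ˣ := (exists_unit (L k)).choose
lemma xK_val : (xK k : K k) = 1 + PowerSeries.X := (exists_unit (L k)).choose_spec

/-- the unit `1 + T` in the big ring -/
noncomputable def yK : (K k)ˣ := Units.map ((PowerSeries.C : L k →+* K k) : L k →* K k) (yL k)

lemma yK_zpow (n : ℤ) : ((yK k ^ n : (K k)ˣ) : K k) = PowerSeries.C (((yL k ^ n : (L k)ˣ) : L k)) := by
  unfold yK
  rw [← map_zpow]; rfl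

lemma cX_x (n : ℤ) : cX k ((xK k ^ n : (K k)ˣ) : K k) = 1 := by
  have h1 : Units.map ((cX k : K k →+* L k) : K k →* L k) (xK k) = 1 := by
    apply Units.ext
    change cX k (xK k : K k) = 1
    rw [xK_val]
    simp
  have h2 : Units.map ((cX k : K k →+* L k) : K k →* L k) (xK k ^ n) = 1 := by
    rw [map_zpow, h1, one_zpow]
  exact congrArg Units.val h2

lemma cX_y (n : ℤ) : cX k ((yK k ^ n : (K k)ˣ) : K k) = ((yL k ^ n : (L k)ˣ) : L k) := by
  rw [yK_zpow]
  exact PowerSeries.constantCoeff_C _

/-- `1 + T` has infinite order -/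
lemma yL_pow [IsDomain k] {n : ℤ} (h : ((yL k ^ n : (L k)ˣ) : L k) = 1) : n = 0 := by
  have h1 : yL k ^ n = 1 := Units.ext h
  have h2 : yL k ^ n.natAbs = 1 := by
    rcases Int.natAbs_eq n with h3 | h3
    · rw [h3, zpow_natCast] at h1; exact h1
    · rw [h3, zpow_neg, zpow_natCast, inv_eq_one] at h1; exact h1
  have h3 : (1 + PowerSeries.X : PowerSeries k) ^ n.natAbs = 1 := by
    rw [← yL_val]
    exact congrArg Units.val h2
  have h4 : ((1 + Polynomial.X : Polynomial k) ^ n.natAbs) = 1 := by
    rw [← Polynomial.coe_inj]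
    simpa using h3
  have h5 : (1 + Polynomial.X : Polynomial k) = Polynomial.X + Polynomial.C 1 := by
    rw [add_comm, Polynomial.C_1]
  have h6 := congrArg Polynomial.natDegree h4
  rw [h5, Polynomial.natDegree_pow, Polynomial.natDegree_X_add_C, Polynomial.natDegree_one, mul_one] at h6
  exact Int.natAbs_eq_zero.1 h6

end rings

section rep

variable (k : Type) [CommRing k] {V : Type} [DecidableEq V]

/-- the character -/
noncomputable def ch (b d : V) : Multiplicative (V → ℤ) →* K k :=
  (Units.coeHom (K k)).comp (MonoidHom.mk' (fun α => xK k ^ (toAdd α b) * yK k ^ (toAdd α d)) (by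
    intro α β
    rw [toAdd_mul, Pi.add_apply, Pi.add_apply, zpow_add, zpow_add]
    exact mul_mul_mul_comm _ _ _ _))

lemma ch_apply (b d : V) (α : V → ℤ) : ch k b d (ofAdd α) =
    ((xK k ^ (α b) : (K k)ˣ) : K k) * ((yK k ^ (α d) : (K k)ˣ) : K k) := rfl

variable (Γ : SimpleGraph V)

lemma exists_tau {b d : V} (hbd : b ≠ d) (hn : ¬ Γ.Adj b d) :
    ∃ φ : PCM Γ →* Cr (act (ch k b d)), ∀ i, φ (gen Γ i) = ⟨e i, if i = d then 1 else 0⟩ := by
  apply exists_lift
  · exact Cr.metab _
  · intro i j hij
    rw [Cr.mul_comm_iff]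
    simp only [act_apply, ch_apply]
    by_cases hi : i = d
    · have hj : j ≠ d := by rintro rfl; exact hij.ne hi
      have hjb : j ≠ b := by rintro rfl; rw [hi] at hij; exact hn hij.symm
      rw [if_pos hi, if_neg hj, e, e, Pi.single_eq_of_ne (Ne.symm hj), Pi.single_eq_of_ne (Ne.symm hjb)]
      simp
    · rw [if_neg hi]
      by_cases hj : j = d
      · have hib : i ≠ b := by rintro rfl; rw [hj] at hij; exact hn hij
        rw [if_pos hj, e, e, Pi.single_eq_of_ne (Ne.symm hi), Pi.single_eq_of_ne (Ne.symm hib)]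
        simp
      · rw [if_neg hj]
        simp

end rep

end Pool.Agent.Helper702.Pm
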