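import Mathlib
import Pool.Agent.Helper702.PmF

set_option autoImplicit false
set_option linter.unusedSectionVars false
set_option linter.unusedSimpArgs false

/-!
# Soundness of the encoding
-/

open scoped commutatorElement

namespace Pool.Agent.Helper702.Pm

open Multiplicative (ofAdd toAdd)

section rep

variable {k : Type} [CommRing k] {V : Type} [DecidableEq V] {Γ : SimpleGraph V}

/-- the key cancellation -/
lemma key_cancel [IsDomain k] {n : ℤ} (hn : n ≠ 0) {s g0 : L k} {c : k}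
    (h0 : (1 - ((yL k ^ n : (L k)ˣ) : L k)) * s + PowerSeries.C c * g0 = 0)
    (h1 : PowerSeries.X * g0 = ((yL k ^ n : (L k)ˣ) : L k) - 1) : c = 0 := by
  have h2 : (1 - ((yL k ^ n : (L k)ˣ) : L k)) * (PowerSeries.X * s - PowerSeries.C c) = 0 := by
    linear_combination PowerSeries.X * h0 - PowerSeries.C c * h1
  have h3 : (1 - ((yL k ^ n : (L k)ˣ) : L k)) ≠ 0 := by
    intro h
    exact hn (yL_pow k (sub_eq_zero.1 h).symm)
  have h4 := (mul_eq_zero.1 h2).resolve_left h3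
  have h5 := congrArg PowerSeries.constantCoeff h4
  simpa using h5

/-- degree of an element, at a vertex -/
noncomputable def dv (Γ : SimpleGraph V) (g : PCM Γ) (v : V) : ℤ := toAdd (deg Γ g) v

lemma dv_mul (g h : PCM Γ) (v : V) : dv Γ (g * h) v = dv Γ g v + dv Γ h v := by
  unfold dv; rw [map_mul]; rfl

lemma ch_eq (b d : V) (g : PCM Γ) : ch k b d (deg Γ g) = ((xK k ^ (dv Γ g b) : (K k)ˣ) : K k)
    * ((yK k ^ (dv Γ g d) : (K k)ˣ) : K k) := rfl

/-- the character on the small ring -/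
noncomputable def chL (k : Type) [CommRing k] (d : V) : Multiplicative (V → ℤ) →* L k :=
  (Units.coeHom (L k)).comp (MonoidHom.mk' (fun α => yL k ^ (toAdd α d)) (by
    intro α β
    rw [toAdd_mul, Pi.add_apply, zpow_add]))

lemma chL_apply (d : V) (α : V → ℤ) : chL k d (ofAdd α) = ((yL k ^ (α d) : (L k)ˣ) : L k) := rfl

variable {b d : V} (φ : PCM Γ →* Cr (act (ch k b d)))
    (hφ : ∀ i, φ (gen Γ i) = ⟨e i, if i = d then 1 else 0⟩)

include hφ

lemma phi_a (g : PCM Γ) : (φ g).a = toAdd (deg Γ g) :=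
  deg_of_hom Γ φ (fun i => by rw [hφ]) g

lemma cX_tau (g : PCM Γ) :
    PowerSeries.X * cX k (φ g).t = ((yL k ^ (dv Γ g d) : (L k)ˣ) : L k) - 1 := by
  let α1 : PCM Γ →* Cr (act (chL k d)) := MonoidHom.mk' (fun g => ⟨toAdd (deg Γ g), PowerSeries.X * cX k (φ g).t⟩) (by
    intro g h
    ext1
    · change toAdd (deg Γ (g * h)) = toAdd (deg Γ g) + toAdd (deg Γ h)
      rw [map_mul]; rfl
    · change PowerSeries.X * cX k (φ (g * h)).t = PowerSeries.X * cX k (φ g).t
        + chL k d (ofAdd (toAdd (deg Γ g))) * (PowerSeries.X * cX k (φ h).t)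
      rw [map_mul, Cr.mul_t, act_apply, phi_a φ hφ, ch_apply, chL_apply, map_add, map_mul, map_mul, cX_x,
        cX_y]
      ring)
  let α2 : PCM Γ →* Cr (act (chL k d)) := MonoidHom.mk' (fun g => ⟨toAdd (deg Γ g),
      ((yL k ^ (dv Γ g d) : (L k)ˣ) : L k) - 1⟩) (by
    intro g h
    ext1
    · change toAdd (deg Γ (g * h)) = toAdd (deg Γ g) + toAdd (deg Γ h)
      rw [map_mul]; rfl
    · change ((yL k ^ (dv Γ (g * h) d) : (L k)ˣ) : L k) - 1 = (((yL k ^ (dv Γ g d) : (L k)ˣ) : L k) - 1)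
        + chL k d (ofAdd (toAdd (deg Γ g))) * (((yL k ^ (dv Γ h d) : (L k)ˣ) : L k) - 1)
      have : toAdd (deg Γ g) d = dv Γ g d := rfl
      rw [chL_apply, dv_mul, zpow_add, Units.val_mul, this]
      ring)
  have h12 : α1 = α2 := by
    apply hom_ext_pcm
    intro v
    ext1
    · rfl
    · change PowerSeries.X * cX k (φ (gen Γ v)).t = ((yL k ^ (dv Γ (gen Γ v) d) : (L k)ˣ) : L k) - 1
      have hd : dv Γ (gen Γ v) d = e v d := by unfold dv; rw [deg_gen]; rfl
      rw [hφ, hd]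
      by_cases hv : v = d
      · subst hv
        simp [e, yL_val]
      · have hv' : d ≠ v := fun h => hv h.symm
        simp [e, hv, hv']
  have := congrArg Cr.t (DFunLike.congr_fun h12 g)
  exact this

variable [IsDomain k]

lemma X_dvd_tau {g : PCM Γ} (hg : dv Γ g d = 0) : ∃ t, (φ g).t = PowerSeries.X * t := by
  have h := cX_tau φ hφ g
  rw [hg, zpow_zero, Units.val_one, sub_self, mul_eq_zero] at h
  have h2 := h.resolve_left PowerSeries.X_ne_zero
  exact PowerSeries.X_dvd_iff.2 h2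

lemma tau_comm (g h : PCM Γ) : (φ ⁅g, h⁆).t =
    (1 - ch k b d (deg Γ h)) * (φ g).t - (1 - ch k b d (deg Γ g)) * (φ h).t := by
  have h1 : ofAdd (toAdd (deg Γ g)) = deg Γ g := rfl
  have h2 : ofAdd (toAdd (deg Γ h)) = deg Γ h := rfl
  rw [map_commutatorElement, Cr.comm_t, act_apply, act_apply, phi_a φ hφ, phi_a φ hφ, h1, h2]
  ring

lemma tau_comm_zero (g h : PCM Γ) (hh : deg Γ h = 1) : (φ ⁅g, h⁆).t =
    (ch k b d (deg Γ g) - 1) * (φ h).t := by
  rw [tau_comm φ hφ, hh, map_one]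
  ring

end rep

lemma xexp (k : Type) [CommRing k] (n : ℤ) : ∃ q : K k, ((xK k ^ n : (K k)ˣ) : K k)
    = 1 + (n : K k) * PowerSeries.X + PowerSeries.X ^ 2 * q := by
  obtain ⟨q, hq⟩ := zexp (xK k) n
  refine ⟨q, ?_⟩
  rw [hq, xK_val]
  ring

section char0

variable {V : Type} [DecidableEq V] {Γ : SimpleGraph V} {b d : V}
    (φ : PCM Γ →* Cr (act (ch ℤ b d)))
    (hφ : ∀ i, φ (gen Γ i) = ⟨e i, if i = d then 1 else 0⟩)

include hφ

/-- elements commuting with `y` have degree zero at `d` -/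
theorem S1 {y z : PCM Γ} (hb : dv Γ y b ≠ 0) (hd : dv Γ y d = 0) (hc : ⁅z, y⁆ = 1) :
    dv Γ z d = 0 := by
  by_contra hj
  obtain ⟨t, ht⟩ := X_dvd_tau φ hφ hd
  obtain ⟨q, hq⟩ := xexp ℤ (dv Γ y b)
  have h1 := tau_comm φ hφ z y
  rw [hc, map_one, Cr.one_t, ch_eq, ch_eq, hd, zpow_zero, Units.val_one, mul_one, hq, ht] at h1
  have h2 : PowerSeries.X * ((1 - ((xK ℤ ^ (dv Γ z b) : (K ℤ)ˣ) : K ℤ)
    * ((yK ℤ ^ (dv Γ z d) : (K ℤ)ˣ) : K ℤ)) * t + (((dv Γ y b : ℤ) : K ℤ) + PowerSeries.X * q) * (φ z).t) = 0 := by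
    linear_combination h1
  have h3 := (mul_eq_zero.1 h2).resolve_left PowerSeries.X_ne_zero
  have h4 := congrArg (cX ℤ) h3
  rw [map_add, map_mul, map_mul, map_sub, map_mul, map_add, map_one, cX_x, cX_y, map_mul, map_intCast,
    map_zero, PowerSeries.constantCoeff_X, zero_mul, add_zero, one_mul] at h4
  have h5 : ((dv Γ y b : ℤ) : L ℤ) = PowerSeries.C (dv Γ y b) := by simp
  rw [h5] at h4
  exact hb (key_cancel hj h4 (cX_tau φ hφ z))

end char0

end Pool.Agent.Helper702.Pm
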