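import Mathlib
import Pool.Agent.Helper702.PmG

set_option autoImplicit false
set_option linter.unusedSectionVars false
set_option linter.unusedSimpArgs false

/-!
# Soundness of the encoding: multiplication and integrality
-/

open scoped commutatorElement

namespace Pool.Agent.Helper702.Pm

open Multiplicative (ofAdd toAdd)

section gen

variable {k : Type} [CommRing k] {V : Type} [DecidableEq V] {Γ : SimpleGraph V}
variable {b d : V} (φ : PCM Γ →* Cr (act (ch k b d)))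
    (hφ : ∀ i, φ (gen Γ i) = ⟨e i, if i = d then 1 else 0⟩)

include hφ

variable [IsDomain k]

/-- the value of the basic commutator -/
noncomputable def mu (φ : PCM Γ →* Cr (act (ch k b d))) (y y' : PCM Γ) : K k :=
  (1 - ch k b d (deg Γ y')) * (φ y).t - (1 - ch k b d (deg Γ y)) * (φ y').t

lemma rel_U {y y' z : PCM Γ} (hc : ⁅z, y⁆ = 1) :
    (1 - ch k b d (deg Γ y)) * (φ ⁅z, y'⁆).t = (1 - ch k b d (deg Γ z)) * mu φ y y' := by
  have h1 := tau_comm φ hφ z y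
  rw [hc, map_one, Cr.one_t] at h1
  rw [tau_comm φ hφ z y', mu]
  linear_combination -(1 - ch k b d (deg Γ y')) * h1

lemma rel_w {y y' z z' w : PCM Γ} (hc : ⁅z, y⁆ = 1) (hw : deg Γ w = 1)
    (h : ⁅y, w⁆ = ⁅z', ⁅z, y'⁆⁆) :
    (1 - ch k b d (deg Γ y)) ^ 2 * (φ w).t
      = (1 - ch k b d (deg Γ z')) * (1 - ch k b d (deg Γ z)) * mu φ y y' := by
  have h0 : deg Γ ⁅z, y'⁆ = 1 := by
    rw [map_commutatorElement, commutatorElement_eq_one_iff_mul_comm]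
    exact mul_comm _ _
  have h1 := congrArg (fun g => (φ g).t) h
  rw [tau_comm_zero φ hφ _ _ hw, tau_comm_zero φ hφ _ _ h0] at h1
  have h2 := rel_U φ hφ (y' := y') hc
  linear_combination (-(1 - ch k b d (deg Γ y))) * h1 + (1 - ch k b d (deg Γ z')) * h2

end gen

section char0

variable {V : Type} [DecidableEq V] {Γ : SimpleGraph V} {b d : V}
    (φ : PCM Γ →* Cr (act (ch ℤ b d)))
    (hφ : ∀ i, φ (gen Γ i) = ⟨e i, if i = d then 1 else 0⟩)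

include hφ

/-- multiplication -/
theorem S2 {y y' z1 z2 z3 w v : PCM Γ} (hb : dv Γ y b ≠ 0) (hd : dv Γ y d = 0)
    (hb' : dv Γ y' b = 0) (hd' : dv Γ y' d ≠ 0)
    (hc1 : ⁅z1, y⁆ = 1) (hc2 : ⁅z2, y⁆ = 1) (hc3 : ⁅z3, y⁆ = 1)
    (hw : deg Γ w = 1) (hv : deg Γ v = 1)
    (h : ⁅y, w⁆ = ⁅z2, ⁅z1, y'⁆⁆) (h' : w = ⁅y, v⁆ * ⁅z3, y'⁆) :
    dv Γ z1 b * dv Γ z2 b = dv Γ y b * dv Γ z3 b := by
  have hd1 := S1 φ hφ hb hd hc1
  have hd2 := S1 φ hφ hb hd hc2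
  have hd3 := S1 φ hφ hb hd hc3
  have hvd : dv Γ v d = 0 := by unfold dv; rw [hv]; rfl
  obtain ⟨t, ht⟩ := X_dvd_tau φ hφ hd
  obtain ⟨s, hs⟩ := X_dvd_tau φ hφ hvd
  obtain ⟨q, hq⟩ := xexp ℤ (dv Γ y b)
  obtain ⟨q1, hq1⟩ := xexp ℤ (dv Γ z1 b)
  obtain ⟨q2, hq2⟩ := xexp ℤ (dv Γ z2 b)
  obtain ⟨q3, hq3⟩ := xexp ℤ (dv Γ z3 b)
  have r1 := rel_w φ hφ hc1 hw h
  have r3 := rel_U φ hφ (y' := y') hc3
  have h0 : deg Γ ⁅y, v⁆ = 1 := by
    rw [map_commutatorElement, commutatorElement_eq_one_iff_mul_comm]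
    exact mul_comm _ _
  have r2 : (φ w).t = (ch ℤ b d (deg Γ y) - 1) * (φ v).t + (φ ⁅z3, y'⁆).t := by
    have e1 : ofAdd (φ ⁅y, v⁆).a = 1 := by
      rw [phi_a φ hφ, h0]; rfl
    conv_lhs => rw [h']
    rw [map_mul, Cr.mul_t, act_apply, e1, map_one, one_mul, tau_comm_zero φ hφ _ _ hv]
  have ea : ch ℤ b d (deg Γ y) = 1 + ((dv Γ y b : ℤ) : K ℤ) * PowerSeries.X + PowerSeries.X ^ 2 * q := by
    rw [ch_eq, hd, zpow_zero, Units.val_one, mul_one, hq]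
  have e1 : ch ℤ b d (deg Γ z1) = 1 + ((dv Γ z1 b : ℤ) : K ℤ) * PowerSeries.X + PowerSeries.X ^ 2 * q1 := by
    rw [ch_eq, hd1, zpow_zero, Units.val_one, mul_one, hq1]
  have e2 : ch ℤ b d (deg Γ z2) = 1 + ((dv Γ z2 b : ℤ) : K ℤ) * PowerSeries.X + PowerSeries.X ^ 2 * q2 := by
    rw [ch_eq, hd2, zpow_zero, Units.val_one, mul_one, hq2]
  have e3 : ch ℤ b d (deg Γ z3) = 1 + ((dv Γ z3 b : ℤ) : K ℤ) * PowerSeries.X + PowerSeries.X ^ 2 * q3 := by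
    rw [ch_eq, hd3, zpow_zero, Units.val_one, mul_one, hq3]
  have eb : ch ℤ b d (deg Γ y') = ((yK ℤ ^ (dv Γ y' d) : (K ℤ)ˣ) : K ℤ) := by
    rw [ch_eq, hb', zpow_zero, Units.val_one, one_mul]
  set μ' : K ℤ := (1 - ((yK ℤ ^ (dv Γ y' d) : (K ℤ)ˣ) : K ℤ)) * t
    + (((dv Γ y b : ℤ) : K ℤ) + PowerSeries.X * q) * (φ y').t with hμ'
  have hμ : mu φ y y' = PowerSeries.X * μ' := by
    rw [mu, ea, eb, ht, hμ']
    ring
  rw [hμ, e1, e2, ea] at r1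
  rw [hμ, e3, ea] at r3
  rw [ea, hs] at r2
  rw [r2] at r1
  set N : K ℤ := ((dv Γ y b : ℤ) : K ℤ)
  set i1 : K ℤ := ((dv Γ z1 b : ℤ) : K ℤ)
  set i2 : K ℤ := ((dv Γ z2 b : ℤ) : K ℤ)
  set i3 : K ℤ := ((dv Γ z3 b : ℤ) : K ℤ)
  set Xs : K ℤ := PowerSeries.X
  have r4 : Xs ^ 3 * (((i2 + Xs * q2) * (i1 + Xs * q1) - (N + Xs * q) * (i3 + Xs * q3)) * μ'
      - Xs * (N + Xs * q) ^ 3 * s) = 0 := by
    linear_combination (-1 : K ℤ) * r1 - (N * Xs + Xs ^ 2 * q) * r3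
  have hX3 : Xs ^ 3 ≠ 0 := pow_ne_zero _ PowerSeries.X_ne_zero
  have r5 := (mul_eq_zero.1 r4).resolve_left hX3
  have r6 := congrArg (cX ℤ) r5
  have hcX : cX ℤ Xs = 0 := PowerSeries.constantCoeff_X ..
  simp only [map_sub, map_add, map_mul, map_pow, hcX, zero_mul, mul_zero, add_zero, sub_zero, map_zero] at r6
  have hμ'0 : cX ℤ μ' ≠ 0 := by
    intro h0
    rw [hμ'] at h0
    simp only [map_sub, map_add, map_mul, map_one, hcX, zero_mul, add_zero, cX_y] at h0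
    have hNc : cX ℤ N = PowerSeries.C (dv Γ y b) := by simp [N]
    rw [hNc] at h0
    exact hb (key_cancel hd' h0 (cX_tau φ hφ y'))
  have r7 := (mul_eq_zero.1 r6).resolve_right hμ'0
  have r8 := congrArg PowerSeries.constantCoeff r7
  simp [N, i1, i2, i3] at r8
  linarith

end char0

section charp

variable {p : ℕ} [hp : Fact p.Prime] {V : Type} [DecidableEq V] {Γ : SimpleGraph V} {b d : V}
    (φ : PCM Γ →* Cr (act (ch (ZMod p) b d)))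
    (hφ : ∀ i, φ (gen Γ i) = ⟨e i, if i = d then 1 else 0⟩)

lemma xexp_p (a : ℕ) (n : ℤ) : ∃ q : K (ZMod p), ((xK (ZMod p) ^ ((p : ℤ) ^ a * n) : (K (ZMod p))ˣ) : K (ZMod p))
    = 1 + (n : K (ZMod p)) * PowerSeries.X ^ (p ^ a) + (PowerSeries.X ^ (p ^ a)) ^ 2 * q := by
  haveI : CharP (K (ZMod p)) p :=
    charP_of_injective_ringHom (f := (PowerSeries.C : L (ZMod p) →+* K (ZMod p)).comp (PowerSeries.C : ZMod p →+* L (ZMod p)))
      (by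
        rw [RingHom.coe_comp]
        exact PowerSeries.C_injective.comp PowerSeries.C_injective) p
  obtain ⟨q, hq⟩ := zexp (xK (ZMod p) ^ (p ^ a)) n
  have h1 : ((xK (ZMod p) ^ (p ^ a) : (K (ZMod p))ˣ) : K (ZMod p)) = 1 + PowerSeries.X ^ (p ^ a) := by
    rw [Units.val_pow_eq_pow_val, xK_val, add_pow_char_pow, one_pow]
  refine ⟨q, ?_⟩
  have h2 : (xK (ZMod p) ^ ((p : ℤ) ^ a * n)) = (xK (ZMod p) ^ (p ^ a)) ^ n := by
    rw [zpow_mul]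
    norm_cast
  rw [h2, hq, h1]
  ring

include hφ

/-- integrality, locally -/
theorem S3p {y y' z w : PCM Γ} (hd : dv Γ y d = 0)
    (hb' : dv Γ y' b = 0) (hd' : dv Γ y' d ≠ 0) (hdz : dv Γ z d = 0)
    (hc : ⁅z, y⁆ = 1) (hw : deg Γ w = 1) (h : ⁅y, w⁆ = ⁅z, ⁅z, y'⁆⁆)
    {a c : ℕ} {N i : ℤ} (hN : dv Γ y b = (p : ℤ) ^ a * N) (hi : dv Γ z b = (p : ℤ) ^ c * i)
    (hpN : ¬ (p : ℤ) ∣ N) (hpi : ¬ (p : ℤ) ∣ i) (hca : c < a) : False := by
  have hwd : dv Γ w d = 0 := by unfold dv; rw [hw]; rfl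
  obtain ⟨s, hs⟩ := X_dvd_tau φ hφ hwd
  obtain ⟨q, hq⟩ := xexp_p (p := p) a N
  obtain ⟨q1, hq1⟩ := xexp_p (p := p) c i
  have r1 := rel_w φ hφ hc hw h
  have ea : ch (ZMod p) b d (deg Γ y) = 1 + (N : K (ZMod p)) * PowerSeries.X ^ (p ^ a)
      + (PowerSeries.X ^ (p ^ a)) ^ 2 * q := by
    rw [ch_eq, hd, zpow_zero, Units.val_one, mul_one, hN, hq]
  have ez : ch (ZMod p) b d (deg Γ z) = 1 + (i : K (ZMod p)) * PowerSeries.X ^ (p ^ c)
      + (PowerSeries.X ^ (p ^ c)) ^ 2 * q1 := by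
    rw [ch_eq, hdz, zpow_zero, Units.val_one, mul_one, hi, hq1]
  have eb : ch (ZMod p) b d (deg Γ y') = ((yK (ZMod p) ^ (dv Γ y' d) : (K (ZMod p))ˣ) : K (ZMod p)) := by
    rw [ch_eq, hb', zpow_zero, Units.val_one, one_mul]
  set Xs : K (ZMod p) := PowerSeries.X with hXs
  have hcX : cX (ZMod p) Xs = 0 := PowerSeries.constantCoeff_X ..
  have hX0 : Xs ≠ 0 := PowerSeries.X_ne_zero
  have hQ : 2 * p ^ c ≤ p ^ a := by
    calc 2 * p ^ c ≤ p * p ^ c := Nat.mul_le_mul_right _ hp.out.two_le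
      _ = p ^ (c + 1) := by rw [pow_succ]; ring
      _ ≤ p ^ a := Nat.pow_le_pow_right hp.out.pos hca
  set P := p ^ a with hP
  set Q := p ^ c with hQd
  have hPpos : 0 < P := pow_pos hp.out.pos _
  have hQpos : 0 < Q := pow_pos hp.out.pos _
  set μ := mu φ y y' with hμ
  set v : K (ZMod p) := (i : K (ZMod p)) + Xs ^ Q * q1 with hv
  set u : K (ZMod p) := (N : K (ZMod p)) + Xs ^ P * q with hu
  have hvu : IsUnit v := by
    rw [PowerSeries.isUnit_iff_constantCoeff]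
    have e1 : PowerSeries.constantCoeff v = PowerSeries.C ((i : ℤ) : ZMod p) := by
      have : cX (ZMod p) (Xs ^ Q) = 0 := by rw [map_pow, hcX, zero_pow hQpos.ne']
      change cX (ZMod p) v = _
      rw [hv, map_add, map_mul, this, zero_mul, add_zero, map_intCast, map_intCast]
    rw [e1]
    apply IsUnit.map
    rw [isUnit_iff_ne_zero]
    intro h0
    exact hpi ((ZMod.intCast_zmod_eq_zero_iff_dvd i p).1 h0)
  -- divisibility of `μ`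
  have r2 : Xs ^ (2 * Q) * (v ^ 2 * μ - Xs ^ (2 * P - 2 * Q + 1) * (u ^ 2 * s)) = 0 := by
    have e1 : Xs ^ (2 * Q) * Xs ^ (2 * P - 2 * Q + 1) = Xs ^ P * Xs ^ P * Xs := by
      rw [← pow_add, ← pow_add, ← pow_succ]
      congr 1
      omega
    have e2 : Xs ^ (2 * Q) = Xs ^ Q * Xs ^ Q := by rw [← pow_add]; congr 1; omega
    rw [ea, ez, hs] at r1
    have r1' : (Xs ^ P * Xs ^ P * Xs) * (u ^ 2 * s) = Xs ^ (2 * Q) * (v ^ 2 * μ) := by
      rw [e2]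
      linear_combination r1
    rw [mul_sub, ← mul_assoc (Xs ^ (2 * Q)) (Xs ^ (2 * P - 2 * Q + 1)), e1, r1', sub_self]
  have r3 := (mul_eq_zero.1 r2).resolve_left (pow_ne_zero _ hX0)
  have r4 : Xs ^ (P + 1) ∣ μ := by
    have h1 : Xs ^ (P + 1) ∣ v ^ 2 * μ := by
      rw [sub_eq_zero.1 r3]
      exact (pow_dvd_pow _ (by omega)).mul_right _
    exact ((hvu.pow 2).dvd_mul_left).1 h1
  -- the structure of `μ`
  have hμe : μ = (1 - ((yK (ZMod p) ^ (dv Γ y' d) : (K (ZMod p))ˣ) : K (ZMod p))) * (φ y).t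
      + Xs ^ P * u * (φ y').t := by
    rw [hμ, mu, ea, eb]
    ring
  have hyne : (1 - ((yL (ZMod p) ^ (dv Γ y' d) : (L (ZMod p))ˣ) : L (ZMod p))) ≠ 0 := by
    intro h0
    exact hd' (yL_pow _ (sub_eq_zero.1 h0).symm)
  have r5 : Xs ^ P ∣ (φ y).t := by
    have h1 : Xs ^ P ∣ (1 - ((yK (ZMod p) ^ (dv Γ y' d) : (K (ZMod p))ˣ) : K (ZMod p))) * (φ y).t := by
      have h2 : (1 - ((yK (ZMod p) ^ (dv Γ y' d) : (K (ZMod p))ˣ) : K (ZMod p))) * (φ y).t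
          = μ - Xs ^ P * (u * (φ y').t) := by rw [hμe]; ring
      rw [h2]
      exact dvd_sub ((pow_dvd_pow _ (by omega)).trans r4) (dvd_mul_right _ _)
    have h3 : (1 - ((yK (ZMod p) ^ (dv Γ y' d) : (K (ZMod p))ˣ) : K (ZMod p)))
        = PowerSeries.C (1 - ((yL (ZMod p) ^ (dv Γ y' d) : (L (ZMod p))ˣ) : L (ZMod p))) := by
      rw [map_sub, map_one, yK_zpow]
    rw [h3, hXs, PowerSeries.X_pow_dvd_iff] at h1
    rw [hXs, PowerSeries.X_pow_dvd_iff]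
    intro m hm
    have h4 := h1 m hm
    rw [PowerSeries.coeff_C_mul, mul_eq_zero] at h4
    exact h4.resolve_left hyne
  obtain ⟨t, ht⟩ := r5
  obtain ⟨m, hm⟩ := r4
  have r6 : Xs ^ P * ((1 - ((yK (ZMod p) ^ (dv Γ y' d) : (K (ZMod p))ˣ) : K (ZMod p))) * t
      + u * (φ y').t - Xs * m) = 0 := by
    rw [hm, ht] at hμe
    rw [pow_succ] at hμe
    linear_combination -hμe
  have r7 := (mul_eq_zero.1 r6).resolve_left (pow_ne_zero _ hX0)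
  have r8 := congrArg (cX (ZMod p)) r7
  have hcu : cX (ZMod p) u = PowerSeries.C ((N : ℤ) : ZMod p) := by
    have : cX (ZMod p) (Xs ^ P) = 0 := by rw [map_pow, hcX, zero_pow hPpos.ne']
    rw [hu, map_add, map_mul, this, zero_mul, add_zero, map_intCast, map_intCast]
  rw [map_sub, map_add, map_mul, map_mul, map_mul, map_sub, map_one, hcX, zero_mul, sub_zero, cX_y, hcu, map_zero] at r8
  have := key_cancel hd' r8 (cX_tau φ hφ y')
  exact hpN ((ZMod.intCast_zmod_eq_zero_iff_dvd N p).1 this)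

end charp

/-- integrality -/
theorem S3 {V : Type} [DecidableEq V] {Γ : SimpleGraph V} {b d : V} (hbd : b ≠ d) (hn : ¬ Γ.Adj b d)
    {y y' z w : PCM Γ} (hb : dv Γ y b ≠ 0) (hd : dv Γ y d = 0)
    (hb' : dv Γ y' b = 0) (hd' : dv Γ y' d ≠ 0)
    (hc : ⁅z, y⁆ = 1) (hw : deg Γ w = 1) (h : ⁅y, w⁆ = ⁅z, ⁅z, y'⁆⁆) :
    dv Γ y b ∣ dv Γ z b := by
  obtain ⟨φ0, hφ0⟩ := exists_tau ℤ Γ hbd hn
  have hdz := S1 φ0 hφ0 hb hd hc
  by_contra hnd
  have hi0 : dv Γ z b ≠ 0 := by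
    intro h0
    exact hnd (h0 ▸ dvd_zero _)
  have h1 : ¬ (dv Γ y b).natAbs ∣ (dv Γ z b).natAbs := fun h => hnd (Int.natAbs_dvd_natAbs.1 h)
  have h2 := (Nat.factorization_prime_le_iff_dvd (Int.natAbs_ne_zero.2 hb) (Int.natAbs_ne_zero.2 hi0)).not.2 h1
  push Not at h2
  obtain ⟨p, hp, hlt⟩ := h2
  haveI : Fact p.Prime := ⟨hp⟩
  have hdec : ∀ n : ℤ, n ≠ 0 → ∃ m : ℤ, n = (p : ℤ) ^ (n.natAbs.factorization p) * m ∧ ¬ (p : ℤ) ∣ m := by
    intro n hn0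
    have h3 := Nat.ordProj_mul_ordCompl_eq_self n.natAbs p
    have h4 := Nat.not_dvd_ordCompl hp (Int.natAbs_ne_zero.2 hn0)
    obtain ⟨m, hm⟩ : (p : ℤ) ^ (n.natAbs.factorization p) ∣ n := by
      rw [← Int.dvd_natAbs]
      exact_mod_cast Nat.ordProj_dvd n.natAbs p
    refine ⟨m, hm, fun hpm => ?_⟩
    apply h4
    have h5 : (n.natAbs : ℕ) = p ^ (n.natAbs.factorization p) * m.natAbs := by
      conv_lhs => rw [hm, Int.natAbs_mul, Int.natAbs_pow, Int.natAbs_natCast]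
    have h6 : n.natAbs / p ^ (n.natAbs.factorization p) = m.natAbs := by
      apply Nat.div_eq_of_eq_mul_right (pow_pos hp.pos _) h5
    rw [h6]
    exact Int.natCast_dvd.1 hpm
  obtain ⟨N, hN, hpN⟩ := hdec _ hb
  obtain ⟨i, hi, hpi⟩ := hdec _ hi0
  obtain ⟨φ, hφ⟩ := exists_tau (ZMod p) Γ hbd hn
  exact S3p φ hφ hd hb' hd' hdz hc hw h hN hi hpN hpi hlt

end Pool.Agent.Helper702.Pm
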