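import Mathlib
import Pool.Agent.Helper702.PmF

set_option autoImplicit false
set_option linter.unusedSectionVars false
set_option linter.unusedSimpArgs false

/-!
# Completeness of the encoding
-/

open scoped commutatorElement

namespace Pool.Agent.Helper702.Pm

open Multiplicative (ofAdd toAdd)

/-- Laurent polynomials in one variable -/
abbrev CC : Type := AddMonoidAlgebra ℤ ℤ

/-- the variable as a unit -/
noncomputable def tu : CCˣ where
  val := AddMonoidAlgebra.single 1 1
  inv := AddMonoidAlgebra.single (-1) 1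
  val_inv := by rw [AddMonoidAlgebra.single_mul_single]; rfl
  inv_val := by rw [AddMonoidAlgebra.single_mul_single]; rfl

lemma tu_zpow (n : ℤ) : ((tu ^ n : CCˣ) : CC) = AddMonoidAlgebra.single n 1 := by
  induction n using Int.induction_on with
  | zero => rfl
  | succ n ih =>
    rw [zpow_add_one, Units.val_mul, ih]
    change AddMonoidAlgebra.single _ _ * AddMonoidAlgebra.single _ _ = _
    rw [AddMonoidAlgebra.single_mul_single]; rfl
  | pred n ih =>
    rw [zpow_sub_one, Units.val_mul, ih]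
    change AddMonoidAlgebra.single _ _ * AddMonoidAlgebra.single _ _ = _
    rw [AddMonoidAlgebra.single_mul_single]; rfl

/-- remainder in the expansion of a power -/
noncomputable def qq (n : ℤ) : CC := (zexp tu n).choose

/-- the quotient `(T^n - 1)/(T - 1)` -/
noncomputable def br (n : ℤ) : CC := (n : CC) + ((tu : CC) - 1) * qq n

lemma br_mul (n : ℤ) : ((tu : CC) - 1) * br n = ((tu ^ n : CCˣ) : CC) - 1 := by
  have h := (zexp tu n).choose_spec
  rw [h, br, qq]
  ring

lemma tu_ne : ((tu : CC) - 1) ≠ 0 := by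
  intro h
  have h1 : (AddMonoidAlgebra.of ℤ ℤ) (ofAdd 1) = (AddMonoidAlgebra.of ℤ ℤ) (ofAdd 0) := sub_eq_zero.1 h
  have h2 := AddMonoidAlgebra.of_injective (R := ℤ) h1
  exact one_ne_zero (Multiplicative.ofAdd.injective h2)

lemma br_zero : br 0 = 0 := by
  have h := br_mul 0
  rw [zpow_zero, Units.val_one, sub_self, mul_eq_zero] at h
  exact h.resolve_left tu_ne

lemma br_succ (n : ℤ) : br (n + 1) = ((tu ^ n : CCˣ) : CC) + br n := by
  have h : ((tu : CC) - 1) * (br (n + 1) - (((tu ^ n : CCˣ) : CC) + br n)) = 0 := by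
    rw [mul_sub, mul_add, br_mul, br_mul, zpow_add_one, Units.val_mul]
    ring
  exact sub_eq_zero.1 ((mul_eq_zero.1 h).resolve_left tu_ne)

lemma br_prod (m n : ℤ) : ∃ Q : CC, ((tu : CC) - 1) * Q = br m * br n - br (m * n) := by
  refine ⟨(m : CC) * qq n + (n : CC) * qq m + ((tu : CC) - 1) * qq m * qq n - qq (m * n), ?_⟩
  unfold br
  push_cast
  ring

/-- completeness of the encoding of the multiplication -/
theorem compl {S M : Type} [Group S] [CommGroup M] (ι : M →* S) (hι : Function.Injective ι)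
    (hnorm : ∀ (g : S) (m : M), ∃ m', ι m' = g * ι m * g⁻¹) (hcomm : ∀ g h : S, ∃ m, ι m = ⁅g, h⁆)
    (x d : S) (m n : ℤ) :
    ∃ w v : M, ⁅x, ι w⁆ = ⁅x ^ m, ⁅x ^ n, d⁆⁆ ∧ ι w = ⁅x, ι v⁆ * ⁅x ^ (m * n), d⁆ := by
  choose c hc using hnorm
  have c_one : ∀ m, c 1 m = m := fun m => hι (by rw [hc]; simp)
  have c_mul : ∀ g h m, c (g * h) m = c g (c h m) := fun g h m => hι (by
    rw [hc, hc, hc, mul_inv_rev]; group)
  have c_map : ∀ g m m', c g (m * m') = c g m * c g m' := fun g m m' => hι (by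
    rw [hc, map_mul, map_mul, hc, hc]; group)
  let ρ : Multiplicative ℤ →* AddMonoid.End (Additive M) :=
    { toFun := fun n => AddMonoidHom.mk' (fun s => Additive.ofMul (c (x ^ (toAdd n)) s.toMul))
        (fun s t => by
          change Additive.ofMul (c (x ^ (toAdd n)) (s.toMul * t.toMul)) = _
          rw [c_map]; rfl)
      map_one' := by
        apply AddMonoidHom.ext
        intro s
        change Additive.ofMul (c (x ^ (0 : ℤ)) s.toMul) = s
        rw [zpow_zero, c_one]; rfl
      map_mul' := by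
        intro n n'
        apply AddMonoidHom.ext
        intro s
        change Additive.ofMul (c (x ^ (toAdd n + toAdd n')) s.toMul) =
          Additive.ofMul (c (x ^ (toAdd n)) (c (x ^ (toAdd n')) s.toMul))
        rw [zpow_add, c_mul] }
  let Λ : CC →+* AddMonoid.End (Additive M) :=
    (AddMonoidAlgebra.lift ℤ (AddMonoid.End (Additive M)) ℤ ρ : CC →ₐ[ℤ] AddMonoid.End (Additive M))
  have Λt : ∀ (n : ℤ) (s : Additive M), Λ ((tu ^ n : CCˣ) : CC) s = Additive.ofMul (c (x ^ n) s.toMul) := by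
    intro n s
    rw [tu_zpow]
    change (AddMonoidAlgebra.lift ℤ (AddMonoid.End (Additive M)) ℤ ρ) (AddMonoidAlgebra.single n 1) s = _
    rw [AddMonoidAlgebra.lift_single, one_smul]; rfl
  have Λm : ∀ (P Q : CC) (s : Additive M), Λ (P * Q) s = Λ P (Λ Q s) := fun P Q s => by
    rw [map_mul]; rfl
  have Λa : ∀ (P Q : CC) (s : Additive M), Λ (P + Q) s = Λ P s + Λ Q s := fun P Q s => by
    rw [map_add]; rfl
  have Λs : ∀ (P Q : CC) (s : Additive M), Λ (P - Q) s = Λ P s - Λ Q s := fun P Q s => by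
    rw [map_sub]; rfl
  have Λ1 : ∀ (s : Additive M), Λ 1 s = s := fun s => by
    rw [map_one]; rfl
  have Λ0 : ∀ (s : Additive M), Λ 0 s = 0 := fun s => by
    rw [map_zero]; rfl
  have hcm : ∀ (n : ℤ) (s : Additive M), ⁅x ^ n, ι s.toMul⁆ =
      ι (Λ (((tu ^ n : CCˣ) : CC) - 1) s).toMul := by
    intro n s
    rw [Λs, Λ1, Λt, toMul_sub, toMul_ofMul, map_div, hc, commutatorElement_def, div_eq_mul_inv]
  choose f hf using hcomm
  -- the basic element
  let e0 : Additive M := Additive.ofMul (f x d)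
  have hE : ∀ n : ℤ, ι (Λ (br n) e0).toMul = ⁅x ^ n, d⁆ := by
    have step : ∀ n : ℤ, (⁅x ^ (n + 1), d⁆ : S) = (x ^ n * ⁅x, d⁆ * (x ^ n)⁻¹) * ⁅x ^ n, d⁆ := by
      intro n
      rw [zpow_add_one, commutatorElement_def, commutatorElement_def, commutatorElement_def]
      group
    have step2 : ∀ n : ℤ, ι (Λ (br (n + 1)) e0).toMul = (x ^ n * ⁅x, d⁆ * (x ^ n)⁻¹) * ι (Λ (br n) e0).toMul := by
      intro n
      rw [br_succ, Λa, toMul_add, map_mul, Λt, toMul_ofMul, hc]
      congr 3
      exact hf x d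
    intro n
    induction n using Int.induction_on with
    | zero => rw [br_zero, Λ0, toMul_zero, map_one, zpow_zero, commutatorElement_one_left]
    | succ n ih => rw [step2, ih, step]
    | pred n ih =>
      have h1 := step2 (-(n : ℤ) - 1)
      have h2 := step (-(n : ℤ) - 1)
      rw [sub_add_cancel] at h1 h2
      rw [h1, h2] at ih
      exact mul_left_cancel ih
  obtain ⟨Q, hQ⟩ := br_prod m n
  refine ⟨(Λ (br m * br n) e0).toMul, (Λ Q e0).toMul, ?_, ?_⟩
  · have h1 := hcm 1 (Λ (br m * br n) e0)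
    rw [zpow_one, zpow_one] at h1
    rw [h1, ← Λm, ← mul_assoc, br_mul, Λm, ← hcm m, hE]
  · have h1 := hcm 1 (Λ Q e0)
    rw [zpow_one, zpow_one] at h1
    rw [h1, ← hE (m * n), ← Λm, hQ, ← map_mul, ← toMul_add, ← Λa, sub_add_cancel]

end Pool.Agent.Helper702.Pm
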