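import Mathlib
import Pool.Agent.Helper702.PmE
import Pool.Agent.Helper702.PmH
import Pool.Agent.Helper702.PmI
import Pool.Agent.Helper702.TwCirc

set_option autoImplicit false
set_option linter.unusedSectionVars false
set_option linter.unusedSimpArgs false

/-!
# The equivalence with Diophantine systems
-/

open scoped commutatorElement

namespace Pool.Agent.Helper702.Pm

open Multiplicative (ofAdd toAdd)
open Pool.Agent.Helper702.Tw

/-- the basic configuration -/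
structure Base (y : Fin 5 → PCM P5) : Prop where
  c1 : ⁅y 1, ⁅y 0, y 2⁆⁆ = 1
  c2 : ⁅y 2, ⁅y 1, y 3⁆⁆ = 1
  c3 : ⁅y 3, ⁅y 2, y 4⁆⁆ = 1
  c12 : ⁅y 1, y 2⁆ = 1
  c23 : ⁅y 2, y 3⁆ = 1
  n21 : ⁅y 2, ⁅y 0, y 2⁆⁆ ≠ 1
  n31 : ⁅y 3, ⁅y 0, y 2⁆⁆ ≠ 1
  n32 : ⁅y 3, ⁅y 1, y 3⁆⁆ ≠ 1
  n12 : ⁅y 1, ⁅y 1, y 3⁆⁆ ≠ 1
  n13 : ⁅y 1, ⁅y 2, y 4⁆⁆ ≠ 1

/-- the element is forced to have degree zero -/
def InK (y : Fin 5 → PCM P5) (g : PCM P5) : Prop := ⁅g, ⁅y 0, y 2⁆⁆ = 1 ∧ ⁅g, ⁅y 1, y 3⁆⁆ = 1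

/-- `z` with witness `s` is an integer -/
def Inte (y : Fin 5 → PCM P5) (z s : PCM P5) : Prop :=
  ⁅z, y 1⁆ = 1 ∧ InK y s ∧ ⁅y 1, s⁆ = ⁅z, ⁅z, y 3⁆⁆

/-- the multiplication -/
def Mult (y : Fin 5 → PCM P5) (z1 z2 z3 w v : PCM P5) : Prop :=
  InK y w ∧ InK y v ∧ ⁅y 1, w⁆ = ⁅z2, ⁅z1, y 3⁆⁆ ∧ w = ⁅y 1, v⁆ * ⁅z3, y 3⁆

/-- the translation of a gate -/
def GS {ι : Type} (y : Fin 5 → PCM P5) (z : ι → PCM P5) (w v : ι × ι × ι → PCM P5) : Gate ι → Prop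
  | .cst c i => z i = y 1 ^ c
  | .add i j k => z i * z j = z k
  | .mul i j k => Mult y (z i) (z j) (z k) (w (i, j, k)) (v (i, j, k))

lemma dg_dv (g : PCM P5) (v : Fin 5) : dv P5 g v = dg g v := rfl

lemma supp_ne {v : Fin 5} {α : Fin 5 → ℤ} (h : zo v α = 0) (h0 : α ≠ 0) : α v ≠ 0 := by
  intro hv
  apply h0
  funext i
  by_cases hi : i = v
  · rw [hi, hv]; rfl
  · have := congrFun h i
    simpa [zo, hi] using this

lemma supp_zero {v i : Fin 5} {α : Fin 5 → ℤ} (h : zo v α = 0) (hi : i ≠ v) : α i = 0 := by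
  have := congrFun h i
  simpa [zo, hi] using this

lemma no_comm {v v' : Fin 5} (hvv : v ≠ v') (hn : ¬ P5.Adj v v') {y y' : PCM P5} (h1 : zo v (dg y) = 0)
    (h1' : dg y ≠ 0) (h2 : zo v' (dg y') = 0) (h2' : dg y' ≠ 0) : ⁅y', y⁆ ≠ 1 := by
  intro hc
  obtain ⟨φ, hφ⟩ := exists_tau ℤ P5 hvv hn
  have := S1 φ hφ (y := y) (z := y') (by rw [dg_dv]; exact supp_ne h1 h1')
    (by rw [dg_dv]; exact supp_zero h1 hvv.symm) hc
  rw [dg_dv] at this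
  exact supp_ne h2 h2' this

lemma comm_symm {g h : PCM P5} (hc : ⁅g, h⁆ = 1) : ⁅h, g⁆ = 1 := by
  rw [commutatorElement_eq_one_iff_mul_comm] at hc ⊢
  exact hc.symm

lemma nadj13 : ¬ P5.Adj 1 3 := by simp [SimpleGraph.pathGraph_adj]
lemma nadj31 : ¬ P5.Adj 3 1 := by simp [SimpleGraph.pathGraph_adj]

/-- the structure of all realisations -/
theorem struct {y : Fin 5 → PCM P5} (h : Base y) : ∃ b d : Fin 5, b ≠ d ∧ ¬ P5.Adj b d ∧
    dg (y 1) b ≠ 0 ∧ dg (y 1) d = 0 ∧ dg (y 3) b = 0 ∧ dg (y 3) d ≠ 0 ∧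
    ∀ g, InK y g → dg g = 0 := by
  obtain ⟨v1, v2, v3, h1, h2, h3, h12, h13, h23, ⟨a1, b1⟩, ⟨a2, b2⟩, ⟨a3, b3⟩, hk⟩ :=
    rigid (dg_comm _ _) (dg_comm _ _) (dg_comm _ _) h.c1 h.c2 h.c3 h.n21 h.n31 h.n32 h.n12 h.n13
  have e12 : P5.Adj v1 v2 := by
    by_contra hn
    exact no_comm h12 hn a1 b1 a2 b2 (comm_symm h.c12)
  have e23 : P5.Adj v2 v3 := by
    by_contra hn
    exact no_comm h23 hn a2 b2 a3 b3 (comm_symm h.c23)
  have hn : ¬ P5.Adj v1 v3 := by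
    rw [SimpleGraph.pathGraph_adj] at *
    rcases h1 with rfl | rfl | rfl <;> rcases h2 with rfl | rfl | rfl <;>
      rcases h3 with rfl | rfl | rfl <;> simp_all
  refine ⟨v1, v3, h13, hn, supp_ne a1 b1, supp_zero a1 h13.symm, supp_zero a3 h13, supp_ne a3 b3, ?_⟩
  rintro g ⟨g1, g2⟩
  exact hk g g1 g2

/-- soundness -/
theorem sound {ι : Type} {y : Fin 5 → PCM P5} {z s : ι → PCM P5} {w v : ι × ι × ι → PCM P5}
    (hb : Base y) (hz : ∀ i, Inte y (z i) (s i)) :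
    ∃ u : ι → ℤ, (∀ g : Gate ι, GS y z w v g → g.sat u) ∧ ∀ (i : ι) (n : ℤ), z i = y 1 ^ n → u i = n := by
  obtain ⟨b, d, hbd, hn, h1, h2, h3, h4, hk⟩ := struct hb
  have hdiv : ∀ i, dg (y 1) b ∣ dg (z i) b := by
    intro i
    obtain ⟨hc, hs, he⟩ := hz i
    exact S3 hbd hn (y := y 1) (y' := y 3) (z := z i) (w := s i) h1 h2 h3 h4 hc (hk _ hs) he
  choose u hu using hdiv
  have hpow : ∀ (i : ι) (n : ℤ), z i = y 1 ^ n → u i = n := by
    intro i n hi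
    have h5 := hu i
    rw [hi, dg_zpow, Pi.smul_apply, smul_eq_mul, mul_comm] at h5
    exact (mul_left_cancel₀ h1 h5).symm
  refine ⟨u, ?_, hpow⟩
  intro g hg
  cases g with
  | cst c i => exact hpow i c hg
  | add i j k =>
    have h5 : dg (z i) b + dg (z j) b = dg (z k) b := by
      have : z i * z j = z k := hg
      rw [← this, dg_mul]; rfl
    rw [hu, hu, hu, ← mul_add] at h5
    exact mul_left_cancel₀ h1 h5
  | mul i j k =>
    obtain ⟨hw, hv, e1, e2⟩ := (show Mult y (z i) (z j) (z k) (w (i, j, k)) (v (i, j, k)) from hg)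
    obtain ⟨φ, hφ⟩ := exists_tau ℤ P5 hbd hn
    have h5 := S2 φ hφ (y := y 1) (y' := y 3) h1 h2 h3 h4 (hz i).1 (hz j).1 (hz k).1
      (hk _ hw) (hk _ hv) e1 e2
    have h6 : dg (y 1) b * dg (y 1) b * (u i * u j) = dg (y 1) b * dg (y 1) b * u k := by
      have h7 : dg (z i) b * dg (z j) b = dg (y 1) b * dg (z k) b := h5
      rw [hu i, hu j, hu k] at h7
      linear_combination h7
    exact mul_left_cancel₀ (mul_ne_zero h1 h1) h6

lemma nu_val (v i : Fin 5) : nu v i = if i < v then X i - 1 else 0 := rfl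

lemma zo_e (v i : Fin 5) : zo v (e i) = if i = v then 0 else e i := by
  split_ifs with h
  · subst h
    funext k
    by_cases hk : k = i <;> simp [zo, hk]
  · exact zo_e_ne h

/-- the generators are a configuration -/
theorem base_gen : Base (gen P5) := by
  have hX := X_ne (V := Fin 5)
  have hX' : ∀ i : Fin 5, (1 : R (Fin 5)) - X i ≠ 0 := fun i h => hX i (by rw [← neg_sub, h, neg_zero])
  have hc : ∀ i j, P5.Adj i j → ⁅gen P5 i, gen P5 j⁆ = 1 := fun i j h => by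
    rw [commutatorElement_eq_one_iff_mul_comm]
    exact gen_comm P5 h
  have hcc : ∀ i j k, P5.Adj i j → P5.Adj i k → ⁅gen P5 i, ⁅gen P5 j, gen P5 k⁆⁆ = 1 := by
    intro i j k h1 h2
    have h3 : Commute (gen P5 i) (gen P5 j) := gen_comm P5 h1
    have h4 : Commute (gen P5 i) (gen P5 k) := gen_comm P5 h2
    rw [commutatorElement_eq_one_iff_mul_comm]
    exact ((h3.mul_right h4).mul_right h3.inv_right).mul_right h4.inv_right
  have nn : ∀ (v i j k : Fin 5), (mo (zo v (dg (gen P5 i))) - 1) * ((1 - mo (zo v (dg (gen P5 k)))) * nu v j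
      - (1 - mo (zo v (dg (gen P5 j)))) * nu v k) ≠ 0 → ⁅gen P5 i, ⁅gen P5 j, gen P5 k⁆⁆ ≠ 1 := by
    intro v i j k hne h0
    apply hne
    have h5 := th_comm v (gen P5 i) ⁅gen P5 j, gen P5 k⁆ (dg_comm _ _)
    rw [h0, map_one, Cr.one_t, th_comm', th_gen, th_gen] at h5
    exact h5.symm
  refine ⟨hcc 1 0 2 ?_ ?_, hcc 2 1 3 ?_ ?_, hcc 3 2 4 ?_ ?_, hc 1 2 ?_, hc 2 3 ?_, nn 1 2 0 2 ?_, nn 1 3 0 2 ?_,
    nn 2 3 1 3 ?_, nn 2 1 1 3 ?_, nn 3 1 2 4 ?_⟩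
  any_goals simp [SimpleGraph.pathGraph_adj]
  all_goals
    rw [dg_gen, dg_gen, zo_e, zo_e]
    try rw [dg_gen, zo_e]
    simp [nu_val, hX, hX', mo_zero]
    try decide

end Pool.Agent.Helper702.Pm
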