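import Mathlib
import Pool.Agent.Helper702.PmJ

set_option autoImplicit false
set_option linter.unusedSectionVars false
set_option linter.unusedSimpArgs false

/-!
# The system of equations and inequations
-/

open scoped commutatorElement

namespace Pool.Agent.Helper702.Pm

open Multiplicative (ofAdd toAdd)
open Pool.Agent.Helper702.Tw

/-- completeness -/
theorem complete {ι : Type} (u : ι → ℤ) :
    ∃ (s : ι → PCM P5) (w v : ι × ι × ι → PCM P5),
      (∀ i, Inte (gen P5) (gen P5 1 ^ u i) (s i)) ∧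
      ∀ g : Gate ι, g.sat u → GS (gen P5) (fun i => gen P5 1 ^ u i) w v g := by
  let inst : CommGroup (commutator (PCM P5)) :=
    { (inferInstance : Group (commutator (PCM P5))) with
      mul_comm := fun a b => Subtype.ext ((metab_pcm P5).comm a.2 b.2) }
  have hc := compl (M := commutator (PCM P5)) (commutator (PCM P5)).subtype
    (Subgroup.subtype_injective _)
    (fun g m => ⟨⟨g * m * g⁻¹, Subgroup.Normal.conj_mem inferInstance _ m.2 g⟩, rfl⟩)
    (fun g h => ⟨⟨⁅g, h⁆, Subgroup.commutator_mem_commutator (Subgroup.mem_top g) (Subgroup.mem_top h)⟩, rfl⟩)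
    (gen P5 1) (gen P5 3)
  have hin : ∀ m : commutator (PCM P5), InK (gen P5) (m : PCM P5) := by
    intro m
    constructor
    · rw [commutatorElement_eq_one_iff_mul_comm]
      exact (metab_pcm P5).comm m.2 (Subgroup.commutator_mem_commutator (Subgroup.mem_top _) (Subgroup.mem_top _))
    · rw [commutatorElement_eq_one_iff_mul_comm]
      exact (metab_pcm P5).comm m.2 (Subgroup.commutator_mem_commutator (Subgroup.mem_top _) (Subgroup.mem_top _))
  choose W U h1 h2 using hc
  refine ⟨fun i => (W (u i) (u i) : PCM P5), fun t => (W (u t.2.1) (u t.1) : PCM P5),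
    fun t => (U (u t.2.1) (u t.1) : PCM P5), fun i => ⟨?_, hin _, h1 _ _⟩, ?_⟩
  · rw [commutatorElement_eq_one_iff_mul_comm]
    exact ((Commute.refl (gen P5 1)).zpow_left _).eq
  · intro g hg
    cases g with
    | cst c i =>
      have : u i = c := hg
      change gen P5 1 ^ u i = gen P5 1 ^ c
      rw [this]
    | add i j k =>
      have : u i + u j = u k := hg
      change gen P5 1 ^ u i * gen P5 1 ^ u j = gen P5 1 ^ u k
      rw [← this, zpow_add]
    | mul i j k =>
      have h3 : u i * u j = u k := hg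
      refine ⟨hin _, hin _, h1 _ _, ?_⟩
      have h4 := h2 (u j) (u i)
      rw [mul_comm (u j) (u i), h3] at h4
      exact h4

/-- group expressions -/
inductive Ex (α : Type) : Type
  | var (a : α)
  | one
  | mul (s t : Ex α)
  | inv (s : Ex α)

namespace Ex

variable {α : Type}

/-- value of an expression -/
def eval {G : Type} [Group G] (v : α → G) : Ex α → G
  | var a => v a
  | one => 1
  | mul s t => s.eval v * t.eval v
  | inv s => (s.eval v)⁻¹

/-- commutator -/
def com (s t : Ex α) : Ex α := mul (mul (mul s t) (inv s)) (inv t)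

/-- power with natural exponent -/
def npw (s : Ex α) : ℕ → Ex α
  | 0 => one
  | n + 1 => mul (npw s n) s

/-- power with integer exponent -/
def zpw (s : Ex α) (n : ℤ) : Ex α := if 0 ≤ n then npw s n.toNat else inv (npw s (-n).toNat)

variable {G : Type} [Group G] (v : α → G)

@[simp] lemma eval_var (a : α) : (var a).eval v = v a := rfl
@[simp] lemma eval_one : (one : Ex α).eval v = 1 := rfl
@[simp] lemma eval_mul (s t : Ex α) : (mul s t).eval v = s.eval v * t.eval v := rfl
@[simp] lemma eval_inv (s : Ex α) : (inv s).eval v = (s.eval v)⁻¹ := rfl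
@[simp] lemma eval_com (s t : Ex α) : (com s t).eval v = ⁅s.eval v, t.eval v⁆ := rfl
@[simp] lemma eval_npw (s : Ex α) (n : ℕ) : (npw s n).eval v = s.eval v ^ n := by
  induction n with
  | zero => simp [npw]
  | succ n ih => rw [npw, eval_mul, ih, pow_succ]
@[simp] lemma eval_zpw (s : Ex α) (n : ℤ) : (zpw s n).eval v = s.eval v ^ n := by
  unfold zpw
  split_ifs with h
  · rw [eval_npw, ← zpow_natCast, Int.toNat_of_nonneg h]
  · rw [eval_inv, eval_npw, ← zpow_natCast, Int.toNat_of_nonneg (by omega), zpow_neg, inv_inv]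

end Ex

/-- equations (`true`) and inequations (`false`) -/
abbrev Lit (α : Type) : Type := Bool × Ex α × Ex α

/-- satisfaction of a literal -/
def Sat {α G : Type} [Group G] (v : α → G) (l : Lit α) : Prop :=
  if l.1 then l.2.1.eval v = l.2.2.eval v else l.2.1.eval v ≠ l.2.2.eval v

/-- variables -/
abbrev Vr (ι : Type) : Type := Fin 5 ⊕ ι ⊕ ι ⊕ (ι × ι × ι) ⊕ (ι × ι × ι)

section sys

variable {ι : Type}

/-- the variable `y i` -/
def vy (i : Fin 5) : Ex (Vr ι) := .var (Sum.inl i)
/-- the variable `z i` -/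
def vz (i : ι) : Ex (Vr ι) := .var (Sum.inr (Sum.inl i))
/-- the variable `s i` -/
def vs (i : ι) : Ex (Vr ι) := .var (Sum.inr (Sum.inr (Sum.inl i)))
/-- the variable `w t` -/
def vw (t : ι × ι × ι) : Ex (Vr ι) := .var (Sum.inr (Sum.inr (Sum.inr (Sum.inl t))))
/-- the variable `v t` -/
def vv (t : ι × ι × ι) : Ex (Vr ι) := .var (Sum.inr (Sum.inr (Sum.inr (Sum.inr t))))

/-- first commutator -/
def m1 : Ex (Vr ι) := .com (vy 0) (vy 2)
/-- second commutator -/
def m2 : Ex (Vr ι) := .com (vy 1) (vy 3)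
/-- third commutator -/
def m3 : Ex (Vr ι) := .com (vy 2) (vy 4)

/-- literals for `Base` -/
def baseL : List (Lit (Vr ι)) :=
  [(true, .com (vy 1) m1, .one), (true, .com (vy 2) m2, .one), (true, .com (vy 3) m3, .one),
   (true, .com (vy 1) (vy 2), .one), (true, .com (vy 2) (vy 3), .one),
   (false, .com (vy 2) m1, .one), (false, .com (vy 3) m1, .one), (false, .com (vy 3) m2, .one),
   (false, .com (vy 1) m2, .one), (false, .com (vy 1) m3, .one)]

/-- literals for `InK` -/
def inkL (g : Ex (Vr ι)) : List (Lit (Vr ι)) := [(true, .com g m1, .one), (true, .com g m2, .one)]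

/-- literals for `Inte` -/
def inteL (i : ι) : List (Lit (Vr ι)) :=
  [(true, .com (vz i) (vy 1), .one)] ++ inkL (vs i) ++
    [(true, .com (vy 1) (vs i), .com (vz i) (.com (vz i) (vy 3)))]

/-- literals for a gate -/
def gateL : Gate ι → List (Lit (Vr ι))
  | .cst c i => [(true, vz i, .zpw (vy 1) c)]
  | .add i j k => [(true, .mul (vz i) (vz j), vz k)]
  | .mul i j k => inkL (vw (i, j, k)) ++ inkL (vv (i, j, k)) ++
      [(true, .com (vy 1) (vw (i, j, k)), .com (vz j) (.com (vz i) (vy 3))),
       (true, vw (i, j, k), .mul (.com (vy 1) (vv (i, j, k))) (.com (vz k) (vy 3)))]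

/-- all literals except the one with the parameter -/
def sysL (L : List ι) (Γ : List (Gate ι)) : List (Lit (Vr ι)) :=
  baseL ++ L.flatMap inteL ++ Γ.flatMap gateL

variable (a : Vr ι → PCM P5)

/-- values of `y` -/
abbrev ay (a : Vr ι → PCM P5) (i : Fin 5) : PCM P5 := a (Sum.inl i)
/-- values of `z` -/
abbrev az (a : Vr ι → PCM P5) (i : ι) : PCM P5 := a (Sum.inr (Sum.inl i))
/-- values of `s` -/
abbrev as (a : Vr ι → PCM P5) (i : ι) : PCM P5 := a (Sum.inr (Sum.inr (Sum.inl i)))
/-- values of `w` -/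
abbrev aw (a : Vr ι → PCM P5) (t : ι × ι × ι) : PCM P5 := a (Sum.inr (Sum.inr (Sum.inr (Sum.inl t))))
/-- values of `v` -/
abbrev av (a : Vr ι → PCM P5) (t : ι × ι × ι) : PCM P5 := a (Sum.inr (Sum.inr (Sum.inr (Sum.inr t))))

lemma sat_base : (∀ l ∈ baseL, Sat a l) ↔ Base (ay a) := by
  constructor
  · intro h
    simp only [baseL, List.mem_cons, List.not_mem_nil, or_false, forall_eq_or_imp, forall_eq] at h
    obtain ⟨h1, h2, h3, h4, h5, h6, h7, h8, h9, h10⟩ := h
    exact ⟨h1, h2, h3, h4, h5, h6, h7, h8, h9, h10⟩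
  · rintro ⟨h1, h2, h3, h4, h5, h6, h7, h8, h9, h10⟩
    simp only [baseL, List.mem_cons, List.not_mem_nil, or_false, forall_eq_or_imp, forall_eq]
    exact ⟨h1, h2, h3, h4, h5, h6, h7, h8, h9, h10⟩

lemma sat_ink (g : Ex (Vr ι)) : (∀ l ∈ inkL g, Sat a l) ↔ InK (ay a) (g.eval a) := by
  constructor
  · intro h
    simp only [inkL, List.mem_cons, List.not_mem_nil, or_false, forall_eq_or_imp, forall_eq] at h
    exact ⟨h.1, h.2⟩
  · rintro ⟨h1, h2⟩
    simp only [inkL, List.mem_cons, List.not_mem_nil, or_false, forall_eq_or_imp, forall_eq]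
    exact ⟨h1, h2⟩

lemma sat_inte (i : ι) : (∀ l ∈ inteL i, Sat a l) ↔ Inte (ay a) (az a i) (as a i) := by
  unfold inteL Inte
  simp only [List.forall_mem_append, sat_ink, List.mem_singleton, forall_eq, and_assoc]
  exact Iff.rfl

lemma sat_gate (g : Gate ι) : (∀ l ∈ gateL g, Sat a l) ↔ GS (ay a) (az a) (aw a) (av a) g := by
  cases g with
  | cst c i =>
    simp only [gateL, List.mem_singleton, forall_eq]
    change az a i = (Ex.zpw (vy 1) c).eval a ↔ _
    rw [Ex.eval_zpw]
    exact Iff.rfl
  | add i j k =>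
    simp only [gateL, List.mem_singleton, forall_eq]
    exact Iff.rfl
  | mul i j k =>
    simp only [gateL, List.forall_mem_append, sat_ink, List.mem_cons, List.not_mem_nil, or_false,
      forall_eq_or_imp, forall_eq, and_assoc]
    exact Iff.rfl

lemma sat_sys (L : List ι) (Γ : List (Gate ι)) : (∀ l ∈ sysL L Γ, Sat a l) ↔
    Base (ay a) ∧ (∀ i ∈ L, Inte (ay a) (az a i) (as a i)) ∧ ∀ g ∈ Γ, GS (ay a) (az a) (aw a) (av a) g := by
  unfold sysL
  rw [List.forall_mem_append, List.forall_mem_append, sat_base, and_assoc]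
  refine and_congr Iff.rfl (and_congr ?_ ?_)
  · simp only [List.mem_flatMap, forall_exists_index, and_imp]
    rw [forall_comm]
    refine forall_congr' fun i => ?_
    rw [forall_comm]
    exact imp_congr Iff.rfl (sat_inte a i)
  · simp only [List.mem_flatMap, forall_exists_index, and_imp]
    rw [forall_comm]
    refine forall_congr' fun g => ?_
    rw [forall_comm]
    exact imp_congr Iff.rfl (sat_gate a g)

/-- the system is solvable in the group iff the gates are solvable over the integers -/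
theorem sys_iff (L : List ι) (hL : ∀ i, i ∈ L) (Γ : List (Gate ι)) (p : ι) (n : ℕ) :
    (∃ a : Vr ι → PCM P5, (∀ l ∈ sysL L Γ, Sat a l) ∧ Sat a (true, vz p, .npw (vy 1) n)) ↔
    ∃ u : ι → ℤ, u p = n ∧ ∀ g ∈ Γ, g.sat u := by
  constructor
  · rintro ⟨a, h1, h2⟩
    rw [sat_sys] at h1
    obtain ⟨hb, hi, hg⟩ := h1
    obtain ⟨u, hu1, hu2⟩ := sound (w := aw a) (v := av a) hb (fun i => hi i (hL i))
    refine ⟨u, hu2 p n ?_, fun g h => hu1 g (hg g h)⟩
    have h3 : az a p = (Ex.npw (vy 1) n).eval a := h2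
    rw [Ex.eval_npw] at h3
    rw [zpow_natCast]
    exact h3
  · rintro ⟨u, hu, hg⟩
    obtain ⟨s, w, v, h1, h2⟩ := complete u
    refine ⟨Sum.elim (gen P5) (Sum.elim (fun i => gen P5 1 ^ u i) (Sum.elim s (Sum.elim w v))), ?_, ?_⟩
    · rw [sat_sys]
      exact ⟨base_gen, fun i _ => h1 i, fun g h => h2 g (hg g h)⟩
    · change gen P5 1 ^ u p = (Ex.npw (vy 1) n).eval _
      rw [Ex.eval_npw, hu, zpow_natCast]
      rfl

end sys

/-- recursively enumerable sets and gates over a finite set of variables -/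
theorem gates_fin {P : ℕ → Prop} (hP : REPred P) : ∃ (M : ℕ) (Γ : List (Gate (Fin M))) (p : Fin M),
    ∀ n : ℕ, P n ↔ ∃ u : Fin M → ℤ, u p = n ∧ ∀ g ∈ Γ, g.sat u := by
  obtain ⟨Γ, p0, hΓ⟩ := gates_re hP
  obtain ⟨M0, hM0⟩ := Gate.exists_bdd Γ
  set M := M0 + p0 + 1 with hM
  have hMpos : 0 < M := by omega
  let f : ℕ → Fin M := fun n => if h : n < M then ⟨n, h⟩ else ⟨0, hMpos⟩
  have hf : ∀ n < M, (f n).val = n := by
    intro n hn
    simp only [f, dif_pos hn]
  refine ⟨M, Γ.map (Gate.map f), f p0, fun n => ?_⟩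
  rw [hΓ n]
  constructor
  · rintro ⟨u, hu, hg⟩
    refine ⟨fun i => u i.val, ?_, ?_⟩
    · change u (f p0).val = n
      rw [hf p0 (by omega)]; exact hu
    · intro g' hg'
      obtain ⟨g, hgm, rfl⟩ := List.mem_map.1 hg'
      rw [Gate.sat_map]
      have hb := Gate.bdd_mono (show M0 ≤ M by omega) g (hM0 g hgm)
      have hs := hg g hgm
      cases g with
      | cst c i =>
        change u (f i).val = c
        rw [hf i hb]; exact hs
      | add i j k =>
        change u (f i).val + u (f j).val = u (f k).val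
        rw [hf i hb.1, hf j hb.2.1, hf k hb.2.2]; exact hs
      | mul i j k =>
        change u (f i).val * u (f j).val = u (f k).val
        rw [hf i hb.1, hf j hb.2.1, hf k hb.2.2]; exact hs
  · rintro ⟨u, hu, hg⟩
    refine ⟨u ∘ f, hu, fun g hgm => ?_⟩
    rw [← Gate.sat_map]
    exact hg _ (List.mem_map_of_mem hgm)

/-- the halting set as a set of natural numbers -/
def haltSet (a : ℕ) : Prop := (Nat.Partrec.Code.eval (Denumerable.ofNat Nat.Partrec.Code a) 0).Dom

theorem haltSet_re : REPred haltSet := by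
  have h : Partrec fun a : ℕ => Nat.Partrec.Code.eval (Denumerable.ofNat Nat.Partrec.Code a) 0 :=
    Nat.Partrec.Code.eval_part.comp (Primrec.ofNat Nat.Partrec.Code).to_comp (Computable.const 0)
  exact h.dom_re

theorem haltSet_not_computable : ¬ ComputablePred haltSet := by
  intro h
  apply ComputablePred.halting_problem 0
  obtain ⟨inst, hc⟩ := h
  have h2 : Computable fun c : Nat.Partrec.Code => decide (haltSet (Encodable.encode c)) :=
    hc.comp Computable.encode
  refine ⟨fun c => Classical.dec _, h2.of_eq fun c => ?_⟩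
  simp [haltSet]

end Pool.Agent.Helper702.Pm
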