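import Mathlib

set_option autoImplicit false

namespace Pool.Agent.Helper702.Rpo

/-! Facts about words over two letters; the letter `true` is `a`, the letter `false` is `c`. -/

open List

/-- the word `a^n` -/
abbrev A (n : ℕ) : List Bool := replicate n true

/-- the word `c^n` -/
abbrev C (n : ℕ) : List Bool := replicate n false

theorem A_succ (n : ℕ) : A (n + 1) = true :: A n := rfl

theorem C_succ (n : ℕ) : C (n + 1) = false :: C n := rfl

theorem cfA (n : ℕ) : count false (A n) = 0 := by
  rw [List.count_replicate]; rfl

theorem ctC (n : ℕ) : count true (C n) = 0 := by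
  rw [List.count_replicate]; rfl

theorem ctA (n : ℕ) : count true (A n) = n := List.count_replicate_self

theorem cfC (n : ℕ) : count false (C n) = n := List.count_replicate_self

theorem isA_iff (x : List Bool) : ¬ ([false] <+ x) ↔ ∃ n, x = A n := by
  rw [List.singleton_sublist]
  constructor
  · intro h
    refine ⟨x.length, List.eq_replicate_iff.2 ⟨rfl, fun b hb => ?_⟩⟩
    cases b
    · exact absurd hb h
    · rfl
  · rintro ⟨n, rfl⟩ h
    have := List.eq_of_mem_replicate h
    exact absurd this (by decide)

theorem isC_iff (x : List Bool) : ¬ ([true] <+ x) ↔ ∃ n, x = C n := by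
  rw [List.singleton_sublist]
  constructor
  · intro h
    refine ⟨x.length, List.eq_replicate_iff.2 ⟨rfl, fun b hb => ?_⟩⟩
    cases b
    · rfl
    · exact absurd hb h
  · rintro ⟨n, rfl⟩ h
    have := List.eq_of_mem_replicate h
    exact absurd this (by decide)

theorem cnt_iff (b : Bool) (n : ℕ) (x : List Bool) :
    (replicate n b <+ x ∧ ¬ (b :: replicate n b <+ x)) ↔ count b x = n := by
  rw [show b :: replicate n b = replicate (n + 1) b from rfl, List.replicate_sublist_iff, List.replicate_sublist_iff]
  omega

theorem length_eq_counts (l : List Bool) : l.length = count true l + count false l := by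
  induction l with
  | nil => rfl
  | cons b l ih =>
    cases b
    · rw [List.count_cons_self, List.count_cons_of_ne (by decide), List.length_cons, ih]
      omega
    · rw [List.count_cons_self, List.count_cons_of_ne (by decide), List.length_cons, ih]
      omega

theorem eq_of_sub_counts {l l' : List Bool} (h : l <+ l') (h1 : count true l = count true l')
    (h2 : count false l = count false l') : l = l' := by
  apply h.eq_of_length
  rw [length_eq_counts, length_eq_counts, h1, h2]

/-- words without the pattern `x y` (different letters) -/
theorem shape (x : Bool) (l : List Bool) (h : ¬ ([x, !x] <+ l)) :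
    l = replicate (count (!x) l) (!x) ++ replicate (count x l) x := by
  induction l with
  | nil => rfl
  | cons b l ih =>
    by_cases hb : b = x
    · subst hb
      rw [List.cons_sublist_cons, List.singleton_sublist] at h
      have h1 : count (!b) (b :: l) = 0 := by
        rw [List.count_eq_zero]
        intro h2
        rcases List.mem_cons.1 h2 with h2 | h2
        · exact absurd h2 (by cases b <;> decide)
        · exact h h2
      rw [h1]
      simp only [replicate_zero, nil_append]
      apply List.eq_replicate_iff.2 ⟨?_, ?_⟩
      · have h5 := length_eq_counts (b :: l)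
        cases b
        · rw [Bool.not_false] at h1
          omega
        · rw [Bool.not_true] at h1
          omega
      · intro y hy
        by_contra h2
        have h3 : y = !b := by
          revert h2
          cases b <;> cases y <;> decide
        subst h3
        rw [List.count_eq_zero] at h1
        exact h1 hy
    · have hb2 : b = !x := by
        revert hb
        cases b <;> cases x <;> decide
      have h1 : ¬ ([x, !x] <+ l) := fun h2 => h (h2.cons b)
      have h2 := ih h1
      subst hb2
      rw [List.count_cons_self, List.count_cons_of_ne (by cases x <;> simp)]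
      rw [replicate_succ, cons_append, ← h2]

theorem blk_iff (m n P Q : ℕ) :
    (A m ++ false :: A n <+ A P ++ false :: A Q) ↔ m ≤ P ∧ n ≤ Q := by
  constructor
  · intro h
    induction P generalizing m with
    | zero =>
      cases m with
      | zero =>
        simp only [replicate_zero, nil_append, List.cons_sublist_cons] at h
        have := h.length_le
        simp at this
        omega
      | succ m =>
        exfalso
        simp only [replicate_zero, nil_append, replicate_succ, cons_append] at h
        rcases List.sublist_cons_iff.1 h with h | ⟨r, hr, -⟩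
        · have h1 : false ∈ A Q := h.subset (by simp)
          have := List.eq_of_mem_replicate h1
          exact absurd this (by decide)
        · simp at hr
    | succ P ih =>
      rw [A_succ, cons_append] at h
      cases m with
      | zero =>
        simp only [replicate_zero, nil_append] at h
        rcases List.sublist_cons_iff.1 h with h | ⟨r, hr, -⟩
        · have := ih 0 (by simpa using h)
          omega
        · simp at hr
      | succ m =>
        rw [A_succ, cons_append, List.cons_sublist_cons] at h
        have := ih m h
        omega
  · rintro ⟨h1, h2⟩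
    exact List.Sublist.append (List.replicate_sublist_replicate true |>.2 h1)
      (List.Sublist.cons_cons _ (List.replicate_sublist_replicate true |>.2 h2))

/-- a word with exactly one `c` -/
theorem one_c (W : List Bool) (h1 : [false] <+ W) (h2 : ¬ ([false, false] <+ W)) :
    ∃ P Q, W = A P ++ false :: A Q := by
  rw [List.singleton_sublist] at h1
  obtain ⟨s, t, rfl⟩ := List.append_of_mem h1
  have hs : ¬ ([false] <+ s) := by
    intro h
    apply h2
    have : [false, false] = [false] ++ [false] := rfl
    rw [this]
    exact List.Sublist.append h (by rw [List.singleton_sublist]; exact List.mem_cons_self)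
  have ht : ¬ ([false] <+ t) := by
    intro h
    apply h2
    have : [false, false] = [] ++ [false, false] := rfl
    rw [this]
    exact List.Sublist.append (List.nil_sublist _) (List.Sublist.cons_cons _ h)
  obtain ⟨P, hP⟩ := (isA_iff s).1 hs
  obtain ⟨Q, hQ⟩ := (isA_iff t).1 ht
  exact ⟨P, Q, by rw [hP, hQ]⟩

/-- the addition gadget -/
theorem add_iff (i j k : ℕ) : i + j = k ↔ ∃ t W : List Bool,
    (A i <+ t ∧ ¬ (true :: A i <+ t)) ∧ [false] <+ t ∧ ¬ ([false, false] <+ t) ∧ ¬ ([false, true] <+ t) ∧
    (A k <+ W ∧ ¬ (true :: A k <+ W)) ∧ ¬ ([false, false] <+ W) ∧ t <+ W ∧ ¬ (true :: t <+ W) ∧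
    false :: A j <+ W ∧ ¬ (false :: true :: A j <+ W) := by
  have hA : ∀ i P Q, (A i <+ A P ++ false :: A Q ∧ ¬ (true :: A i <+ A P ++ false :: A Q)) ↔ P + Q = i := by
    intro i P Q
    rw [cnt_iff true i]
    simp [List.count_append]
  constructor
  · rintro rfl
    refine ⟨A i ++ false :: A 0, A i ++ false :: A j, ?_, ?_, ?_, ?_, ?_, ?_, ?_, ?_, ?_, ?_⟩
    · rw [hA]; rfl
    · simp
    · intro h
      have h1 := List.Sublist.count_le false h
      simp [List.count_append] at h1
    · intro h
      have h1 : A 0 ++ false :: A 1 <+ A i ++ false :: A 0 := by simpa using h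
      rw [blk_iff] at h1
      omega
    · rw [hA]
    · intro h
      have h1 := List.Sublist.count_le false h
      simp [List.count_append, cfA] at h1
    · rw [blk_iff]; omega
    · intro h
      have h1 : A (i + 1) ++ false :: A 0 <+ A i ++ false :: A j := by
        simpa [replicate_succ] using h
      rw [blk_iff] at h1
      omega
    · have h1 : A 0 ++ false :: A j <+ A i ++ false :: A j := (blk_iff _ _ _ _).2 (by omega)
      simpa using h1
    · intro h
      have h1 : A 0 ++ false :: A (j + 1) <+ A i ++ false :: A j := by
        simpa [replicate_succ] using h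
      rw [blk_iff] at h1
      omega
  · rintro ⟨t, W, h1, h2, h3, h4, h5, h6, h7, h8, h9, h10⟩
    obtain ⟨P, Q, rfl⟩ := one_c t h2 h3
    have hW : [false] <+ W := h2.trans h7
    obtain ⟨R, T, rfl⟩ := one_c W hW h6
    rw [hA] at h1 h5
    rw [blk_iff] at h7
    have hQ : Q = 0 := by
      by_contra hQ
      apply h4
      have : A 0 ++ false :: A 1 <+ A P ++ false :: A Q := (blk_iff _ _ _ _).2 (by omega)
      simpa using this
    have h8' : ¬ (P + 1 ≤ R ∧ Q ≤ T) := by
      rw [← blk_iff]
      intro h
      apply h8
      simpa [replicate_succ] using h
    have h9' : 0 ≤ R ∧ j ≤ T := by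
      rw [← blk_iff]
      simpa using h9
    have h10' : ¬ (0 ≤ R ∧ j + 1 ≤ T) := by
      rw [← blk_iff]
      intro h
      apply h10
      simpa [replicate_succ] using h
    omega

/-- factorisation at the first `c` -/
theorem front (n m : ℕ) (v1 y : List Bool) (h1 : false :: v1 <+ y) (h2 : A n ++ C m <+ y)
    (h3 : count false v1 + 1 = m) (h4 : count false y = m) (h5 : count true y = count true v1 + n) :
    y = A n ++ false :: v1 := by
  induction n generalizing y with
  | zero =>
    symm
    apply eq_of_sub_counts (by simpa using h1)
    · simp [h5]
    · simp [h3, h4]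
  | succ n ih =>
    cases y with
    | nil => simp at h1
    | cons b y =>
      cases b
      · exfalso
        rw [A_succ, cons_append] at h2
        rcases List.sublist_cons_iff.1 h2 with h | ⟨r, hr, -⟩
        · have h6 := List.Sublist.count_le false h
          simp [List.count_append] at h6 h4
          omega
        · simp at hr
      · have h6 : false :: v1 <+ y := by
          rcases List.sublist_cons_iff.1 h1 with h | ⟨r, hr, -⟩
          · exact h
          · simp at hr
        rw [A_succ, cons_append, List.cons_sublist_cons] at h2
        rw [A_succ, cons_append]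
        congr 1
        apply ih y h6 h2
        · simpa using h4
        · rw [List.count_cons_self] at h5
          omega

/-- factorisation at the last `c` -/
theorem back (n m : ℕ) (v1 y : List Bool) (h1 : v1 ++ [false] <+ y) (h2 : C m ++ A n <+ y)
    (h3 : count false v1 + 1 = m) (h4 : count false y = m) (h5 : count true y = count true v1 + n) :
    y = v1 ++ false :: A n := by
  have h := front n m v1.reverse y.reverse
    (by rw [← List.reverse_sublist]; simpa using h1)
    (by rw [← List.reverse_sublist]; simpa using h2)
    (by simpa using h3) (by simpa using h4) (by simpa using h5)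
  have h6 := congrArg List.reverse h
  simpa using h6

/-- the conjugacy equation -/
theorem conj (n : ℕ) : ∀ (k : ℕ) (v : List Bool), v.length ≤ k → v ++ false :: A n = A n ++ false :: v →
    count true v = n * (count false v + 1) := by
  intro k
  induction k with
  | zero =>
    intro v hv h
    have : v = [] := List.length_eq_zero_iff.1 (by omega)
    subst this
    cases n with
    | zero => simp
    | succ n => simp [replicate_succ] at h
  | succ k ih =>
    intro v hv h
    rw [List.append_eq_append_iff] at h
    rcases h with ⟨z, h1, h2⟩ | ⟨z, h1, h2⟩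
    · cases z with
      | nil =>
        rw [List.append_nil] at h1
        rw [← h1]
        rw [ctA, cfA]
        ring
      | cons b z =>
        rw [List.cons_append, List.cons.injEq] at h2
        obtain ⟨h3, -⟩ := h2
        subst h3
        exfalso
        have h4 : false ∈ A n := by rw [h1]; simp
        have := List.eq_of_mem_replicate h4
        exact absurd this (by decide)
    · cases z with
      | nil =>
        rw [List.append_nil] at h1
        rw [h1]
        rw [ctA, cfA]
        ring
      | cons b z =>
        rw [List.cons_append, List.cons.injEq] at h2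
        obtain ⟨h3, h4⟩ := h2
        subst h3
        rw [h1] at h4
        have h5 : z ++ false :: A n = A n ++ false :: z := h4.symm
        have h6 := ih z (by rw [h1] at hv; simp at hv; omega) h5
        rw [h1]
        simp only [List.count_append, List.count_replicate_self, List.count_cons_self]
        rw [List.count_cons_of_ne (by decide), h6, List.count_replicate]
        simp
        ring

/-- the words `a^n (c a^n)^k` -/
def U (n : ℕ) : ℕ → List Bool
  | 0 => A n
  | k + 1 => A n ++ false :: U n k

theorem U_succ' (n k : ℕ) : U n (k + 1) = U n k ++ false :: A n := by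
  induction k with
  | zero => rfl
  | succ k ih =>
    calc U n (k + 1 + 1) = A n ++ false :: U n (k + 1) := rfl
      _ = A n ++ false :: (U n k ++ false :: A n) := by rw [ih]
      _ = (A n ++ false :: U n k) ++ false :: A n := by simp
      _ = U n (k + 1) ++ false :: A n := rfl

theorem count_true_U (n k : ℕ) : count true (U n k) = n * (k + 1) := by
  induction k with
  | zero => simp [U]
  | succ k ih =>
    rw [U]
    simp [List.count_append, ih]
    ring

theorem count_false_U (n k : ℕ) : count false (U n k) = k := by
  induction k with
  | zero => simp [U, List.count_replicate]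
  | succ k ih =>
    rw [U]
    simp [List.count_append, ih, List.count_replicate]

theorem CA_sub_U (n k : ℕ) : C k ++ A n <+ U n k := by
  induction k with
  | zero => simp [U]
  | succ k ih =>
    rw [U, C_succ, cons_append]
    exact (ih.cons_cons false).trans (List.sublist_append_right _ _)

theorem append_single_sub {x y : Bool} (hxy : x ≠ y) {l l' : List Bool} (h : l ++ [x] <+ l' ++ [y]) :
    l ++ [x] <+ l' := by
  have h1 : x :: l.reverse <+ y :: l'.reverse := by
    rw [← List.reverse_sublist]
    simpa using h
  rcases List.sublist_cons_iff.1 h1 with h2 | ⟨r, hr, -⟩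
  · rw [← List.reverse_sublist]
    simpa using h2
  · rw [List.cons.injEq] at hr
    exact absurd hr.1 hxy

theorem no_ac (m n : ℕ) : ¬ ([true, false] <+ C m ++ A n) := by
  intro h
  induction m with
  | zero =>
    have h1 := List.Sublist.count_le false h
    rw [show C 0 ++ A n = A n from rfl, cfA] at h1
    simp at h1
  | succ m ih =>
    rw [C_succ, cons_append] at h
    rcases List.sublist_cons_iff.1 h with h2 | ⟨r, hr, -⟩
    · exact ih h2
    · simp at hr

theorem no_ca (n m : ℕ) : ¬ ([false, true] <+ A n ++ C m) := by
  intro h
  induction n with
  | zero =>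
    have h1 := List.Sublist.count_le true h
    rw [show A 0 ++ C m = C m from rfl, ctC] at h1
    simp at h1
  | succ n ih =>
    rw [A_succ, cons_append] at h
    rcases List.sublist_cons_iff.1 h with h2 | ⟨r, hr, -⟩
    · exact ih h2
    · simp at hr

/-- the multiplication gadget -/
theorem mul_iff (n m N : ℕ) (hn : 1 ≤ n) (hm : 1 ≤ m) : N = n * m ↔ ∃ (T R S w v y : List Bool) (N' : ℕ),
    (¬ ([true, false] <+ T) ∧ (C m <+ T ∧ ¬ (false :: C m <+ T)) ∧ (A n <+ T ∧ ¬ (true :: A n <+ T))) ∧
    (¬ ([true, false] <+ R) ∧ (C m <+ R ∧ ¬ (false :: C m <+ R)) ∧ (A 1 <+ R ∧ ¬ (true :: A 1 <+ R))) ∧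
    (¬ ([false, true] <+ S) ∧ (C m <+ S ∧ ¬ (false :: C m <+ S)) ∧ (A n <+ S ∧ ¬ (true :: A n <+ S))) ∧
    ((C m <+ w ∧ ¬ (false :: C m <+ w)) ∧ (A N <+ w ∧ ¬ (true :: A N <+ w)) ∧ T <+ w) ∧
    ((C m <+ v ∧ ¬ (false :: C m <+ v)) ∧ (A N <+ v ∧ ¬ (true :: A N <+ v)) ∧ ¬ (R <+ v) ∧ w <+ false :: v) ∧
    ((C m <+ y ∧ ¬ (false :: C m <+ y)) ∧ (A N' <+ y ∧ ¬ (true :: A N' <+ y)) ∧ v <+ y ∧ w <+ y ∧ T <+ y ∧ S <+ y) ∧
    N + n = N' := by
  simp only [cnt_iff]
  constructor
  · rintro rfl
    obtain ⟨k, rfl⟩ : ∃ k, m = k + 1 := ⟨m - 1, by omega⟩
    have hk : C (k + 1) <+ false :: U n k := by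
      rw [C_succ]
      exact ((List.sublist_append_left _ _).trans (CA_sub_U n k)).cons_cons false
    refine ⟨C (k + 1) ++ A n, C (k + 1) ++ A 1, A n ++ C (k + 1), false :: U n k, U n k ++ [false],
      A n ++ false :: U n k, n * (k + 1) + n, ⟨?_, ?_, ?_⟩, ⟨?_, ?_, ?_⟩, ⟨?_, ?_, ?_⟩, ⟨?_, ?_, ?_⟩,
      ⟨?_, ?_, ?_, ?_⟩, ⟨?_, ?_, ?_, ?_, ?_, ?_⟩, rfl⟩
    · exact no_ac _ _
    · simp [List.count_append, cfA, cfC]
    · simp [List.count_append, ctA, ctC]
    · exact no_ac _ _
    · simp [List.count_append, cfA, cfC]
    · simp [List.count_append, ctC]
    · exact no_ca _ _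
    · simp [List.count_append, cfA, cfC]
    · simp [List.count_append, ctA, ctC]
    · simp [count_false_U]
    · simp [count_true_U]
    · rw [C_succ, cons_append]
      exact (CA_sub_U n k).cons_cons false
    · simp [List.count_append, count_false_U]
    · simp [List.count_append, count_true_U]
    · intro h
      have h1 := append_single_sub (show true ≠ false by decide) h
      have h2 := List.Sublist.count_le false h1
      rw [List.count_append, cfC, count_false_U] at h2
      omega
    · exact (List.sublist_append_left _ _).cons_cons false
    · simp [List.count_append, cfA, count_false_U]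
    · simp [List.count_append, ctA, count_true_U]
      ring
    · rw [show A n ++ false :: U n k = U n (k + 1) from rfl, U_succ']
      exact List.Sublist.append (List.Sublist.refl _) (List.Sublist.cons_cons _ (List.nil_sublist _))
    · exact List.sublist_append_right _ _
    · exact CA_sub_U n (k + 1)
    · exact List.Sublist.append (List.Sublist.refl _) hk
  · rintro ⟨T, R, S, w, v, y, N', ⟨hT1, hT2, hT3⟩, ⟨hR1, hR2, hR3⟩, ⟨hS1, hS2, hS3⟩, ⟨hw1, hw2, hw3⟩,
      ⟨hv1, hv2, hv3, hv4⟩, ⟨hy1, hy2, hy3, hy4, hy5, hy6⟩, hN⟩
    obtain ⟨k, rfl⟩ : ∃ k, m = k + 1 := ⟨m - 1, by omega⟩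
    have eT : T = C (k + 1) ++ A n := by
      have := shape true T (by simpa using hT1)
      rw [Bool.not_true, hT2, hT3] at this
      exact this
    have eR : R = C (k + 1) ++ A 1 := by
      have := shape true R (by simpa using hR1)
      rw [Bool.not_true, hR2, hR3] at this
      exact this
    have eS : S = A n ++ C (k + 1) := by
      have := shape false S (by simpa using hS1)
      rw [Bool.not_false, hS2, hS3] at this
      exact this
    subst eT eR eS
    -- the last letter of v
    obtain ⟨v1, hv⟩ : ∃ v1, v = v1 ++ [false] := by
      rcases List.eq_nil_or_concat v with h | ⟨v1, b, h⟩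
      · rw [h] at hv1
        simp at hv1
      · rw [List.concat_eq_append] at h
        cases b
        · exact ⟨v1, h⟩
        · exfalso
          apply hv3
          rw [h]
          refine List.Sublist.append ?_ (List.Sublist.refl _)
          rw [List.replicate_sublist_iff]
          rw [h] at hv1
          simp at hv1
          omega
    -- the last letter of w
    obtain ⟨w1, hw⟩ : ∃ w1, w = w1 ++ [true] := by
      rcases List.eq_nil_or_concat w with h | ⟨w1, b, h⟩
      · rw [h] at hw1
        simp at hw1
      · rw [List.concat_eq_append] at h
        cases b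
        · exfalso
          obtain ⟨l, rfl⟩ : ∃ l, n = l + 1 := ⟨n - 1, by omega⟩
          have h1 : C (k + 1) ++ A 1 <+ w := by
            refine List.Sublist.trans ?_ hw3
            exact List.Sublist.append (List.Sublist.refl _) (List.replicate_sublist_replicate true |>.2 (by omega))
          rw [h] at h1
          have h2 := append_single_sub (show true ≠ false by decide) h1
          have h3 := List.Sublist.count_le false h2
          rw [List.count_append, cfC] at h3
          rw [h] at hw1
          simp at hw1
          omega
        · exact ⟨w1, h⟩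
    have hwv : w = false :: v1 := by
      have h1 : w1 ++ [true] <+ (false :: v1) ++ [false] := by
        rw [← hw, List.cons_append, ← hv]
        exact hv4
      have h2 := append_single_sub (show true ≠ false by decide) h1
      rw [← hw] at h2
      apply eq_of_sub_counts h2
      · rw [hv] at hv2
        simp at hv2
        simp [hw2, hv2]
      · rw [hv] at hv1
        simp at hv1
        simp [hw1, hv1]
    have c1 : count false v1 + 1 = k + 1 := by
      rw [hv] at hv1
      simpa using hv1
    have c2 : count true v1 = N := by
      rw [hv] at hv2
      simpa using hv2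
    have y1 : y = A n ++ false :: v1 := front n (k + 1) v1 y (hwv ▸ hy4) hy6 c1 hy1 (by omega)
    have y2 : y = v1 ++ false :: A n := back n (k + 1) v1 y (hv ▸ hy3) hy5 c1 hy1 (by omega)
    have h3 := conj n v1.length v1 le_rfl (y2.symm.trans y1)
    rw [c2] at h3
    rw [h3]
    congr 1

end Pool.Agent.Helper702.Rpo
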