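import Mathlib

set_option autoImplicit false

namespace Pool.Agent.Helper702.Rpo

/-- A finite signature: the function symbols are `0, …, n - 1` and `ar f` is the arity of `f`. -/
structure Sig : Type where
  n : ℕ
  ar : Fin n → ℕ

/-- Ground terms over a signature. -/
inductive GT (S : Sig) : Type
  | app (f : Fin S.n) (args : Fin (S.ar f) → GT S) : GT S

/-- The two possible statuses of a function symbol. -/
inductive Status : Type
  | lex
  | mul

section order

variable {S : Sig} (prec : Fin S.n → Fin S.n → Prop) (st : Fin S.n → Status)

/-- The congruence on ground terms generated by permuting the arguments of the symbols with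
status `mul`. -/
inductive Eqv : GT S → GT S → Prop
  | refl (s : GT S) : Eqv s s
  | symm (s t : GT S) : Eqv s t → Eqv t s
  | trans (s t u : GT S) : Eqv s t → Eqv t u → Eqv s u
  | congr (f : Fin S.n) (s t : Fin (S.ar f) → GT S) :
      (∀ i, Eqv (s i) (t i)) → Eqv (GT.app f s) (GT.app f t)
  | perm (f : Fin S.n) (s : Fin (S.ar f) → GT S) (σ : Equiv.Perm (Fin (S.ar f))) :
      st f = Status.mul → Eqv (GT.app f s) (GT.app f (s ∘ σ))

/-- The recursive path ordering with status, for the precedence `prec`
(`prec f g` means that `f` is greater than `g`).
* `sub`, `sub'`: some argument of the left term is greater than, or congruent to, the right term;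
* `prec`: the head of the left term is greater in the precedence and the left term is greater than
  all the arguments of the right term;
* `lex`: equal heads of status `lex`, the left term is greater than all the arguments of the right
  term, and the tuples of arguments decrease at the first place where they are not congruent;
* `mul`: equal heads of status `mul`, the left term is greater than all the arguments of the right
  term, and the multiset of the arguments decreases: the arguments of the left term
  with index outside the nonempty set `X` are matched by `σ` with congruent arguments of the right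
  term, and every other argument of the right term is smaller than some argument of the left term
  with index in `X`. -/
inductive Gt : GT S → GT S → Prop
  | sub (f : Fin S.n) (s : Fin (S.ar f) → GT S) (t : GT S) (i : Fin (S.ar f)) :
      Gt (s i) t → Gt (GT.app f s) t
  | sub' (f : Fin S.n) (s : Fin (S.ar f) → GT S) (t : GT S) (i : Fin (S.ar f)) :
      Eqv st (s i) t → Gt (GT.app f s) t
  | prec (f g : Fin S.n) (s : Fin (S.ar f) → GT S) (t : Fin (S.ar g) → GT S) :
      prec f g → (∀ j, Gt (GT.app f s) (t j)) → Gt (GT.app f s) (GT.app g t)
  | lex (f : Fin S.n) (s t : Fin (S.ar f) → GT S) (i : Fin (S.ar f)) :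
      st f = Status.lex → (∀ j, Gt (GT.app f s) (t j)) →
      (∀ j, j < i → Eqv st (s j) (t j)) → Gt (s i) (t i) → Gt (GT.app f s) (GT.app f t)
  | mul (f : Fin S.n) (s t : Fin (S.ar f) → GT S) (X : Finset (Fin (S.ar f)))
      (σ : Equiv.Perm (Fin (S.ar f))) (d : Fin (S.ar f) → Fin (S.ar f)) :
      st f = Status.mul → (∀ j, Gt (GT.app f s) (t j)) → X.Nonempty →
      (∀ i, i ∉ X → Eqv st (s i) (t (σ i))) →
      (∀ i, i ∈ X → d i ∈ X) → (∀ i, i ∈ X → Gt (s (d i)) (t (σ i))) →
      Gt (GT.app f s) (GT.app f t)

end order

/-- Terms with variables from `V`. -/
inductive Tm (S : Sig) (V : Type) : Type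
  | var (x : V) : Tm S V
  | app (f : Fin S.n) (args : Fin (S.ar f) → Tm S V) : Tm S V

/-- The value of a term under an assignment of ground terms to the variables. -/
def Tm.eval {S : Sig} {V : Type} (v : V → GT S) : Tm S V → GT S
  | .var x => v x
  | .app f args => GT.app f fun i => (args i).eval v

/-- Quantifier-free formulas: Boolean combinations of equations and ordering constraints. -/
inductive Fm (S : Sig) (V : Type) : Type
  | eq (s t : Tm S V) : Fm S V
  | gt (s t : Tm S V) : Fm S V
  | not (φ : Fm S V) : Fm S V
  | and (φ ψ : Fm S V) : Fm S V
  | or (φ ψ : Fm S V) : Fm S V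

/-- Truth of a quantifier-free formula in the term algebra with the recursive path ordering. -/
def Fm.holds {S : Sig} (prec : Fin S.n → Fin S.n → Prop) (st : Fin S.n → Status) {V : Type}
    (v : V → GT S) : Fm S V → Prop
  | .eq s t => s.eval v = t.eval v
  | .gt s t => Gt prec st (s.eval v) (t.eval v)
  | .not φ => ¬ φ.holds prec st v
  | .and φ ψ => φ.holds prec st v ∧ ψ.holds prec st v
  | .or φ ψ => φ.holds prec st v ∨ ψ.holds prec st v

/-- The code of a term with variables numbered by natural numbers. -/
def Tm.code {S : Sig} : Tm S ℕ → ℕ
  | .var x => Nat.pair 0 x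
  | .app f args => Nat.pair (f.val + 1) (Encodable.encode (List.ofFn fun i => (args i).code))

/-- The code of a quantifier-free formula with variables numbered by natural numbers. -/
def Fm.code {S : Sig} : Fm S ℕ → ℕ
  | .eq s t => Nat.pair 0 (Nat.pair s.code t.code)
  | .gt s t => Nat.pair 1 (Nat.pair s.code t.code)
  | .not φ => Nat.pair 2 φ.code
  | .and φ ψ => Nat.pair 3 (Nat.pair φ.code ψ.code)
  | .or φ ψ => Nat.pair 4 (Nat.pair φ.code ψ.code)

/-- The existential fragment is decidable: some algorithm decides, given (the code of) a
quantifier-free formula `φ`, whether the existential closure of `φ` is true. -/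
def ExDecidable (S : Sig) (prec : Fin S.n → Fin S.n → Prop) (st : Fin S.n → Status) : Prop :=
  ∃ D : ℕ → Prop, ComputablePred D ∧
    ∀ φ : Fm S ℕ, D φ.code ↔ ∃ v : ℕ → GT S, φ.holds prec st v

/-- Different terms have different codes. -/
theorem Tm.code_injective {S : Sig} : Function.Injective (Tm.code : Tm S ℕ → ℕ) := by
  intro s
  induction s with
  | var x =>
    intro t h
    cases t with
    | var y => simp only [Tm.code, Nat.pair_eq_pair, true_and] at h; rw [h]
    | app g b => simp only [Tm.code, Nat.pair_eq_pair] at h; omega
  | app f a ih =>
    intro t h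
    cases t with
    | var y => simp only [Tm.code, Nat.pair_eq_pair] at h; omega
    | app g b =>
      simp only [Tm.code, Nat.pair_eq_pair] at h
      obtain ⟨h1, h2⟩ := h
      have h3 : f = g := Fin.ext (by omega)
      subst h3
      have h4 := Encodable.encode_injective h2
      rw [List.ofFn_inj] at h4
      congr 1
      funext i
      exact ih i (congrFun h4 i)

/-- Different formulas have different codes. -/
theorem Fm.code_injective {S : Sig} : Function.Injective (Fm.code : Fm S ℕ → ℕ) := by
  intro s
  induction s with
  | eq s t =>
    intro r h
    cases r <;> simp only [Fm.code, Nat.pair_eq_pair] at h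
    · rw [Tm.code_injective h.2.1, Tm.code_injective h.2.2]
    all_goals omega
  | gt s t =>
    intro r h
    cases r <;> simp only [Fm.code, Nat.pair_eq_pair] at h
    · omega
    · rw [Tm.code_injective h.2.1, Tm.code_injective h.2.2]
    all_goals omega
  | not s ih =>
    intro r h
    cases r <;> simp only [Fm.code, Nat.pair_eq_pair] at h
    · omega
    · omega
    · rw [ih h.2]
    all_goals omega
  | and s t ih1 ih2 =>
    intro r h
    cases r <;> simp only [Fm.code, Nat.pair_eq_pair] at h
    · omega
    · omega
    · omega
    · rw [ih1 h.2.1, ih2 h.2.2]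
    · omega
  | or s t ih1 ih2 =>
    intro r h
    cases r <;> simp only [Fm.code, Nat.pair_eq_pair] at h
    · omega
    · omega
    · omega
    · omega
    · rw [ih1 h.2.1, ih2 h.2.2]

end Pool.Agent.Helper702.Rpo
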