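import Mathlib
import Pool.Agent.Helper702.RpoDefs

set_option autoImplicit false

namespace Pool.Agent.Helper702.Rpo

/-- two incomparable minimal unary symbols and a unique constant -/
structure Two (S : Sig) (prec : Fin S.n → Fin S.n → Prop) where
  z : Fin S.n
  a : Fin S.n
  c : Fin S.n
  hz : S.ar z = 0
  huniq : ∀ f, S.ar f = 0 → f = z
  ha : S.ar a = 1
  hc : S.ar c = 1
  hac : a ≠ c
  hirr : ∀ f, ¬ prec f f
  hma : ∀ f, prec a f → S.ar f = 0
  hmc : ∀ f, prec c f → S.ar f = 0

namespace Two

variable {S : Sig} {prec : Fin S.n → Fin S.n → Prop} (st : Fin S.n → Status) (D : Two S prec)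

/-- the letter for a Boolean -/
def sy (b : Bool) : Fin S.n := if b then D.a else D.c

theorem ar_sy (b : Bool) : S.ar (D.sy b) = 1 := by
  cases b
  · simpa [sy] using D.hc
  · simpa [sy] using D.ha

theorem sy_inj {b b' : Bool} (h : D.sy b = D.sy b') : b = b' := by
  cases b <;> cases b' <;> simp [sy] at h ⊢
  · exact D.hac h.symm
  · exact D.hac h

theorem sy_ne_z (b : Bool) : D.sy b ≠ D.z := by
  intro h
  have h1 := D.ar_sy b
  rw [h, D.hz] at h1
  exact absurd h1 (by norm_num)

theorem sy_min (b : Bool) (f : Fin S.n) (h : prec (D.sy b) f) : S.ar f = 0 := by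
  cases b
  · exact D.hmc f (by simpa [sy] using h)
  · exact D.hma f (by simpa [sy] using h)

/-- the term of a word -/
def wd : List Bool → GT S
  | [] => GT.app D.z fun i => (Fin.cast D.hz i).elim0
  | b :: l => GT.app (D.sy b) fun _ => wd l

theorem app_z (s : Fin (S.ar D.z) → GT S) : GT.app D.z s = D.wd [] := by
  rw [wd]
  congr 1
  funext i
  exact (Fin.cast D.hz i).elim0

theorem app_sy (b : Bool) (s : Fin (S.ar (D.sy b)) → GT S) (i : Fin (S.ar (D.sy b))) (l : List Bool) (h : s i = D.wd l) :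
    GT.app (D.sy b) s = D.wd (b :: l) := by
  rw [wd]
  congr 1
  funext j
  have hsub : Subsingleton (Fin (S.ar (D.sy b))) := by
    rw [D.ar_sy b]
    infer_instance
  rw [Subsingleton.elim j i, h]

theorem wd_cons_inj {b b' : Bool} {l l' : List Bool} (h : D.wd (b :: l) = D.wd (b' :: l')) :
    b = b' ∧ D.wd l = D.wd l' := by
  rw [wd, wd] at h
  have h1 := GT.app.inj h
  obtain ⟨h2, h3⟩ := h1
  have h4 := D.sy_inj h2
  subst h4
  refine ⟨rfl, ?_⟩
  have h5 := eq_of_heq h3
  exact congrFun h5 (Fin.cast (D.ar_sy b).symm 0)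

theorem wd_inj : ∀ {l l' : List Bool}, D.wd l = D.wd l' → l = l'
  | [], [], _ => rfl
  | [], b :: l', h => by
    rw [wd, wd] at h
    exact absurd (GT.app.inj h).1.symm (D.sy_ne_z b)
  | b :: l, [], h => by
    rw [wd, wd] at h
    exact absurd (GT.app.inj h).1 (D.sy_ne_z b)
  | b :: l, b' :: l', h => by
    obtain ⟨h1, h2⟩ := D.wd_cons_inj h
    rw [h1, wd_inj h2]

/-- being the term of a word -/
def IsW (x : GT S) : Prop := ∃ l, x = D.wd l

theorem isW_app {f : Fin S.n} {s : Fin (S.ar f) → GT S} (h : D.IsW (GT.app f s)) :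
    Subsingleton (Fin (S.ar f)) ∧ ∀ i, D.IsW (s i) := by
  obtain ⟨l, hl⟩ := h
  cases l with
  | nil =>
    rw [wd] at hl
    obtain ⟨h1, h2⟩ := GT.app.inj hl
    subst h1
    have : IsEmpty (Fin (S.ar D.z)) := ⟨fun i => (Fin.cast D.hz i).elim0⟩
    exact ⟨inferInstance, fun i => this.elim i⟩
  | cons b l =>
    rw [wd] at hl
    obtain ⟨h1, h2⟩ := GT.app.inj hl
    subst h1
    refine ⟨by rw [D.ar_sy b]; infer_instance, fun i => ⟨l, ?_⟩⟩
    rw [eq_of_heq h2]

theorem eqv_isW {x y : GT S} (h : Eqv st x y) : (D.IsW x ∨ D.IsW y) → x = y := by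
  induction h with
  | refl s => exact fun _ => rfl
  | symm s t _ ih => exact fun h => (ih h.symm).symm
  | trans s t u _ _ ih1 ih2 =>
    rintro (h | h)
    · have h1 := ih1 (Or.inl h)
      rw [h1]
      exact ih2 (Or.inl (h1 ▸ h))
    · have h1 := ih2 (Or.inr h)
      rw [← h1]
      exact ih1 (Or.inr (h1 ▸ h))
  | congr f s t _ ih =>
    rintro (h | h)
    · obtain ⟨-, h2⟩ := D.isW_app h
      congr 1
      funext i
      exact ih i (Or.inl (h2 i))
    · obtain ⟨-, h2⟩ := D.isW_app h
      congr 1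
      funext i
      exact ih i (Or.inr (h2 i))
  | perm f s σ _ =>
    intro h
    have h1 : Subsingleton (Fin (S.ar f)) := by
      rcases h with h | h
      · exact (D.isW_app h).1
      · exact (D.isW_app h).1
    congr 1
    funext i
    rw [Function.comp_apply, Subsingleton.elim (σ i) i]

/-- inversion of the ordering when the left term is a word -/
theorem gt_inv {f : Fin S.n} {s : Fin (S.ar f) → GT S} {y : GT S} (h : Gt prec st (GT.app f s) y) :
    (∃ i, Gt prec st (s i) y ∨ Eqv st (s i) y) ∨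
    (∃ g t, y = GT.app g t ∧ prec f g ∧ ∀ j, Gt prec st (GT.app f s) (t j)) ∨
    (∃ t i j, y = GT.app f t ∧ Gt prec st (s i) (t j)) := by
  cases h with
  | sub f s t i h => exact Or.inl ⟨i, Or.inl h⟩
  | sub' f s t i h => exact Or.inl ⟨i, Or.inr h⟩
  | prec f g s t h1 h2 => exact Or.inr (Or.inl ⟨g, t, rfl, h1, h2⟩)
  | lex f s t i h1 h2 h3 h4 => exact Or.inr (Or.inr ⟨t, i, i, rfl, h4⟩)
  | mul f s t X σ d h1 h2 h3 h4 h5 h6 =>
    obtain ⟨i, hi⟩ := h3
    exact Or.inr (Or.inr ⟨t, d i, σ i, rfl, h6 i hi⟩)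

theorem not_gt_nil (l : List Bool) : ¬ Gt prec st (D.wd []) (D.wd l) := by
  have hE : IsEmpty (Fin (S.ar D.z)) := ⟨fun i => (Fin.cast D.hz i).elim0⟩
  induction l with
  | nil =>
    intro h
    rw [wd] at h
    rcases gt_inv st h with ⟨i, -⟩ | ⟨g, t, h1, h2, -⟩ | ⟨t, i, -⟩
    · exact hE.elim i
    · have := (GT.app.inj h1).1
      rw [← this] at h2
      exact D.hirr _ h2
    · exact hE.elim i
  | cons b l ih =>
    intro h
    have h' := h
    rw [wd] at h'
    rcases gt_inv st h' with ⟨i, -⟩ | ⟨g, t, h1, h2, h3⟩ | ⟨t, i, -⟩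
    · exact hE.elim i
    · rw [wd] at h1
      obtain ⟨h4, h5⟩ := GT.app.inj h1
      subst h4
      have h6 := eq_of_heq h5
      have h7 := h3 (Fin.cast (D.ar_sy b).symm 0)
      rw [← h6] at h7
      apply ih
      rw [wd]
      exact h7
    · exact hE.elim i

theorem gt_sub : ∀ (l l' : List Bool), Gt prec st (D.wd l) (D.wd l') → List.Sublist l' l ∧ l' ≠ l := by
  intro l
  induction l with
  | nil => exact fun l' h => absurd h (D.not_gt_nil st l')
  | cons b l ih =>
    intro l' h
    rw [show D.wd (b :: l) = GT.app (D.sy b) fun _ => D.wd l by rw [wd]] at h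
    rcases gt_inv st h with ⟨i, h1 | h1⟩ | ⟨g, t, h1, h2, -⟩ | ⟨t, i, j, h1, h2⟩
    · obtain ⟨h2, -⟩ := ih l' h1
      refine ⟨h2.cons b, fun h3 => ?_⟩
      have := h2.length_le
      rw [h3, List.length_cons] at this
      omega
    · have := D.wd_inj (D.eqv_isW st h1 (Or.inl ⟨l, rfl⟩))
      subst this
      exact ⟨List.sublist_cons_self b l, fun h3 => by simpa using congrArg List.length h3⟩
    · have h3 := D.sy_min b g h2
      have h4 := D.huniq g h3
      subst h4
      rw [D.app_z] at h1
      have := D.wd_inj h1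
      subst this
      exact ⟨List.nil_sublist _, by simp⟩
    · cases l' with
      | nil => exact ⟨List.nil_sublist _, by simp⟩
      | cons b' l' =>
        rw [wd] at h1
        obtain ⟨h3, h4⟩ := GT.app.inj h1
        have h5 := D.sy_inj h3
        subst h5
        have h6 := eq_of_heq h4
        rw [← h6] at h2
        obtain ⟨h7, h8⟩ := ih l' h2
        exact ⟨h7.cons_cons b', fun h9 => h8 (List.cons_inj_right b' |>.1 h9)⟩

theorem sub_gt {l' l : List Bool} (h : List.Sublist l' l) : l' ≠ l → Gt prec st (D.wd l) (D.wd l') := by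
  induction h with
  | slnil => exact fun h => absurd rfl h
  | @cons l1 l2 b h ih =>
    intro _
    rw [show D.wd (b :: l2) = GT.app (D.sy b) fun _ => D.wd l2 by rw [wd]]
    by_cases h1 : l1 = l2
    · subst h1
      exact Gt.sub' _ _ _ (Fin.cast (D.ar_sy b).symm 0) (Eqv.refl _)
    · exact Gt.sub _ _ _ (Fin.cast (D.ar_sy b).symm 0) (ih h1)
  | @cons_cons l1 l2 b h ih =>
    intro h1
    have h2 : l1 ≠ l2 := fun h3 => h1 (by rw [h3])
    have h3 := ih h2
    rw [show D.wd (b :: l2) = GT.app (D.sy b) fun _ => D.wd l2 by rw [wd],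
      show D.wd (b :: l1) = GT.app (D.sy b) fun _ => D.wd l1 by rw [wd]]
    have h4 : Gt prec st (GT.app (D.sy b) fun _ => D.wd l2) (D.wd l1) :=
      Gt.sub _ _ _ (Fin.cast (D.ar_sy b).symm 0) h3
    have hsub : Subsingleton (Fin (S.ar (D.sy b))) := by
      rw [D.ar_sy b]
      infer_instance
    cases hs : st (D.sy b) with
    | lex =>
      refine Gt.lex _ _ _ (Fin.cast (D.ar_sy b).symm 0) hs (fun _ => h4) (fun j hj => ?_) h3
      rw [Subsingleton.elim j (Fin.cast (D.ar_sy b).symm 0)] at hj
      exact absurd hj (lt_irrefl _)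
    | mul =>
      exact Gt.mul _ _ _ Finset.univ (Equiv.refl _) id hs (fun _ => h4)
        ⟨Fin.cast (D.ar_sy b).symm 0, Finset.mem_univ _⟩ (fun i hi => absurd (Finset.mem_univ i) hi)
        (fun i _ => Finset.mem_univ _) (fun i _ => h3)

/-- on words, the reflexive closure of the ordering is the subword relation -/
theorem ge_iff (l l' : List Bool) :
    (Gt prec st (D.wd l) (D.wd l') ∨ D.wd l = D.wd l') ↔ List.Sublist l' l := by
  constructor
  · rintro (h | h)
    · exact (D.gt_sub st l l' h).1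
    · rw [D.wd_inj h]
  · intro h
    by_cases h1 : l' = l
    · right; rw [h1]
    · left; exact D.sub_gt st h h1

theorem ge_zero (x : GT S) : Gt prec st x (D.wd []) ∨ x = D.wd [] := by
  induction x with
  | app f s ih =>
    by_cases h : S.ar f = 0
    · right
      have := D.huniq f h
      subst this
      exact D.app_z s
    · left
      have h0 : 0 < S.ar f := Nat.pos_of_ne_zero h
      rcases ih ⟨0, h0⟩ with h1 | h1
      · exact Gt.sub _ _ _ _ h1
      · exact Gt.sub' _ _ _ _ (by rw [h1]; exact Eqv.refl _)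

/-- the smallest term with a given head -/
def bot (f : Fin S.n) : GT S := GT.app f fun _ => D.wd []

theorem ge_bot (f : Fin S.n) (s : Fin (S.ar f) → GT S) :
    Gt prec st (GT.app f s) (D.bot f) ∨ GT.app f s = D.bot f := by
  by_cases h : ∀ i, s i = D.wd []
  · right
    rw [bot]
    congr 1
    funext i
    exact h i
  · left
    push Not at h
    obtain ⟨i0, hi0⟩ := h
    have h1 : ∀ i, s i ≠ D.wd [] → Gt prec st (s i) (D.wd []) := fun i hi => (D.ge_zero st (s i)).resolve_right hi
    have h2 : Gt prec st (GT.app f s) (D.wd []) := Gt.sub _ _ _ i0 (h1 i0 hi0)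
    rw [bot]
    cases hs : st f with
    | lex =>
      classical
      have hex : ∃ k : ℕ, ∃ hk : k < S.ar f, s ⟨k, hk⟩ ≠ D.wd [] := ⟨i0.val, i0.isLt, hi0⟩
      obtain ⟨hk, hk2⟩ := Nat.find_spec hex
      refine Gt.lex _ _ _ ⟨Nat.find hex, hk⟩ hs (fun _ => h2) (fun j hj => ?_) (h1 _ hk2)
      have h3 : ¬ ∃ hk : j.val < S.ar f, s ⟨j.val, hk⟩ ≠ D.wd [] := Nat.find_min hex hj
      have h4 : s j = D.wd [] := by
        by_contra h5
        exact h3 ⟨j.isLt, h5⟩
      rw [h4]
      exact Eqv.refl _
    | mul =>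
      classical
      refine Gt.mul _ _ _ (Finset.univ.filter fun i => s i ≠ D.wd []) (Equiv.refl _) id hs (fun _ => h2)
        ⟨i0, by simpa using hi0⟩ (fun i hi => ?_) (fun i hi => hi) (fun i hi => ?_)
      · have h4 : s i = D.wd [] := by simpa using hi
        rw [h4]
        exact Eqv.refl _
      · exact h1 i (by simpa using hi)

theorem isW_of (x : GT S) (h : ∀ f, f ≠ D.z → f ≠ D.a → f ≠ D.c →
    ¬ (Gt prec st x (D.bot f) ∨ x = D.bot f)) : D.IsW x := by
  induction x with
  | app f s ih =>
    have h1 : ∀ i, D.IsW (s i) := by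
      intro i
      apply ih i
      intro g g1 g2 g3 hg
      apply h g g1 g2 g3
      left
      rcases hg with hg | hg
      · exact Gt.sub _ _ _ i hg
      · exact Gt.sub' _ _ _ i (by rw [hg]; exact Eqv.refl _)
    by_cases hz : f = D.z
    · subst hz
      exact ⟨[], D.app_z s⟩
    by_cases ha : f = D.a
    · have : f = D.sy true := by simpa [sy] using ha
      subst this
      obtain ⟨l, hl⟩ := h1 (Fin.cast (D.ar_sy true).symm 0)
      exact ⟨true :: l, D.app_sy true s _ l hl⟩
    by_cases hc : f = D.c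
    · have : f = D.sy false := by simpa [sy] using hc
      subst this
      obtain ⟨l, hl⟩ := h1 (Fin.cast (D.ar_sy false).symm 0)
      exact ⟨false :: l, D.app_sy false s _ l hl⟩
    exact absurd (D.ge_bot st f s) (h f hz ha hc)

theorem isW_iff (x : GT S) : D.IsW x ↔ ∀ f, f ≠ D.z → f ≠ D.a → f ≠ D.c →
    ¬ (Gt prec st x (D.bot f) ∨ x = D.bot f) := by
  refine ⟨?_, D.isW_of st x⟩
  rintro ⟨l, rfl⟩ f hz ha hc
  have hbot : ∀ l', D.wd l' ≠ D.bot f := by
    intro l' h
    cases l' with
    | nil => rw [wd, bot] at h; exact hz (GT.app.inj h).1.symm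
    | cons b l' =>
      rw [wd, bot] at h
      have := (GT.app.inj h).1.symm
      cases b
      · exact hc (by simpa [sy] using this)
      · exact ha (by simpa [sy] using this)
  rintro (h | h)
  · have hg : ∀ l' : List Bool, ¬ Gt prec st (D.wd l') (D.bot f) := by
      intro l'
      induction l' with
      | nil =>
        intro h
        have hE : IsEmpty (Fin (S.ar D.z)) := ⟨fun i => (Fin.cast D.hz i).elim0⟩
        have h' := h
        rw [wd] at h'
        rcases gt_inv st h' with ⟨i, -⟩ | ⟨g, t, h1, h2, h3⟩ | ⟨t, i, -⟩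
        · exact hE.elim i
        · rw [bot] at h1
          obtain ⟨h4, h5⟩ := GT.app.inj h1
          subst h4
          have h6 := eq_of_heq h5
          have h0 : 0 < S.ar f := by
            rcases Nat.eq_zero_or_pos (S.ar f) with h0 | h0
            · exact absurd (D.huniq f h0) hz
            · exact h0
          have h7 := h3 ⟨0, h0⟩
          rw [← h6] at h7
          apply D.not_gt_nil st []
          rw [wd] at h7 ⊢
          exact h7
        · exact hE.elim i
      | cons b l' ih =>
        intro h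
        have h' := h
        rw [wd] at h'
        rcases gt_inv st h' with ⟨i, h1 | h1⟩ | ⟨g, t, h1, h2, -⟩ | ⟨t, i, j, h1, h2⟩
        · exact ih h1
        · exact hbot l' (D.eqv_isW st h1 (Or.inl ⟨l', rfl⟩))
        · rw [bot] at h1
          obtain ⟨h4, h5⟩ := GT.app.inj h1
          subst h4
          exact hz (D.huniq f (D.sy_min b f h2))
        · rw [bot] at h1
          have := (GT.app.inj h1).1
          cases b
          · exact hc (by simpa [sy] using this)
          · exact ha (by simpa [sy] using this)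
    exact hg l h
  · exact hbot l h

end Two

end Pool.Agent.Helper702.Rpo
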