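import Mathlib
import Pool.Agent.Helper702.RpoWord
import Pool.Agent.Helper702.RpoComb

set_option autoImplicit false

namespace Pool.Agent.Helper702.Rpo

variable {S : Sig}

/-- renaming of the variables of a term -/
def Tm.map {V V' : Type} (f : V → V') : Tm S V → Tm S V'
  | .var x => .var (f x)
  | .app g a => .app g fun i => (a i).map f

/-- renaming of the variables of a formula -/
def Fm.map {V V' : Type} (f : V → V') : Fm S V → Fm S V'
  | .eq s t => .eq (s.map f) (t.map f)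
  | .gt s t => .gt (s.map f) (t.map f)
  | .not φ => .not (φ.map f)
  | .and φ ψ => .and (φ.map f) (ψ.map f)
  | .or φ ψ => .or (φ.map f) (ψ.map f)

theorem Tm.eval_map {V V' : Type} (f : V → V') (v : V' → GT S) (t : Tm S V) :
    (t.map f).eval v = t.eval (v ∘ f) := by
  induction t with
  | var x => rfl
  | app g a ih =>
    simp only [Tm.map, Tm.eval]
    congr 1
    funext i
    exact ih i

theorem Fm.holds_map (prec : Fin S.n → Fin S.n → Prop) (st : Fin S.n → Status) {V V' : Type}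
    (f : V → V') (v : V' → GT S) (φ : Fm S V) :
    (φ.map f).holds prec st v ↔ φ.holds prec st (v ∘ f) := by
  induction φ with
  | eq s t => simp only [Fm.map, Fm.holds, Tm.eval_map]
  | gt s t => simp only [Fm.map, Fm.holds, Tm.eval_map]
  | not φ ih => simp only [Fm.map, Fm.holds, ih]
  | and φ ψ ih1 ih2 => simp only [Fm.map, Fm.holds, ih1, ih2]
  | or φ ψ ih1 ih2 => simp only [Fm.map, Fm.holds, ih1, ih2]

namespace Two

open List

variable {prec : Fin S.n → Fin S.n → Prop} (st : Fin S.n → Status) (D : Two S prec)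

/-- word expressions: a constant prefix followed by a variable or by nothing -/
abbrev Ex (V : Type) := List Bool × Option V

/-- value of a word expression -/
def exval {V : Type} (v : V → List Bool) (e : Ex V) : List Bool := e.1 ++ e.2.elim [] v

/-- term of a word expression -/
def extm {V : Type} (e : Ex V) : Tm S V :=
  e.1.foldr (fun b t => Tm.app (D.sy b) fun _ => t)
    (e.2.elim (Tm.app D.z fun i => (Fin.cast D.hz i).elim0) Tm.var)

theorem extm_eval {V : Type} (v : V → List Bool) (e : Ex V) :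
    (D.extm e).eval (fun x => D.wd (v x)) = D.wd (exval v e) := by
  obtain ⟨p, x⟩ := e
  induction p with
  | nil =>
    cases x with
    | none =>
      simp only [extm, exval, List.foldr_nil, Option.elim_none, Tm.eval, List.append_nil]
      exact D.app_z _
    | some x => simp [extm, exval, Tm.eval]
  | cons b p ih =>
    simp only [extm, exval, List.foldr_cons, Tm.eval, List.cons_append]
    simp only [extm, exval] at ih
    rw [ih, wd]

/-- quantifier-free definability over words -/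
def QF {V : Type} (R : (V → List Bool) → Prop) : Prop :=
  ∃ φ : Fm S V, ∀ v, R v ↔ φ.holds prec st (fun x => D.wd (v x))

/-- existential definability over words -/
def ED {V : Type} (R : (V → List Bool) → Prop) : Prop :=
  ∃ φ : Fm S (V ⊕ ℕ), ∀ v : V → List Bool, R v ↔
    ∃ t : ℕ → List Bool, φ.holds prec st (fun x => D.wd (Sum.elim v t x))

section qf

variable {V : Type}

theorem QF.sub (e e' : Ex V) : D.QF st (fun v => exval v e <+ exval v e') := by
  refine ⟨Fm.or (Fm.gt (D.extm e') (D.extm e)) (Fm.eq (D.extm e') (D.extm e)), fun v => ?_⟩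
  simp only [Fm.holds, extm_eval]
  exact (D.ge_iff st _ _).symm

theorem QF.eq (e e' : Ex V) : D.QF st (fun v => exval v e = exval v e') := by
  refine ⟨Fm.eq (D.extm e) (D.extm e'), fun v => ?_⟩
  simp only [Fm.holds, extm_eval]
  exact ⟨fun h => by rw [h], fun h => D.wd_inj h⟩

variable {D} {st} {R R' : (V → List Bool) → Prop}

theorem QF.not (h : D.QF st R) : D.QF st (fun v => ¬ R v) := by
  obtain ⟨φ, hφ⟩ := h
  exact ⟨φ.not, fun v => by simp only [Fm.holds, hφ v]⟩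

theorem QF.and (h : D.QF st R) (h' : D.QF st R') : D.QF st (fun v => R v ∧ R' v) := by
  obtain ⟨φ, hφ⟩ := h
  obtain ⟨ψ, hψ⟩ := h'
  exact ⟨φ.and ψ, fun v => by simp only [Fm.holds, hφ v, hψ v]⟩

theorem QF.or (h : D.QF st R) (h' : D.QF st R') : D.QF st (fun v => R v ∨ R' v) := by
  obtain ⟨φ, hφ⟩ := h
  obtain ⟨ψ, hψ⟩ := h'
  exact ⟨φ.or ψ, fun v => by simp only [Fm.holds, hφ v, hψ v]⟩

theorem QF.ed (h : D.QF st R) : D.ED st R := by
  obtain ⟨φ, hφ⟩ := h
  refine ⟨φ.map Sum.inl, fun v => ?_⟩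
  rw [hφ v]
  constructor
  · intro h
    refine ⟨fun _ => [], ?_⟩
    rw [Fm.holds_map]
    exact h
  · rintro ⟨t, h⟩
    rw [Fm.holds_map] at h
    exact h

end qf

section ed

variable {D} {st} {V V' : Type} {R R' : (V → List Bool) → Prop}

theorem ED.congr (h : D.ED st R) (h' : ∀ v, R v ↔ R' v) : D.ED st R' := by
  obtain ⟨φ, hφ⟩ := h
  exact ⟨φ, fun v => by rw [← h' v, hφ v]⟩

/-- merging two blocks of auxiliary variables -/
theorem merge (t1 t2 : ℕ → List Bool) : ∃ t : ℕ → List Bool,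
    (∀ n, t (2 * n) = t1 n) ∧ (∀ n, t (2 * n + 1) = t2 n) := by
  refine ⟨fun n => if n % 2 = 0 then t1 (n / 2) else t2 (n / 2), fun n => ?_, fun n => ?_⟩
  · have h1 : 2 * n % 2 = 0 := by omega
    have h2 : 2 * n / 2 = n := by omega
    simp only [h1, h2, if_true]
  · have h1 : (2 * n + 1) % 2 = 1 := by omega
    have h2 : (2 * n + 1) / 2 = n := by omega
    simp only [h1, h2]
    rfl

theorem ED.and (h : D.ED st R) (h' : D.ED st R') : D.ED st (fun v => R v ∧ R' v) := by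
  obtain ⟨φ, hφ⟩ := h
  obtain ⟨ψ, hψ⟩ := h'
  refine ⟨(φ.map (Sum.map id (fun n => 2 * n))).and (ψ.map (Sum.map id (fun n => 2 * n + 1))), fun v => ?_⟩
  show R v ∧ R' v ↔ _
  rw [hφ v, hψ v]
  simp only [Fm.holds, Fm.holds_map]
  constructor
  · rintro ⟨⟨t1, h1⟩, t2, h2⟩
    obtain ⟨t, e1, e2⟩ := merge t1 t2
    refine ⟨t, ?_, ?_⟩
    · convert h1 using 1
      funext x
      rcases x with x | x
      · rfl
      · simp [e1]
    · convert h2 using 1
      funext x
      rcases x with x | x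
      · rfl
      · simp [e2]
  · rintro ⟨t, h1, h2⟩
    refine ⟨⟨fun n => t (2 * n), ?_⟩, ⟨fun n => t (2 * n + 1), ?_⟩⟩
    · convert h1 using 1
      funext x
      rcases x with x | x <;> rfl
    · convert h2 using 1
      funext x
      rcases x with x | x <;> rfl

theorem ED.or (h : D.ED st R) (h' : D.ED st R') : D.ED st (fun v => R v ∨ R' v) := by
  obtain ⟨φ, hφ⟩ := h
  obtain ⟨ψ, hψ⟩ := h'
  refine ⟨φ.or ψ, fun v => ?_⟩
  show R v ∨ R' v ↔ _
  rw [hφ v, hψ v]
  simp only [Fm.holds]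
  exact exists_or.symm

theorem ED.map (f : V → V') (h : D.ED st R) : D.ED st (fun v => R (fun x => v (f x))) := by
  obtain ⟨φ, hφ⟩ := h
  refine ⟨φ.map (Sum.map f id), fun v => ?_⟩
  show R (fun x => v (f x)) ↔ _
  rw [hφ]
  simp only [Fm.holds_map]
  refine exists_congr fun t => ?_
  have : ((fun x => D.wd (Sum.elim v t x)) ∘ Sum.map f id) = fun x => D.wd (Sum.elim (fun x => v (f x)) t x) := by
    funext x
    rcases x with x | x <;> rfl
  rw [this]

theorem ED.ex {Q : (V ⊕ ℕ → List Bool) → Prop} (h : D.ED st Q) :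
    D.ED st (fun v => ∃ t : ℕ → List Bool, Q (Sum.elim v t)) := by
  obtain ⟨φ, hφ⟩ := h
  refine ⟨φ.map (Sum.elim (Sum.map id (fun n => 2 * n)) (fun n => Sum.inr (2 * n + 1))), fun v => ?_⟩
  simp only [hφ, Fm.holds_map]
  constructor
  · rintro ⟨t1, t2, h⟩
    obtain ⟨t, e1, e2⟩ := merge t1 t2
    refine ⟨t, ?_⟩
    convert h using 1
    funext x
    rcases x with (x | x) | x
    · rfl
    · simp [e1]
    · simp [e2]
  · rintro ⟨t, h⟩
    refine ⟨fun n => t (2 * n), fun n => t (2 * n + 1), ?_⟩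
    convert h using 1
    funext x
    rcases x with (x | x) | x <;> rfl

end ed

section gadgets

/-- addition relation on words -/
def AddR (x y z : List Bool) : Prop := ∃ t W : List Bool,
    (x <+ t ∧ ¬ (true :: x <+ t)) ∧ [false] <+ t ∧ ¬ ([false, false] <+ t) ∧ ¬ ([false, true] <+ t) ∧
    (z <+ W ∧ ¬ (true :: z <+ W)) ∧ ¬ ([false, false] <+ W) ∧ t <+ W ∧ ¬ (true :: t <+ W) ∧
    false :: y <+ W ∧ ¬ (false :: true :: y <+ W)

theorem addR_iff (i j k : ℕ) : AddR (A i) (A j) (A k) ↔ i + j = k := (add_iff i j k).symm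

/-- multiplication relation on words, the second argument in the letter `c` -/
def MulR (X Y Z : List Bool) : Prop := ∃ T R S w v y Z' : List Bool,
    (¬ ([true, false] <+ T) ∧ (Y <+ T ∧ ¬ (false :: Y <+ T)) ∧ (X <+ T ∧ ¬ (true :: X <+ T))) ∧
    (¬ ([true, false] <+ R) ∧ (Y <+ R ∧ ¬ (false :: Y <+ R)) ∧ ([true] <+ R ∧ ¬ ([true, true] <+ R))) ∧
    (¬ ([false, true] <+ S) ∧ (Y <+ S ∧ ¬ (false :: Y <+ S)) ∧ (X <+ S ∧ ¬ (true :: X <+ S))) ∧
    ((Y <+ w ∧ ¬ (false :: Y <+ w)) ∧ (Z <+ w ∧ ¬ (true :: Z <+ w)) ∧ T <+ w) ∧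
    ((Y <+ v ∧ ¬ (false :: Y <+ v)) ∧ (Z <+ v ∧ ¬ (true :: Z <+ v)) ∧ ¬ (R <+ v) ∧ w <+ false :: v) ∧
    ((Y <+ y ∧ ¬ (false :: Y <+ y)) ∧ (Z' <+ y ∧ ¬ (true :: Z' <+ y)) ∧ v <+ y ∧ w <+ y ∧ T <+ y ∧ S <+ y) ∧
    (¬ ([false] <+ Z') ∧ AddR Z X Z')

theorem mulR_iff (n m N : ℕ) (hn : 1 ≤ n) (hm : 1 ≤ m) : MulR (A n) (C m) (A N) ↔ N = n * m := by
  rw [mul_iff n m N hn hm]
  unfold MulR
  constructor
  · rintro ⟨T, R, S, w, v, y, Z', h1, h2, h3, h4, h5, h6, h7, h8⟩
    obtain ⟨N', rfl⟩ := (isA_iff Z').1 h7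
    exact ⟨T, R, S, w, v, y, N', h1, h2, h3, h4, h5, h6, (addR_iff _ _ _).1 h8⟩
  · rintro ⟨T, R, S, w, v, y, N', h1, h2, h3, h4, h5, h6, h7⟩
    refine ⟨T, R, S, w, v, y, A N', h1, h2, h3, h4, h5, h6, ?_, (addR_iff _ _ _).2 h7⟩
    rw [isA_iff]
    exact ⟨N', rfl⟩

/-- full multiplication relation -/
def TimesR (x y z : List Bool) : Prop :=
  (x = [] ∧ z = []) ∨ (y = [] ∧ z = []) ∨ ((x ≠ [] ∧ y ≠ []) ∧ ∃ X Y : List Bool, X = [true] ∧
    ¬ ([true] <+ Y) ∧ Y ≠ [] ∧ MulR X Y y ∧ MulR x Y z)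

theorem timesR_iff (i j k : ℕ) : TimesR (A i) (A j) (A k) ↔ i * j = k := by
  have h0 : ∀ n, A n = [] ↔ n = 0 := fun n => List.replicate_eq_nil_iff true
  rcases Nat.eq_zero_or_pos i with hi | hi
  · subst hi
    constructor
    · rintro (⟨-, h⟩ | ⟨-, h⟩ | ⟨⟨h, -⟩, -⟩)
      · rw [h0] at h
        rw [h, zero_mul]
      · rw [h0] at h
        rw [h, zero_mul]
      · exact absurd rfl h
    · intro h
      left
      refine ⟨rfl, ?_⟩
      rw [h0, ← h, zero_mul]
  rcases Nat.eq_zero_or_pos j with hj | hj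
  · subst hj
    constructor
    · rintro (⟨h, -⟩ | ⟨-, h⟩ | ⟨⟨-, h⟩, -⟩)
      · rw [h0] at h
        omega
      · rw [h0] at h
        rw [h, mul_zero]
      · exact absurd rfl h
    · intro h
      right; left
      refine ⟨rfl, ?_⟩
      rw [h0, ← h, mul_zero]
  constructor
  · rintro (⟨h, -⟩ | ⟨h, -⟩ | ⟨-, X, Y, rfl, h1, h2, h3, h4⟩)
    · rw [h0] at h
      omega
    · rw [h0] at h
      omega
    obtain ⟨m, rfl⟩ := (isC_iff Y).1 h1
    have hm : 1 ≤ m := by
      rcases Nat.eq_zero_or_pos m with h | h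
      · subst h; exact absurd rfl h2
      · exact h
    have h5 := (mulR_iff 1 m j le_rfl hm).1 h3
    have h6 := (mulR_iff i m k hi hm).1 h4
    rw [h6, h5, one_mul]
  · rintro rfl
    right; right
    refine ⟨⟨?_, ?_⟩, [true], C j, rfl, ?_, ?_, (mulR_iff 1 j j le_rfl hj).2 (by ring), (mulR_iff i j _ hi hj).2 rfl⟩
    · rw [ne_eq, h0]; omega
    · rw [ne_eq, h0]; omega
    · rw [isC_iff]; exact ⟨j, rfl⟩
    · rw [ne_eq, List.replicate_eq_nil_iff]; omega

variable {V : Type}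

/-- variable expression with a prefix -/
abbrev pv (p : List Bool) (x : V) : Ex V := (p, some x)

/-- constant expression -/
abbrev cv (p : List Bool) : Ex V := (p, none)

variable {D} {st}

theorem s0 (x y : V) : D.QF st (fun u => u x <+ u y) := by
  have := QF.sub st D (pv [] x) (pv [] y)
  simpa [exval] using this

theorem sT (x y : V) : D.QF st (fun u => true :: u x <+ u y) := by
  have := QF.sub st D (pv [true] x) (pv [] y)
  simpa [exval] using this

theorem sF (x y : V) : D.QF st (fun u => false :: u x <+ u y) := by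
  have := QF.sub st D (pv [false] x) (pv [] y)
  simpa [exval] using this

theorem sFT (x y : V) : D.QF st (fun u => false :: true :: u x <+ u y) := by
  have := QF.sub st D (pv [false, true] x) (pv [] y)
  simpa [exval] using this

theorem sR (x y : V) : D.QF st (fun u => u x <+ false :: u y) := by
  have := QF.sub st D (pv [] x) (pv [false] y)
  simpa [exval] using this

theorem sC (p : List Bool) (y : V) : D.QF st (fun u => p <+ u y) := by
  have := QF.sub st D (cv p) (pv [] y)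
  simpa only [exval, Option.elim_some, Option.elim_none, List.append_nil, List.nil_append] using this

theorem sE (p : List Bool) (y : V) : D.QF st (fun u => u y = p) := by
  have := QF.eq st D (pv [] y) (cv p)
  simpa only [exval, Option.elim_some, Option.elim_none, List.append_nil, List.nil_append] using this

theorem cnA (x y : V) : D.QF st (fun u => u x <+ u y ∧ ¬ (true :: u x <+ u y)) :=
  (s0 x y).and (sT x y).not

theorem cnC (x y : V) : D.QF st (fun u => u x <+ u y ∧ ¬ (false :: u x <+ u y)) :=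
  (s0 x y).and (sF x y).not

theorem ed_addR (i j k : V) : D.ED st (fun v => AddR (v i) (v j) (v k)) := by
  have h1 : D.QF st (V := V ⊕ ℕ) (fun u =>
      (u (Sum.inl i) <+ u (Sum.inr 0) ∧ ¬ (true :: u (Sum.inl i) <+ u (Sum.inr 0))) ∧
      [false] <+ u (Sum.inr 0) ∧ ¬ ([false, false] <+ u (Sum.inr 0)) ∧ ¬ ([false, true] <+ u (Sum.inr 0)) ∧
      (u (Sum.inl k) <+ u (Sum.inr 1) ∧ ¬ (true :: u (Sum.inl k) <+ u (Sum.inr 1))) ∧
      ¬ ([false, false] <+ u (Sum.inr 1)) ∧ u (Sum.inr 0) <+ u (Sum.inr 1) ∧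
      ¬ (true :: u (Sum.inr 0) <+ u (Sum.inr 1)) ∧
      false :: u (Sum.inl j) <+ u (Sum.inr 1) ∧ ¬ (false :: true :: u (Sum.inl j) <+ u (Sum.inr 1))) :=
    (cnA _ _).and ((sC _ _).and ((sC _ _).not.and ((sC _ _).not.and ((cnA _ _).and ((sC _ _).not.and
      ((s0 _ _).and ((sT _ _).not.and ((sF _ _).and (sFT _ _).not))))))))
  refine (h1.ed.ex).congr fun v => ?_
  simp only [Sum.elim_inl, Sum.elim_inr]
  constructor
  · rintro ⟨t, h⟩
    exact ⟨t 0, t 1, h⟩
  · rintro ⟨t, W, h⟩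
    exact ⟨fun n => if n = 0 then t else W, h⟩

theorem ed_mulR (i j k : V) : D.ED st (fun v => MulR (v i) (v j) (v k)) := by
  have h1 : D.QF st (V := V ⊕ ℕ) (fun u =>
      (¬ ([true, false] <+ u (Sum.inr 0)) ∧ (u (Sum.inl j) <+ u (Sum.inr 0) ∧ ¬ (false :: u (Sum.inl j) <+ u (Sum.inr 0))) ∧
        (u (Sum.inl i) <+ u (Sum.inr 0) ∧ ¬ (true :: u (Sum.inl i) <+ u (Sum.inr 0)))) ∧
      (¬ ([true, false] <+ u (Sum.inr 1)) ∧ (u (Sum.inl j) <+ u (Sum.inr 1) ∧ ¬ (false :: u (Sum.inl j) <+ u (Sum.inr 1))) ∧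
        ([true] <+ u (Sum.inr 1) ∧ ¬ ([true, true] <+ u (Sum.inr 1)))) ∧
      (¬ ([false, true] <+ u (Sum.inr 2)) ∧ (u (Sum.inl j) <+ u (Sum.inr 2) ∧ ¬ (false :: u (Sum.inl j) <+ u (Sum.inr 2))) ∧
        (u (Sum.inl i) <+ u (Sum.inr 2) ∧ ¬ (true :: u (Sum.inl i) <+ u (Sum.inr 2)))) ∧
      ((u (Sum.inl j) <+ u (Sum.inr 3) ∧ ¬ (false :: u (Sum.inl j) <+ u (Sum.inr 3))) ∧
        (u (Sum.inl k) <+ u (Sum.inr 3) ∧ ¬ (true :: u (Sum.inl k) <+ u (Sum.inr 3))) ∧ u (Sum.inr 0) <+ u (Sum.inr 3)) ∧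
      ((u (Sum.inl j) <+ u (Sum.inr 4) ∧ ¬ (false :: u (Sum.inl j) <+ u (Sum.inr 4))) ∧
        (u (Sum.inl k) <+ u (Sum.inr 4) ∧ ¬ (true :: u (Sum.inl k) <+ u (Sum.inr 4))) ∧
        ¬ (u (Sum.inr 1) <+ u (Sum.inr 4)) ∧ u (Sum.inr 3) <+ false :: u (Sum.inr 4)) ∧
      ((u (Sum.inl j) <+ u (Sum.inr 5) ∧ ¬ (false :: u (Sum.inl j) <+ u (Sum.inr 5))) ∧
        (u (Sum.inr 6) <+ u (Sum.inr 5) ∧ ¬ (true :: u (Sum.inr 6) <+ u (Sum.inr 5))) ∧
        u (Sum.inr 4) <+ u (Sum.inr 5) ∧ u (Sum.inr 3) <+ u (Sum.inr 5) ∧ u (Sum.inr 0) <+ u (Sum.inr 5) ∧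
        u (Sum.inr 2) <+ u (Sum.inr 5)) ∧ ¬ ([false] <+ u (Sum.inr 6))) :=
    ((sC _ _).not.and ((cnC _ _).and (cnA _ _))).and
    (((sC _ _).not.and ((cnC _ _).and ((sC _ _).and (sC _ _).not))).and
    (((sC _ _).not.and ((cnC _ _).and (cnA _ _))).and
    (((cnC _ _).and ((cnA _ _).and (s0 _ _))).and
    (((cnC _ _).and ((cnA _ _).and ((s0 _ _).not.and (sR _ _)))).and
    (((cnC _ _).and ((cnA _ _).and ((s0 _ _).and ((s0 _ _).and ((s0 _ _).and (s0 _ _)))))).and
    (sC _ _).not)))))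
  have h2 : D.ED st (V := V ⊕ ℕ) (fun u => AddR (u (Sum.inl k)) (u (Sum.inl i)) (u (Sum.inr 6))) := ed_addR _ _ _
  refine ((h1.ed.and h2).ex).congr fun v => ?_
  simp only [Sum.elim_inl, Sum.elim_inr]
  constructor
  · rintro ⟨t, ⟨a1, a2, a3, a4, a5, a6, a7⟩, a8⟩
    exact ⟨t 0, t 1, t 2, t 3, t 4, t 5, t 6, a1, a2, a3, a4, a5, a6, a7, a8⟩
  · rintro ⟨T, R, S', w, v', y, Z', a1, a2, a3, a4, a5, a6, a7, a8⟩
    exact ⟨fun n => match n with | 0 => T | 1 => R | 2 => S' | 3 => w | 4 => v' | 5 => y | _ => Z',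
      ⟨a1, a2, a3, a4, a5, a6, a7⟩, a8⟩

theorem ed_timesR (i j k : V) : D.ED st (fun v => TimesR (v i) (v j) (v k)) := by
  have h1 : D.ED st (V := V ⊕ ℕ) (fun u => (u (Sum.inr 0) = [true] ∧ ¬ ([true] <+ u (Sum.inr 1)) ∧ ¬ (u (Sum.inr 1) = []))
      ∧ MulR (u (Sum.inr 0)) (u (Sum.inr 1)) (u (Sum.inl j)) ∧ MulR (u (Sum.inl i)) (u (Sum.inr 1)) (u (Sum.inl k))) := by
    refine (QF.ed ?_).and ((ed_mulR _ _ _).and (ed_mulR _ _ _))
    exact (sE _ _).and ((sC _ _).not.and (sE _ _).not)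
  have h2 : D.ED st (fun v => (v i = [] ∧ v k = []) ∨ (v j = [] ∧ v k = []) ∨ ((¬ (v i = []) ∧ ¬ (v j = [])) ∧
      ∃ t : ℕ → List Bool, (fun u : V ⊕ ℕ → List Bool => (u (Sum.inr 0) = [true] ∧ ¬ ([true] <+ u (Sum.inr 1)) ∧ ¬ (u (Sum.inr 1) = []))
      ∧ MulR (u (Sum.inr 0)) (u (Sum.inr 1)) (u (Sum.inl j)) ∧ MulR (u (Sum.inl i)) (u (Sum.inr 1)) (u (Sum.inl k))) (Sum.elim v t))) := by
    refine (QF.ed ?_).or ((QF.ed ?_).or ((QF.ed ?_).and h1.ex))
    · exact (sE _ _).and (sE _ _)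
    · exact (sE _ _).and (sE _ _)
    · exact (sE _ _).not.and (sE _ _).not
  refine h2.congr fun v => ?_
  unfold TimesR
  simp only [Sum.elim_inl, Sum.elim_inr]
  refine or_congr Iff.rfl (or_congr Iff.rfl (and_congr Iff.rfl ?_))
  constructor
  · rintro ⟨t, ⟨a1, a2, a3⟩, a4, a5⟩
    exact ⟨t 0, t 1, a1, a2, a3, a4, a5⟩
  · rintro ⟨X, Y, a1, a2, a3, a4, a5⟩
    exact ⟨fun n => if n = 0 then X else Y, ⟨a1, a2, a3⟩, a4, a5⟩

end gadgets

section numbers

variable {V V' : Type}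

/-- definability of relations between natural numbers, coded by the words `a^n` -/
def ND (R : (V → ℕ) → Prop) : Prop :=
  ∃ R' : (V → List Bool) → Prop, D.ED st R' ∧ ∀ n : V → ℕ, R' (fun x => A (n x)) ↔ R n

theorem ND.congr {R R' : (V → ℕ) → Prop} (h : ND st D R) (h' : ∀ n, R n ↔ R' n) : ND st D R' := by
  obtain ⟨Q, h1, h2⟩ := h
  exact ⟨Q, h1, fun n => (h2 n).trans (h' n)⟩

theorem ND.and {R R' : (V → ℕ) → Prop} (h : ND st D R) (h' : ND st D R') : ND st D (fun n => R n ∧ R' n) := by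
  obtain ⟨Q, h1, h2⟩ := h
  obtain ⟨Q', h1', h2'⟩ := h'
  exact ⟨_, h1.and h1', fun n => and_congr (h2 n) (h2' n)⟩

theorem ND.map {R : (V → ℕ) → Prop} (f : V → V') (h : ND st D R) : ND st D (fun n : V' → ℕ => R (fun x => n (f x))) := by
  obtain ⟨Q, h1, h2⟩ := h
  exact ⟨_, h1.map f, fun n => h2 _⟩

theorem ND.ex {R : (Option V → ℕ) → Prop} (h : ND st D R) :
    ND st D (fun n : V → ℕ => ∃ k : ℕ, R (fun o => o.elim k n)) := by
  obtain ⟨Q, h1, h2⟩ := h
  have h3 : D.ED st (V := V ⊕ ℕ) (fun u => ¬ ([false] <+ u (Sum.inr 0)) ∧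
      Q (fun o => u (o.elim (Sum.inr 0) Sum.inl))) :=
    ((sC [false] (Sum.inr 0)).not.ed).and (h1.map fun o : Option V => (o.elim (Sum.inr 0) Sum.inl : V ⊕ ℕ))
  refine ⟨_, h3.ex, fun n => ?_⟩
  simp only [Sum.elim_inr]
  constructor
  · rintro ⟨t, h4, h5⟩
    obtain ⟨k, hk⟩ := (isA_iff (t 0)).1 h4
    refine ⟨k, ?_⟩
    rw [← h2]
    convert h5 using 1
    funext o
    cases o with
    | none => simp [hk]
    | some x => simp
  · rintro ⟨k, hk⟩
    refine ⟨fun _ => A k, ?_, ?_⟩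
    · rw [isA_iff]; exact ⟨k, rfl⟩
    · rw [← h2] at hk
      convert hk using 1
      funext o
      cases o with
      | none => simp
      | some x => simp

theorem ND.add (i j k : V) : ND st D (fun n => n i + n j = n k) :=
  ⟨_, ed_addR i j k, fun n => addR_iff _ _ _⟩

theorem ND.mul (i j k : V) : ND st D (fun n => n i * n j = n k) :=
  ⟨_, ed_timesR i j k, fun n => timesR_iff _ _ _⟩

theorem ND.cst (i : V) (c : ℕ) : ND st D (fun n => n i = c) := by
  refine ⟨_, (sE (A c) i).ed, fun n => ?_⟩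
  constructor
  · intro h
    have := congrArg List.length h
    simpa using this
  · intro h
    exact congrArg A h

/-- graph of a function is definable -/
def NF (f : (V → ℕ) → ℕ) : Prop := ND st D (fun n : Option V → ℕ => n none = f (fun x => n (some x)))

theorem NF.proj (i : V) : NF st D (fun n => n i) := by
  have h1 : ND st D (V := Option V) (fun n => ∃ k : ℕ, (fun m : Option (Option V) → ℕ =>
      m none = 0 ∧ m (some (some i)) + m none = m (some none)) (fun o => o.elim k n)) :=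
    ND.ex st D ((ND.cst st D _ _).and st D (ND.add st D _ _ _))
  refine h1.congr st D fun n => ?_
  constructor
  · rintro ⟨k, h1, h2⟩
    simp at h1 h2
    show n none = n (some i)
    omega
  · intro h
    refine ⟨0, rfl, ?_⟩
    simp
    exact h.symm

theorem NF.const (c : ℕ) : NF st D (fun _ : V → ℕ => c) := ND.cst st D _ _

theorem NF.comp2 {F : ℕ → ℕ → ℕ} (hF : ∀ (W : Type) (i j k : W), ND st D (fun n : W → ℕ => F (n i) (n j) = n k))
    {f g : (V → ℕ) → ℕ} (hf : NF st D f) (hg : NF st D g) : NF st D (fun n => F (f n) (g n)) := by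
  have h1 : ND st D (V := Option (Option (Option V))) (fun m =>
      (m none = f (fun x => m (some (some (some x))))) ∧ (m (some none) = g (fun x => m (some (some (some x))))) ∧
      F (m none) (m (some none)) = m (some (some none))) := by
    refine ND.and st D ?_ (ND.and st D ?_ (hF _ _ _ _))
    · exact ND.map st D (fun o : Option V => (o.elim none fun x => some (some (some x)) : Option (Option (Option V)))) hf
    · exact ND.map st D (fun o : Option V => (o.elim (some none) fun x => some (some (some x)) : Option (Option (Option V)))) hg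
  have h2 := ND.ex st D (ND.ex st D h1)
  refine h2.congr st D fun n => ?_
  constructor
  · rintro ⟨k, l, a1, a2, a3⟩
    simp only [Option.elim_none, Option.elim_some] at a1 a2 a3
    rw [← a3, a1, a2]
  · intro h
    refine ⟨g fun x => n (some x), f fun x => n (some x), rfl, rfl, ?_⟩
    exact h.symm

theorem NF.add {f g : (V → ℕ) → ℕ} (hf : NF st D f) (hg : NF st D g) : NF st D (fun n => f n + g n) :=
  NF.comp2 st D (F := fun x y => x + y) (fun _ _ _ _ => ND.add st D _ _ _) hf hg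

theorem NF.mul {f g : (V → ℕ) → ℕ} (hf : NF st D f) (hg : NF st D g) : NF st D (fun n => f n * g n) :=
  NF.comp2 st D (F := fun x y => x * y) (fun _ _ _ _ => ND.mul st D _ _ _) hf hg

theorem NF.eq {f g : (V → ℕ) → ℕ} (hf : NF st D f) (hg : NF st D g) : ND st D (fun n => f n = g n) := by
  refine (ND.ex st D (ND.and st D hf hg)).congr st D fun n => ?_
  constructor
  · rintro ⟨k, h1, h2⟩
    simp only [Option.elim_none, Option.elim_some] at h1 h2
    rw [← h1, ← h2]
  · intro h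
    exact ⟨f n, rfl, h⟩

end numbers

end Two

end Pool.Agent.Helper702.Rpo
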