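import Mathlib
import Pool.Agent.Helper702.RpoEd
import Pool.Agent.Helper702.TwCirc

set_option autoImplicit false

namespace Pool.Agent.Helper702.Rpo

open List Pool.Agent.Helper702.Tw

namespace Two

variable {S : Sig} {prec : Fin S.n → Fin S.n → Prop} (st : Fin S.n → Status) (D : Two S prec)

/-- the integer coded by a pair of natural numbers -/
def dif {M : ℕ} (n : Fin M ⊕ Fin M → ℕ) (i : Fin M) : ℤ := (n (Sum.inl i) : ℤ) - (n (Sum.inr i) : ℤ)

theorem nd_gate {M : ℕ} (g : Gate (Fin M)) : ND st D (fun n : Fin M ⊕ Fin M → ℕ => g.sat (dif n)) := by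
  cases g with
  | cst c i =>
    obtain ⟨a, b, hab⟩ : ∃ a b : ℕ, c = (a : ℤ) - (b : ℤ) := ⟨c.toNat, (-c).toNat, by omega⟩
    have h := NF.eq st D (NF.add st D (NF.proj st D (Sum.inl i : Fin M ⊕ Fin M)) (NF.const st D b))
      (NF.add st D (NF.proj st D (Sum.inr i : Fin M ⊕ Fin M)) (NF.const st D a))
    refine h.congr st D fun n => ?_
    simp only [Gate.sat, dif, hab]
    omega
  | add i j k =>
    have h := NF.eq st D (NF.add st D (NF.add st D (NF.proj st D (Sum.inl i : Fin M ⊕ Fin M)) (NF.proj st D (Sum.inl j)))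
        (NF.proj st D (Sum.inr k)))
      (NF.add st D (NF.add st D (NF.proj st D (Sum.inr i : Fin M ⊕ Fin M)) (NF.proj st D (Sum.inr j)))
        (NF.proj st D (Sum.inl k)))
    refine h.congr st D fun n => ?_
    simp only [Gate.sat, dif]
    omega
  | mul i j k =>
    have pr := fun x : Fin M ⊕ Fin M => NF.proj st D x
    have h := NF.eq st D
      (NF.add st D (NF.add st D (NF.mul st D (pr (Sum.inl i)) (pr (Sum.inl j))) (NF.mul st D (pr (Sum.inr i)) (pr (Sum.inr j))))
        (pr (Sum.inr k)))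
      (NF.add st D (NF.add st D (NF.mul st D (pr (Sum.inl i)) (pr (Sum.inr j))) (NF.mul st D (pr (Sum.inr i)) (pr (Sum.inl j))))
        (pr (Sum.inl k)))
    refine h.congr st D fun n => ?_
    simp only [Gate.sat, dif]
    constructor
    · intro h
      have h' : ((n (Sum.inl i) * n (Sum.inl j) + n (Sum.inr i) * n (Sum.inr j) + n (Sum.inr k) : ℕ) : ℤ)
        = ((n (Sum.inl i) * n (Sum.inr j) + n (Sum.inr i) * n (Sum.inl j) + n (Sum.inl k) : ℕ) : ℤ) := by
        rw [h]
      push_cast at h'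
      linarith
    · intro h
      have h' : ((n (Sum.inl i) * n (Sum.inl j) + n (Sum.inr i) * n (Sum.inr j) + n (Sum.inr k) : ℕ) : ℤ)
        = ((n (Sum.inl i) * n (Sum.inr j) + n (Sum.inr i) * n (Sum.inl j) + n (Sum.inl k) : ℕ) : ℤ) := by
        push_cast
        linarith
      exact_mod_cast h'

theorem nd_gates {M : ℕ} (Γ : List (Gate (Fin M))) :
    ND st D (fun n : Fin M ⊕ Fin M → ℕ => ∀ g ∈ Γ, g.sat (dif n)) := by
  induction Γ with
  | nil =>
    refine (NF.eq st D (NF.const st D 0) (NF.const st D 0)).congr st D fun n => ?_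
    simp
  | cons g Γ ih =>
    refine (ND.and st D (nd_gate st D g) ih).congr st D fun n => ?_
    simp

theorem qf_all {V : Type} (L : List V) : D.QF st (fun v => ∀ x ∈ L, ¬ ([false] <+ v x)) := by
  induction L with
  | nil =>
    obtain ⟨φ, hφ⟩ := QF.eq st D (cv [] : Ex V) (cv [])
    refine ⟨φ, fun v => ?_⟩
    rw [← hφ v]
    simp
  | cons x L ih =>
    obtain ⟨φ, hφ⟩ := ((sC [false] x).not (D := D) (st := st)).and ih
    refine ⟨φ, fun v => ?_⟩
    rw [← hφ v]
    simp

/-- every r.e. set of natural numbers is existentially definable over words -/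
theorem exists_formula {P : ℕ → Prop} (hP : REPred P) : ∃ (φ : Fm S ℕ) (x0 : ℕ),
    ∀ n : ℕ, P n ↔ ∃ v : ℕ → List Bool, v x0 = A n ∧ φ.holds prec st (fun x => D.wd (v x)) := by
  obtain ⟨Γ, p0, hΓ⟩ := gates_re hP
  obtain ⟨M0, hM0⟩ := Gate.exists_bdd Γ
  set M := M0 + p0 + 1 with hM
  have hM1 : ∀ g ∈ Γ, g.bdd M := fun g hg => Gate.bdd_mono (by omega) g (hM0 g hg)
  -- gates over `Fin M`
  obtain ⟨Γ', hΓ'⟩ : ∃ Γ' : List (Gate (Fin M)), Γ = Γ'.map (Gate.map Fin.val) := by
    clear hΓ hM0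
    induction Γ with
    | nil => exact ⟨[], rfl⟩
    | cons g Γ ih =>
      obtain ⟨Γ', h'⟩ := ih fun g hg => hM1 g (List.mem_cons_of_mem _ hg)
      have hg := hM1 g List.mem_cons_self
      obtain ⟨g', hg'⟩ : ∃ g' : Gate (Fin M), g = g'.map Fin.val := by
        cases g with
        | cst c i => exact ⟨.cst c ⟨i, hg⟩, rfl⟩
        | add i j k => exact ⟨.add ⟨i, hg.1⟩ ⟨j, hg.2.1⟩ ⟨k, hg.2.2⟩, rfl⟩
        | mul i j k => exact ⟨.mul ⟨i, hg.1⟩ ⟨j, hg.2.1⟩ ⟨k, hg.2.2⟩, rfl⟩
      exact ⟨g' :: Γ', by rw [h', hg']; rfl⟩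
  have key : ∀ n : ℕ, P n ↔ ∃ m : Fin M ⊕ Fin M → ℕ, m (Sum.inl ⟨p0, by omega⟩) = n ∧
      m (Sum.inr ⟨p0, by omega⟩) = 0 ∧ ∀ g ∈ Γ', g.sat (dif m) := by
    intro n
    rw [hΓ n]
    constructor
    · rintro ⟨u, hu0, hu⟩
      refine ⟨Sum.elim (fun i => (u i).toNat) (fun i => (-(u i)).toNat), ?_, ?_, fun g hg => ?_⟩
      · simp [hu0]
      · simp [hu0]
      · have h1 := hu (g.map Fin.val) (by rw [hΓ']; exact List.mem_map_of_mem hg)
        rw [Gate.sat_map] at h1
        convert h1 using 1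
        funext i
        simp only [dif, Sum.elim_inl, Sum.elim_inr, Function.comp_apply]
        omega
    · rintro ⟨m, hm1, hm2, hm⟩
      refine ⟨fun i => if h : i < M then dif m ⟨i, h⟩ else 0, ?_, fun g hg => ?_⟩
      · have h : p0 < M := by omega
        simp only [h, dif_pos, dif, hm1, hm2]
        simp
      · rw [hΓ'] at hg
        obtain ⟨g', hg', rfl⟩ := List.mem_map.1 hg
        rw [Gate.sat_map]
        convert hm g' hg' using 1
        funext i
        simp
  obtain ⟨R', hR', hR⟩ := nd_gates st D Γ'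
  have hfin : D.ED st (fun v : Fin M ⊕ Fin M → List Bool => (v (Sum.inr ⟨p0, by omega⟩) = [] ∧
      ∀ x ∈ (Finset.univ : Finset (Fin M ⊕ Fin M)).toList, ¬ ([false] <+ v x)) ∧ R' v) :=
    (((sE [] _).and (qf_all st D _)).ed).and hR'
  obtain ⟨φ, hφ⟩ := hfin
  obtain ⟨e⟩ : Nonempty ((Fin M ⊕ Fin M) ⊕ ℕ ≃ ℕ) := by
    have : Infinite ((Fin M ⊕ Fin M) ⊕ ℕ) := Sum.infinite_of_right
    exact nonempty_equiv_of_countable
  refine ⟨φ.map e, e (Sum.inl (Sum.inl ⟨p0, by omega⟩)), fun n => ?_⟩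
  rw [key n]
  constructor
  · rintro ⟨m, hm1, hm2, hm3⟩
    have h1 := (hφ fun x => A (m x)).1 ⟨⟨by simp [hm2], fun x _ => by rw [isA_iff]; exact ⟨m x, rfl⟩⟩, (hR m).2 hm3⟩
    obtain ⟨t, ht⟩ := h1
    refine ⟨fun x => Sum.elim (fun x => A (m x)) t (e.symm x), ?_, ?_⟩
    · simp [hm1]
    · rw [Fm.holds_map]
      convert ht using 1
      funext x
      simp
  · rintro ⟨v, hv0, hv⟩
    rw [Fm.holds_map] at hv
    have h1 := (hφ fun x => v (e (Sum.inl x))).2 ⟨fun k => v (e (Sum.inr k)), by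
      convert hv using 1
      funext x
      rcases x with x | x <;> rfl⟩
    obtain ⟨⟨h2, h3⟩, h4⟩ := h1
    have h5 : ∀ x : Fin M ⊕ Fin M, ∃ k, v (e (Sum.inl x)) = A k := fun x =>
      (isA_iff _).1 (h3 x (Finset.mem_toList.2 (Finset.mem_univ x)))
    choose m hm using h5
    refine ⟨m, ?_, ?_, ?_⟩
    · have h6 := hm (Sum.inl ⟨p0, by omega⟩)
      rw [hv0] at h6
      have := congrArg List.length h6
      simpa using this.symm
    · have h6 := hm (Sum.inr ⟨p0, by omega⟩)
      have h7 : v (e (Sum.inl (Sum.inr ⟨p0, by omega⟩))) = [] := h2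
      rw [h7] at h6
      have := congrArg List.length h6
      simpa using this.symm
    · apply (hR m).1
      convert h4 using 1
      funext x
      exact (hm x).symm

end Two

/-- all variables of a term are below the bound -/
def Tm.bd {S : Sig} : Tm S ℕ → ℕ
  | .var x => x + 1
  | .app _ args => Finset.univ.sup fun i => (args i).bd

/-- all variables of a formula are below the bound -/
def Fm.bd {S : Sig} : Fm S ℕ → ℕ
  | .eq s t => max s.bd t.bd
  | .gt s t => max s.bd t.bd
  | .not φ => φ.bd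
  | .and φ ψ => max φ.bd ψ.bd
  | .or φ ψ => max φ.bd ψ.bd

theorem Tm.eval_congr {S : Sig} (v v' : ℕ → GT S) (t : Tm S ℕ) (h : ∀ x < t.bd, v x = v' x) :
    t.eval v = t.eval v' := by
  induction t with
  | var x => exact h x (by simp [Tm.bd])
  | app g a ih =>
    simp only [Tm.eval]
    congr 1
    funext i
    apply ih i
    intro x hx
    apply h
    rw [Tm.bd]
    exact lt_of_lt_of_le hx (Finset.le_sup (f := fun i => (a i).bd) (Finset.mem_univ i))

theorem Fm.holds_congr {S : Sig} (prec : Fin S.n → Fin S.n → Prop) (st : Fin S.n → Status)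
    (v v' : ℕ → GT S) (φ : Fm S ℕ) (h : ∀ x < φ.bd, v x = v' x) :
    φ.holds prec st v ↔ φ.holds prec st v' := by
  induction φ with
  | eq s t =>
    simp only [Fm.bd, lt_max_iff] at h
    simp only [Fm.holds]
    rw [Tm.eval_congr v v' s fun x hx => h x (Or.inl hx), Tm.eval_congr v v' t fun x hx => h x (Or.inr hx)]
  | gt s t =>
    simp only [Fm.bd, lt_max_iff] at h
    simp only [Fm.holds]
    rw [Tm.eval_congr v v' s fun x hx => h x (Or.inl hx), Tm.eval_congr v v' t fun x hx => h x (Or.inr hx)]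
  | not φ ih => simp only [Fm.holds]; rw [ih h]
  | and φ ψ ih1 ih2 =>
    simp only [Fm.bd, lt_max_iff] at h
    simp only [Fm.holds]
    rw [ih1 fun x hx => h x (Or.inl hx), ih2 fun x hx => h x (Or.inr hx)]
  | or φ ψ ih1 ih2 =>
    simp only [Fm.bd, lt_max_iff] at h
    simp only [Fm.holds]
    rw [ih1 fun x hx => h x (Or.inl hx), ih2 fun x hx => h x (Or.inr hx)]

/-- conjunction of a list of formulas -/
def conjL {S : Sig} {V : Type} (φ : Fm S V) : List (Fm S V) → Fm S V
  | [] => φ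
  | ψ :: L => Fm.and ψ (conjL φ L)

theorem holds_conjL {S : Sig} {prec : Fin S.n → Fin S.n → Prop} {st : Fin S.n → Status} {V : Type}
    (v : V → GT S) (φ : Fm S V) (L : List (Fm S V)) :
    (conjL φ L).holds prec st v ↔ φ.holds prec st v ∧ ∀ ψ ∈ L, ψ.holds prec st v := by
  induction L with
  | nil => simp [conjL]
  | cons ψ L ih =>
    simp only [conjL, Fm.holds, ih, List.mem_cons, forall_eq_or_imp]
    tauto

namespace Two

variable {S : Sig} {prec : Fin S.n → Fin S.n → Prop} (st : Fin S.n → Status) (D : Two S prec)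

/-- the term `f(0,…,0)` -/
def botT (f : Fin S.n) : Tm S ℕ := Tm.app f fun _ => D.extm ([], none)

theorem botT_eval (f : Fin S.n) (v : ℕ → GT S) : (D.botT f).eval v = D.bot f := by
  have h : (D.extm ([], none) : Tm S ℕ).eval v = D.wd [] := by
    simp only [extm, List.foldr_nil, Option.elim_none, Tm.eval]
    exact D.app_z _
  simp only [botT, Tm.eval, bot, h]

/-- the formulas saying that a variable is a word -/
def wordL (x : ℕ) : List (Fm S ℕ) :=
  ((List.finRange S.n).filter fun f => f ≠ D.z ∧ f ≠ D.a ∧ f ≠ D.c).map fun f =>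
    Fm.not (Fm.or (Fm.gt (Tm.var x) (D.botT f)) (Fm.eq (Tm.var x) (D.botT f)))

theorem holds_wordL (x : ℕ) (v : ℕ → GT S) :
    (∀ ψ ∈ D.wordL x, ψ.holds prec st v) ↔ D.IsW (v x) := by
  rw [D.isW_iff st]
  simp only [wordL, List.mem_map, List.mem_filter, List.mem_finRange, true_and, decide_eq_true_eq,
    forall_exists_index, and_imp]
  constructor
  · intro h f h1 h2 h3
    have := h _ f h1 h2 h3 rfl
    simpa [Fm.holds, Tm.eval, botT_eval] using this
  · rintro h ψ f h1 h2 h3 rfl
    simpa [Fm.holds, Tm.eval, botT_eval] using h f h1 h2 h3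

/-- the final formula without the numeral -/
theorem exists_formula' {P : ℕ → Prop} (hP : REPred P) : ∃ (φ : Fm S ℕ) (x0 : ℕ),
    ∀ n : ℕ, P n ↔ ∃ v : ℕ → GT S, v x0 = D.wd (A n) ∧ φ.holds prec st v := by
  obtain ⟨φ, x0, hφ⟩ := exists_formula st D hP
  refine ⟨conjL φ ((List.range φ.bd).flatMap D.wordL), x0, fun n => ?_⟩
  rw [hφ n]
  simp only [holds_conjL, List.mem_flatMap, List.mem_range]
  constructor
  · rintro ⟨v, h1, h2⟩
    refine ⟨fun x => D.wd (v x), congrArg D.wd h1, h2, ?_⟩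
    rintro ψ ⟨x, -, hx⟩
    exact (D.holds_wordL st x fun x => D.wd (v x)).2 ⟨v x, rfl⟩ ψ hx
  · rintro ⟨v, h1, h2, h3⟩
    have h4 : ∀ x, x < φ.bd → D.IsW (v x) := fun x hx =>
      (D.holds_wordL st x v).1 fun ψ hψ => h3 ψ ⟨x, hx, hψ⟩
    have h5 : ∀ x, ∃ l, (x < φ.bd ∨ x = x0) → v x = D.wd l := by
      intro x
      by_cases hx : x < φ.bd
      · obtain ⟨l, hl⟩ := h4 x hx
        exact ⟨l, fun _ => hl⟩
      · by_cases hx0 : x = x0
        · subst hx0
          exact ⟨A n, fun _ => h1⟩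
        · exact ⟨[], fun h => absurd h (by tauto)⟩
    choose w hw using h5
    refine ⟨w, ?_, ?_⟩
    · apply D.wd_inj
      rw [← hw x0 (Or.inr rfl), h1]
    · rw [Fm.holds_congr prec st _ v φ fun x hx => (hw x (Or.inl hx)).symm]
      exact h2

/-- code of a numeral -/
theorem code_numeral (n : ℕ) : (D.extm (A n, none) : Tm S ℕ).code =
    Nat.rec (D.extm (A 0, none) : Tm S ℕ).code (fun _ c => Nat.pair ((D.sy true).val + 1) (Encodable.encode [c])) n := by
  induction n with
  | zero => rfl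
  | succ n ih =>
    have h1 : (D.extm (A (n + 1), none) : Tm S ℕ) = Tm.app (D.sy true) fun _ => D.extm (A n, none) := rfl
    rw [h1, Tm.code]
    congr 2
    rw [List.ofFn_const, D.ar_sy true]
    simp [ih]

theorem code_primrec : Primrec fun n : ℕ => (D.extm (A n, none) : Tm S ℕ).code := by
  have h : Primrec₂ fun (_ : ℕ) (c : ℕ) => Nat.pair ((D.sy true).val + 1) (Encodable.encode [c]) := by
    refine Primrec₂.natPair.comp (Primrec.const _) (Primrec.encode.comp ?_)
    exact Primrec.list_cons.comp Primrec.snd (Primrec.const [])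
  exact (Primrec.nat_rec₁ _ h).of_eq fun n => (D.code_numeral n).symm

theorem numeral_eval (n : ℕ) (v : ℕ → GT S) : (D.extm (A n, none) : Tm S ℕ).eval v = D.wd (A n) := by
  have hb : (D.extm (A n, none) : Tm S ℕ).bd = 0 := by
    induction n with
    | zero =>
      show (Tm.app D.z _ : Tm S ℕ).bd = 0
      rw [Tm.bd]
      apply Finset.sup_eq_bot_iff _ _ |>.2
      intro i _
      exact (Fin.cast D.hz i).elim0
    | succ n ih =>
      have h1 : (D.extm (A (n + 1), none) : Tm S ℕ) = Tm.app (D.sy true) fun _ => D.extm (A n, none) := rfl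
      rw [h1, Tm.bd]
      apply Finset.sup_eq_bot_iff _ _ |>.2
      intro i _
      exact ih
  rw [Tm.eval_congr v (fun x => D.wd []) _ (by rw [hb]; intro x hx; omega)]
  have := D.extm_eval (V := ℕ) (fun _ => []) (A n, none)
  rw [this]
  simp [exval]

/-- the halting set as a set of natural numbers -/
def haltSet (a : ℕ) : Prop := (Nat.Partrec.Code.eval (Denumerable.ofNat Nat.Partrec.Code a) 0).Dom

theorem haltSet_re : REPred haltSet := by
  have h : Partrec fun a : ℕ => Nat.Partrec.Code.eval (Denumerable.ofNat Nat.Partrec.Code a) 0 :=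
    Nat.Partrec.Code.eval_part.comp (Primrec.ofNat Nat.Partrec.Code).to_comp (Computable.const 0)
  exact h.dom_re

theorem haltSet_not_computable : ¬ ComputablePred haltSet := by
  intro h
  apply ComputablePred.halting_problem 0
  obtain ⟨inst, hc⟩ := h
  have h2 : Computable fun c : Nat.Partrec.Code => decide (haltSet (Encodable.encode c)) :=
    hc.comp Computable.encode
  refine ⟨fun c => Classical.dec _, h2.of_eq fun c => ?_⟩
  simp [haltSet]

include D in
theorem undecidable : ¬ ExDecidable S prec st := by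
  rintro ⟨Q, hQ, hspec⟩
  obtain ⟨φ, x0, hφ⟩ := exists_formula' st D haltSet_re
  apply haltSet_not_computable
  have h1 : ∀ n, haltSet n ↔ Q ((Fm.and (Fm.eq (Tm.var x0) (D.extm (A n, none))) φ).code) := by
    intro n
    rw [hspec, hφ n]
    simp only [Fm.holds, Tm.eval, numeral_eval]
  have h2 : Computable fun n : ℕ => (Fm.and (Fm.eq (Tm.var x0) (D.extm (A n, none))) φ).code := by
    have : Primrec fun n : ℕ => Nat.pair 3 (Nat.pair (Nat.pair 0 (Nat.pair (Nat.pair 0 x0)
        (D.extm (A n, none) : Tm S ℕ).code)) φ.code) :=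
      Primrec₂.natPair.comp (Primrec.const _) (Primrec₂.natPair.comp (Primrec₂.natPair.comp (Primrec.const _)
        (Primrec₂.natPair.comp (Primrec.const _) D.code_primrec)) (Primrec.const _))
    exact this.to_comp
  have h3 : haltSet = fun n => Q ((Fm.and (Fm.eq (Tm.var x0) (D.extm (A n, none))) φ).code) :=
    funext fun n => propext (h1 n)
  rw [h3]
  obtain ⟨inst, hc⟩ := hQ
  exact ⟨fun n => inst _, hc.comp h2⟩

end Two

end Pool.Agent.Helper702.Rpo
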