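import Mathlib

set_option autoImplicit false

namespace Pool.Agent.Helper702.Tw

/-- the integral Heisenberg group -/
@[ext] structure Heis where
  s : ℤ
  t : ℤ
  m : ℤ

namespace Heis

instance : Mul Heis := ⟨fun a b => ⟨a.s + b.s, a.t + b.t, a.m + b.m + a.s * b.t⟩⟩
instance : One Heis := ⟨⟨0, 0, 0⟩⟩
instance : Inv Heis := ⟨fun a => ⟨-a.s, -a.t, -a.m + a.s * a.t⟩⟩

@[simp] theorem mul_s (a b : Heis) : (a * b).s = a.s + b.s := rfl
@[simp] theorem mul_t (a b : Heis) : (a * b).t = a.t + b.t := rfl
@[simp] theorem mul_m (a b : Heis) : (a * b).m = a.m + b.m + a.s * b.t := rfl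
@[simp] theorem one_s : (1 : Heis).s = 0 := rfl
@[simp] theorem one_t : (1 : Heis).t = 0 := rfl
@[simp] theorem one_m : (1 : Heis).m = 0 := rfl
@[simp] theorem inv_s (a : Heis) : (a⁻¹).s = -a.s := rfl
@[simp] theorem inv_t (a : Heis) : (a⁻¹).t = -a.t := rfl
@[simp] theorem inv_m (a : Heis) : (a⁻¹).m = -a.m + a.s * a.t := rfl

instance : Group Heis := Group.ofLeftAxioms
  (by intro a b c; ext <;> simp <;> ring)
  (by intro a; ext <;> simp)
  (by intro a; ext <;> simp)

end Heis

/-- free groups on at most one generator are commutative -/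
theorem free_comm {ι : Type*} [Subsingleton ι] (u v : FreeGroup ι) : u * v = v * u := by
  have h1 : ∀ (i : ι) (v : FreeGroup ι), FreeGroup.of i * v = v * FreeGroup.of i := by
    intro i v
    induction v using FreeGroup.induction_on with
    | C1 => simp
    | of j => rw [Subsingleton.elim i j]
    | inv_of j _ => rw [Subsingleton.elim i j]; simp
    | mul a b ha hb => rw [← mul_assoc, ha, mul_assoc, hb, mul_assoc]
  induction u using FreeGroup.induction_on with
  | C1 => simp
  | of j => exact h1 j v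
  | inv_of j h =>
    have := h1 j v
    rw [inv_mul_eq_iff_eq_mul, ← mul_assoc, this]; simp
  | mul a b ha hb => rw [mul_assoc, hb, ← mul_assoc, ha, mul_assoc]

/-- the hom to the Heisenberg group attached to two distinct letters -/
noncomputable def hei {ι : Type*} [DecidableEq ι] (i j : ι) : FreeGroup ι →* Heis :=
  FreeGroup.lift fun k => if k = i then ⟨1, 0, 0⟩ else if k = j then ⟨0, 1, 0⟩ else 1

theorem hei_fst {ι : Type*} [DecidableEq ι] (i j : ι) : hei i j (FreeGroup.of i) = ⟨1, 0, 0⟩ := by
  simp [hei]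

theorem hei_snd {ι : Type*} [DecidableEq ι] {i j : ι} (h : i ≠ j) :
    hei i j (FreeGroup.of j) = ⟨0, 1, 0⟩ := by
  simp [hei, h.symm]

/-- a noncommutative free group has a hom to the Heisenberg group hitting both generators -/
theorem exists_hei {G : Type*} [Group G] [IsFreeGroup G] (hG : ∃ u v : G, u * v ≠ v * u) :
    ∃ (f : G →* Heis) (g h : G), f g = ⟨1, 0, 0⟩ ∧ f h = ⟨0, 1, 0⟩ := by
  classical
  set e := IsFreeGroup.toFreeGroup G
  have : ¬ Subsingleton (IsFreeGroup.Generators G) := by
    intro hs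
    obtain ⟨u, v, huv⟩ := hG
    apply huv
    apply e.injective
    rw [map_mul, map_mul]
    exact free_comm _ _
  rw [not_subsingleton_iff_nontrivial] at this
  obtain ⟨i, j, hij⟩ := this
  refine ⟨(hei i j).comp e.toMonoidHom, e.symm (FreeGroup.of i), e.symm (FreeGroup.of j), ?_, ?_⟩
  · simp [hei_fst]
  · simp [hei_snd hij]

theorem sq_aux {G : Type*} [Group G] [IsFreeGroup G] (x y z : G) (h : x ^ 2 * y ^ 2 = z ^ 2)
    (hgen : Subgroup.closure {x, y, z} = ⊤) (u v : G) : u * v = v * u := by
  by_contra hne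
  obtain ⟨f, g, g', hg, hg'⟩ := exists_hei ⟨u, v, hne⟩
  have hz := congrArg f h
  rw [map_mul, map_pow, map_pow, map_pow] at hz
  have hs : (f z).s = (f x).s + (f y).s := by
    have := congrArg Heis.s hz
    simp [pow_two] at this
    omega
  have ht : (f z).t = (f x).t + (f y).t := by
    have := congrArg Heis.t hz
    simp [pow_two] at this
    omega
  have hm := congrArg Heis.m hz
  simp only [pow_two, Heis.mul_m, Heis.mul_s, Heis.mul_t] at hm
  rw [hs, ht] at hm
  have hdet : ∃ k : ℤ, (f x).s * (f y).t - (f x).t * (f y).s = 2 * k := by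
    refine ⟨(f z).m - (f x).m - (f y).m - (f x).s * (f y).t, ?_⟩
    linarith
  obtain ⟨k, hk⟩ := hdet
  -- a functional vanishing mod 2
  have hfun : ∀ α β : ℤ, (∃ a, α * (f x).s + β * (f x).t = 2 * a) → (∃ a, α * (f y).s + β * (f y).t = 2 * a) →
      (∃ a, α = 2 * a) ∧ (∃ a, β = 2 * a) := by
    intro α β hx hy
    have hall : ∀ w : G, ∃ a, α * (f w).s + β * (f w).t = 2 * a := by
      intro w
      have hw : w ∈ Subgroup.closure {x, y, z} := by rw [hgen]; trivial
      induction hw using Subgroup.closure_induction with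
      | mem w hw =>
        rcases hw with rfl | rfl | rfl
        · exact hx
        · exact hy
        · obtain ⟨a, ha⟩ := hx
          obtain ⟨b, hb⟩ := hy
          refine ⟨a + b, ?_⟩
          rw [hs, ht]; linarith
      | one => exact ⟨0, by simp⟩
      | mul a b _ _ ha hb =>
        obtain ⟨a', ha⟩ := ha
        obtain ⟨b', hb⟩ := hb
        refine ⟨a' + b', ?_⟩
        rw [map_mul, Heis.mul_s, Heis.mul_t]; linarith
      | inv a _ ha =>
        obtain ⟨a', ha⟩ := ha
        refine ⟨-a', ?_⟩
        rw [map_inv, Heis.inv_s, Heis.inv_t]; linarith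
    constructor
    · obtain ⟨a, ha⟩ := hall g
      rw [hg] at ha
      exact ⟨a, by simpa using ha⟩
    · obtain ⟨a, ha⟩ := hall g'
      rw [hg'] at ha
      exact ⟨a, by simpa using ha⟩
  obtain ⟨⟨a1, h1⟩, ⟨a2, h2⟩⟩ := hfun (f x).t (-(f x).s) ⟨0, by ring⟩ ⟨-k, by linarith⟩
  obtain ⟨⟨a3, h3⟩, ⟨a4, h4⟩⟩ := hfun (f y).t (-(f y).s) ⟨k, by linarith⟩ ⟨0, by ring⟩
  obtain ⟨⟨a5, h5⟩, -⟩ := hfun 1 0 ⟨-a2, by linarith⟩ ⟨-a4, by linarith⟩
  omega

/-- squares equation in free groups -/
theorem sq_comm {G : Type*} [Group G] [IsFreeGroup G] {x y z : G} (h : x ^ 2 * y ^ 2 = z ^ 2) :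
    x * y = y * x ∧ z = x * y := by
  have key := sq_aux (G := Subgroup.closure ({x, y, z} : Set G)) ⟨x, Subgroup.subset_closure (by simp)⟩
    ⟨y, Subgroup.subset_closure (by simp)⟩ ⟨z, Subgroup.subset_closure (by simp)⟩
    (by ext; simpa using h) (by
      have h2 := Subgroup.closure_closure_coe_preimage (k := ({x, y, z} : Set G))
      rw [← h2]
      congr 1
      ext w
      simp only [Set.mem_insert_iff, Set.mem_singleton_iff, Set.mem_preimage]
      constructor
      · rintro (rfl | rfl | rfl) <;> simp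
      · intro hw
        rcases hw with hw | hw | hw
        · left; exact Subtype.ext hw
        · right; left; exact Subtype.ext hw
        · right; right; exact Subtype.ext hw)
  have hxy : x * y = y * x := by
    have := congrArg Subtype.val (key ⟨x, Subgroup.subset_closure (by simp)⟩ ⟨y, Subgroup.subset_closure (by simp)⟩)
    simpa using this
  have hxz : (x * y) * z = z * (x * y) := by
    have := congrArg Subtype.val (key (⟨x, Subgroup.subset_closure (by simp)⟩ * ⟨y, Subgroup.subset_closure (by simp)⟩) ⟨z, Subgroup.subset_closure (by simp)⟩)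
    simpa using this
  refine ⟨hxy, ?_⟩
  have hsq : (z⁻¹ * (x * y)) ^ 2 = 1 := by
    have hc : Commute z⁻¹ (x * y) := by
      apply Commute.inv_left
      exact hxz.symm
    rw [hc.mul_pow, inv_pow, ← h]
    have : (x * y) ^ 2 = x ^ 2 * y ^ 2 := (show Commute x y from hxy).mul_pow 2
    rw [this]; group
  have h1 : z⁻¹ * (x * y) = 1 := by
    have e := IsFreeGroup.toFreeGroup G
    apply e.injective
    rw [map_one]
    refine (pow_eq_one_iff_left (n := 2) (by norm_num)).1 ?_
    rw [← map_pow, hsq, map_one]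
  have := inv_mul_eq_one.1 h1
  exact this

end Pool.Agent.Helper702.Tw
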