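import Mathlib
import Pool.Agent.Helper702.TwGrp

set_option autoImplicit false

namespace Pool.Agent.Helper702.Tw

theorem pow_of_subsingleton {ι : Type*} [Subsingleton ι] (i : ι) (g : FreeGroup ι) :
    ∃ n : ℤ, g = FreeGroup.of i ^ n := by
  induction g using FreeGroup.induction_on with
  | C1 => exact ⟨0, by simp⟩
  | of j => exact ⟨1, by rw [Subsingleton.elim i j]; simp⟩
  | inv_of j _ => exact ⟨-1, by rw [Subsingleton.elim i j]; simp⟩
  | mul a b ha hb =>
    obtain ⟨n, rfl⟩ := ha
    obtain ⟨m, rfl⟩ := hb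
    exact ⟨n + m, by rw [zpow_add]⟩

theorem comm_cyclic {G : Type*} [Group G] [IsFreeGroup G] (hG : ∀ u v : G, u * v = v * u) :
    ∃ r : G, ∀ g : G, ∃ n : ℤ, g = r ^ n := by
  classical
  set e := IsFreeGroup.toFreeGroup G
  have hs : Subsingleton (IsFreeGroup.Generators G) := by
    by_contra hns
    rw [not_subsingleton_iff_nontrivial] at hns
    obtain ⟨i, j, hij⟩ := hns
    have h1 := hG (e.symm (FreeGroup.of i)) (e.symm (FreeGroup.of j))
    have h2 := congrArg (fun g => ((hei i j).comp e.toMonoidHom) g) h1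
    simp [hei_fst, hei_snd hij] at h2
    have := congrArg Heis.m h2
    simp at this
  by_cases hne : Nonempty (IsFreeGroup.Generators G)
  · obtain ⟨i⟩ := hne
    refine ⟨e.symm (FreeGroup.of i), fun g => ?_⟩
    obtain ⟨n, hn⟩ := pow_of_subsingleton i (e g)
    refine ⟨n, ?_⟩
    rw [← map_zpow, ← hn]; simp
  · rw [not_nonempty_iff] at hne
    refine ⟨1, fun g => ⟨0, ?_⟩⟩
    apply e.injective
    exact Subsingleton.elim _ _

/-- exponent sum of the letter `k` -/
noncomputable def expo {ι : Type*} [DecidableEq ι] (k : ι) : FreeGroup ι →* Multiplicative ℤ :=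
  FreeGroup.lift fun i => if i = k then Multiplicative.ofAdd 1 else 1

/-- the centraliser of a letter -/
theorem centraliser {ι : Type*} [DecidableEq ι] (k : ι) (u : FreeGroup ι)
    (h : u * FreeGroup.of k = FreeGroup.of k * u) : ∃ n : ℤ, u = FreeGroup.of k ^ n := by
  set H := Subgroup.closure ({u, FreeGroup.of k} : Set (FreeGroup ι)) with hH
  have hc : ∀ x y : H, x * y = y * x := by
    rintro ⟨x, hx⟩ ⟨y, hy⟩
    have hcomm : ∀ a ∈ ({u, FreeGroup.of k} : Set (FreeGroup ι)), ∀ b ∈ ({u, FreeGroup.of k} : Set (FreeGroup ι)), a * b = b * a := by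
      rintro a (rfl | rfl) b (rfl | rfl)
      · rfl
      · exact h
      · exact h.symm
      · rfl
    have := Subgroup.isMulCommutative_closure hcomm
    have := mul_comm' (⟨x, hx⟩ : H) ⟨y, hy⟩
    exact this
  obtain ⟨r, hr⟩ := comm_cyclic hc
  obtain ⟨j, hj⟩ := hr ⟨FreeGroup.of k, Subgroup.subset_closure (by simp)⟩
  obtain ⟨n, hn⟩ := hr ⟨u, Subgroup.subset_closure (by simp)⟩
  have hj' : FreeGroup.of k = (r : FreeGroup ι) ^ j := by
    have := congrArg Subtype.val hj
    simpa using this
  have hn' : u = (r : FreeGroup ι) ^ n := by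
    have := congrArg Subtype.val hn
    simpa using this
  have h1 : (1 : ℤ) = j * Multiplicative.toAdd (expo k (r : FreeGroup ι)) := by
    have := congrArg (fun g => Multiplicative.toAdd (expo k g)) hj'
    simpa [expo] using this
  have h2 : j = 1 ∨ j = -1 := Int.eq_one_or_neg_one_of_mul_eq_one h1.symm
  rcases h2 with rfl | rfl
  · refine ⟨n, ?_⟩
    rw [hn', hj', zpow_one]
  · refine ⟨-n, ?_⟩
    rw [hn', hj', ← zpow_mul]; simp

/-- two equations in a free group combined into one -/
theorem comb_iff {ι : Type*} [DecidableEq ι] {i j : ι} (hij : i ≠ j) (u v : FreeGroup ι) :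
    u ^ 2 * FreeGroup.of i ^ 2 = (v * FreeGroup.of j * v * (FreeGroup.of j)⁻¹ * FreeGroup.of i) ^ 2 ↔
      u = 1 ∧ v = 1 := by
  constructor
  · intro h
    obtain ⟨h1, h2⟩ := sq_comm h
    obtain ⟨n, rfl⟩ := centraliser i u h1
    have h3 : v * FreeGroup.of j * v * (FreeGroup.of j)⁻¹ = FreeGroup.of i ^ n := mul_right_cancel h2
    have h4 : Multiplicative.toAdd (expo i v) + Multiplicative.toAdd (expo i v) = n := by
      have := congrArg (fun g => Multiplicative.toAdd (expo i g)) h3
      simp [expo, hij.symm] at this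
      simpa [expo] using this
    set m := Multiplicative.toAdd (expo i v) with hm
    have h5 : (FreeGroup.of i ^ m) ^ 2 * FreeGroup.of j ^ 2 = (v * FreeGroup.of j) ^ 2 := by
      have : (v * FreeGroup.of j) ^ 2 = (v * FreeGroup.of j * v * (FreeGroup.of j)⁻¹) * FreeGroup.of j ^ 2 := by
        rw [pow_two, pow_two]; group
      rw [this, h3, ← h4, zpow_add, pow_two]
    obtain ⟨h6, -⟩ := sq_comm h5
    have h7 : m = 0 := by
      have := congrArg (fun g => (hei i j g).m) h6
      have hp : ∀ n : ℤ, (hei i j (FreeGroup.of i) ^ n) = ⟨n, 0, 0⟩ := by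
        intro n
        rw [hei_fst]
        induction n using Int.induction_on with
        | zero => rfl
        | succ k ih => rw [zpow_add, ih, zpow_one]; ext <;> simp
        | pred k ih => rw [zpow_sub, ih, zpow_one]; ext <;> simp; ring
      simp only [map_mul, map_zpow, hp, hei_snd hij, Heis.mul_m] at this
      simpa using this
    have h8 : n = 0 := by omega
    subst h8
    refine ⟨by simp, ?_⟩
    have h9 : (1 : FreeGroup ι) ^ 2 * (v * FreeGroup.of j) ^ 2 = FreeGroup.of j ^ 2 := by
      rw [← h5, h7]; simp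
    obtain ⟨-, h10⟩ := sq_comm h9
    rw [one_mul] at h10
    exact right_eq_mul.1 h10
  · rintro ⟨rfl, rfl⟩
    simp

end Pool.Agent.Helper702.Tw
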