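import Mathlib
import Pool.Agent.Helper702.TwComb

set_option autoImplicit false

namespace Pool.Agent.Helper702.Tw

/-- the letter with number `m` -/
def lett (r : ℕ) (m : ℕ) : FreeGroup (Fin r) := if h : m < r then FreeGroup.of (⟨m, h⟩ : Fin r) else 1

/-- the endomorphism given by a list of images -/
def aut (L : List (List (ℕ × Bool))) : FreeGroup (Fin 6) →* FreeGroup (Fin 6) :=
  FreeGroup.lift fun k : Fin 6 => FreeGroup.lift (lett 6) (FreeGroup.mk (L.getD k.val []))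

/-- the five automorphisms used -/
def im : ℕ → List (List (ℕ × Bool))
  | 1 => [[(0, true), (2, true)], [(1, true), (4, true)], [(2, true)], [(3, true)], [(4, true)], [(5, true)]]
  | 2 => [[(3, true), (0, true)], [(1, true), (5, true)], [(2, true)], [(3, true)], [(4, true)], [(5, true)]]
  | 3 => [[(0, true)], [(1, true)], [(3, true)], [(2, true)], [(4, true)], [(5, true)]]
  | 4 => [[(0, true)], [(1, true)], [(4, true)], [(3, true)], [(2, true)], [(5, true)]]
  | _ => [[(0, true)], [(1, true)], [(2, true)], [(3, true)], [(4, true)], [(5, true)]]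

/-- their inverses -/
def imInv : ℕ → List (List (ℕ × Bool))
  | 1 => [[(0, true), (2, false)], [(1, true), (4, false)], [(2, true)], [(3, true)], [(4, true)], [(5, true)]]
  | 2 => [[(3, false), (0, true)], [(1, true), (5, false)], [(2, true)], [(3, true)], [(4, true)], [(5, true)]]
  | 3 => [[(0, true)], [(1, true)], [(3, true)], [(2, true)], [(4, true)], [(5, true)]]
  | 4 => [[(0, true)], [(1, true)], [(4, true)], [(3, true)], [(2, true)], [(5, true)]]
  | _ => [[(0, true)], [(1, true)], [(2, true)], [(3, true)], [(4, true)], [(5, true)]]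

theorem im_length (t : ℕ) : (im t).length = 6 := by
  rcases t with _ | _ | _ | _ | _ | t <;> rfl

theorem lett_lt (m : ℕ) (h : m < 6) : lett 6 m = FreeGroup.of (⟨m, h⟩ : Fin 6) := by
  simp [lett, h]

theorem aut_of (L : List (List (ℕ × Bool))) (k : Fin 6) :
    aut L (FreeGroup.of k) = ((L.getD k.val []).map fun p => cond p.2 (lett 6 p.1) (lett 6 p.1)⁻¹).prod := by
  simp [aut, FreeGroup.lift_mk]

theorem aut_inv_left (t : ℕ) : (aut (imInv t)).comp (aut (im t)) = MonoidHom.id _ := by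
  apply FreeGroup.ext_hom
  intro k
  rw [MonoidHom.comp_apply, aut_of]
  rcases t with _ | _ | _ | _ | _ | t <;> fin_cases k <;>
    simp [im, imInv, lett, aut_of, mul_assoc]

theorem aut_inv_right (t : ℕ) : (aut (im t)).comp (aut (imInv t)) = MonoidHom.id _ := by
  apply FreeGroup.ext_hom
  intro k
  rw [MonoidHom.comp_apply, aut_of]
  rcases t with _ | _ | _ | _ | _ | t <;> fin_cases k <;>
    simp [im, imInv, lett, aut_of, mul_assoc]

theorem aut_bij (t : ℕ) : Function.Bijective (aut (im t)) := by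
  rw [Function.bijective_iff_has_inverse]
  refine ⟨aut (imInv t), fun x => ?_, fun x => ?_⟩
  · exact DFunLike.congr_fun (aut_inv_left t) x
  · exact DFunLike.congr_fun (aut_inv_right t) x

theorem aut_zero (x : FreeGroup (Fin 6)) : aut (im 0) x = x := by
  have : aut (im 0) = MonoidHom.id _ := by
    apply FreeGroup.ext_hom
    intro k
    rw [aut_of]
    fin_cases k <;> simp [im, lett]
  rw [this]; rfl

/-- the automorphisms as elements of the automorphism group -/
noncomputable def ph (t : ℕ) : MulAut (FreeGroup (Fin 6)) := MulEquiv.ofBijective (aut (im t)) (aut_bij t)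

theorem ph_apply (t : ℕ) (x : FreeGroup (Fin 6)) : ph t x = aut (im t) x := rfl

theorem cocycle {G : Type*} [Group G] (θ : MulAut G) (x : G) (s : ℤ) :
    ∃ P : G, x * θ P = P * (θ ^ s) x := by
  induction s using Int.induction_on with
  | zero => exact ⟨1, by simp⟩
  | succ k ih =>
    obtain ⟨P, hP⟩ := ih
    refine ⟨P * (θ ^ (k : ℤ)) x, ?_⟩
    rw [map_mul, ← mul_assoc, hP]
    congr 1
    rw [add_comm, zpow_add, zpow_one, MulAut.mul_apply]
  | pred k ih =>
    obtain ⟨P, hP⟩ := ih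
    refine ⟨P * ((θ ^ (-(k : ℤ) - 1)) x)⁻¹, ?_⟩
    have h1 : θ ((θ ^ (-(k : ℤ) - 1)) x) = (θ ^ (-(k : ℤ))) x := by
      rw [← MulAut.mul_apply, ← zpow_one_add]; congr 2; ring
    rw [map_mul, map_inv, ← mul_assoc, hP, h1]; simp

theorem zpow_apply_eq {G : Type*} [Group G] (θ : MulAut G) (g : ℤ → G) (hg : ∀ s, θ (g s) = g (s + 1))
    (s : ℤ) : (θ ^ s) (g 0) = g s := by
  induction s using Int.induction_on with
  | zero => simp
  | succ k ih =>
    rw [add_comm, zpow_add, zpow_one, MulAut.mul_apply, ih, hg, add_comm]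
  | pred k ih =>
    apply θ.injective
    rw [← MulAut.mul_apply, ← zpow_one_add, hg]
    convert ih using 2 <;> ring_nf

section gadget

/-- abbreviation for the letters -/
abbrev lx (k : Fin 6) : FreeGroup (Fin 6) := FreeGroup.of k

theorem ph1_0 : ph 1 (lx 0) = lx 0 * lx 2 := by rw [ph_apply, aut_of]; simp [im, lett, lx]
theorem ph1_1 : ph 1 (lx 1) = lx 1 * lx 4 := by rw [ph_apply, aut_of]; simp [im, lett, lx]
theorem ph1_2 : ph 1 (lx 2) = lx 2 := by rw [ph_apply, aut_of]; simp [im, lett, lx]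
theorem ph1_3 : ph 1 (lx 3) = lx 3 := by rw [ph_apply, aut_of]; simp [im, lett, lx]
theorem ph1_4 : ph 1 (lx 4) = lx 4 := by rw [ph_apply, aut_of]; simp [im, lett, lx]
theorem ph2_0 : ph 2 (lx 0) = lx 3 * lx 0 := by rw [ph_apply, aut_of]; simp [im, lett, lx]
theorem ph2_2 : ph 2 (lx 2) = lx 2 := by rw [ph_apply, aut_of]; simp [im, lett, lx]
theorem ph2_3 : ph 2 (lx 3) = lx 3 := by rw [ph_apply, aut_of]; simp [im, lett, lx]
theorem ph3_2 : ph 3 (lx 2) = lx 3 := by rw [ph_apply, aut_of]; simp [im, lett, lx]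
theorem ph4_2 : ph 4 (lx 2) = lx 4 := by rw [ph_apply, aut_of]; simp [im, lett, lx]

theorem gad_suff (n s : ℤ) : ∃ P P' Q : FreeGroup (Fin 6),
    P * lx 1 * ph 1 Q = Q * P' * lx 1 * ph 4 (lx 2 ^ n) ∧
    lx 0 * ph 2 P' = P * ph 3 (lx 2 ^ s) * lx 0 * lx 2 ^ (n * s) := by
  have c0 : (ph 1 ^ n) (lx 0) = lx 0 * lx 2 ^ n := by
    have := zpow_apply_eq (ph 1) (fun n => lx 0 * lx 2 ^ n) (by
      intro s; simp only [map_mul, map_zpow, ph1_0, ph1_2]; rw [mul_assoc, ← zpow_one_add, add_comm]) n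
    simpa using this
  have c1 : (ph 1 ^ n) (lx 1) = lx 1 * lx 4 ^ n := by
    have := zpow_apply_eq (ph 1) (fun n => lx 1 * lx 4 ^ n) (by
      intro s; simp only [map_mul, map_zpow, ph1_1, ph1_4]; rw [mul_assoc, ← zpow_one_add, add_comm]) n
    simpa using this
  have c2 : (ph 1 ^ n) (lx 2) = lx 2 := by
    have := zpow_apply_eq (ph 1) (fun _ => lx 2) (by intro s; simp only [ph1_2]) n
    simpa using this
  have c3 : (ph 1 ^ n) (lx 3) = lx 3 := by
    have := zpow_apply_eq (ph 1) (fun _ => lx 3) (by intro s; simp only [ph1_3]) n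
    simpa using this
  obtain ⟨P, hP⟩ := cocycle (ph 2 * ph 1 ^ n) (lx 0) s
  obtain ⟨Q, hQ⟩ := cocycle (ph 1) (P * lx 1) n
  have hO : ((ph 2 * ph 1 ^ n) ^ s) (lx 0) = lx 3 ^ s * lx 0 * lx 2 ^ (n * s) := by
    have := zpow_apply_eq (ph 2 * ph 1 ^ n) (fun s => lx 3 ^ s * lx 0 * lx 2 ^ (n * s)) (by
      intro s
      simp only [map_mul, map_zpow, MulAut.mul_apply, c0, c2, c3, ph2_0, ph2_2, ph2_3]
      rw [show n * (s + 1) = n + n * s by ring, zpow_add (lx 2), zpow_add (lx 3), zpow_one]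
      simp only [mul_assoc]) s
    simpa using this
  refine ⟨P, (ph 1 ^ n) P, Q, ?_, ?_⟩
  · rw [hQ, map_mul, c1, map_zpow, ph4_2]; simp only [mul_assoc]
  · rw [MulAut.mul_apply, hO] at hP
    rw [hP, map_zpow, ph3_2]; simp only [mul_assoc]

/-- additive exponent sum -/
noncomputable def E (k : Fin 6) (g : FreeGroup (Fin 6)) : ℤ := Multiplicative.toAdd (expo k g)

theorem E_mul (k : Fin 6) (g h : FreeGroup (Fin 6)) : E k (g * h) = E k g + E k h := by simp [E]

theorem E_lx (k j : Fin 6) : E k (lx j) = if j = k then 1 else 0 := by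
  simp only [E, expo, lx, FreeGroup.lift_apply_of]
  split_ifs <;> rfl

theorem E_zpow (k : Fin 6) (g : FreeGroup (Fin 6)) (n : ℤ) : E k (g ^ n) = n * E k g := by simp [E]

theorem E_ph (t : ℕ) (k : Fin 6) (c : Fin 6 → ℤ)
    (hc : ∀ j, E k (ph t (lx j)) = ∑ i, c i * E i (lx j)) (g : FreeGroup (Fin 6)) :
    E k (ph t g) = ∑ i, c i * E i g := by
  induction g using FreeGroup.induction_on with
  | C1 => simp [E]
  | of j => exact hc j
  | inv_of j h =>
    have h1 := hc j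
    simp only [E, map_inv, toAdd_inv, mul_neg, Finset.sum_neg_distrib] at h1 ⊢
    rw [h1]
  | mul a b ha hb =>
    rw [map_mul, E_mul, ha, hb, ← Finset.sum_add_distrib]
    apply Finset.sum_congr rfl
    intro i _
    rw [E_mul]; ring

theorem hei_ph (t : ℕ) (ht : t = 1 ∨ t = 2) (g : FreeGroup (Fin 6)) : hei 0 1 (ph t g) = hei 0 1 g := by
  have : (hei 0 1).comp (aut (im t)) = hei 0 1 := by
    apply FreeGroup.ext_hom
    intro k
    rw [MonoidHom.comp_apply, aut_of]
    rcases ht with rfl | rfl <;> fin_cases k <;> simp [im, lett, hei]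
  exact DFunLike.congr_fun this g

theorem hei_s (g : FreeGroup (Fin 6)) : (hei 0 1 g).s = E 0 g := by
  induction g using FreeGroup.induction_on with
  | C1 => simp [E]
  | of j => 
    have := E_lx 0 j
    rw [show FreeGroup.of j = lx j from rfl, this]
    fin_cases j <;> simp [hei, lx]
  | inv_of j h => rw [map_inv, Heis.inv_s, h]; simp [E]
  | mul a b ha hb => rw [map_mul, Heis.mul_s, ha, hb, E_mul]

theorem hei_t (g : FreeGroup (Fin 6)) : (hei 0 1 g).t = E 1 g := by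
  induction g using FreeGroup.induction_on with
  | C1 => simp [E]
  | of j => 
    have := E_lx 1 j
    rw [show FreeGroup.of j = lx j from rfl, this]
    fin_cases j <;> simp [hei, lx]
  | inv_of j h => rw [map_inv, Heis.inv_t, h]; simp [E]
  | mul a b ha hb => rw [map_mul, Heis.mul_t, ha, hb, E_mul]

theorem E1_ph (g : FreeGroup (Fin 6)) : E 0 (ph 1 g) = E 0 g ∧ E 1 (ph 1 g) = E 1 g ∧
    E 2 (ph 1 g) = E 2 g + E 0 g ∧ E 3 (ph 1 g) = E 3 g ∧ E 4 (ph 1 g) = E 4 g + E 1 g ∧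
    E 5 (ph 1 g) = E 5 g := by
  refine ⟨?_, ?_, ?_, ?_, ?_, ?_⟩
  · rw [E_ph 1 0 ![1, 0, 0, 0, 0, 0]]
    · simp [Fin.sum_univ_succ]
    · intro j
      rw [ph_apply, aut_of]
      fin_cases j <;> simp [im, lett, E_mul, E_lx]
  · rw [E_ph 1 1 ![0, 1, 0, 0, 0, 0]]
    · simp [Fin.sum_univ_succ]
    · intro j
      rw [ph_apply, aut_of]
      fin_cases j <;> simp [im, lett, E_mul, E_lx]
  · rw [E_ph 1 2 ![1, 0, 1, 0, 0, 0]]
    · simp [Fin.sum_univ_succ]; ring
    · intro j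
      rw [ph_apply, aut_of]
      fin_cases j <;> simp [im, lett, E_mul, E_lx]
  · rw [E_ph 1 3 ![0, 0, 0, 1, 0, 0]]
    · simp [Fin.sum_univ_succ]
    · intro j
      rw [ph_apply, aut_of]
      fin_cases j <;> simp [im, lett, E_mul, E_lx]
  · rw [E_ph 1 4 ![0, 1, 0, 0, 1, 0]]
    · simp [Fin.sum_univ_succ]; ring
    · intro j
      rw [ph_apply, aut_of]
      fin_cases j <;> simp [im, lett, E_mul, E_lx]
  · rw [E_ph 1 5 ![0, 0, 0, 0, 0, 1]]
    · simp [Fin.sum_univ_succ]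
    · intro j
      rw [ph_apply, aut_of]
      fin_cases j <;> simp [im, lett, E_mul, E_lx]

theorem E2_ph (g : FreeGroup (Fin 6)) : E 0 (ph 2 g) = E 0 g ∧ E 1 (ph 2 g) = E 1 g ∧
    E 2 (ph 2 g) = E 2 g ∧ E 3 (ph 2 g) = E 3 g + E 0 g ∧ E 4 (ph 2 g) = E 4 g ∧
    E 5 (ph 2 g) = E 5 g + E 1 g := by
  refine ⟨?_, ?_, ?_, ?_, ?_, ?_⟩
  · rw [E_ph 2 0 ![1, 0, 0, 0, 0, 0]]
    · simp [Fin.sum_univ_succ]
    · intro j
      rw [ph_apply, aut_of]
      fin_cases j <;> simp [im, lett, E_mul, E_lx]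
  · rw [E_ph 2 1 ![0, 1, 0, 0, 0, 0]]
    · simp [Fin.sum_univ_succ]
    · intro j
      rw [ph_apply, aut_of]
      fin_cases j <;> simp [im, lett, E_mul, E_lx]
  · rw [E_ph 2 2 ![0, 0, 1, 0, 0, 0]]
    · simp [Fin.sum_univ_succ]
    · intro j
      rw [ph_apply, aut_of]
      fin_cases j <;> simp [im, lett, E_mul, E_lx]
  · rw [E_ph 2 3 ![1, 0, 0, 1, 0, 0]]
    · simp [Fin.sum_univ_succ]; ring
    · intro j
      rw [ph_apply, aut_of]
      fin_cases j <;> simp [im, lett, E_mul, E_lx]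
  · rw [E_ph 2 4 ![0, 0, 0, 0, 1, 0]]
    · simp [Fin.sum_univ_succ]
    · intro j
      rw [ph_apply, aut_of]
      fin_cases j <;> simp [im, lett, E_mul, E_lx]
  · rw [E_ph 2 5 ![0, 1, 0, 0, 0, 1]]
    · simp [Fin.sum_univ_succ]; ring
    · intro j
      rw [ph_apply, aut_of]
      fin_cases j <;> simp [im, lett, E_mul, E_lx]

theorem hei_zpow_one (k : Fin 6) (hk : k ≠ 0) (hk' : k ≠ 1) (n : ℤ) : hei 0 1 (lx k ^ n) = 1 := by
  rw [map_zpow]
  have : hei 0 1 (lx k) = 1 := by simp [hei, lx, hk, hk']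
  rw [this, one_zpow]

theorem gad_nec (n s m : ℤ) (P P' Q : FreeGroup (Fin 6))
    (h1 : P * lx 1 * ph 1 Q = Q * P' * lx 1 * ph 4 (lx 2 ^ n))
    (h2 : lx 0 * ph 2 P' = P * ph 3 (lx 2 ^ s) * lx 0 * lx 2 ^ m) : m = n * s := by
  rw [map_zpow, ph4_2] at h1
  rw [map_zpow, ph3_2] at h2
  have a1 : ∀ k, E k P + E k (lx 1) + E k (ph 1 Q) = E k Q + E k P' + E k (lx 1) + n * E k (lx 4) := by
    intro k
    have := congrArg (E k) h1
    simpa only [E_mul, E_zpow] using this
  have a2 : ∀ k, E k (lx 0) + E k (ph 2 P') = E k P + s * E k (lx 3) + E k (lx 0) + m * E k (lx 2) := by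
    intro k
    have := congrArg (E k) h2
    simpa only [E_mul, E_zpow] using this
  obtain ⟨q0, q1, q2, q3, q4, q5⟩ := E1_ph Q
  obtain ⟨p0, p1, p2, p3, p4, p5⟩ := E2_ph P'
  have b0 := a1 0
  have b1 := a1 1
  have b2 := a1 2
  have b3 := a1 3
  have b4 := a1 4
  have b5 := a1 5
  have c0 := a2 0
  have c1 := a2 1
  have c2 := a2 2
  have c3 := a2 3
  have c4 := a2 4
  have c5 := a2 5
  simp [E_lx] at b0 b1 b2 b3 b4 b5 c0 c1 c2 c3 c4 c5
  rw [q0] at b0
  rw [q1] at b1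
  rw [q2] at b2
  rw [q3] at b3
  rw [q4] at b4
  rw [q5] at b5
  rw [p0] at c0
  rw [p1] at c1
  rw [p2] at c2
  rw [p3] at c3
  rw [p4] at c4
  rw [p5] at c5
  have hQy : E 1 Q = n := by linarith
  have hQx : E 0 Q = m := by linarith
  have hPx : E 0 P' = s := by linarith
  have hPx' : E 0 P = s := by linarith
  have hPy : E 1 P' = 0 := by linarith
  have hPy' : E 1 P = 0 := by linarith
  have hl0 : hei 0 1 (lx 0) = ⟨1, 0, 0⟩ := hei_fst 0 1
  have hl1 : hei 0 1 (lx 1) = ⟨0, 1, 0⟩ := hei_snd (by decide)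
  have m2 := congrArg (fun g => (hei 0 1 g).m) h2
  simp only [map_mul, Heis.mul_m, hl0, hei_ph 2 (Or.inr rfl), hei_zpow_one 3 (by decide) (by decide), hei_zpow_one 2 (by decide) (by decide), Heis.mul_s,
    Heis.one_m, Heis.one_s, Heis.one_t, hei_t, hei_s] at m2
  have m1 := congrArg (fun g => (hei 0 1 g).m) h1
  simp only [map_mul, Heis.mul_m, hl1, hei_ph 1 (Or.inl rfl), hei_zpow_one 4 (by decide) (by decide), Heis.mul_s, Heis.mul_t,
    Heis.one_m, Heis.one_s, Heis.one_t, hei_t, hei_s] at m1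
  rw [hPy] at m2
  rw [hPx', hQy, hQx, hPx, hPy] at m1
  linarith

end gadget

end Pool.Agent.Helper702.Tw
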