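import Mathlib
import Pool.Agent.Helper702.TwGad
import Pool.Agent.Helper702.TwCirc

set_option autoImplicit false

namespace Pool.Agent.Helper702.Tw

/-- evaluation of formal twisted words: symbol `inr (5 i + t)` is the variable `i` twisted by the
automorphism number `t` -/
noncomputable def ev (x : ℕ → FreeGroup (Fin 6)) : FreeGroup (ℕ ⊕ ℕ) →* FreeGroup (Fin 6) :=
  FreeGroup.lift (Sum.elim (lett 6) fun j => aut (im (j % 5)) (x (j / 5)))

/-- twisted variable -/
def sym (i t : ℕ) : FreeGroup (ℕ ⊕ ℕ) := FreeGroup.of (Sum.inr (5 * i + t))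

/-- constant letter -/
def con (m : ℕ) : FreeGroup (ℕ ⊕ ℕ) := FreeGroup.of (Sum.inl m)

theorem ev_sym (x : ℕ → FreeGroup (Fin 6)) (i t : ℕ) (ht : t < 5) : ev x (sym i t) = ph t (x i) := by
  have h1 : (5 * i + t) % 5 = t := by omega
  have h2 : (5 * i + t) / 5 = i := by omega
  simp [ev, sym, h1, h2, ph_apply]

theorem ev_sym0 (x : ℕ → FreeGroup (Fin 6)) (i : ℕ) : ev x (sym i 0) = x i := by
  rw [ev_sym x i 0 (by norm_num), ph_apply, aut_zero]

theorem ev_con (x : ℕ → FreeGroup (Fin 6)) (m : Fin 6) : ev x (con m.val) = lx m := by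
  simp [ev, con, lett]

/-- combination of two formal words -/
def comb (u v : FreeGroup (ℕ ⊕ ℕ)) : FreeGroup (ℕ ⊕ ℕ) :=
  u ^ 2 * (con 2 ^ 2 * ((v * con 3 * v * (con 3)⁻¹ * con 2) ^ 2)⁻¹)

theorem ev_comb (x : ℕ → FreeGroup (Fin 6)) (u v : FreeGroup (ℕ ⊕ ℕ)) :
    ev x (comb u v) = 1 ↔ ev x u = 1 ∧ ev x v = 1 := by
  have h2 : ev x (con 2) = FreeGroup.of 2 := ev_con x 2
  have h3 : ev x (con 3) = FreeGroup.of 3 := ev_con x 3
  rw [← comb_iff (show (2 : Fin 6) ≠ 3 by decide)]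
  simp only [comb, map_mul, map_pow, map_inv, h2, h3]
  rw [← mul_assoc, mul_inv_eq_one]

/-- combination of a list of formal words -/
def combL : List (FreeGroup (ℕ ⊕ ℕ)) → FreeGroup (ℕ ⊕ ℕ)
  | [] => 1
  | e :: l => comb e (combL l)

theorem ev_combL (x : ℕ → FreeGroup (Fin 6)) (l : List (FreeGroup (ℕ ⊕ ℕ))) :
    ev x (combL l) = 1 ↔ ∀ e ∈ l, ev x e = 1 := by
  induction l with
  | nil => simp [combL]
  | cons e l ih => simp [combL, ev_comb, ih]

/-- the equations of a gate, with fresh variables from `f` on -/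
def geq (f : ℕ) : Gate ℕ → List (FreeGroup (ℕ ⊕ ℕ))
  | .cst c i => [sym i 0 * (con 2 ^ c)⁻¹]
  | .add i j k => [sym i 0 * sym j 0 * (sym k 0)⁻¹]
  | .mul i j k => [sym f 0 * con 1 * sym (f + 2) 1 * (sym (f + 2) 0 * sym (f + 1) 0 * con 1 * sym i 4)⁻¹,
      con 0 * sym (f + 1) 2 * (sym f 0 * sym j 3 * con 0 * sym k 0)⁻¹]

/-- the equations of a list of gates -/
def gsys : ℕ → List (Gate ℕ) → List (FreeGroup (ℕ ⊕ ℕ))
  | _, [] => []
  | f, g :: Γ => geq f g ++ gsys (f + 3) Γ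

theorem geq_eval (x : ℕ → FreeGroup (Fin 6)) (f : ℕ) (g : Gate ℕ) :
    (∀ e ∈ geq f g, ev x e = 1) ↔ match g with
      | .cst c i => x i = lx 2 ^ c
      | .add i j k => x i * x j = x k
      | .mul i j k => x f * lx 1 * ph 1 (x (f + 2)) = x (f + 2) * x (f + 1) * lx 1 * ph 4 (x i) ∧
          lx 0 * ph 2 (x (f + 1)) = x f * ph 3 (x j) * lx 0 * x k := by
  have c0 : ev x (con 0) = lx 0 := ev_con x 0
  have c1 : ev x (con 1) = lx 1 := ev_con x 1
  have c2 : ev x (con 2) = lx 2 := ev_con x 2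
  cases g with
  | cst c i => simp [geq, ev_sym0, c2, mul_inv_eq_one]
  | add i j k => simp only [geq, List.mem_singleton, forall_eq, map_mul, map_inv, ev_sym0, mul_inv_eq_one]
  | mul i j k =>
    simp only [geq, List.mem_cons, List.not_mem_nil, or_false, forall_eq_or_imp, forall_eq, map_mul, map_inv, mul_inv_eq_one]
    simp only [map_mul, ev_sym0, c0, c1, ev_sym x _ 1 (by norm_num), ev_sym x _ 2 (by norm_num), ev_sym x _ 3 (by norm_num), ev_sym x _ 4 (by norm_num)]

theorem gsys_suff (M : ℕ) (u : ℕ → ℤ) (Γ : List (Gate ℕ)) (hb : ∀ g ∈ Γ, g.bdd M) (hs : ∀ g ∈ Γ, g.sat u) :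
    ∀ (f : ℕ) (_ : M ≤ f) (x0 : ℕ → FreeGroup (Fin 6)) (_ : ∀ i < M, x0 i = lx 2 ^ u i),
      ∃ x : ℕ → FreeGroup (Fin 6), (∀ i < f, x i = x0 i) ∧ ∀ e ∈ gsys f Γ, ev x e = 1 := by
  induction Γ with
  | nil => intro f _ x0 _; exact ⟨x0, fun _ _ => rfl, by simp [gsys]⟩
  | cons g Γ ih =>
    intro f hf x0 hx0
    have hg := hs g (by simp)
    have hgb := hb g (by simp)
    -- a modified assignment
    have key : ∃ x1 : ℕ → FreeGroup (Fin 6), (∀ i < f, x1 i = x0 i) ∧
        ∀ x : ℕ → FreeGroup (Fin 6), (∀ i < f + 3, x i = x1 i) → ∀ e ∈ geq f g, ev x e = 1 := by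
      cases g with
      | cst c i =>
        refine ⟨x0, fun _ _ => rfl, fun x hx => ?_⟩
        rw [geq_eval]
        simp only [Gate.bdd, Gate.sat] at hgb hg ⊢
        rw [hx i (by omega), hx0 i hgb, hg]
      | add i j k =>
        refine ⟨x0, fun _ _ => rfl, fun x hx => ?_⟩
        rw [geq_eval]
        simp only [Gate.bdd, Gate.sat] at hgb hg ⊢
        obtain ⟨b1, b2, b3⟩ := hgb
        rw [hx i (by omega), hx j (by omega), hx k (by omega), hx0 i b1, hx0 j b2, hx0 k b3, ← zpow_add, hg]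
      | mul i j k =>
        simp only [Gate.bdd, Gate.sat] at hgb hg
        obtain ⟨b1, b2, b3⟩ := hgb
        obtain ⟨P, P', Q, h1, h2⟩ := gad_suff (u i) (u j)
        refine ⟨fun m => if m = f then P else if m = f + 1 then P' else if m = f + 2 then Q else x0 m,
          fun m hm => ?_, fun x hx => ?_⟩
        · simp only
          rw [if_neg (by omega), if_neg (by omega), if_neg (by omega)]
        · rw [geq_eval]
          simp only
          have e0 : x f = P := by rw [hx f (by omega)]; simp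
          have e1 : x (f + 1) = P' := by rw [hx (f + 1) (by omega)]; simp
          have e2 : x (f + 2) = Q := by rw [hx (f + 2) (by omega)]; simp
          have e3 : ∀ m < M, x m = lx 2 ^ u m := by
            intro m hm
            rw [hx m (by omega)]
            simp only
            rw [if_neg (by omega), if_neg (by omega), if_neg (by omega), hx0 m hm]
          rw [e0, e1, e2, e3 i b1, e3 j b2, e3 k b3, ← hg]
          exact ⟨h1, h2⟩
    obtain ⟨x1, hx1, hev⟩ := key
    obtain ⟨x, hx, hxe⟩ := ih (fun g' hg' => hb g' (by simp [hg'])) (fun g' hg' => hs g' (by simp [hg']))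
      (f + 3) (by omega) x1 (fun i hi => by rw [hx1 i (by omega), hx0 i hi])
    refine ⟨x, fun i hi => by rw [hx i (by omega), hx1 i hi], fun e he => ?_⟩
    rcases List.mem_append.1 he with h | h
    · exact hev x hx e h
    · exact hxe e h

theorem gsys_nec (M : ℕ) (u : ℕ → ℤ) (x : ℕ → FreeGroup (Fin 6)) (hx : ∀ i < M, x i = lx 2 ^ u i)
    (Γ : List (Gate ℕ)) (hb : ∀ g ∈ Γ, g.bdd M) :
    ∀ f : ℕ, (∀ e ∈ gsys f Γ, ev x e = 1) → ∀ g ∈ Γ, g.sat u := by
  have hinj : ∀ a b : ℤ, lx 2 ^ a = lx 2 ^ b → a = b := by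
    intro a b hab
    have := congrArg (E 2) hab
    simpa [E_zpow, E_lx] using this
  induction Γ with
  | nil => intro f _ g hg; simp at hg
  | cons g Γ ih =>
    intro f hf g' hg'
    have hgb := hb g (by simp)
    rcases List.mem_cons.1 hg' with rfl | h
    · have h1 : ∀ e ∈ geq f g', ev x e = 1 := fun e he => hf e (List.mem_append_left _ he)
      rw [geq_eval] at h1
      cases g' with
      | cst c i =>
        simp only [Gate.bdd, Gate.sat] at hgb h1 ⊢
        rw [hx i hgb] at h1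
        exact hinj _ _ h1
      | add i j k =>
        simp only [Gate.bdd, Gate.sat] at hgb h1 ⊢
        obtain ⟨b1, b2, b3⟩ := hgb
        rw [hx i b1, hx j b2, hx k b3, ← zpow_add] at h1
        exact hinj _ _ h1
      | mul i j k =>
        simp only [Gate.bdd, Gate.sat] at hgb h1 ⊢
        obtain ⟨b1, b2, b3⟩ := hgb
        rw [hx i b1, hx j b2, hx k b3] at h1
        exact (gad_nec _ _ _ _ _ _ h1.1 h1.2).symm
    · exact ih (fun g'' hg'' => hb g'' (by simp [hg''])) (f + 3)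
        (fun e he => hf e (List.mem_append_right _ he)) g' h

/-- the fixed part of the final equation -/
def fixedPart (M : ℕ) (Γ : List (Gate ℕ)) : FreeGroup (ℕ ⊕ ℕ) :=
  combL ((List.range M).map (fun i => sym i 0 * con 2 * (con 2 * sym i 0)⁻¹) ++ gsys M Γ)

theorem main_red {P : ℕ → Prop} (hP : REPred P) : ∃ (p0 : ℕ) (v : FreeGroup (ℕ ⊕ ℕ)),
    ∀ n : ℕ, P n ↔ ∃ x : ℕ → FreeGroup (Fin 6), ev x (comb (sym p0 0 * (con 2)⁻¹ ^ n) v) = 1 := by
  obtain ⟨Γ, p0, hΓ⟩ := gates_re hP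
  obtain ⟨M0, hM0⟩ := Gate.exists_bdd Γ
  set M := M0 + p0 + 1 with hM
  have hb : ∀ g ∈ Γ, g.bdd M := fun g hg => Gate.bdd_mono (by omega) g (hM0 g hg)
  refine ⟨p0, fixedPart M Γ, fun n => ?_⟩
  rw [hΓ n]
  constructor
  · rintro ⟨u, hu0, hu⟩
    obtain ⟨x, hx, hxe⟩ := gsys_suff M u Γ hb hu M le_rfl (fun i => lx 2 ^ u i) (fun _ _ => rfl)
    refine ⟨x, ?_⟩
    rw [ev_comb]
    have c2 : ev x (con 2) = lx 2 := ev_con x 2
    constructor
    · rw [map_mul, map_pow, map_inv, ev_sym0, c2, hx p0 (by omega), hu0]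
      simp
    · rw [fixedPart, ev_combL]
      intro e he
      rcases List.mem_append.1 he with h | h
      · obtain ⟨i, hi, rfl⟩ := List.mem_map.1 h
        rw [List.mem_range] at hi
        rw [map_mul, map_inv, mul_inv_eq_one, map_mul, map_mul, ev_sym0, c2, hx i hi]
        exact (Commute.refl _).zpow_left _
      · exact hxe e h
  · rintro ⟨x, hx⟩
    rw [ev_comb] at hx
    obtain ⟨h1, h2⟩ := hx
    have c2 : ev x (con 2) = lx 2 := ev_con x 2
    rw [fixedPart, ev_combL] at h2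
    have h3 : ∀ i < M, ∃ m : ℤ, x i = lx 2 ^ m := by
      intro i hi
      have := h2 (sym i 0 * con 2 * (con 2 * sym i 0)⁻¹) (List.mem_append_left _
        (List.mem_map.2 ⟨i, List.mem_range.2 hi, rfl⟩))
      rw [map_mul, map_inv, mul_inv_eq_one, map_mul, map_mul, ev_sym0, c2] at this
      exact centraliser 2 (x i) this
    have h4 : ∃ u : ℕ → ℤ, ∀ i < M, x i = lx 2 ^ u i := by
      refine ⟨fun i => if h : i < M then (h3 i h).choose else 0, fun i hi => ?_⟩
      simp only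
      rw [dif_pos hi]
      exact (h3 i hi).choose_spec
    obtain ⟨u, hu⟩ := h4
    refine ⟨u, ?_, gsys_nec M u x hu Γ hb M fun e he => h2 e (List.mem_append_right _ he)⟩
    rw [map_mul, map_pow, map_inv, ev_sym0, c2, hu p0 (by omega)] at h1
    have := congrArg (E 2) h1
    rw [E_mul, E_zpow, ← zpow_natCast, E_zpow] at this
    have h5 : E 2 (lx 2) = 1 := by simp [E_lx]
    have h6 : E 2 (lx 2)⁻¹ = -1 := by
      have := E_zpow 2 (lx 2) (-1)
      rw [zpow_neg_one] at this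
      rw [this, h5]; norm_num
    have h7 : E 2 (1 : FreeGroup (Fin 6)) = 0 := by simp [E]
    rw [h5, h6, h7] at this
    linarith

/-- the list of letters of the final equation -/
def wl (p0 : ℕ) (R : List ((ℕ ⊕ ℕ) × Bool)) (n : ℕ) : List ((ℕ ⊕ ℕ) × Bool) :=
  ((Sum.inr (5 * p0), true) :: (List.range n).map (fun _ => (Sum.inl 2, false))) ++
  (((Sum.inr (5 * p0), true) :: (List.range n).map (fun _ => (Sum.inl 2, false))) ++ R)

theorem mk_rep (n : ℕ) : FreeGroup.mk ((List.range n).map (fun _ => ((Sum.inl 2 : ℕ ⊕ ℕ), false))) = (con 2)⁻¹ ^ n := by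
  induction n with
  | zero => rfl
  | succ n ih =>
    rw [List.range_succ, List.map_append, ← FreeGroup.mul_mk, ih, pow_succ]
    congr 1

theorem mk_wl (p0 : ℕ) (R : List ((ℕ ⊕ ℕ) × Bool)) (n : ℕ) :
    FreeGroup.mk (wl p0 R n) = (sym p0 0 * (con 2)⁻¹ ^ n) ^ 2 * FreeGroup.mk R := by
  have h1 : FreeGroup.mk (((Sum.inr (5 * p0) : ℕ ⊕ ℕ), true) :: (List.range n).map (fun _ => ((Sum.inl 2 : ℕ ⊕ ℕ), false)))
      = sym p0 0 * (con 2)⁻¹ ^ n := by
    rw [← mk_rep]
    rfl
  rw [wl, ← FreeGroup.mul_mk, ← FreeGroup.mul_mk, h1, pow_two]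
  simp only [mul_assoc]

theorem wl_computable (p0 : ℕ) (R : List ((ℕ ⊕ ℕ) × Bool)) : Primrec (wl p0 R) := by
  have h1 : Primrec fun n : ℕ => ((Sum.inr (5 * p0) : ℕ ⊕ ℕ), true) :: (List.range n).map (fun _ => ((Sum.inl 2 : ℕ ⊕ ℕ), false)) :=
    Primrec.list_cons.comp (Primrec.const _) (Primrec.list_map Primrec.list_range (Primrec.const _).to₂)
  unfold wl
  exact Primrec.list_append.comp h1 (Primrec.list_append.comp h1 (Primrec.const R))

/-- the list of twisted variables -/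
def Sl (N : ℕ) : List (ℕ × List (List (ℕ × Bool))) := (List.range (5 * N)).map fun j => (j / 5, im (j % 5))

theorem Sl_length (N : ℕ) : (Sl N).length = 5 * N := by simp [Sl]

theorem Sl_getD (N j : ℕ) (hj : j < 5 * N) : (Sl N).getD j (0, []) = (j / 5, im (j % 5)) := by
  rw [List.getD_eq_getElem?_getD, Sl]
  simp [hj]

end Pool.Agent.Helper702.Tw
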